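import Pool.Agent.Y335.FL.Stm
import Pool.Agent.TH676.Z.Crit

set_option autoImplicit false
set_option linter.unusedSectionVars false

/-! # Bridgeless edge sets with at most eleven edges modulo `F` are contractible -/

namespace Pool.Agent.Y335.FL

open Finset Pool.Agent.TH676.Z

namespace Trail

variable {V E : Type} [Fintype V] [DecidableEq V] [Fintype E] [DecidableEq E]

/-- the boundary in a quotient -/
lemma bd_comp (src dst : E → V) (r : V → V) (f : E → ZMod 5) (y : V) :
    bd (r ∘ src) (r ∘ dst) f y = ∑ x ∈ univ.filter (fun x => r x = y), bd src dst f x := by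
  unfold bd
  rw [sum_comm]
  refine sum_congr rfl fun e _ => ?_
  rw [sum_sub_distrib]
  have h : ∀ u : V, (∑ x ∈ univ.filter (fun x => r x = y), if u = x then f e else 0)
      = if r u = y then f e else 0 := by
    intro u
    rw [sum_ite_eq]
    simp
  rw [h, h]
  rfl

lemma bd_comp_zero (src dst : E → V) (r : V → V) (f : E → ZMod 5)
    (h : ∀ v, bd src dst f v = 0) (y : V) : bd (r ∘ src) (r ∘ dst) f y = 0 := by
  rw [bd_comp]
  exact sum_eq_zero fun x _ => h x

lemma flowOn_comp (src dst : E → V) (r : V → V) (C : Finset E) (h : FlowOn src dst ∅ C) :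
    FlowOn (r ∘ src) (r ∘ dst) ∅ C := by
  obtain ⟨f, h1, h2, h3⟩ := h
  exact ⟨f, bd_comp_zero src dst r f h1, h2, h3⟩

lemma flowOn_mono (src dst : E → V) {C C' : Finset E} (hC : C ⊆ C') (h : FlowOn src dst ∅ C) :
    FlowOn src dst ∅ C' := by
  obtain ⟨f, h1, h2, h3⟩ := h
  exact ⟨f, h1, h2, fun e he he' => h3 e he (fun h => he' (hC h))⟩

/-- the values on loops can be changed -/
lemma flowOn_loops (src dst : E → V) {F X : Finset E} (hF : ∀ e ∈ F, src e = dst e)
    (h : FlowOn src dst ∅ (F ∪ X)) : FlowOn src dst ∅ X := by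
  obtain ⟨f, h1, -, h3⟩ := h
  refine ⟨fun e => if e ∈ F then 1 else f e, fun v => ?_, fun e he => absurd he (notMem_empty _),
    fun e _ he => ?_⟩
  · rw [← h1 v]
    exact Crit.bd_congr src dst _ _ (fun e he => if_neg (fun h => he (hF e h))) v
  · by_cases h : e ∈ F
    · simp only [h, if_true]
      decide
    · simp only [h, if_false]
      exact h3 e (notMem_empty _) (by simp [h, he])

/-- the contraction of a single edge -/
lemma step (s d : E → V) (e : E) (hne : s e ≠ d e) (X : Finset E)
    (h : FlowOn (ctr (s e) (d e) ∘ s) (ctr (s e) (d e) ∘ d) ∅ X) : FlowOn s d ∅ (insert e X) := by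
  obtain ⟨f, hf0, -, hf2⟩ := h
  have hb : ∀ x, x ≠ s e → x ≠ d e → bd s d f x = 0 := by
    intro x h1 h2
    have h3 := hf0 x
    rw [Crit.bd_ctr s d _ _ hne, if_neg h2, if_neg h1] at h3
    exact h3
  have hb2 : bd s d f (s e) + bd s d f (d e) = 0 := by
    have h3 := hf0 (s e)
    rw [Crit.bd_ctr s d _ _ hne, if_neg hne, if_pos rfl] at h3
    exact h3
  refine ⟨f + Pi.single e (bd s d f (d e)), fun v => ?_, fun c hc => absurd hc (notMem_empty _),
    fun c h1 h2 => ?_⟩
  · rw [Crit.bd_add, Crit.bd_single]
    by_cases h1 : s e = v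
    · have h2 : d e ≠ v := fun h => hne (h1.trans h.symm)
      rw [if_pos h1, if_neg h2, sub_zero, ← h1, hb2]
    · by_cases h2 : d e = v
      · rw [if_neg h1, if_pos h2, zero_sub, ← h2, add_neg_cancel]
      · rw [if_neg h1, if_neg h2, hb v (Ne.symm h1) (Ne.symm h2)]; simp
  · have h3 : c ≠ e := fun h => h2 (h ▸ mem_insert_self _ _)
    rw [Pi.add_apply, Pi.single_eq_of_ne h3, add_zero]
    exact hf2 c h1 (fun h => h2 (mem_insert_of_mem h))

/-- **Lemma Q**: the quotient by the edges of `F` -/
theorem quot (src dst : E → V) (F : Finset E) : ∃ r : V → V,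
    (∀ e ∈ F, r (src e) = r (dst e)) ∧
    ∀ X, FlowOn (r ∘ src) (r ∘ dst) ∅ X → FlowOn src dst ∅ (F ∪ X) := by
  induction F using Finset.induction_on with
  | empty => exact ⟨id, by simp, fun X hX => by simpa using hX⟩
  | insert e F he ih =>
    obtain ⟨r, h1, h2⟩ := ih
    by_cases hr : r (src e) = r (dst e)
    · refine ⟨r, fun a ha => ?_, fun X hX => flowOn_mono src dst ?_ (h2 X hX)⟩
      · rcases mem_insert.mp ha with rfl | ha
        · exact hr
        · exact h1 a ha
      · exact union_subset_union (subset_insert _ _) (Subset.refl _)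
    · refine ⟨ctr (r (src e)) (r (dst e)) ∘ r, fun a ha => ?_, fun X hX => ?_⟩
      · rcases mem_insert.mp ha with rfl | ha
        · simp [ctr]
        · simp [h1 a ha]
      · have h3 : FlowOn (r ∘ src) (r ∘ dst) ∅ (insert e X) := step (r ∘ src) (r ∘ dst) e hr X hX
        refine flowOn_mono src dst ?_ (h2 _ h3)
        intro a ha
        simp only [mem_union, mem_insert] at ha ⊢
        tauto

theorem trail_aux (hc : St_contract) (hx : St_circEx) (src dst : E → V) (n : ℕ) :
    ∀ (F S : Finset E) (z : E → ZMod 5), (∀ v, bd src dst z v = 0) →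
    (∀ e ∈ S, z e ≠ 0) → (∀ e, e ∉ F → e ∉ S → z e = 0) → S.card = n → n ≤ 11 →
    FlowOn src dst ∅ (F ∪ S) → FlowOn src dst ∅ F := by
  induction n using Nat.strong_induction_on with
  | _ n ih =>
  intro F S z hz1 hz2 hz3 hn hn11 hFS
  rcases S.eq_empty_or_nonempty with rfl | hSne
  · simpa using hFS
  obtain ⟨r, hr1, hr2⟩ := quot src dst F
  have hfin : FlowOn (r ∘ src) (r ∘ dst) ∅ ∅ → FlowOn src dst ∅ F := by
    intro h
    simpa using hr2 ∅ h
  by_cases hlp : ∃ e ∈ S, r (src e) = r (dst e)
  · obtain ⟨e, heS, he⟩ := hlp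
    have h1 : FlowOn src dst ∅ (insert e F) := by
      refine ih (S.erase e).card ?_ (insert e F) (S.erase e) z hz1 ?_ ?_ rfl ?_ ?_
      · rw [← hn]; exact card_erase_lt_of_mem heS
      · intro a ha; exact hz2 a (mem_of_mem_erase ha)
      · intro a ha1 ha2
        refine hz3 a (fun h => ha1 (mem_insert_of_mem h)) (fun h => ha2 ?_)
        exact mem_erase.mpr ⟨fun h' => ha1 (h' ▸ mem_insert_self _ _), h⟩
      · exact (card_le_card (erase_subset _ _)).trans (hn ▸ hn11)
      · refine flowOn_mono src dst ?_ hFS
        intro a ha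
        simp only [mem_union, mem_insert, mem_erase] at ha ⊢
        tauto
    have h2 := flowOn_comp src dst r _ h1
    apply hfin
    refine flowOn_loops (r ∘ src) (r ∘ dst) (F := insert e F) (X := ∅) ?_ (by simpa using h2)
    intro a ha
    rcases mem_insert.mp ha with rfl | ha
    · exact he
    · exact hr1 a ha
  · push Not at hlp
    have hdeg : ∀ x, ∀ e ∈ S, ((r ∘ src) e = x ∨ (r ∘ dst) e = x) →
        ∃ e' ∈ S, e' ≠ e ∧ ((r ∘ src) e' = x ∨ (r ∘ dst) e' = x) := by
      intro x e heS hex
      by_contra hcon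
      push Not at hcon
      have h0 := bd_comp_zero src dst r z hz1 x
      unfold bd at h0
      rw [sum_eq_single e] at h0
      · have hne := hlp e heS
        have hze := hz2 e heS
        rcases hex with h | h
        · have h' : ¬ (r ∘ dst) e = x := fun h2 => hne (h.trans h2.symm)
          rw [if_pos h, if_neg h', sub_zero] at h0
          exact hze h0
        · have h' : ¬ (r ∘ src) e = x := fun h2 => hne (h2.trans h.symm)
          rw [if_neg h', if_pos h, zero_sub, neg_eq_zero] at h0
          exact hze h0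
      · intro a _ hae
        by_cases haS : a ∈ S
        · have h1 := hcon a haS hae
          rw [if_neg h1.1, if_neg h1.2, sub_zero]
        · by_cases haF : a ∈ F
          · have h1 := hr1 a haF
            simp only [Function.comp, h1, sub_self]
          · simp [hz3 a haF haS]
      · intro h; exact absurd (mem_univ e) h
    obtain ⟨k, v, ed, hv, hed, hJ, hS⟩ := hx V E (r ∘ src) (r ∘ dst) S hSne hlp hdeg
    have hsub : univ.image ed ⊆ S := by
      intro a ha
      obtain ⟨i, -, rfl⟩ := mem_image.mp ha
      exact hS i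
    have hcard : (univ.image ed).card = k + 2 := by
      rw [card_image_of_injective _ hed]; simp
    have hle := card_le_card hsub
    have h1 : FlowOn src dst ∅ (F ∪ univ.image ed) := by
      refine ih (S \ univ.image ed).card ?_ (F ∪ univ.image ed) (S \ univ.image ed) z hz1
        ?_ ?_ rfl ?_ ?_
      · rw [card_sdiff_of_subset hsub]; omega
      · intro a ha; exact hz2 a (mem_sdiff.mp ha).1
      · intro a ha1 ha2
        rw [mem_union, not_or] at ha1
        refine hz3 a ha1.1 (fun h => ha2 (mem_sdiff.mpr ⟨h, ha1.2⟩))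
      · rw [card_sdiff_of_subset hsub]; omega
      · refine flowOn_mono src dst ?_ hFS
        intro a ha
        simp only [mem_union, mem_sdiff] at ha ⊢
        tauto
    have h2 := flowOn_comp src dst r _ h1
    have h3 : FlowOn (r ∘ src) (r ∘ dst) ∅ (univ.image ed) :=
      flowOn_loops (r ∘ src) (r ∘ dst) (F := F) (fun a ha => hr1 a ha) h2
    apply hfin
    exact hc V E (r ∘ src) (r ∘ dst) ∅ k (by omega) v ed hv hed hJ (fun i => notMem_empty _) h3

end Trail

open Trail in
theorem trail : St_contract → St_circEx → St_trail := by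
  intro hc hx V E _ _ _ _ src dst F S z hz1 hz2 hz3 hS h
  exact trail_aux hc hx src dst S.card F S z hz1 hz2 hz3 rfl hS h

theorem lift : St_trail → St_lift := by
  intro ht V E _ _ _ _ src dst m C hC hcard h
  have key : ∀ j : ℕ, j ≤ m → FlowOn src dst ∅
      ((univ.filter (fun i : Fin m => (i : ℕ) < m - j)).biUnion C) := by
    intro j
    induction j with
    | zero =>
      intro _
      have : (univ.filter (fun i : Fin m => (i : ℕ) < m - 0)) = univ := by
        ext i; simp
      rw [this]; exact h
    | succ j ih =>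
      intro hj
      have h1 := ih (by omega)
      obtain ⟨i, hi⟩ : ∃ i : Fin m, (i : ℕ) = m - (j + 1) := ⟨⟨m - (j + 1), by omega⟩, rfl⟩
      have e1 : (univ.filter (fun a : Fin m => (a : ℕ) < m - (j + 1)))
          = univ.filter (fun a => a < i) := by
        ext a
        simp only [mem_filter, mem_univ, true_and, Fin.lt_def, hi]
      rw [e1]
      obtain ⟨z, hz1, -, hz3⟩ := hC i
      refine ht V E src dst _ (C i \ (univ.filter (fun a => a < i)).biUnion C) z hz1 ?_ ?_
        (hcard i) ?_
      · intro e he
        exact (hz3 e).mpr (mem_sdiff.mp he).1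
      · intro e he1 he2
        by_contra h0
        exact he2 (mem_sdiff.mpr ⟨(hz3 e).mp h0, he1⟩)
      · refine Trail.flowOn_mono src dst ?_ h1
        intro e he
        obtain ⟨a, ha, hea⟩ := mem_biUnion.mp he
        have ha' : (a : ℕ) < m - j := (mem_filter.mp ha).2
        by_cases hai : a < i
        · exact mem_union_left _ (mem_biUnion.mpr ⟨a, mem_filter.mpr ⟨mem_univ _, hai⟩, hea⟩)
        · have hai2 : a = i := by
            apply Fin.ext
            rw [Fin.lt_def] at hai
            omega
          by_cases h2 : e ∈ (univ.filter (fun a => a < i)).biUnion C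
          · exact mem_union_left _ h2
          · exact mem_union_right _ (mem_sdiff.mpr ⟨hai2 ▸ hea, h2⟩)
  have h0 := key m le_rfl
  have e0 : (univ.filter (fun i : Fin m => (i : ℕ) < m - m)) = ∅ := by
    ext i; simp
  rw [e0] at h0
  simpa using h0

end Pool.Agent.Y335.FL
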