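import Pool.Agent.Y335.FL.Stm3
import Pool.Agent.Y335.FL.Trail

set_option autoImplicit false
set_option linter.unusedSectionVars false

/-! # Job FL-LOCAL (helper960): the quotient by the components of `F`, and local conditions for
3-edge-cuts -/

namespace Pool.Agent.Y335.FL

open Finset Pool.Agent.TH676.Z

namespace Local11

variable {V E : Type} [Fintype V] [DecidableEq V] [Fintype E] [DecidableEq E]

lemma mem_crs (src dst : E → V) (Y : Finset V) (e : E) :
    e ∈ crs src dst Y ↔ ¬ (src e ∈ Y ↔ dst e ∈ Y) := by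
  simp [crs]

/-- Lemma Q with the classes -/
theorem quot (src dst : E → V) (F : Finset E) : ∃ r : V → V,
    (∀ e ∈ F, r (src e) = r (dst e)) ∧
    (∀ X, FlowOn (r ∘ src) (r ∘ dst) ∅ X → FlowOn src dst ∅ (F ∪ X)) ∧
    ∀ Y : Finset V, Disjoint (crs src dst Y) F → ∀ x y, r x = r y → (x ∈ Y ↔ y ∈ Y) := by
  induction F using Finset.induction_on with
  | empty => exact ⟨id, by simp, fun X hX => by simpa using hX, fun Y _ x y h => by
      have : x = y := h
      rw [this]⟩
  | insert e F he ih =>
    obtain ⟨r, h1, h2, h3⟩ := ih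
    have hsub : ∀ Y : Finset V, Disjoint (crs src dst Y) (insert e F) →
        Disjoint (crs src dst Y) F := fun Y hY =>
      disjoint_of_subset_right (subset_insert _ _) hY
    by_cases hr : r (src e) = r (dst e)
    · refine ⟨r, fun a ha => ?_, fun X hX => Trail.flowOn_mono src dst ?_ (h2 X hX),
        fun Y hY => h3 Y (hsub Y hY)⟩
      · rcases mem_insert.mp ha with rfl | ha
        · exact hr
        · exact h1 a ha
      · exact union_subset_union (subset_insert _ _) (Subset.refl _)
    · refine ⟨ctr (r (src e)) (r (dst e)) ∘ r, fun a ha => ?_, fun X hX => ?_, ?_⟩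
      · rcases mem_insert.mp ha with rfl | ha
        · simp [ctr]
        · simp [h1 a ha]
      · have h3 : FlowOn (r ∘ src) (r ∘ dst) ∅ (insert e X) :=
          Trail.step (r ∘ src) (r ∘ dst) e hr X hX
        refine Trail.flowOn_mono src dst ?_ (h2 _ h3)
        intro a ha
        simp only [mem_union, mem_insert] at ha ⊢
        tauto
      · intro Y hY x y hxy
        have h4 := h3 Y (hsub Y hY)
        have h5 : src e ∈ Y ↔ dst e ∈ Y := by
          by_contra hcon
          exact (disjoint_left.1 hY) ((mem_crs src dst Y e).2 hcon) (mem_insert_self _ _)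
        simp only [Function.comp, ctr] at hxy
        split_ifs at hxy with hx hy hy
        · exact (h4 x (dst e) hx).trans (h4 y (dst e) hy).symm
        · exact (h4 x (dst e) hx).trans (h5.symm.trans (h4 (src e) y hxy))
        · exact (h4 x (src e) hxy).trans (h5.trans (h4 y (dst e) hy).symm)
        · exact h4 x y hxy

lemma flowOn_range (src dst : E → V) (r : V → V) (W : Type) [Fintype W] [DecidableEq W]
    (ρ : V → W) (i : W → V) (hi : Function.Injective i) (hρ : ∀ x, i (ρ x) = r x) (X : Finset E)
    (h : FlowOn (ρ ∘ src) (ρ ∘ dst) ∅ X) : FlowOn (r ∘ src) (r ∘ dst) ∅ X := by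
  obtain ⟨f, h1, h2, h3⟩ := h
  refine ⟨f, fun v => ?_, h2, h3⟩
  by_cases hv : ∃ w, i w = v
  · obtain ⟨w, rfl⟩ := hv
    rw [← h1 w]
    unfold bd
    refine sum_congr rfl fun e _ => ?_
    have a1 : ((r ∘ src) e = i w) ↔ ((ρ ∘ src) e = w) := by
      rw [Function.comp, ← hρ]
      exact hi.eq_iff
    have a2 : ((r ∘ dst) e = i w) ↔ ((ρ ∘ dst) e = w) := by
      rw [Function.comp, ← hρ]
      exact hi.eq_iff
    simp only [a1, a2]
  · unfold bd
    refine sum_eq_zero fun e _ => ?_
    rw [if_neg, if_neg, sub_zero]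
    · intro h
      exact hv ⟨ρ (dst e), (hρ _).trans h⟩
    · intro h
      exact hv ⟨ρ (src e), (hρ _).trans h⟩

/-- the preimage -/
def pre {W : Type} [DecidableEq W] (r : V → W) (X : Finset W) : Finset V :=
  univ.filter (fun x => r x ∈ X)

lemma bdS_pre {W : Type} [Fintype W] [DecidableEq W] (src dst : E → V) (r : V → W)
    (X : Finset W) : Pool.Agent.H222F.bdS src dst (pre r X) =
      Pool.Agent.H222F.bdS (r ∘ src) (r ∘ dst) X := by
  ext e
  simp [Pool.Agent.H222F.bdS, pre]

lemma bdS_disj {W : Type} [Fintype W] [DecidableEq W] (src dst : E → V) (r : V → W)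
    (F : Finset E) (hF : ∀ e ∈ F, r (src e) = r (dst e)) (X : Finset W) :
    Disjoint (Pool.Agent.H222F.bdS (r ∘ src) (r ∘ dst) X) F := by
  rw [disjoint_left]
  intro e he heF
  rw [Pool.Agent.H222F.mem_bdS] at he
  apply he
  simp [hF e heF]

end Local11

open Local11 in
theorem quot' : St_quot := by
  classical
  intro V E _ _ _ _ src dst F
  obtain ⟨r, h1, h2, h3⟩ := Local11.quot src dst F
  refine ⟨{w : V // ∃ x, r x = w}, inferInstance, inferInstance, fun x => ⟨r x, x, rfl⟩, ?_, ?_, ?_, ?_⟩
  · rintro ⟨w, x, rfl⟩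
    exact ⟨x, rfl⟩
  · intro e he
    exact Subtype.ext (h1 e he)
  · intro X hX
    exact h2 X (flowOn_range src dst r _ _ Subtype.val Subtype.val_injective (fun x => rfl) X hX)
  · intro Y hY x y hxy
    exact h3 Y hY x y (congrArg Subtype.val hxy)

open Local11 in
theorem local11 : St_quot → St_lift → St_local := by
  intro hQ hL V E _ _ _ _ src dst m C hC hcard h3 hX
  obtain ⟨F, hFd⟩ : ∃ F : Finset E, F = univ.biUnion C := ⟨_, rfl⟩
  rw [← hFd] at h3 hX
  obtain ⟨W, iF, iD, r, hs, hF, hflow, -⟩ := hQ V E src dst F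
  have hcrs : ∀ X : Finset V, crs src dst X = Pool.Agent.H222F.bdS src dst X := fun X => rfl
  have hempty : (univ : Finset (Fin 0)).biUnion (fun _ => (∅ : Finset E)) = ∅ := by simp
  have hgood : Pool.Agent.H170.Reg.Good 5 (r ∘ src) (r ∘ dst) univ := by
    refine Pool.Agent.H222F.good_local (r ∘ src) (r ∘ dst) 0 (fun _ => ∅) (fun i => i.elim0)
      (fun i => i.elim0) ?_ ?_
    · intro X' hne hnu
      rw [← bdS_pre, ← hcrs]
      apply h3
      · obtain ⟨w, hw⟩ := hne
        obtain ⟨x, rfl⟩ := hs w
        exact ⟨x, by simpa [pre] using hw⟩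
      · intro hcon
        apply hnu
        ext w
        obtain ⟨x, rfl⟩ := hs w
        have : x ∈ pre r X' := by rw [hcon]; exact mem_univ _
        simpa [pre] using this
      · rw [hcrs, bdS_pre]
        exact bdS_disj src dst r F hF X'
    · intro X' hdis hcd
      obtain ⟨i, hi⟩ := hX (fun i => pre r (X' i)) (by
        intro i j hij
        have := hdis i j hij
        rw [disjoint_left] at this ⊢
        intro x hx hx'
        simp only [pre, mem_filter, mem_univ, true_and] at hx hx'
        exact this hx hx') (by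
        intro i
        rw [hcrs, bdS_pre]
        exact ⟨(hcd i).1, bdS_disj src dst r F hF (X' i)⟩)
      refine ⟨i, ?_⟩
      rcases hi with ⟨e, he, hY⟩ | ⟨e, he, e', he', hee, hY⟩
      · left
        rw [bdS_pre] at he
        refine ⟨e, he, fun Y h1 _ h2 => ?_⟩
        have h3 := hY (pre r Y) (by rw [bdS_pre]; exact h1)
          (by rw [bdS_pre]; exact bdS_disj src dst r F hF Y) (by rw [bdS_pre]; exact h2)
        rw [bdS_pre, bdS_pre] at h3
        exact h3
      · right
        rw [bdS_pre] at he he'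
        refine ⟨e, he, e', he', hee, fun Y h1 _ h2 => ?_⟩
        have h3 := hY (pre r Y) (by rw [bdS_pre]; exact h1)
          (by rw [bdS_pre]; exact bdS_disj src dst r F hF Y) (by rw [bdS_pre]; exact h2)
        rw [bdS_pre, bdS_pre] at h3
        exact h3
  have h0 : FlowOn (r ∘ src) (r ∘ dst) ∅ ∅ := by
    obtain ⟨f, hf, hfb⟩ := hgood 0 0
    refine ⟨f, fun v => ?_, fun e he => absurd he (notMem_empty _), fun e _ _ => ?_⟩
    · rw [← hfb v]
      unfold bd
      refine sum_congr rfl fun e _ => ?_
      simp only [Pool.Agent.H170.Reg.ic, Pi.zero_apply, sub_zero]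
      split_ifs <;> simp
    · exact hf e (mem_univ e)
  have h1 := hflow ∅ h0
  rw [union_empty, hFd] at h1
  exact hL V E src dst m C hC hcard h1

end Pool.Agent.Y335.FL
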