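import Pool.Agent.Y335.FL.Stm

set_option autoImplicit false

/-! # A circuit in a set of edges without vertices of degree one -/

namespace Pool.Agent.Y335.FL

open Finset Pool.Agent.TH676.Z

namespace CircEx

variable {V E : Type} [DecidableEq V]

/-- the other end of an edge -/
def oth (src dst : E → V) (e : E) (x : V) : V := if src e = x then dst e else src e

/-- a vertex and an edge of `S` at this vertex -/
abbrev Dt (src dst : E → V) (S : Finset E) : Type :=
  {p : V × E // p.2 ∈ S ∧ (src p.2 = p.1 ∨ dst p.2 = p.1)}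

lemma jn_oth (src dst : E → V) (e : E) (x : V) (h : src e = x ∨ dst e = x) :
    Jn src dst e x (oth src dst e x) := by
  unfold Jn oth
  split_ifs with h1
  · exact Or.inl ⟨h1, rfl⟩
  · exact Or.inr ⟨rfl, h.resolve_left h1⟩

omit [DecidableEq V] in
lemma jn_jn (src dst : E → V) (e : E) (x y x' y' : V) (h : Jn src dst e x y)
    (h' : Jn src dst e x' y') : (x = x' ∧ y = y') ∨ (x = y' ∧ y = x') := by
  rcases h with ⟨h1, h2⟩ | ⟨h1, h2⟩ <;> rcases h' with ⟨h3, h4⟩ | ⟨h3, h4⟩
  · exact Or.inl ⟨h1.symm.trans h3, h2.symm.trans h4⟩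
  · exact Or.inr ⟨h1.symm.trans h3, h2.symm.trans h4⟩
  · exact Or.inr ⟨h2.symm.trans h4, h1.symm.trans h3⟩
  · exact Or.inl ⟨h2.symm.trans h4, h1.symm.trans h3⟩

end CircEx

open CircEx in
theorem circEx : St_circEx := by
  intro V E _ _ _ _ src dst S hS hne hdeg
  classical
  -- the next dart
  have hnext : ∀ d : Dt src dst S, ∃ d' : Dt src dst S,
      d'.1.1 = oth src dst d.1.2 d.1.1 ∧ d'.1.2 ≠ d.1.2 := by
    rintro ⟨⟨x, e⟩, he, hx⟩
    have hJ := jn_oth src dst e x hx
    have hy : src e = oth src dst e x ∨ dst e = oth src dst e x := by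
      rcases hJ with ⟨-, h⟩ | ⟨h, -⟩
      · exact Or.inr h
      · exact Or.inl h
    obtain ⟨e', he', hne', hx'⟩ := hdeg _ e he hy
    exact ⟨⟨⟨oth src dst e x, e'⟩, he', hx'⟩, rfl, hne'⟩
  choose next hn1 hn2 using hnext
  obtain ⟨e0, he0⟩ := hS
  let d0 : Dt src dst S := ⟨⟨src e0, e0⟩, he0, Or.inl rfl⟩
  let d : ℕ → Dt src dst S := fun n => next^[n] d0
  have hd : ∀ n, d (n + 1) = next (d n) := fun n => Function.iterate_succ_apply' next n d0
  set x : ℕ → V := fun n => (d n).1.1 with hx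
  set e : ℕ → E := fun n => (d n).1.2 with he
  have heS : ∀ n, e n ∈ S := fun n => (d n).2.1
  have hJ : ∀ n, Jn src dst (e n) (x n) (x (n + 1)) := by
    intro n
    have h1 : x (n + 1) = oth src dst (e n) (x n) := by
      show (d (n + 1)).1.1 = _
      rw [hd, hn1]
    rw [h1]
    exact jn_oth src dst _ _ (d n).2.2
  have hen : ∀ n, e (n + 1) ≠ e n := by
    intro n
    show (d (n + 1)).1.2 ≠ _
    rw [hd]
    exact hn2 _
  have hxn : ∀ n, x n ≠ x (n + 1) := by
    intro n h
    apply hne (e n) (heS n)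
    rcases hJ n with ⟨h1, h2⟩ | ⟨h1, h2⟩
    · rw [h1, h2, h]
    · rw [h1, h2, h]
  have hex : ∃ m : ℕ, 1 ≤ m ∧ ∃ i, x i = x (i + m) := by
    obtain ⟨a, b, hab, hxab⟩ := Finite.exists_ne_map_eq_of_infinite x
    rcases Nat.lt_or_ge a b with h | h
    · exact ⟨b - a, by omega, a, by rw [hxab]; congr 1; omega⟩
    · exact ⟨a - b, by omega, b, by rw [← hxab]; congr 1; omega⟩
  obtain ⟨hm1, i, hi⟩ := Nat.find_spec hex
  have hmin : ∀ t, 1 ≤ t → t < Nat.find hex → ∀ j, x j ≠ x (j + t) := by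
    intro t ht1 ht j hj
    exact Nat.find_min hex ht ⟨ht1, j, hj⟩
  obtain ⟨k, hk⟩ : ∃ k, Nat.find hex = k + 2 := by
    refine ⟨Nat.find hex - 2, ?_⟩
    have : Nat.find hex ≠ 1 := by
      intro h
      rw [h] at hi
      exact hxn i hi
    omega
  rw [hk] at hi hmin
  have hlt : ∀ a b : ℕ, a < b → b < k + 2 → x (i + a) ≠ x (i + b) := by
    intro a b hab hb
    have h1 := hmin (b - a) (by omega) (by omega) (i + a)
    rwa [show i + a + (b - a) = i + b by omega] at h1
  refine ⟨k, fun a => x (i + a), fun a => e (i + a), ?_, ?_, ?_, fun a => heS _⟩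
  · intro a b hab
    rcases lt_trichotomy (a : ℕ) b with h | h | h
    · exact absurd hab (hlt a b h b.2)
    · exact Fin.ext h
    · exact absurd hab.symm (hlt b a h a.2)
  · have key : ∀ a b : ℕ, a < b → b < k + 2 → e (i + a) ≠ e (i + b) := by
      intro a b hab hb hE
      have h1 := hJ (i + a)
      have h2 := hJ (i + b)
      rw [hE] at h1
      rcases jn_jn src dst _ _ _ _ _ h1 h2 with ⟨h3, -⟩ | ⟨-, h4⟩
      · exact hlt a b hab hb h3
      · rcases Nat.lt_or_ge (a + 1) b with h5 | h5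
        · exact hlt (a + 1) b h5 hb (by rw [← add_assoc]; exact h4)
        · have h6 : b = a + 1 := by omega
          rw [h6, ← add_assoc] at hE
          exact hen (i + a) hE.symm
    intro a b hab
    rcases lt_trichotomy (a : ℕ) b with h | h | h
    · exact absurd hab (key a b h b.2)
    · exact Fin.ext h
    · exact absurd hab.symm (key b a h a.2)
  · intro a
    have h1 : x (i + ((a + 1 : Fin (k + 2)) : ℕ)) = x (i + a + 1) := by
      rcases Nat.lt_or_ge ((a : ℕ) + 1) (k + 2) with h | h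
      · rw [Fin.val_add_one_of_lt' h, add_assoc]
      · have h2 : (a : ℕ) = k + 1 := by have := a.2; omega
        have h3 : a = Fin.last (k + 1) := Fin.ext h2
        rw [h3, Fin.last_add_one, Fin.val_zero, add_zero, hi, Fin.val_last, add_assoc]
    show Jn src dst (e (i + a)) (x (i + a)) (x (i + ((a + 1 : Fin (k + 2)) : ℕ)))
    rw [h1]
    exact hJ _

end Pool.Agent.Y335.FL
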