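import Pool.Agent.Y335.FL.Stm
import Pool.Agent.TH676.Z.Circ7

set_option autoImplicit false
set_option linter.unusedSectionVars false

/-! # Contraction of a circuit with at most eleven edges -/

namespace Pool.Agent.Y335.FL.Ctr

open Finset Pool.Agent.TH676.Z Pool.Agent.TH676.Z.CircB Pool.Agent.TH676.Z.Circ7x

section

variable {V E : Type} [Fintype V] [DecidableEq V] [Fintype E] [DecidableEq E]
variable {src dst : E → V} {k : ℕ} {v : Fin (k + 2) → V} {ed : Fin (k + 2) → E}

/-- a function on the rest of the graph with the right boundary gives a flow -/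
theorem noflowD {D : Finset E} (hnf : ¬ FlowOn src dst D ∅) (hv : Function.Injective v)
    (hed : Function.Injective ed) (hJ : ∀ i, Jn src dst (ed i) (v i) (v (i + 1)))
    (hD : ∀ i, ed i ∉ D) (h : E → ZMod 5) (b : Fin (k + 2) → ZMod 5)
    (h0 : ∀ i, h (ed i) = 0) (hz : ∀ e ∈ D, h e = 0)
    (h1 : ∀ e, e ∉ D → (∀ i, e ≠ ed i) → h e ≠ 0) (hb : ∀ i, b i ≠ 0)
    (hbd : ∀ x, bd src dst h x = dem v (fun i => b (i - 1) - b i) x) : False := by
  refine hnf ⟨h + wc src v ed b, fun w => ?_, fun e he => ?_, fun e he _ => ?_⟩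
  · rw [Three.bd_add, hbd, bd_wc hv hJ]
    exact dem_neg v _ _ (fun i => by ring) w
  · have h2 : ∀ i, e ≠ ed i := fun i hi => hD i (by rw [← hi]; exact he)
    rw [Pi.add_apply, hz e he, wc_off h2, add_zero]
  · by_cases hx : ∃ i, e = ed i
    · obtain ⟨i, rfl⟩ := hx
      rw [Pi.add_apply, h0 i, zero_add, wc_ed hed]
      split_ifs
      · exact hb i
      · exact neg_ne_zero.mpr (hb i)
    · push Not at hx
      rw [Pi.add_apply, wc_off hx, add_zero]
      exact h1 e he hx

end

/-- the prefix sums of a fitting vector -/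
theorem tel {n : ℕ} (u b : Fin (n + 1) → ZMod 5) (hb : ∀ i, b (i - 1) - b i = u i) (r : ℕ)
    (hr : r ≤ n + 1) :
    ∃ t : Fin (n + 1), (∑ j : Fin (n + 1), if j.val < r then u j else 0) = b (Fin.last n) - b t ∧
      (r = 0 → t = Fin.last n) ∧ ∀ hr0 : 0 < r, t = ⟨r - 1, by omega⟩ := by
  induction r with
  | zero =>
    refine ⟨Fin.last n, by simp, fun _ => rfl, fun h => absurd h (lt_irrefl 0)⟩
  | succ r ih =>
    obtain ⟨t, h1, h2, h3⟩ := ih (by omega)
    refine ⟨⟨r, by omega⟩, ?_, fun h => absurd h (Nat.succ_ne_zero r), fun _ => by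
      apply Fin.ext; simp⟩
    have e1 : ∀ j : Fin (n + 1), (if j.val < r + 1 then u j else 0) =
        (if j.val < r then u j else 0) + (if j = ⟨r, by omega⟩ then u j else 0) := by
      intro j
      by_cases hj : j = ⟨r, by omega⟩
      · subst hj
        simp
      · have hj' : j.val ≠ r := fun h => hj (Fin.ext h)
        by_cases h4 : j.val < r
        · rw [if_pos (by omega), if_pos h4, if_neg hj, add_zero]
        · rw [if_neg (by omega), if_neg h4, if_neg hj, add_zero]
    rw [sum_congr rfl (fun j _ => e1 j), sum_add_distrib, h1, sum_ite_eq' univ, if_pos (mem_univ _)]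
    have e2 : t = (⟨r, by omega⟩ : Fin (n + 1)) - 1 := by
      apply Fin.ext
      rw [Fin.coe_sub_one]
      split_ifs with h4
      · have h5 : r = 0 := by
          have := congrArg Fin.val h4
          simpa using this
        rw [h2 h5]
        simp
      · have h5 : 0 < r := by
          rcases Nat.eq_zero_or_pos r with h6 | h6
          · exact absurd (Fin.ext (by simpa using h6)) h4
          · exact h6
        rw [h3 h5]
    rw [e2, ← hb]
    ring

section

variable {n k : ℕ} (em : Fin (n + 1) ↪o Fin (k + 2))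

/-- extension by zero -/
def ext (u : Fin (n + 1) → ZMod 5) (i : Fin (k + 2)) : ZMod 5 := ∑ j, if em j = i then u j else 0

theorem dem_ext {V : Type} [DecidableEq V] (v : Fin (k + 2) → V) (u : Fin (n + 1) → ZMod 5)
    (x : V) : dem v (ext em u) x = dem (v ∘ em) u x := by
  unfold dem ext
  have h1 : ∀ i, (if v i = x then ∑ j, (if em j = i then u j else 0) else 0) =
      ∑ j, if em j = i then (if v i = x then u j else 0) else 0 := by
    intro i
    by_cases h : v i = x
    · simp [h]
    · simp [h]
  rw [sum_congr rfl (fun i _ => h1 i), sum_comm]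
  refine sum_congr rfl fun j _ => ?_
  rw [sum_ite_eq univ (em j) (fun i => if v i = x then u j else 0), if_pos (mem_univ _)]
  rfl

theorem dem_sub {V : Type} [DecidableEq V] (v : Fin (k + 2) → V) (s : Fin (k + 2) → ZMod 5)
    (hs : ∀ i, s i ≠ 0 → ∃ j, em j = i) (x : V) : dem v s x = dem (v ∘ em) (s ∘ em) x := by
  rw [← dem_ext]
  congr 1
  funext i
  unfold ext
  by_cases h : s i = 0
  · rw [h]
    symm
    apply sum_eq_zero
    intro j _
    split_ifs with hj
    · simp only [Function.comp]
      rw [hj, h]
    · rfl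
  · obtain ⟨j, hj⟩ := hs i h
    rw [sum_eq_single j]
    · rw [if_pos hj]
      simp only [Function.comp]
      rw [hj]
    · intro b _ hb
      rw [if_neg]
      intro h2
      exact hb (em.injective (h2.trans hj.symm))
    · intro h2
      exact absurd (mem_univ j) h2

/-- a fitting vector on the terminals is completed on the whole circuit -/
theorem fit_ext (u : Fin (n + 1) → ZMod 5) (hu : Fit u) :
    ∃ b : Fin (k + 2) → ZMod 5, (∀ i, b i ≠ 0) ∧ ∀ i, b (i - 1) - b i = ext em u i := by
  obtain ⟨b', hb0, hb⟩ := hu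
  -- prefixes
  have hpre : ∀ i : Fin (k + 2), ∃ r, r ≤ n + 1 ∧ ∀ j : Fin (n + 1), em j ≤ i ↔ j.val < r := by
    intro i
    refine ⟨(univ.filter (fun j => em j ≤ i)).card, ?_, ?_⟩
    · exact (card_le_univ _).trans (by rw [Fintype.card_fin])
    · intro j
      constructor
      · intro hj
        have h1 : (univ.filter (fun j' : Fin (n + 1) => j' ≤ j)) ⊆
            univ.filter (fun j' => em j' ≤ i) := by
          intro j' hj'
          rw [mem_filter] at hj' ⊢
          exact ⟨mem_univ _, (em.monotone hj'.2).trans hj⟩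
        have h2 := card_le_card h1
        have h3 : (univ.filter (fun j' : Fin (n + 1) => j' ≤ j)) = Finset.Iic j := by
          ext x; simp
        rw [h3, Fin.card_Iic] at h2
        omega
      · intro hj
        by_contra hcon
        have h1 : univ.filter (fun j' => em j' ≤ i) ⊆
            (univ.filter (fun j' : Fin (n + 1) => j' < j)) := by
          intro j' hj'
          rw [mem_filter] at hj' ⊢
          refine ⟨mem_univ _, ?_⟩
          by_contra h2
          push Not at h2
          exact hcon ((em.monotone h2).trans hj'.2)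
        have h2 := card_le_card h1
        have h3 : (univ.filter (fun j' : Fin (n + 1) => j' < j)) = Finset.Iio j := by
          ext x; simp
        rw [h3, Fin.card_Iio] at h2
        omega
  have hsum : ∀ i : Fin (k + 2), ∃ t : Fin (n + 1),
      (∑ j, if em j ≤ i then u j else 0) = b' (Fin.last n) - b' t := by
    intro i
    obtain ⟨r, hr, hrj⟩ := hpre i
    obtain ⟨t, ht, -, -⟩ := tel u b' hb r hr
    refine ⟨t, ?_⟩
    rw [← ht]
    refine sum_congr rfl fun j _ => ?_
    simp only [hrj j]
  have htot : (∑ j, u j) = 0 := by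
    obtain ⟨t, ht, -, h3⟩ := tel u b' hb (n + 1) le_rfl
    have h4 : t = Fin.last n := by
      rw [h3 (Nat.succ_pos n)]
      apply Fin.ext
      simp
    have h5 : (∑ j : Fin (n + 1), if j.val < n + 1 then u j else 0) = ∑ j, u j :=
      sum_congr rfl fun j _ => if_pos j.2
    rw [← h5, ht, h4, sub_self]
  refine ⟨fun i => b' (Fin.last n) - ∑ j, (if em j ≤ i then u j else 0), ?_, ?_⟩
  · intro i
    obtain ⟨t, ht⟩ := hsum i
    simp only
    rw [ht, sub_sub_cancel]
    exact hb0 t
  · intro i
    simp only
    unfold ext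
    by_cases hi : i = 0
    · subst hi
      have e1 : (0 : Fin (k + 2)) - 1 = Fin.last (k + 1) := by
        apply Fin.ext
        rw [Fin.coe_sub_one]
        simp
      have e2 : (∑ j, if em j ≤ (0 : Fin (k + 2)) - 1 then u j else 0) = 0 := by
        rw [e1, ← htot]
        exact sum_congr rfl fun j _ => if_pos (Fin.le_last _)
      have e3 : (∑ j, if em j ≤ (0 : Fin (k + 2)) then u j else 0) =
          ∑ j, if em j = 0 then u j else 0 := by
        refine sum_congr rfl fun j _ => ?_
        by_cases h : em j = 0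
        · rw [if_pos h, if_pos (le_of_eq h)]
        · rw [if_neg h, if_neg (fun h2 => h (Fin.le_zero_iff.1 h2))]
      rw [e2, e3]
      ring
    · have e1 : (i - 1).val + 1 = i.val := by
        rw [Fin.coe_sub_one, if_neg hi]
        have : 0 < i.val := Nat.pos_of_ne_zero (fun h => hi (Fin.ext (by simpa using h)))
        omega
      have e2 : ∀ j, (if em j ≤ i then u j else 0) =
          (if em j ≤ i - 1 then u j else 0) + (if em j = i then u j else 0) := by
        intro j
        by_cases h : em j = i
        · have h2 : ¬ em j ≤ i - 1 := by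
            rw [h, Fin.le_def]; omega
          rw [if_neg h2, if_pos h, if_pos (le_of_eq h), zero_add]
        · by_cases h2 : em j ≤ i - 1
          · rw [if_pos h2, if_neg h, add_zero, if_pos]
            rw [Fin.le_def] at h2 ⊢
            omega
          · rw [if_neg h2, if_neg h, add_zero, if_neg]
            rw [Fin.le_def] at h2 ⊢
            have h3 : (em j).val ≠ i.val := fun h4 => h (Fin.ext h4)
            omega
      rw [sum_congr rfl (fun j _ => e2 j), sum_add_distrib]
      ring

end

end Pool.Agent.Y335.FL.Ctr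

namespace Pool.Agent.Y335.FL

open Finset Pool.Agent.TH676.Z Pool.Agent.TH676.Z.CircB Pool.Agent.TH676.Z.Circ7x
  Pool.Agent.Y335.FL.Ctr

theorem contract : CoreAll → St_contract := by
  intro hcore V E _ _ _ _ src dst D k hk v ed hv hed hJ hD hf
  by_contra hnf
  obtain ⟨f, f1, f2, f3⟩ := hf
  set a : Fin (k + 2) → ZMod 5 := fun i => if src (ed i) = v i then f (ed i) else - f (ed i) with ha
  set g : E → ZMod 5 := fun e => f e - wc src v ed a e with hg
  have g0 : ∀ i, g (ed i) = 0 := by
    intro i
    simp only [hg]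
    rw [wc_ed hed]
    simp only [ha]
    split_ifs <;> simp
  have gD : ∀ e ∈ D, g e = 0 := by
    intro e he
    have h2 : ∀ i, e ≠ ed i := fun i hi => hD i (by rw [← hi]; exact he)
    simp only [hg]
    rw [wc_off h2, sub_zero]
    exact f2 e he
  have goff : ∀ e, e ∉ D → (∀ i, e ≠ ed i) → g e ≠ 0 := by
    intro e heD he
    simp only [hg]
    rw [wc_off he, sub_zero]
    refine f3 e heD ?_
    intro h
    rw [mem_image] at h
    obtain ⟨i, _, hi⟩ := h
    exact he i hi.symm
  have gbd : ∀ x, bd src dst g x = dem v (fun i => a (i - 1) - a i) x := by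
    intro x
    have e1 : (g + wc src v ed a) = f := by
      funext e
      simp only [hg, Pi.add_apply, sub_add_cancel]
    have e2 := Three.bd_add src dst g (wc src v ed a) x
    rw [e1, f1 x, bd_wc hv hJ] at e2
    have e3 := dem_neg v (fun i => a (i - 1) - a i) (fun i => a i - a (i - 1))
      (fun i => by ring) x
    linear_combination -e2 - e3
  obtain ⟨s, hs⟩ : ∃ s : Fin (k + 2) → ZMod 5, s = fun i => a (i - 1) - a i := ⟨_, rfl⟩
  rw [← hs] at gbd
  obtain ⟨T, hT⟩ : ∃ T : Finset (Fin (k + 2)), T = univ.filter (fun i => s i ≠ 0) := ⟨_, rfl⟩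
  have memT : ∀ i, i ∈ T ↔ s i ≠ 0 := fun i => by rw [hT, mem_filter]; simp
  rcases Nat.eq_zero_or_pos T.card with h0 | hpos
  · have hs0 : ∀ i, s i = 0 := by
      intro i
      by_contra h
      have : i ∈ T := (memT i).2 h
      rw [card_eq_zero.1 h0] at this
      exact absurd this (notMem_empty i)
    refine noflowD hnf hv hed hJ hD g (fun _ => 1) g0 gD goff (fun _ => by decide) ?_
    intro x
    rw [gbd x]
    congr 1
    funext i
    rw [hs0 i]
    simp
  · obtain ⟨n, hn⟩ : ∃ n, T.card = n + 1 := ⟨T.card - 1, by omega⟩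
    have hn10 : n ≤ 10 := by
      have h1 : T.card ≤ k + 2 := (card_le_univ T).trans (by rw [Fintype.card_fin])
      omega
    let em : Fin (n + 1) ↪o Fin (k + 2) := T.orderEmbOfFin hn
    have hemT : ∀ j, em j ∈ T := fun j => T.orderEmbOfFin_mem hn j
    have hsurj : ∀ i, s i ≠ 0 → ∃ j, em j = i := by
      intro i hi
      have h1 : i ∈ univ.image em := by
        have h2 : univ.image em = T := T.image_orderEmbOfFin_univ hn
        rw [h2]
        exact (memT i).2 hi
      obtain ⟨j, -, hj⟩ := mem_image.1 h1
      exact ⟨j, hj⟩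
    have hv' : Function.Injective (v ∘ em) := hv.comp em.injective
    have hcnt : cnt src dst (D ∪ univ.image ed) (v ∘ em) (s ∘ em) ≠ 0 := by
      classical
      unfold cnt
      rw [Finset.card_ne_zero]
      refine ⟨g, ?_⟩
      rw [mem_filter]
      refine ⟨mem_univ _, ?_, ?_, ?_⟩
      · intro e he
        rcases mem_union.1 he with h | h
        · exact gD e h
        · obtain ⟨i, -, rfl⟩ := mem_image.1 h
          exact g0 i
      · intro e he
        rw [mem_union, not_or] at he
        exact goff e he.1 (fun i hi => he.2 (hi ▸ mem_image_of_mem ed (mem_univ i)))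
      · intro x
        rw [gbd x]
        exact dem_sub em v s hsurj x
    have hex : ∃ u : Fin (n + 1) → ZMod 5, (∀ i, u i ≠ 0) ∧ Fit u ∧
        cnt src dst (D ∪ univ.image ed) (v ∘ em) u ≠ 0 := by
      by_contra hcon
      push Not at hcon
      exact hcnt (hcore n hn10 V E src dst (D ∪ univ.image ed) (v ∘ em) hv' hcon (s ∘ em)
        (fun j => (memT _).1 (hemT j)))
    obtain ⟨u, hu0, huf, huc⟩ := hex
    obtain ⟨b, hb0, hb⟩ := fit_ext em u huf
    classical
    unfold cnt at huc
    rw [Finset.card_ne_zero] at huc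
    obtain ⟨h, hh⟩ := huc
    rw [mem_filter] at hh
    obtain ⟨_, q1, q2, q3⟩ := hh
    refine noflowD hnf hv hed hJ hD h b
      (fun i => q1 _ (mem_union_right _ (mem_image_of_mem _ (mem_univ _))))
      (fun e he => q1 e (mem_union_left _ he)) ?_ hb0 ?_
    · intro e heD he
      refine q2 e ?_
      intro hmem
      rcases mem_union.1 hmem with h2 | h2
      · exact heD h2
      · obtain ⟨i, -, hi⟩ := mem_image.1 h2
        exact he i hi.symm
    · intro x
      rw [q3 x, ← dem_ext em v u x]
      congr 1
      funext i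
      exact (hb i).symm

end Pool.Agent.Y335.FL
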