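import Pool.Agent.Y335.FL.Stm

set_option autoImplicit false
set_option linter.unusedSectionVars false

/-! # Counting edges around a vertex in girth 12 (helper165) -/

namespace Pool.Agent.Y335.FL.Edge62

open Finset Pool.Agent.TH676.Z

section
variable {V E : Type} [Fintype V] [DecidableEq V] [Fintype E] [DecidableEq E] {src dst : E → V}

open Classical in
/-- balls -/
noncomputable def Bl (src dst : E → V) (s : V) : ℕ → Finset V
  | 0 => {s}
  | m + 1 => Bl src dst s m ∪ univ.filter (fun x => ∃ y ∈ Bl src dst s m, Adj src dst y x)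

theorem mem_Bl_succ {s x : V} {m : ℕ} : x ∈ Bl src dst s (m + 1) ↔
    x ∈ Bl src dst s m ∨ ∃ y ∈ Bl src dst s m, Adj src dst y x := by
  classical
  show x ∈ Bl src dst s m ∪ _ ↔ _
  rw [mem_union, mem_filter]
  simp

theorem Bl_mono {s : V} {m k : ℕ} (h : m ≤ k) : Bl src dst s m ⊆ Bl src dst s k := by
  induction h with
  | refl => exact Finset.Subset.refl _
  | step _ ih => exact ih.trans fun x hx => mem_Bl_succ.2 (Or.inl hx)

theorem Adj.symm' {x y : V} (h : Adj src dst x y) : Adj src dst y x := by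
  obtain ⟨h1, e, h2⟩ := h
  exact ⟨h1.symm, e, h2.symm⟩

theorem bd2_add' (a b : E → ZMod 2) (v : V) :
    bd2 src dst (a + b) v = bd2 src dst a v + bd2 src dst b v := by
  unfold bd2
  rw [← sum_add_distrib]
  refine sum_congr rfl fun e _ => ?_
  rw [Pi.add_apply]
  split_ifs <;> ring

theorem bd2_single (e : E) {y x : V} (h : Jn src dst e y x) (v : V) :
    bd2 src dst (Pi.single e 1) v = (if v = y then 1 else 0) + (if v = x then 1 else 0) := by
  unfold bd2
  rw [Finset.sum_eq_single e]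
  · rw [Pi.single_eq_same]
    rcases h with ⟨h1, h2⟩ | ⟨h1, h2⟩
    · rw [h1, h2]
      simp only [eq_comm]
    · rw [h1, h2, add_comm]
      simp only [eq_comm]
  · intro b _ hb
    rw [Pi.single_eq_of_ne hb]
    simp
  · intro h
    exact absurd (mem_univ e) h

/-- the support -/
def supp (w : E → ZMod 2) : Finset E := univ.filter (fun e => w e ≠ 0)

theorem mem_supp {w : E → ZMod 2} {e : E} : e ∈ supp w ↔ w e ≠ 0 := by
  simp [supp]

theorem supp_add (a b : E → ZMod 2) : (supp (a + b)).card ≤ (supp a).card + (supp b).card := by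
  refine (card_le_card ?_).trans (card_union_le _ _)
  intro e he
  rw [mem_union, mem_supp, mem_supp]
  rw [mem_supp, Pi.add_apply] at he
  by_contra h
  push Not at h
  rw [h.1, h.2, add_zero] at he
  exact he rfl

theorem supp_single (e : E) : (supp (Pi.single e (1 : ZMod 2))).card ≤ 1 := by
  rw [card_le_one]
  intro a ha b hb
  have h : ∀ c, c ∈ supp (Pi.single e (1 : ZMod 2)) → c = e := by
    intro c hc
    by_contra h
    rw [mem_supp, Pi.single_eq_of_ne h] at hc
    exact hc rfl
  rw [h a ha, h b hb]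

/-- `w` is a walk from `x` to `s` with at most `m` edges and its other vertices have level `< m` -/
structure Geo (src dst : E → V) (s x : V) (m : ℕ) (w : E → ZMod 2) : Prop where
  bd : ∀ v, bd2 src dst w v = (if v = x then 1 else 0) + (if v = s then 1 else 0)
  card : (supp w).card ≤ m
  nl : ∀ e, w e ≠ 0 → src e ≠ dst e
  lev : ∀ e, w e ≠ 0 → ∀ z, (src e = z ∨ dst e = z) → z = x ∨ ∃ k < m, z ∈ Bl src dst s k

theorem geo (s : V) : ∀ (m : ℕ) (x : V), x ∈ Bl src dst s m → (∀ k < m, x ∉ Bl src dst s k) →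
    ∃ w, Geo src dst s x m w := by
  intro m
  induction m with
  | zero =>
    intro x hx _
    have hxs : x = s := mem_singleton.1 hx
    subst hxs
    refine ⟨0, ⟨fun v => ?_, ?_, fun e he => absurd rfl he, fun e he => absurd rfl he⟩⟩
    · have h1 : bd2 src dst (0 : E → ZMod 2) v = 0 := by
        unfold bd2
        simp
      rw [h1]
      exact (CharTwo.add_self_eq_zero _).symm
    · have : supp (0 : E → ZMod 2) = ∅ := by
        ext e
        simp [mem_supp]
      rw [this, card_empty]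
  | succ m ih =>
    intro x hx hlev
    rcases mem_Bl_succ.1 hx with h1 | ⟨y, hy, hyx⟩
    · exact absurd h1 (hlev m (Nat.lt_succ_self m))
    · have hylev : ∀ k < m, y ∉ Bl src dst s k := fun k hk hyk =>
        hlev (k + 1) (by omega) (mem_Bl_succ.2 (Or.inr ⟨y, hyk, hyx⟩))
      obtain ⟨w, hw⟩ := ih y hy hylev
      obtain ⟨hne, e, he⟩ := hyx
      refine ⟨w + Pi.single e 1, ⟨fun v => ?_, ?_, fun e' he' => ?_, fun e' he' z hz => ?_⟩⟩
      · rw [bd2_add', hw.bd, bd2_single e he]
        have h : ∀ a b c : ZMod 2, (a + b) + (a + c) = c + b := by decide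
        exact h _ _ _
      · exact (supp_add _ _).trans (add_le_add hw.card (supp_single e))
      · by_cases h2 : e' = e
        · subst h2
          rcases he with ⟨h3, h4⟩ | ⟨h3, h4⟩
          · rw [h3, h4]; exact hne
          · rw [h3, h4]; exact hne.symm
        · rw [Pi.add_apply, Pi.single_eq_of_ne h2, add_zero] at he'
          exact hw.nl e' he'
      · by_cases h2 : e' = e
        · subst h2
          rcases he with ⟨h3, h4⟩ | ⟨h3, h4⟩
          · rw [h3, h4] at hz
            rcases hz with rfl | rfl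
            · exact Or.inr ⟨m, Nat.lt_succ_self m, hy⟩
            · exact Or.inl rfl
          · rw [h3, h4] at hz
            rcases hz with rfl | rfl
            · exact Or.inl rfl
            · exact Or.inr ⟨m, Nat.lt_succ_self m, hy⟩
        · rw [Pi.add_apply, Pi.single_eq_of_ne h2, add_zero] at he'
          rcases hw.lev e' he' z hz with rfl | ⟨k, hk, hzk⟩
          · exact Or.inr ⟨m, Nat.lt_succ_self m, hy⟩
          · exact Or.inr ⟨k, by omega, hzk⟩

/-- a vertex of level `d + 1` has only one neighbour of level at most `d + 1` -/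
theorem key (hev : St_even) (hnp : NoPar src dst) (hg : Girth (Adj src dst) 12) {s x y y' : V}
    {d : ℕ} (hd : d ≤ 4) (hx : x ∉ Bl src dst s d) (hy : y ∈ Bl src dst s d)
    (hyx : Adj src dst y x) (hy' : y' ∈ Bl src dst s (d + 1)) (hyx' : Adj src dst y' x) :
    y' = y := by
  classical
  by_contra hne
  have hxlev : ∀ k < d + 1, x ∉ Bl src dst s k := fun k hk h => hx (Bl_mono (by omega) h)
  -- levels of `y` and `y'`
  have hlev : ∀ (z : V) (m : ℕ), z ∈ Bl src dst s m → ∃ k ≤ m, z ∈ Bl src dst s k ∧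
      ∀ j < k, z ∉ Bl src dst s j := by
    intro z m hz
    have hex : ∃ k, z ∈ Bl src dst s k := ⟨m, hz⟩
    exact ⟨Nat.find hex, Nat.find_min' hex hz, Nat.find_spec hex, fun j hj => Nat.find_min hex hj⟩
  obtain ⟨m, hm, hm1, hm2⟩ := hlev y d hy
  obtain ⟨m', hm', hm1', hm2'⟩ := hlev y' (d + 1) hy'
  obtain ⟨w, hw⟩ := geo s m y hm1 hm2
  obtain ⟨w', hw'⟩ := geo s m' y' hm1' hm2'
  obtain ⟨hne1, e, he⟩ := hyx
  obtain ⟨hne2, e', he'⟩ := hyx'
  have hinc : ∀ (f : E) (u : V), Jn src dst f u x → src f = x ∨ dst f = x := by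
    rintro f u (⟨h1, h2⟩ | ⟨h1, h2⟩)
    · exact Or.inr h2
    · exact Or.inl h1
  have hwe : w e = 0 := by
    by_contra h
    rcases hw.lev e h x (hinc e y he) with h1 | ⟨k, hk, hxk⟩
    · exact hne1 h1.symm
    · exact hxlev k (by omega) hxk
  have hwe' : w' e = 0 := by
    by_contra h
    rcases hw'.lev e h x (hinc e y he) with h1 | ⟨k, hk, hxk⟩
    · exact hne2 h1.symm
    · exact hxlev k (by omega) hxk
  have hee : e ≠ e' := by
    rintro rfl
    rcases he with ⟨h1, h2⟩ | ⟨h1, h2⟩
    · rcases he' with ⟨h3, h4⟩ | ⟨h3, h4⟩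
      · exact hne (h3.symm.trans h1)
      · exact hne1 (h1.symm.trans h3)
    · rcases he' with ⟨h3, h4⟩ | ⟨h3, h4⟩
      · exact hne1 (h2.symm.trans h4)
      · exact hne (h4.symm.trans h2)
  set z : E → ZMod 2 := (w + w') + (Pi.single e 1 + Pi.single e' 1) with hz
  have hze : z e = 1 := by
    rw [hz, Pi.add_apply, Pi.add_apply, Pi.add_apply, hwe, hwe', Pi.single_eq_same,
      Pi.single_eq_of_ne hee]
    decide
  have hnl : ∀ (f : E) (u : V), u ≠ x → Jn src dst f u x → src f ≠ dst f := by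
    rintro f u hu (⟨h1, h2⟩ | ⟨h1, h2⟩)
    · rw [h1, h2]; exact hu
    · rw [h1, h2]; exact hu.symm
  have hzF : z ∈ ZF src dst (univ.filter fun f => src f ≠ dst f) := by
    refine ⟨fun f hf => ?_, fun v => ?_⟩
    · have hf' : src f = dst f := by
        by_contra h
        exact hf (mem_filter.2 ⟨mem_univ _, h⟩)
      have g1 : w f = 0 := by
        by_contra h
        exact hw.nl f h hf'
      have g2 : w' f = 0 := by
        by_contra h
        exact hw'.nl f h hf'
      have g3 : f ≠ e := by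
        rintro rfl
        exact hnl f y hne1 he hf'
      have g4 : f ≠ e' := by
        rintro rfl
        exact hnl f y' hne2 he' hf'
      rw [hz, Pi.add_apply, Pi.add_apply, Pi.add_apply, g1, g2, Pi.single_eq_of_ne g3,
        Pi.single_eq_of_ne g4]
      decide
    · rw [hz, bd2_add', bd2_add', bd2_add', hw.bd, hw'.bd, bd2_single e he, bd2_single e' he']
      have h : ∀ a b c d : ZMod 2, ((a + b) + (c + b)) + ((a + d) + (c + d)) = 0 := by decide
      exact h _ _ _ _
  have hcard : (supp z).card ≤ 11 := by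
    have h1 := supp_add (w + w') (Pi.single e 1 + Pi.single e' 1)
    have h2 := supp_add w w'
    have h3 := supp_add (Pi.single e (1 : ZMod 2)) (Pi.single e' 1)
    have h4 := supp_single e
    have h5 := supp_single e'
    have h6 := hw.card
    have h7 := hw'.card
    rw [← hz] at h1
    omega
  have h12 := hev V E src dst (univ.filter fun f => src f ≠ dst f) 12 hg hnp
    (fun f hf => (mem_filter.1 hf).2) z hzF (fun h0 => by
      rw [h0] at hze
      exact zero_ne_one hze)
  have h13 : (univ.filter (fun f => z f ≠ 0)).card = (supp z).card := rfl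
  omega

open Classical in
/-- the vertices of level `d + 1` -/
noncomputable def Lv (src dst : E → V) (s : V) (d : ℕ) : Finset V :=
  Bl src dst s (d + 1) \ Bl src dst s d

theorem mem_Lv {s x : V} {d : ℕ} : x ∈ Lv src dst s d ↔
    x ∈ Bl src dst s (d + 1) ∧ x ∉ Bl src dst s d := by
  classical
  unfold Lv
  rw [mem_sdiff]

theorem Lv_disj {s x : V} {d d' : ℕ} (h : x ∈ Lv src dst s d) (h' : x ∈ Lv src dst s d') :
    d = d' := by
  rw [mem_Lv] at h h'
  rcases lt_trichotomy d d' with hlt | heq | hgt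
  · exact absurd (Bl_mono (by omega) h.1) h'.2
  · exact heq
  · exact absurd (Bl_mono (by omega) h'.1) h.2

/-- the parent -/
theorem parent {s x : V} {d : ℕ} (h : x ∈ Lv src dst s d) :
    ∃ y ∈ Bl src dst s d, Adj src dst y x := by
  rw [mem_Lv] at h
  rcases mem_Bl_succ.1 h.1 with h1 | h1
  · exact absurd h1 h.2
  · exact h1

theorem two_children (hev : St_even) (hnp : NoPar src dst) (hg : Girth (Adj src dst) 12)
    (h3 : Three (Adj src dst)) {s x : V} {d : ℕ} (hd : d ≤ 4) (hx : x ∈ Lv src dst s d) :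
    ∃ a b, a ≠ b ∧ Adj src dst x a ∧ Adj src dst x b ∧ a ∈ Lv src dst s (d + 1) ∧
      b ∈ Lv src dst s (d + 1) := by
  obtain ⟨y, hy, hyx⟩ := parent hx
  have hx' := mem_Lv.1 hx
  have huniq : ∀ z, Adj src dst x z → z ∈ Bl src dst s (d + 1) → z = y := fun z hz hz1 =>
    key hev hnp hg hd hx'.2 hy hyx hz1 (Adj.symm' hz)
  have hin : ∀ z, Adj src dst x z → z ≠ y → z ∈ Lv src dst s (d + 1) := by
    intro z hz hzy
    rw [mem_Lv]
    exact ⟨mem_Bl_succ.2 (Or.inr ⟨x, hx'.1, hz⟩), fun h => hzy (huniq z hz h)⟩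
  obtain ⟨a, b, c, ha, hb, hc, hab, hac, hbc⟩ := h3 x y (Adj.symm' hyx)
  by_cases h1 : a = y
  · refine ⟨b, c, hbc, hb, hc, hin b hb fun h => hab (h1.trans h.symm),
      hin c hc fun h => hac (h1.trans h.symm)⟩
  · by_cases h2 : b = y
    · exact ⟨a, c, hac, ha, hc, hin a ha h1, hin c hc fun h => hbc (h2.trans h.symm)⟩
    · exact ⟨a, b, hab, ha, hb, hin a ha h1, hin b hb h2⟩

theorem Lv_growth (hev : St_even) (hnp : NoPar src dst) (hg : Girth (Adj src dst) 12)
    (h3 : Three (Adj src dst)) (s : V) {d : ℕ} (hd : d ≤ 3) :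
    (Lv src dst s d).card * 2 ≤ (Lv src dst s (d + 1)).card := by
  classical
  have h := card_mul_le_card_mul (s := Lv src dst s d) (t := Lv src dst s (d + 1))
    (fun x y => Adj src dst x y) (m := 2) (n := 1) ?_ ?_
  · simpa using h
  · intro x hx
    obtain ⟨a, b, hab, ha, hb, ha', hb'⟩ := two_children hev hnp hg h3 (by omega : d ≤ 4) hx
    show 1 < _
    rw [one_lt_card]
    exact ⟨a, (mem_bipartiteAbove _).2 ⟨ha', ha⟩, b, (mem_bipartiteAbove _).2 ⟨hb', hb⟩, hab⟩
  · intro y hy
    obtain ⟨z, hz, hzy⟩ := parent hy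
    have hy' := mem_Lv.1 hy
    rw [card_le_one]
    have huniq : ∀ x ∈ bipartiteBelow (fun x y => Adj src dst x y) (Lv src dst s d) y, x = z := by
      intro x hx
      rw [mem_bipartiteBelow] at hx
      exact key hev hnp hg (by omega : d + 1 ≤ 4) hy'.2 hz hzy
        (Bl_mono (by omega) (mem_Lv.1 hx.1).1) hx.2
    intro a ha b hb
    rw [huniq a ha, huniq b hb]

open Classical in
/-- the edges between two levels -/
noncomputable def Ed (src dst : E → V) (s : V) (d : ℕ) : Finset E :=
  univ.filter fun e => (src e ∈ Lv src dst s d ∧ dst e ∈ Lv src dst s (d + 1)) ∨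
    (dst e ∈ Lv src dst s d ∧ src e ∈ Lv src dst s (d + 1))

theorem mem_Ed {s : V} {d : ℕ} {e : E} : e ∈ Ed src dst s d ↔
    (src e ∈ Lv src dst s d ∧ dst e ∈ Lv src dst s (d + 1)) ∨
    (dst e ∈ Lv src dst s d ∧ src e ∈ Lv src dst s (d + 1)) := by
  classical
  unfold Ed
  rw [mem_filter]
  simp

theorem Ed_card (hev : St_even) (hnp : NoPar src dst) (hg : Girth (Adj src dst) 12)
    (h3 : Three (Adj src dst)) (s : V) {d : ℕ} (hd : d ≤ 4) :
    (Lv src dst s d).card * 2 ≤ (Ed src dst s d).card := by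
  classical
  have h := card_mul_le_card_mul (s := Lv src dst s d) (t := Ed src dst s d)
    (fun x e => src e = x ∨ dst e = x) (m := 2) (n := 1) ?_ ?_
  · simpa using h
  · intro x hx
    obtain ⟨a, b, hab, ha, hb, ha', hb'⟩ := two_children hev hnp hg h3 hd hx
    obtain ⟨hxa, e, he⟩ := ha
    obtain ⟨hxb, e', he'⟩ := hb
    have hmem : ∀ (f : E) (u : V), u ∈ Lv src dst s (d + 1) → Jn src dst f x u →
        f ∈ bipartiteAbove (fun x e => src e = x ∨ dst e = x) (Ed src dst s d) x := by
      rintro f u hu (⟨h1, h2⟩ | ⟨h1, h2⟩)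
      · rw [mem_bipartiteAbove, mem_Ed, h1, h2]
        exact ⟨Or.inl ⟨hx, hu⟩, Or.inl rfl⟩
      · rw [mem_bipartiteAbove, mem_Ed, h1, h2]
        exact ⟨Or.inr ⟨hx, hu⟩, Or.inr rfl⟩
    show 1 < _
    rw [one_lt_card]
    refine ⟨e, hmem e a ha' he, e', hmem e' b hb' he', ?_⟩
    rintro rfl
    rcases he with ⟨h1, h2⟩ | ⟨h1, h2⟩
    · rcases he' with ⟨h3, h4⟩ | ⟨h3, h4⟩
      · exact hab (h2.symm.trans h4)
      · exact hxb (h1.symm.trans h3)
    · rcases he' with ⟨h3, h4⟩ | ⟨h3, h4⟩
      · exact hxb (h2.symm.trans h4)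
      · exact hab (h1.symm.trans h3)
  · intro e he
    rw [mem_Ed] at he
    rw [card_le_one]
    intro a ha b hb
    rw [mem_bipartiteBelow] at ha hb
    have hno : ∀ z, z ∈ Lv src dst s d → z ∈ Lv src dst s (d + 1) → False := fun z h1 h2 =>
      absurd (Lv_disj h1 h2) (by omega)
    rcases he with ⟨h1, h2⟩ | ⟨h1, h2⟩
    · rcases ha.2 with h3 | h3
      · rcases hb.2 with h4 | h4
        · exact h3.symm.trans h4
        · rw [h4] at h2; exact (hno _ hb.1 h2).elim
      · rw [h3] at h2; exact (hno _ ha.1 h2).elim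
    · rcases ha.2 with h3 | h3
      · rw [h3] at h2; exact (hno _ ha.1 h2).elim
      · rcases hb.2 with h4 | h4
        · rw [h4] at h2; exact (hno _ hb.1 h2).elim
        · exact h3.symm.trans h4

theorem Lv_zero (s : V) : Lv src dst s 0 = Ns src dst s := by
  classical
  ext x
  rw [mem_Lv, mem_Bl_succ]
  unfold Ns
  rw [mem_filter]
  have h0 : ∀ z, z ∈ Bl src dst s 0 ↔ z = s := fun z => mem_singleton
  simp only [h0]
  constructor
  · rintro ⟨h1 | ⟨y, rfl, h2⟩, h3⟩
    · exact absurd h1 h3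
    · exact ⟨mem_univ _, h2⟩
  · rintro ⟨_, h⟩
    exact ⟨Or.inr ⟨s, rfl, h⟩, fun h1 => h.1 h1.symm⟩

theorem Ed_sub (s : V) (d : ℕ) : Ed src dst s d ⊆ Es src dst s := by
  classical
  intro e he
  rw [mem_Ed] at he
  unfold Es
  rw [mem_filter]
  have hs : ∀ k, s ∉ Lv src dst s k := by
    intro k h
    exact (mem_Lv.1 h).2 (Bl_mono (Nat.zero_le k) (mem_singleton_self s))
  have hno : ∀ z, z ∈ Lv src dst s d → z ∈ Lv src dst s (d + 1) → False := fun z h1 h2 =>
    absurd (Lv_disj h1 h2) (by omega)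
  rcases he with ⟨h1, h2⟩ | ⟨h1, h2⟩
  · exact ⟨mem_univ _, fun h => hno _ h1 (h ▸ h2), fun h => hs _ (h ▸ h1), fun h => hs _ (h ▸ h2)⟩
  · exact ⟨mem_univ _, fun h => hno _ h1 (h ▸ h2), fun h => hs _ (h ▸ h2), fun h => hs _ (h ▸ h1)⟩

theorem Ed_disj (s : V) {d d' : ℕ} (hne : d ≠ d') :
    Disjoint (Ed src dst s d) (Ed src dst s d') := by
  rw [Finset.disjoint_left]
  intro e he he'
  rw [mem_Ed] at he he'
  rcases he with ⟨h1, h2⟩ | ⟨h1, h2⟩ <;> rcases he' with ⟨h3, h4⟩ | ⟨h3, h4⟩
  · exact hne (Lv_disj h1 h3)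
  · have a1 := Lv_disj h1 h4
    have a2 := Lv_disj h2 h3
    omega
  · have a1 := Lv_disj h1 h4
    have a2 := Lv_disj h2 h3
    omega
  · exact hne (Lv_disj h1 h3)

end

end Pool.Agent.Y335.FL.Edge62

namespace Pool.Agent.Y335.FL

open Finset Pool.Agent.TH676.Z Edge62

/-- P6 (with the assumption that there are no parallel edges) -/
theorem edge62 : St_even → ∀ (V E : Type) [Fintype V] [DecidableEq V] [Fintype E] [DecidableEq E]
    (src dst : E → V) (s : V), NoPar src dst → Girth (Adj src dst) 12 → Three (Adj src dst) →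
    62 * (Ns src dst s).card ≤ (Es src dst s).card := by
  classical
  intro hev V E _ _ _ _ src dst s hnp hg h3
  have g : ∀ d, d ≤ 3 → (Lv src dst s d).card * 2 ≤ (Lv src dst s (d + 1)).card := fun d hd =>
    Lv_growth hev hnp hg h3 s hd
  have c : ∀ d, d ≤ 4 → (Lv src dst s d).card * 2 ≤ (Ed src dst s d).card := fun d hd =>
    Ed_card hev hnp hg h3 s hd
  have hU : ((range 5).biUnion fun d => Ed src dst s d).card ≤ (Es src dst s).card :=
    card_le_card (biUnion_subset.2 fun d _ => Ed_sub s d)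
  rw [card_biUnion fun i _ j _ hij => Ed_disj s hij] at hU
  simp only [sum_range_succ, range_zero, sum_empty, zero_add] at hU
  have g0 := g 0 (by norm_num)
  have g1 := g 1 (by norm_num)
  have g2 := g 2 (by norm_num)
  have g3 := g 3 (by norm_num)
  have c0 := c 0 (by norm_num)
  have c1 := c 1 (by norm_num)
  have c2 := c 2 (by norm_num)
  have c3 := c 3 (by norm_num)
  have c4 := c 4 (by norm_num)
  rw [← Lv_zero s]
  simp only [zero_add] at g0
  norm_num at g1 g2 g3
  omega

end Pool.Agent.Y335.FL
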