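import Pool.Agent.Y335.FL.Stm

set_option autoImplicit false
set_option linter.unusedSectionVars false

/-! # Job FL-GIRTH: the girth of a minimal counterexample, elements of the cycle space -/

namespace Pool.Agent.Y335.FL.GirthX

open Finset Pool.Agent.TH676.Z

variable {V E : Type}

lemma fin_two_ne (k : ℕ) : (1 + 1 : Fin (k + 3)) ≠ 0 := by
  intro h
  have h1 := congrArg Fin.val h
  rw [Fin.val_add, Fin.val_one, Fin.val_zero] at h1
  rw [Nat.mod_eq_of_lt (by omega)] at h1
  omega

lemma fin_one_ne (k : ℕ) : (1 : Fin (k + 2)) ≠ 0 := by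
  intro h
  have h1 := congrArg Fin.val h
  rw [Fin.val_one, Fin.val_zero] at h1
  omega

lemma succ_ne {k : ℕ} {v : Fin (k + 2) → V} (hv : Function.Injective v) (i : Fin (k + 2)) :
    v i ≠ v (i + 1) := by
  intro h
  have h1 := hv h
  have h2 : i + 0 = i + 1 := by rw [add_zero]; exact h1
  exact fin_one_ne k (add_left_cancel h2).symm

/-- the edges of a circuit of length at least three are different -/
lemma ed_inj {src dst : E → V} {k : ℕ} {v : Fin (k + 3) → V} {ed : Fin (k + 3) → E}
    (hv : Function.Injective v) (hj : ∀ i, Jn src dst (ed i) (v i) (v (i + 1))) :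
    Function.Injective ed := by
  intro i j hij
  have h1 := hj i
  have h2 := hj j
  rw [hij] at h1
  have key : v i = v (j + 1) → v (i + 1) = v j → i = j := by
    intro h3 h4
    have h5 := hv h3
    have h6 := hv h4
    rw [h5] at h6
    have h7 : j + (1 + 1) = j + 0 := by rw [add_zero, ← add_assoc]; exact h6
    exact absurd (add_left_cancel h7) (fin_two_ne k)
  rcases h1 with ⟨a, b⟩ | ⟨a, b⟩ <;> rcases h2 with ⟨c, d⟩ | ⟨c, d⟩
  · exact hv (a.symm.trans c)
  · exact key (a.symm.trans c) (b.symm.trans d)
  · exact key (b.symm.trans d) (a.symm.trans c)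
  · exact hv (b.symm.trans d)

end Pool.Agent.Y335.FL.GirthX

namespace Pool.Agent.Y335.FL

open Finset Pool.Agent.TH676.Z

/-- **girth12** -/
theorem girth12 : St_contract → St_girth12 := by
  intro hc V E _ _ _ _ src dst M k hk v hv hA
  choose hne ed hj using hA
  have hinj : Function.Injective ed := GirthX.ed_inj (src := src) (dst := dst) hv hj
  have hflow : FlowOn src dst ∅ (univ.image ed) := by
    apply M.crit ∅ (univ.image ed) (disjoint_empty_left _)
    · refine ⟨ed 0, mem_union_right _ (mem_image_of_mem _ (mem_univ _)), ?_⟩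
      rcases hj 0 with ⟨a, b⟩ | ⟨a, b⟩
      · rw [a, b]
        exact hne 0
      · rw [a, b]
        exact (hne 0).symm
    · intro Y _
      exact M.br Y (disjoint_empty_right _)
  exact M.nf (hc V E src dst ∅ (k + 1) (by omega) v ed hv hinj hj (fun i => notMem_empty _) hflow)

/-- **even** -/
theorem even : St_circEx → St_even := by
  intro hc V E _ _ _ _ src dst F g hG hp hl x hx h0
  obtain ⟨hF, hb⟩ := hx
  have hl' : ∀ e, x e ≠ 0 → src e ≠ dst e := by
    intro e he
    refine hl e ?_
    by_contra hc
    exact he (hF e hc)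
  obtain ⟨k, v, ed, hv, hed, hj, hS⟩ := hc V E src dst (univ.filter (fun e => x e ≠ 0)) (by
    obtain ⟨e0, he0⟩ := Function.ne_iff.1 h0
    exact ⟨e0, mem_filter.2 ⟨mem_univ _, he0⟩⟩) (fun e he => hl' e (mem_filter.1 he).2) (by
    intro y e he hey
    by_contra hcon
    push Not at hcon
    have hxe := (mem_filter.1 he).2
    have h1 := hb y
    unfold bd2 at h1
    rw [sum_eq_single e] at h1
    · have h2 := hl' e hxe
      rcases hey with h3 | h3
      · have h4 : dst e ≠ y := fun h => h2 (h3.trans h.symm)
        rw [if_pos h3, if_neg h4, add_zero] at h1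
        exact hxe h1
      · have h4 : src e ≠ y := fun h => h2 (h.trans h3.symm)
        rw [if_pos h3, if_neg h4, zero_add] at h1
        exact hxe h1
    · intro e' _ hne
      by_cases hx' : x e' = 0
      · simp [hx']
      · have h2 := hcon e' (mem_filter.2 ⟨mem_univ _, hx'⟩) hne
        rw [if_neg h2.1, if_neg h2.2, add_zero]
    · intro h
      exact absurd (mem_univ e) h)
  have hcard : k + 2 ≤ (univ.filter (fun e => x e ≠ 0)).card := by
    calc k + 2 = (univ : Finset (Fin (k + 2))).card := by rw [card_univ, Fintype.card_fin]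
      _ ≤ _ := card_le_card_of_injOn ed (fun i _ => hS i) (hed.injOn)
  rcases k with _ | k
  · exfalso
    have h1 := hj 0
    have h2 := hj 1
    have h3 : (1 + 1 : Fin (0 + 2)) = 0 := by decide
    rw [h3] at h2
    have h3' : (0 + 1 : Fin (0 + 2)) = 1 := by decide
    rw [h3'] at h1
    have h4 : v 0 ≠ v 1 := fun h => absurd (hv h) (by decide)
    have h5 : Jn src dst (ed 1) (v 0) (v 1) := by
      rcases h2 with ⟨a, b⟩ | ⟨a, b⟩
      · exact Or.inr ⟨a, b⟩
      · exact Or.inl ⟨a, b⟩
    exact absurd (hed (hp _ _ _ _ h4 h1 h5)) (by decide)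
  · by_contra hlt
    push Not at hlt
    refine hG k (by omega) v hv ?_
    intro i
    exact ⟨GirthX.succ_ne (k := k + 1) hv i, ed i, hj i⟩

end Pool.Agent.Y335.FL
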