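import Pool.Agent.Y335.FL.Kst

set_option autoImplicit false

/-! # The masks (job FL-K2) -/

namespace Pool.Agent.Y335.FL

namespace KMsk

theorem S4_zero (s : ℕ) : S4 s 0 0 0 0 = 0 := by
  unfold S4
  show 0 + (0 <<< s + (0 <<< (2 * s) + 0 <<< (3 * s))) = 0
  simp

theorem pack_zero (W n : ℕ) : pack W n (fun _ => 0) = 0 := by
  induction n with
  | zero => rfl
  | succ n ih =>
    show S4 (Nat.mul W (Nat.pow 4 n)) (pack W n (fun _ => 0)) (pack W n (fun _ => 0))
      (pack W n (fun _ => 0)) (pack W n (fun _ => 0)) = 0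
    rw [ih, S4_zero]

theorem pack_succ (W n : ℕ) (G : List ℕ → ℕ) : pack W (n + 1) G =
    S4 (Nat.mul W (Nat.pow 4 n)) (pack W n (fun l => G (1 :: l)))
      (pack W n (fun l => G (2 :: l))) (pack W n (fun l => G (3 :: l)))
      (pack W n (fun l => G (4 :: l))) := rfl

theorem shift (v W : ℕ) (fl : List Bool) (x r r' : ℕ) (h : ∀ m : ℕ, (x + m) % 5 = r ↔ m % 5 = r') :
    pack W fl.length (fun l => if fs (true :: fl) (x :: l) % 5 = r then v else 0) =
      pack W fl.length (fun l => if fs fl l % 5 = r' then v else 0) := by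
  congr 1
  funext l
  show (if (x + fs fl l) % 5 = r then v else 0) = _
  exact if_congr (h _) rfl rfl

theorem nshift (v W n x r r' : ℕ) (h : (r + x) % 5 = r') (h0 : r' ≠ 0) :
    pack W n (fun l => if nvis r (x :: l) = true then v else 0) =
      pack W n (fun l => if nvis r' l = true then v else 0) := by
  congr 1
  funext l
  have h1 : nvis r (x :: l) = nvis r' l := by
    show (!(Nat.beq ((r + x) % 5) 0) && nvis ((r + x) % 5) l) = nvis r' l
    rw [h]
    have h2 : Nat.beq r' 0 = false := by
      cases r' with
      | zero => exact absurd rfl h0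
      | succ k => rfl
    rw [h2]
    rfl
  rw [h1]

theorem nshift0 (v W n x r : ℕ) (h : (r + x) % 5 = 0) :
    pack W n (fun l => if nvis r (x :: l) = true then v else 0) = 0 := by
  have h1 : (fun l => if nvis r (x :: l) = true then v else 0) = fun _ => 0 := by
    funext l
    have h1 : nvis r (x :: l) = false := by
      show (!(Nat.beq ((r + x) % 5) 0) && nvis ((r + x) % 5) l) = false
      rw [h]
      rfl
    rw [h1]
    rfl
  rw [h1, pack_zero]

end KMsk

open KMsk

theorem msk_pack : St_msk := by
  intro v W fl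
  induction fl with
  | nil =>
    intro r _
    cases r with
    | zero => rfl
    | succ k =>
      show 0 = if fs [] [] % 5 = k + 1 then v else 0
      rw [if_neg]
      show ¬ (0 % 5 = k + 1)
      omega
  | cons f fl ih =>
    intro r hr
    cases f with
    | false =>
      have h1 := ih r hr
      show S4 (Nat.mul W (Nat.pow 4 fl.length)) (msk v W fl r) (msk v W fl r) (msk v W fl r)
        (msk v W fl r) = S4 (Nat.mul W (Nat.pow 4 fl.length))
          (pack W fl.length (fun l => if fs fl l % 5 = r then v else 0))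
          (pack W fl.length (fun l => if fs fl l % 5 = r then v else 0))
          (pack W fl.length (fun l => if fs fl l % 5 = r then v else 0))
          (pack W fl.length (fun l => if fs fl l % 5 = r then v else 0))
      rw [h1]
    | true =>
      show _ = pack W (fl.length + 1) _
      rw [pack_succ]
      have e0 := ih 0 (by omega)
      have e1 := ih 1 (by omega)
      have e2 := ih 2 (by omega)
      have e3 := ih 3 (by omega)
      have e4 := ih 4 (by omega)
      obtain rfl | rfl | rfl | rfl | rfl : r = 0 ∨ r = 1 ∨ r = 2 ∨ r = 3 ∨ r = 4 := by omega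
      · rw [shift v W fl 1 0 4 (by omega), shift v W fl 2 0 3 (by omega),
          shift v W fl 3 0 2 (by omega), shift v W fl 4 0 1 (by omega), ← e1, ← e2, ← e3, ← e4]
        rfl
      · rw [shift v W fl 1 1 0 (by omega), shift v W fl 2 1 4 (by omega),
          shift v W fl 3 1 3 (by omega), shift v W fl 4 1 2 (by omega), ← e0, ← e2, ← e3, ← e4]
        rfl
      · rw [shift v W fl 1 2 1 (by omega), shift v W fl 2 2 0 (by omega),
          shift v W fl 3 2 4 (by omega), shift v W fl 4 2 3 (by omega), ← e0, ← e1, ← e3, ← e4]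
        rfl
      · rw [shift v W fl 1 3 2 (by omega), shift v W fl 2 3 1 (by omega),
          shift v W fl 3 3 0 (by omega), shift v W fl 4 3 4 (by omega), ← e0, ← e1, ← e2, ← e4]
        rfl
      · rw [shift v W fl 1 4 3 (by omega), shift v W fl 2 4 2 (by omega),
          shift v W fl 3 4 1 (by omega), shift v W fl 4 4 0 (by omega), ← e0, ← e1, ← e2, ← e3]
        rfl

theorem nv_pack : St_nv := by
  intro v W n
  induction n with
  | zero =>
    intro r _
    rfl
  | succ n ih =>
    intro r hr
    rw [pack_succ]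
    have e1 := ih 1 (by omega)
    have e2 := ih 2 (by omega)
    have e3 := ih 3 (by omega)
    have e4 := ih 4 (by omega)
    obtain rfl | rfl | rfl | rfl | rfl : r = 0 ∨ r = 1 ∨ r = 2 ∨ r = 3 ∨ r = 4 := by omega
    · rw [nshift v W n 1 0 1 rfl (by omega), nshift v W n 2 0 2 rfl (by omega),
        nshift v W n 3 0 3 rfl (by omega), nshift v W n 4 0 4 rfl (by omega), ← e1, ← e2, ← e3,
        ← e4]
      rfl
    · rw [nshift v W n 1 1 2 rfl (by omega), nshift v W n 2 1 3 rfl (by omega),
        nshift v W n 3 1 4 rfl (by omega), nshift0 v W n 4 1 rfl, ← e2, ← e3, ← e4]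
      rfl
    · rw [nshift v W n 1 2 3 rfl (by omega), nshift v W n 2 2 4 rfl (by omega),
        nshift0 v W n 3 2 rfl, nshift v W n 4 2 1 rfl (by omega), ← e1, ← e3, ← e4]
      rfl
    · rw [nshift v W n 1 3 4 rfl (by omega), nshift0 v W n 2 3 rfl,
        nshift v W n 3 3 1 rfl (by omega), nshift v W n 4 3 2 rfl (by omega), ← e1, ← e2, ← e4]
      rfl
    · rw [nshift0 v W n 1 4 rfl, nshift v W n 2 4 1 rfl (by omega),
        nshift v W n 3 4 2 rfl (by omega), nshift v W n 4 4 3 rfl (by omega), ← e1, ← e2, ← e3]
      rfl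

end Pool.Agent.Y335.FL
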