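import Pool.Agent.Y335.FL.Kst

set_option autoImplicit false

/-! # Packed arrays: addition, bounds, injectivity, slices, bitwise operations, fold -/

namespace Pool.Agent.Y335.FL

namespace KPack

theorem S4_eq (s a b c d : ℕ) :
    S4 s a b c d = a + 2 ^ s * (b + 2 ^ s * (c + 2 ^ s * d)) := by
  have h : S4 s a b c d = a + (b <<< s + (c <<< (2 * s) + d <<< (3 * s))) := rfl
  rw [h, Nat.shiftLeft_eq, Nat.shiftLeft_eq, Nat.shiftLeft_eq,
    show 2 * s = s + s by ring, show 3 * s = s + s + s by ring, pow_add, pow_add]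
  ring

theorem pack_succ (W n : ℕ) (G : List ℕ → ℕ) :
    pack W (n + 1) G = pack W n (fun l => G (1 :: l)) + 2 ^ (W * 4 ^ n) *
      (pack W n (fun l => G (2 :: l)) + 2 ^ (W * 4 ^ n) *
      (pack W n (fun l => G (3 :: l)) + 2 ^ (W * 4 ^ n) * pack W n (fun l => G (4 :: l)))) :=
  S4_eq _ _ _ _ _

theorem dg_cons {n : ℕ} {l : List ℕ} (x : ℕ) (hx : 1 ≤ x ∧ x ≤ 4) (h : Dg n l) :
    Dg (n + 1) (x :: l) := by
  refine ⟨by simp [h.1], ?_⟩
  intro y hy
  rcases List.mem_cons.mp hy with rfl | hy
  · exact hx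
  · exact h.2 y hy

theorem pow_four (W n : ℕ) :
    2 ^ (W * 4 ^ (n + 1)) = 2 ^ (W * 4 ^ n) * (2 ^ (W * 4 ^ n) *
      (2 ^ (W * 4 ^ n) * 2 ^ (W * 4 ^ n))) := by
  rw [← pow_add, ← pow_add, ← pow_add]
  congr 1
  ring

theorem lt_step {a A M N : ℕ} (ha : a < M) (hA : A < N) : a + M * A < M * N := by
  have h1 : M * (A + 1) ≤ M * N := Nat.mul_le_mul_left _ hA
  have h2 : M * (A + 1) = M * A + M := by ring
  omega

theorem inj_step {a b A B M : ℕ} (ha : a < M) (hb : b < M) (h : a + M * A = b + M * B) :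
    a = b ∧ A = B := by
  have hM : 0 < M := by omega
  have h1 : (a + M * A) % M = a := by rw [Nat.add_mul_mod_self_left, Nat.mod_eq_of_lt ha]
  have h2 : (b + M * B) % M = b := by rw [Nat.add_mul_mod_self_left, Nat.mod_eq_of_lt hb]
  have h3 : a = b := by rw [← h1, ← h2, h]
  subst h3
  refine ⟨rfl, ?_⟩
  have h4 : M * A = M * B := by omega
  exact Nat.eq_of_mul_eq_mul_left hM h4

theorem land_step {a b A B s : ℕ} (ha : a < 2 ^ s) (hb : b < 2 ^ s) :
    (a + 2 ^ s * A) &&& (b + 2 ^ s * B) = (a &&& b) + 2 ^ s * (A &&& B) := by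
  have hab : (a &&& b) < 2 ^ s := Nat.and_lt_two_pow a hb
  apply Nat.eq_of_testBit_eq
  intro i
  rw [Nat.testBit_and, add_comm a, add_comm b, add_comm (a &&& b),
    Nat.testBit_two_pow_mul_add _ ha, Nat.testBit_two_pow_mul_add _ hb,
    Nat.testBit_two_pow_mul_add _ hab]
  by_cases h : i < s
  · simp [h, Nat.testBit_and]
  · simp [h, Nat.testBit_and]

theorem lor_step {a b A B s : ℕ} (ha : a < 2 ^ s) (hb : b < 2 ^ s) :
    (a + 2 ^ s * A) ||| (b + 2 ^ s * B) = (a ||| b) + 2 ^ s * (A ||| B) := by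
  have hab : (a ||| b) < 2 ^ s := Nat.or_lt_two_pow ha hb
  apply Nat.eq_of_testBit_eq
  intro i
  rw [Nat.testBit_or, add_comm a, add_comm b, add_comm (a ||| b),
    Nat.testBit_two_pow_mul_add _ ha, Nat.testBit_two_pow_mul_add _ hb,
    Nat.testBit_two_pow_mul_add _ hab]
  by_cases h : i < s
  · simp [h, Nat.testBit_or]
  · simp [h, Nat.testBit_or]

theorem mod_step {a A M : ℕ} (ha : a < M) : (a + M * A) % M = a := by
  rw [Nat.add_mul_mod_self_left, Nat.mod_eq_of_lt ha]

theorem div_step {a A M : ℕ} (ha : a < M) : (a + M * A) / M = A := by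
  have hM : 0 < M := by omega
  rw [Nat.add_mul_div_left _ _ hM, Nat.div_eq_of_lt ha, zero_add]

end KPack

open KPack

theorem packAdd : St_packAdd := by
  intro W n
  induction n with
  | zero => intro G H; rfl
  | succ n ih =>
    intro G H
    rw [pack_succ, pack_succ, pack_succ]
    rw [ih (fun l => G (1 :: l)) (fun l => H (1 :: l)),
      ih (fun l => G (2 :: l)) (fun l => H (2 :: l)),
      ih (fun l => G (3 :: l)) (fun l => H (3 :: l)),
      ih (fun l => G (4 :: l)) (fun l => H (4 :: l))]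
    ring

theorem packCongr : St_packCongr := by
  intro W n
  induction n with
  | zero =>
    intro G H h
    exact h [] ⟨rfl, by simp⟩
  | succ n ih =>
    intro G H h
    rw [pack_succ, pack_succ]
    rw [ih (fun l => G (1 :: l)) (fun l => H (1 :: l)) (fun l hl => h _ (dg_cons 1 (by omega) hl)),
      ih (fun l => G (2 :: l)) (fun l => H (2 :: l)) (fun l hl => h _ (dg_cons 2 (by omega) hl)),
      ih (fun l => G (3 :: l)) (fun l => H (3 :: l)) (fun l hl => h _ (dg_cons 3 (by omega) hl)),
      ih (fun l => G (4 :: l)) (fun l => H (4 :: l)) (fun l hl => h _ (dg_cons 4 (by omega) hl))]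

theorem packLt : St_packLt := by
  intro W n
  induction n with
  | zero =>
    intro G h
    have := h [] ⟨rfl, by simp⟩
    simpa [pack] using this
  | succ n ih =>
    intro G h
    rw [pack_succ, pow_four]
    exact lt_step (ih _ (fun l hl => h _ (dg_cons 1 (by omega) hl)))
      (lt_step (ih _ (fun l hl => h _ (dg_cons 2 (by omega) hl)))
        (lt_step (ih _ (fun l hl => h _ (dg_cons 3 (by omega) hl)))
          (ih _ (fun l hl => h _ (dg_cons 4 (by omega) hl)))))

theorem packInj : St_packInj := by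
  intro W n
  induction n with
  | zero =>
    intro G H _ _ h l hl
    have : l = [] := List.eq_nil_of_length_eq_zero hl.1
    subst this
    exact h
  | succ n ih =>
    intro G H hG hH h l hl
    rw [pack_succ, pack_succ] at h
    have g1 := fun l hl => hG (1 :: l) (dg_cons (n := n) 1 (by omega) hl)
    have g2 := fun l hl => hG (2 :: l) (dg_cons (n := n) 2 (by omega) hl)
    have g3 := fun l hl => hG (3 :: l) (dg_cons (n := n) 3 (by omega) hl)
    have g4 := fun l hl => hG (4 :: l) (dg_cons (n := n) 4 (by omega) hl)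
    have k1 := fun l hl => hH (1 :: l) (dg_cons (n := n) 1 (by omega) hl)
    have k2 := fun l hl => hH (2 :: l) (dg_cons (n := n) 2 (by omega) hl)
    have k3 := fun l hl => hH (3 :: l) (dg_cons (n := n) 3 (by omega) hl)
    have k4 := fun l hl => hH (4 :: l) (dg_cons (n := n) 4 (by omega) hl)
    obtain ⟨e1, h⟩ := inj_step (packLt W n _ g1) (packLt W n _ k1) h
    obtain ⟨e2, h⟩ := inj_step (packLt W n _ g2) (packLt W n _ k2) h
    obtain ⟨e3, e4⟩ := inj_step (packLt W n _ g3) (packLt W n _ k3) h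
    match l, hl with
    | [], hl => exact absurd hl.1 (by simp)
    | x :: l, hl =>
      have hx := hl.2 x (by simp)
      have hl' : Dg n l := ⟨by simpa using hl.1, fun y hy => hl.2 y (by simp [hy])⟩
      have hx' : x = 1 ∨ x = 2 ∨ x = 3 ∨ x = 4 := by omega
      rcases hx' with rfl | rfl | rfl | rfl
      · exact ih _ _ g1 k1 e1 l hl'
      · exact ih _ _ g2 k2 e2 l hl'
      · exact ih _ _ g3 k3 e3 l hl'
      · exact ih _ _ g4 k4 e4 l hl'

theorem packEx : St_packEx := by
  intro W n
  induction n with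
  | zero =>
    intro X hX
    exact ⟨fun _ => X, fun _ => by simpa using hX, rfl⟩
  | succ n ih =>
    intro X hX
    have hM : 0 < 2 ^ (W * 4 ^ n) := by positivity
    rw [pow_four] at hX
    generalize hMM : 2 ^ (W * 4 ^ n) = M at hM hX ih
    obtain ⟨G1, h1, e1⟩ := ih (X % M) (Nat.mod_lt _ hM)
    obtain ⟨G2, h2, e2⟩ := ih (X / M % M) (Nat.mod_lt _ hM)
    obtain ⟨G3, h3, e3⟩ := ih (X / M / M % M) (Nat.mod_lt _ hM)
    obtain ⟨G4, h4, e4⟩ := ih (X / M / M / M) (by
      rw [Nat.div_lt_iff_lt_mul hM, Nat.div_lt_iff_lt_mul hM, Nat.div_lt_iff_lt_mul hM]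
      calc X < M * (M * (M * M)) := hX
        _ = M * M * M * M := by ring)
    refine ⟨fun l => match l with
      | [] => 0
      | x :: l => if x = 1 then G1 l else if x = 2 then G2 l else if x = 3 then G3 l
          else if x = 4 then G4 l else 0, ?_, ?_⟩
    · intro l
      match l with
      | [] => exact Nat.two_pow_pos W
      | x :: l =>
        show (if x = 1 then G1 l else if x = 2 then G2 l else if x = 3 then G3 l
          else if x = 4 then G4 l else 0) < 2 ^ W
        split_ifs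
        · exact h1 l
        · exact h2 l
        · exact h3 l
        · exact h4 l
        · exact Nat.two_pow_pos W
    · rw [pack_succ, hMM]
      have f1 : pack W n (fun l => G1 l) = X % M := e1.symm
      have f2 : pack W n (fun l => G2 l) = X / M % M := e2.symm
      have f3 : pack W n (fun l => G3 l) = X / M / M % M := e3.symm
      have f4 : pack W n (fun l => G4 l) = X / M / M / M := e4.symm
      simp only [OfNat.ofNat_ne_one, OfNat.one_ne_ofNat, if_true, if_false,
        Nat.reduceEqDiff, f1, f2, f3, f4]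
      rw [Nat.mod_add_div, Nat.mod_add_div, Nat.mod_add_div]

theorem packLand : St_packLand := by
  intro W n
  induction n with
  | zero => intro G H _ _; rfl
  | succ n ih =>
    intro G H hG hH
    have g1 := fun l hl => hG (1 :: l) (dg_cons (n := n) 1 (by omega) hl)
    have g2 := fun l hl => hG (2 :: l) (dg_cons (n := n) 2 (by omega) hl)
    have g3 := fun l hl => hG (3 :: l) (dg_cons (n := n) 3 (by omega) hl)
    have g4 := fun l hl => hG (4 :: l) (dg_cons (n := n) 4 (by omega) hl)
    have k1 := fun l hl => hH (1 :: l) (dg_cons (n := n) 1 (by omega) hl)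
    have k2 := fun l hl => hH (2 :: l) (dg_cons (n := n) 2 (by omega) hl)
    have k3 := fun l hl => hH (3 :: l) (dg_cons (n := n) 3 (by omega) hl)
    have k4 := fun l hl => hH (4 :: l) (dg_cons (n := n) 4 (by omega) hl)
    show pack W (n + 1) G &&& pack W (n + 1) H = _
    rw [pack_succ, pack_succ, pack_succ, land_step (packLt W n _ g1) (packLt W n _ k1),
      land_step (packLt W n _ g2) (packLt W n _ k2),
      land_step (packLt W n _ g3) (packLt W n _ k3)]
    rw [← ih _ _ g1 k1, ← ih _ _ g2 k2, ← ih _ _ g3 k3, ← ih _ _ g4 k4]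
    rfl

theorem packLor : St_packLor := by
  intro W n
  induction n with
  | zero => intro G H _ _; rfl
  | succ n ih =>
    intro G H hG hH
    have g1 := fun l hl => hG (1 :: l) (dg_cons (n := n) 1 (by omega) hl)
    have g2 := fun l hl => hG (2 :: l) (dg_cons (n := n) 2 (by omega) hl)
    have g3 := fun l hl => hG (3 :: l) (dg_cons (n := n) 3 (by omega) hl)
    have g4 := fun l hl => hG (4 :: l) (dg_cons (n := n) 4 (by omega) hl)
    have k1 := fun l hl => hH (1 :: l) (dg_cons (n := n) 1 (by omega) hl)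
    have k2 := fun l hl => hH (2 :: l) (dg_cons (n := n) 2 (by omega) hl)
    have k3 := fun l hl => hH (3 :: l) (dg_cons (n := n) 3 (by omega) hl)
    have k4 := fun l hl => hH (4 :: l) (dg_cons (n := n) 4 (by omega) hl)
    show pack W (n + 1) G ||| pack W (n + 1) H = _
    rw [pack_succ, pack_succ, pack_succ, lor_step (packLt W n _ g1) (packLt W n _ k1),
      lor_step (packLt W n _ g2) (packLt W n _ k2),
      lor_step (packLt W n _ g3) (packLt W n _ k3)]
    rw [← ih _ _ g1 k1, ← ih _ _ g2 k2, ← ih _ _ g3 k3, ← ih _ _ g4 k4]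
    rfl

theorem fold_pack : St_fold := by
  intro W n G hG
  have g1 := fun l hl => hG (1 :: l) (dg_cons (n := n) 1 (by omega) hl)
  have g2 := fun l hl => hG (2 :: l) (dg_cons (n := n) 2 (by omega) hl)
  have g3 := fun l hl => hG (3 :: l) (dg_cons (n := n) 3 (by omega) hl)
  have L1 := packLt W n _ g1
  have L2 := packLt W n _ g2
  have L3 := packLt W n _ g3
  rw [packAdd W n (fun l => G (1 :: l)) (fun l => G (2 :: l) + (G (3 :: l) + G (4 :: l))),
    packAdd W n (fun l => G (2 :: l)) (fun l => G (3 :: l) + G (4 :: l)),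
    packAdd W n (fun l => G (3 :: l)) (fun l => G (4 :: l))]
  have hf : ∀ s X : ℕ, fold s X = (X &&& (2 ^ s - 1)) + ((X >>> s &&& (2 ^ s - 1)) +
      ((X >>> (2 * s) &&& (2 ^ s - 1)) + X >>> (3 * s))) := fun _ _ => rfl
  have hp : ∀ s : ℕ, 2 ^ (2 * s) = 2 ^ s * 2 ^ s := fun s => by rw [← pow_add]; ring_nf
  have hp3 : ∀ s : ℕ, 2 ^ (3 * s) = 2 ^ s * 2 ^ s * 2 ^ s := fun s => by
    rw [← pow_add, ← pow_add]; ring_nf
  rw [hf, Nat.and_two_pow_sub_one_eq_mod, Nat.and_two_pow_sub_one_eq_mod,
    Nat.and_two_pow_sub_one_eq_mod, Nat.shiftRight_eq_div_pow, Nat.shiftRight_eq_div_pow,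
    Nat.shiftRight_eq_div_pow, hp, hp3, ← Nat.div_div_eq_div_mul, ← Nat.div_div_eq_div_mul,
    ← Nat.div_div_eq_div_mul, pack_succ, mod_step L1, div_step L1, mod_step L2, div_step L2,
    mod_step L3, div_step L3]

end Pool.Agent.Y335.FL
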