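import Pool.Agent.Y335.FL.Kst
import Pool.Agent.Y335.FL.KPack
import Pool.Agent.Y335.FL.KMsk

set_option autoImplicit false

/-! # From the checks to the certificate (job FL-K4) -/

namespace Pool.Agent.Y335.FL

open Finset Pool.Agent.TH676.Z

namespace KCert

theorem fs_true : ∀ (n : ℕ) (l : List ℕ), l.length = n → fs (List.replicate n true) l = l.sum
  | 0, l, h => by
    rw [List.length_eq_zero_iff] at h
    subst h; rfl
  | n + 1, [], h => by simp at h
  | n + 1, x :: l, h => by
    show x + fs (List.replicate n true) l = _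
    rw [fs_true n l (by simpa using h), List.sum_cons]

theorem fs_false : ∀ (n : ℕ) (l : List ℕ), l.length = n → fs (List.replicate n false) l = 0
  | 0, l, h => rfl
  | n + 1, [], h => rfl
  | n + 1, x :: l, h => by
    show fs (List.replicate n false) l = _
    rw [fs_false n l (by simpa using h)]

theorem msk_true (v W n r : ℕ) (hr : r < 5) : msk v W (List.replicate n true) r =
    pack W n (fun l => if l.sum % 5 = r then v else 0) := by
  have h := msk_pack v W (List.replicate n true) r hr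
  rw [List.length_replicate] at h
  rw [h]
  exact packCongr W n _ _ fun l hl => by rw [fs_true n l hl.1]

theorem msk_false (v W n : ℕ) : msk v W (List.replicate n false) 0 =
    pack W n (fun _ => v) := by
  have h := msk_pack v W (List.replicate n false) 0 (by omega)
  rw [List.length_replicate] at h
  rw [h]
  exact packCongr W n _ _ fun l hl => by rw [fs_false n l hl.1]; rfl

theorem lt_of_land {y W b : ℕ} (hb : b + 1 ≤ W) (hy : y < 2 ^ W)
    (h : y &&& (2 ^ W - 2 ^ (b + 1)) = 0) : y < 2 ^ (b + 1) := by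
  apply Nat.lt_pow_two_of_testBit
  intro i hi
  by_cases hiW : W ≤ i
  · exact Nat.testBit_lt_two_pow (lt_of_lt_of_le hy (Nat.pow_le_pow_right (by norm_num) hiW))
  · have h1 : (y &&& (2 ^ W - 2 ^ (b + 1))).testBit i = false := by rw [h]; exact Nat.zero_testBit i
    have h2 : 2 ^ W - 2 ^ (b + 1) = 2 ^ (b + 1) * (2 ^ (W - (b + 1)) - 1) := by
      rw [Nat.mul_sub, mul_one, ← pow_add, Nat.add_sub_cancel' hb]
    have h3 : (2 ^ W - 2 ^ (b + 1)).testBit i = true := by
      rw [h2, Nat.testBit_two_pow_mul, Nat.testBit_two_pow_sub_one]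
      simp only [ge_iff_le, Bool.and_eq_true, decide_eq_true_eq]
      omega
    rw [Nat.testBit_and, h3, Bool.and_true] at h1
    exact h1

theorem land_eq {a b : ℕ} : Nat.land a b = a &&& b := rfl
theorem lor_eq {a b : ℕ} : Nat.lor a b = a ||| b := rfl

theorem ite_lt {c : Prop} [Decidable c] {v M : ℕ} (h : v < M) : (if c then v else 0) < M := by
  split_ifs
  · exact h
  · omega

theorem scan_split {W b n Y : ℕ} (h : scan W b n Y = true) :
    Y < 2 ^ (W * 4 ^ n) ∧
    Nat.land Y (msk (2 ^ W - 1) W (List.replicate n true) 4) = 0 ∧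
    Nat.land Y (msk (2 ^ W - 2 ^ (b + 1)) W (List.replicate n false) 0) = 0 ∧
    Nat.lor (Nat.land Y (msk (2 ^ b) W (List.replicate n false) 0))
      (Nat.lor (nv (2 ^ b) W n 4) (Nat.lor (nv (2 ^ b) W n 3)
        (Nat.lor (nv (2 ^ b) W n 2) (msk (2 ^ b) W (List.replicate n true) 4)))) =
      msk (2 ^ b) W (List.replicate n false) 0 := by
  unfold scan at h
  rw [Bool.and_eq_true, Bool.and_eq_true, Bool.and_eq_true] at h
  obtain ⟨h1, h2, h3, h4⟩ := h
  refine ⟨?_, Nat.eq_of_beq_eq_true h2, Nat.eq_of_beq_eq_true h3, Nat.eq_of_beq_eq_true h4⟩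
  have h5 : Y >>> (W * 4 ^ n) = 0 := Nat.eq_of_beq_eq_true h1
  rw [Nat.shiftRight_eq_div_pow] at h5
  exact (Nat.div_eq_zero_iff_lt (by positivity)).1 h5

end KCert

open KCert

theorem scan_sound : St_scan := by
  intro W b n Y hb h
  obtain ⟨h1, h2, h3, h4⟩ := scan_split h
  obtain ⟨y, hy, rfl⟩ := packEx W n Y h1
  have hbW : 2 ^ b < 2 ^ W := Nat.pow_lt_pow_right (by norm_num) (by omega)
  have hW0 : 0 < 2 ^ W := by positivity
  have hm1 : 2 ^ W - 1 < 2 ^ W := by omega
  have hm2 : 2 ^ W - 2 ^ (b + 1) < 2 ^ W := by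
    have : 0 < 2 ^ (b + 1) := by positivity
    omega
  have hor : ∀ {a b : ℕ}, a < 2 ^ W → b < 2 ^ W → Nat.lor a b < 2 ^ W :=
    fun ha hb => Nat.or_lt_two_pow ha hb
  have hand : ∀ {a b : ℕ}, a < 2 ^ W → Nat.land a b < 2 ^ W :=
    fun ha => lt_of_le_of_lt Nat.and_le_left ha
  refine ⟨y, rfl, ?_, ?_, ?_⟩
  · intro l hl
    rw [msk_false, packLand W n y _ (fun l _ => hy l) (fun _ _ => hm2)] at h3
    have h5 := packInj W n _ _ (fun l _ => hand (hy l))
      (fun _ _ => hW0) (h3.trans (KMsk.pack_zero W n).symm) l hl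
    exact lt_of_land hb (hy l) h5
  · intro l hl hs
    rw [msk_true _ _ _ _ (by omega), packLand W n y _ (fun l _ => hy l)
      (fun _ _ => ite_lt hm1)] at h2
    have h5 := packInj W n _ _ (fun l _ => hand (hy l))
      (fun _ _ => hW0) (h2.trans (KMsk.pack_zero W n).symm) l hl
    rw [if_pos (by omega)] at h5
    have h6 : y l &&& 2 ^ W - 1 = 0 := h5
    rw [Nat.and_two_pow_sub_one_eq_mod, Nat.mod_eq_of_lt (hy l)] at h6
    exact h6
  · intro l hl hs hn4 hn3 hn2
    rw [msk_false, msk_true _ _ _ _ (by omega), nv_pack _ _ _ _ (by omega),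
      nv_pack _ _ _ _ (by omega), nv_pack _ _ _ _ (by omega),
      packLand W n y _ (fun l _ => hy l) (fun _ _ => hbW),
      packLor W n _ _ (fun _ _ => ite_lt hbW) (fun _ _ => ite_lt hbW),
      packLor W n _ _ (fun _ _ => ite_lt hbW)
        (fun _ _ => hor (ite_lt hbW) (ite_lt hbW)),
      packLor W n _ _ (fun _ _ => ite_lt hbW)
        (fun _ _ => hor (ite_lt hbW) (hor (ite_lt hbW) (ite_lt hbW))),
      packLor W n _ _ (fun l _ => hand (hy l))
        (fun _ _ => hor (ite_lt hbW) (hor (ite_lt hbW)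
          (hor (ite_lt hbW) (ite_lt hbW))))] at h4
    have h5 := packInj W n _ _ (fun l _ =>
      hor (hand (hy l))
        (hor (ite_lt hbW) (hor (ite_lt hbW)
          (hor (ite_lt hbW) (ite_lt hbW)))))
      (fun _ _ => hbW) h4 l hl
    rw [hn4, hn3, hn2, if_neg (by omega : ¬ l.sum % 5 = 4)] at h5
    have h6 : (y l &&& 2 ^ b) ||| (0 ||| (0 ||| (0 ||| 0))) = 2 ^ b := h5
    simp only [Nat.or_zero] at h6
    calc 2 ^ b = y l &&& 2 ^ b := h6.symm
      _ ≤ y l := Nat.and_le_left

namespace KCert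

theorem dg_cons {n : ℕ} {l : List ℕ} (x : ℕ) (h1 : 1 ≤ x) (h4 : x ≤ 4) (h : Dg n l) :
    Dg (n + 1) (x :: l) := by
  refine ⟨by rw [List.length_cons, h.1], ?_⟩
  intro y hy
  rw [List.mem_cons] at hy
  rcases hy with rfl | hy
  · exact ⟨h1, h4⟩
  · exact h.2 y hy

theorem SS_congr {M : Type} [AddCommMonoid M] : ∀ (n : ℕ) (f g : List ℕ → M),
    (∀ l, Dg n l → f l = g l) → SS n f = SS n g
  | 0, f, g, h => h [] ⟨rfl, by simp⟩
  | n + 1, f, g, h => by
    show SS n _ + (SS n _ + (SS n _ + SS n _)) = SS n _ + (SS n _ + (SS n _ + SS n _))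
    rw [SS_congr n _ (fun l => g (1 :: l)) fun l hl => h _ (dg_cons 1 (by omega) (by omega) hl),
      SS_congr n _ (fun l => g (2 :: l)) fun l hl => h _ (dg_cons 2 (by omega) (by omega) hl),
      SS_congr n _ (fun l => g (3 :: l)) fun l hl => h _ (dg_cons 3 (by omega) (by omega) hl),
      SS_congr n _ (fun l => g (4 :: l)) fun l hl => h _ (dg_cons 4 (by omega) (by omega) hl)]

theorem SS_le : ∀ (n : ℕ) (f : List ℕ → ℕ) (B : ℕ), (∀ l, Dg n l → f l ≤ B) →
    SS n f ≤ 4 ^ n * B
  | 0, f, B, h => by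
    show f [] ≤ 4 ^ 0 * B
    rw [pow_zero, one_mul]
    exact h [] ⟨rfl, by simp⟩
  | n + 1, f, B, h => by
    show SS n _ + (SS n _ + (SS n _ + SS n _)) ≤ 4 ^ (n + 1) * B
    have h1 := SS_le n _ B fun l hl => h _ (dg_cons 1 (by omega) (by omega) hl)
    have h2 := SS_le n _ B fun l hl => h _ (dg_cons 2 (by omega) (by omega) hl)
    have h3 := SS_le n _ B fun l hl => h _ (dg_cons 3 (by omega) (by omega) hl)
    have h4 := SS_le n _ B fun l hl => h _ (dg_cons 4 (by omega) (by omega) hl)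
    have h5 : 4 ^ (n + 1) * B = 4 * (4 ^ n * B) := by ring
    omega

theorem SS_abs_le : ∀ (n : ℕ) (f : List ℕ → ℤ) (B : ℤ), (∀ l, Dg n l → |f l| ≤ B) →
    |SS n f| ≤ 4 ^ n * B
  | 0, f, B, h => by
    show |f []| ≤ 4 ^ 0 * B
    rw [pow_zero, one_mul]
    exact h [] ⟨rfl, by simp⟩
  | n + 1, f, B, h => by
    show |SS n _ + (SS n _ + (SS n _ + SS n _))| ≤ 4 ^ (n + 1) * B
    have h1 := SS_abs_le n _ B fun l hl => h _ (dg_cons 1 (by omega) (by omega) hl)
    have h2 := SS_abs_le n _ B fun l hl => h _ (dg_cons 2 (by omega) (by omega) hl)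
    have h3 := SS_abs_le n _ B fun l hl => h _ (dg_cons 3 (by omega) (by omega) hl)
    have h4 := SS_abs_le n _ B fun l hl => h _ (dg_cons 4 (by omega) (by omega) hl)
    have h5 : (4 : ℤ) ^ (n + 1) * B = 4 * (4 ^ n * B) := by ring
    rw [abs_le] at *
    constructor <;> omega

theorem SS_cast : ∀ (n : ℕ) (f : List ℕ → ℕ), ((SS n f : ℕ) : ℤ) = SS n (fun l => (f l : ℤ))
  | 0, f => rfl
  | n + 1, f => by
    show ((SS n _ + (SS n _ + (SS n _ + SS n _)) : ℕ) : ℤ) =
      SS n _ + (SS n _ + (SS n _ + SS n _))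
    push_cast
    rw [SS_cast n, SS_cast n, SS_cast n, SS_cast n]

theorem SS_add : ∀ (n : ℕ) (f g : List ℕ → ℤ), SS n (fun l => f l + g l) = SS n f + SS n g
  | 0, f, g => rfl
  | n + 1, f, g => by
    show SS n (fun l => f (1 :: l) + g (1 :: l)) + (SS n (fun l => f (2 :: l) + g (2 :: l)) +
      (SS n (fun l => f (3 :: l) + g (3 :: l)) + SS n (fun l => f (4 :: l) + g (4 :: l)))) =
      SS n _ + (SS n _ + (SS n _ + SS n _)) + (SS n _ + (SS n _ + (SS n _ + SS n _)))
    rw [SS_add n, SS_add n, SS_add n, SS_add n]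
    ring

theorem SS_dvd : ∀ (n : ℕ) (K : ℤ) (f : List ℕ → ℤ), (∀ l, Dg n l → K ∣ f l) → K ∣ SS n f
  | 0, K, f, h => h [] ⟨rfl, by simp⟩
  | n + 1, K, f, h => by
    show K ∣ SS n _ + (SS n _ + (SS n _ + SS n _))
    exact dvd_add (SS_dvd n K _ fun l hl => h _ (dg_cons 1 (by omega) (by omega) hl))
      (dvd_add (SS_dvd n K _ fun l hl => h _ (dg_cons 2 (by omega) (by omega) hl))
      (dvd_add (SS_dvd n K _ fun l hl => h _ (dg_cons 3 (by omega) (by omega) hl))
        (SS_dvd n K _ fun l hl => h _ (dg_cons 4 (by omega) (by omega) hl))))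

theorem fsflg : ∀ (n : ℕ) (q l : List ℕ) (a : ℕ), q.length = n → l.length = n →
    fs (flg (List.replicate n true) q a) l =
      ∑ i : Fin n, if q.getD i 0 = a then l.getD i 0 else 0
  | 0, q, l, a, hq, hl => by
    show fs (List.zipWith _ [] q) l = _
    rw [List.zipWith_nil_left]
    rfl
  | n + 1, [], l, a, hq, hl => by simp at hq
  | n + 1, x :: q, [], a, hq, hl => by simp at hl
  | n + 1, x :: q, y :: l, a, hq, hl => by
    have ih := fsflg n q l a (by simpa using hq) (by simpa using hl)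
    rw [Fin.sum_univ_succ]
    have h1 : flg (List.replicate (n + 1) true) (x :: q) a =
        (true && decide (x = a)) :: flg (List.replicate n true) q a := rfl
    rw [h1]
    have h2 : ∑ i : Fin n, (if (x :: q).getD (i.succ : ℕ) 0 = a then
        (y :: l).getD (i.succ : ℕ) 0 else 0) =
        ∑ i : Fin n, if q.getD i 0 = a then l.getD i 0 else 0 := by
      refine Finset.sum_congr rfl fun i _ => ?_
      rw [Fin.val_succ, List.getD_cons_succ, List.getD_cons_succ]
    rw [h2, ← ih]
    show fs ((true && decide (x = a)) :: flg (List.replicate n true) q a) (y :: l) =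
      (if x = a then y else 0) + fs (flg (List.replicate n true) q a) l
    by_cases h : x = a
    · rw [if_pos h, decide_eq_true h]
      rfl
    · rw [if_neg h, decide_eq_false h, zero_add]
      rfl

/-- the numeric label -/
def lab {n : ℕ} (p : Fin (n + 2) → Fin (n + 2)) (i : Fin (n + 2)) : ℕ :=
  if p i = p (Fin.last (n + 1)) then 0 else (p i).val + 1

theorem zmod_iff (m : ℕ) : (m : ZMod 5) = 0 ↔ m % 5 = 0 := by
  rw [ZMod.natCast_eq_zero_iff]
  omega

theorem sum_split {n : ℕ} (p : Fin (n + 2) → Fin (n + 2)) (l : List ℕ) (a : Fin (n + 2)) :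
    ∑ i, (if p i = a then vec n l i else 0) =
      ((if p 0 = a then 1 else 0) + ∑ i : Fin n, (if p i.castSucc.succ = a then
        ((l.getD i 0 : ℕ) : ZMod 5) else 0)) +
      (if p (Fin.last (n + 1)) = a then - (1 + (l.sum : ZMod 5)) else 0) := by
  rw [Fin.sum_univ_castSucc, Fin.sum_univ_succ]
  have h0 : vec n l (Fin.castSucc 0) = 1 := by
    unfold vec
    have e : (Fin.castSucc (0 : Fin (n + 1))).val = 0 := rfl
    rw [e, if_pos rfl]
  have h1 : vec n l (Fin.last (n + 1)) = - (1 + (l.sum : ZMod 5)) := by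
    unfold vec
    have e : (Fin.last (n + 1)).val = n + 1 := rfl
    rw [e, if_neg (by omega), if_pos rfl]
  have h2 : ∀ i : Fin n, vec n l (Fin.castSucc i.succ) = ((l.getD i 0 : ℕ) : ZMod 5) := by
    intro i
    unfold vec
    have h3 : (Fin.castSucc i.succ).val = i.val + 1 := rfl
    rw [h3, if_neg (by omega), if_neg (by omega), Nat.add_sub_cancel]
  rw [h0, h1]
  congr 2
  refine Finset.sum_congr rfl fun i _ => ?_
  rw [h2]
  rfl

theorem sum_getD : ∀ (n : ℕ) (l : List ℕ), l.length = n → ∑ i : Fin n, l.getD i 0 = l.sum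
  | 0, l, h => by
    rw [List.length_eq_zero_iff] at h
    subst h; rfl
  | n + 1, [], h => by simp at h
  | n + 1, x :: l, h => by
    rw [Fin.sum_univ_succ, List.sum_cons, ← sum_getD n l (by simpa using h)]
    rfl

theorem getD_q {n : ℕ} (g : Fin n → ℕ) (i : Fin n) : (List.ofFn g).getD i 0 = g i := by
  rw [List.getD_eq_getElem _ _ (by rw [List.length_ofFn]; exact i.2), List.getElem_ofFn]

/-- the list of the numeric labels -/
def qs {n : ℕ} (p : Fin (n + 2) → Fin (n + 2)) : List ℕ :=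
  List.ofFn (fun i : Fin n => lab p i.castSucc.succ)

theorem qs_length {n : ℕ} (p : Fin (n + 2) → Fin (n + 2)) : (qs p).length = n :=
  List.length_ofFn

/-- the class sum of a numeric label -/
def NN {n : ℕ} (p : Fin (n + 2) → Fin (n + 2)) (l : List ℕ) (a : ℕ) : ℕ :=
  (if lab p 0 = a then 1 else 0) +
    ∑ i : Fin n, (if lab p i.castSucc.succ = a then l.getD i 0 else 0)

theorem Zr_iff {n : ℕ} (p : Fin (n + 2) → Fin (n + 2)) (l : List ℕ) (hl : l.length = n) :
    Zr (lab p 0) (qs p) l ↔ ∀ a, a ≠ 0 → (NN p l a : ZMod 5) = 0 := by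
  unfold Zr
  refine forall_congr' fun a => imp_congr_right fun _ => ?_
  rw [qs_length, fsflg n (qs p) l a (qs_length p) hl, zmod_iff]
  have h : ∑ i : Fin n, (if (qs p).getD i 0 = a then l.getD i 0 else 0) =
      ∑ i : Fin n, (if lab p i.castSucc.succ = a then l.getD i 0 else 0) := by
    refine Finset.sum_congr rfl fun i _ => ?_
    rw [qs, getD_q]
  rw [h, NN]

theorem lab_iff {n : ℕ} (p : Fin (n + 2) → Fin (n + 2)) (a i : Fin (n + 2))
    (ha : a ≠ p (Fin.last (n + 1))) : lab p i = a.val + 1 ↔ p i = a := by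
  unfold lab
  by_cases h : p i = p (Fin.last (n + 1))
  · rw [if_pos h]
    constructor
    · intro h1; exact absurd h1.symm (Nat.succ_ne_zero _)
    · intro h1; exact absurd (h1.symm.trans h) ha
  · rw [if_neg h]
    constructor
    · intro h1; exact Fin.ext (Nat.succ_injective h1)
    · intro h1; rw [h1]

theorem class_eq {n : ℕ} (p : Fin (n + 2) → Fin (n + 2)) (l : List ℕ) (a : Fin (n + 2))
    (ha : a ≠ p (Fin.last (n + 1))) :
    ∑ i, (if p i = a then vec n l i else 0) = (NN p l (a.val + 1) : ZMod 5) := by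
  rw [sum_split, if_neg (Ne.symm ha), add_zero, NN]
  push_cast
  congr 1
  · exact if_congr (lab_iff p a 0 ha).symm rfl rfl
  · refine Finset.sum_congr rfl fun i _ => ?_
    exact if_congr (lab_iff p a _ ha).symm rfl rfl

theorem total {n : ℕ} (l : List ℕ) (hl : l.length = n) : ∑ i, vec n l i = 0 := by
  have h := sum_split (fun _ => (0 : Fin (n + 2))) l 0
  simp only [if_true] at h
  rw [h, ← Nat.cast_sum, sum_getD n l hl]
  ring

theorem zs_iff {n : ℕ} (p : Fin (n + 2) → Fin (n + 2)) (l : List ℕ) (hl : l.length = n) :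
    zs p (vec n l) ↔ Zr (lab p 0) (qs p) l := by
  rw [Zr_iff p l hl]
  constructor
  · intro h a ha
    by_cases hex : ∃ a' : Fin (n + 2), a' ≠ p (Fin.last (n + 1)) ∧ a = a'.val + 1
    · obtain ⟨a', h1, rfl⟩ := hex
      rw [← class_eq p l a' h1]
      exact h a'
    · have h0 : ∀ i, lab p i ≠ a := by
        intro i hi
        apply hex
        unfold lab at hi
        split_ifs at hi with h1
        · exact absurd hi.symm ha
        · exact ⟨p i, h1, hi.symm⟩
      unfold NN
      rw [if_neg (h0 0), Finset.sum_eq_zero fun i _ => if_neg (h0 _)]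
      simp
  · intro h
    have h1 : ∀ a : Fin (n + 2), a ≠ p (Fin.last (n + 1)) →
        ∑ i, (if p i = a then vec n l i else 0) = 0 := by
      intro a ha
      rw [class_eq p l a ha]
      exact h _ (by omega)
    have h2 : ∑ a, ∑ i, (if p i = a then vec n l i else 0) = 0 := by
      rw [Finset.sum_comm]
      refine Eq.trans (Finset.sum_congr rfl fun i _ => ?_) (total l hl)
      rw [Finset.sum_ite_eq]
      simp
    intro a
    by_cases ha : a = p (Fin.last (n + 1))
    · rw [Finset.sum_eq_single (p (Fin.last (n + 1))) (fun a _ ha => h1 a ha)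
        (fun h => absurd (Finset.mem_univ _) h)] at h2
      rw [ha]
      exact h2
    · exact h1 a ha

end KCert

theorem cert (hroot : St_root) : St_cert := by
  intro W K b n j Y hb hj hK hW hscan hr0 hrP
  obtain ⟨y, hY, hylt, hyz, hypos⟩ := scan_sound W b n Y hb hscan
  have h2b : 2 ^ (b + 1) = 2 * 2 ^ b := by ring
  have hKb : 2 ^ b < K := lt_of_le_of_lt (Nat.le_mul_of_pos_left _ (by positivity)) hK
  obtain ⟨G, hG⟩ : ∃ G : List ℕ → ℕ, G = fun l =>
    y l + (if (1 + l.sum) % 5 ≠ 0 then K + 1 - 2 ^ b else 0) := ⟨_, rfl⟩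
  have hshf : shf W K b n Y = pack W n G := by
    rw [hY]
    show pack W n y + (msk (K + 1 - 2 ^ b) W (List.replicate n true) 0 +
      (msk (K + 1 - 2 ^ b) W (List.replicate n true) 1 +
      (msk (K + 1 - 2 ^ b) W (List.replicate n true) 2 +
      msk (K + 1 - 2 ^ b) W (List.replicate n true) 3))) = pack W n G
    rw [msk_true _ _ _ _ (by omega), msk_true _ _ _ _ (by omega), msk_true _ _ _ _ (by omega),
      msk_true _ _ _ _ (by omega), ← packAdd, ← packAdd, ← packAdd, ← packAdd]
    refine packCongr W n _ _ fun l hl => ?_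
    rw [hG]
    show y l + _ = y l + _
    congr 1
    have h5 : l.sum % 5 < 5 := Nat.mod_lt _ (by norm_num)
    by_cases h : (1 + l.sum) % 5 ≠ 0
    · rw [if_pos h]
      obtain h6 | h6 | h6 | h6 : l.sum % 5 = 0 ∨ l.sum % 5 = 1 ∨ l.sum % 5 = 2 ∨
        l.sum % 5 = 3 := by omega
      all_goals simp [h6]
    · rw [if_neg h, if_neg (by omega), if_neg (by omega), if_neg (by omega), if_neg (by omega)]
  have hGle : ∀ l, Dg n l → G l ≤ K + 2 ^ b := by
    intro l hl
    have h1 := hylt l hl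
    rw [hG]
    show y l + _ ≤ K + 2 ^ b
    split_ifs <;> omega
  have hSS : SS n G < 2 ^ W := lt_of_le_of_lt (SS_le n G _ hGle) hW
  rw [hshf] at hr0 hrP
  have hdvd := hroot W K n j G hj hSS hr0 hrP
  refine ⟨fun l => (y l : ℤ) - (2 ^ b - 1), ?_, ?_⟩
  · intro l hl hv h4 h3 h2
    have h1 := hypos l hl hv h4 h3 h2
    have h5 : (2 : ℤ) ^ b ≤ (y l : ℤ) := by exact_mod_cast h1
    show (0 : ℤ) < (y l : ℤ) - (2 ^ b - 1)
    linarith
  · intro p
    have h1 := hdvd (lab p 0) (qs p) (qs_length p)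
    have h2 := Int.natCast_dvd_natCast.2 h1
    rw [SS_cast] at h2
    rw [SS_congr n _ (fun l =>
      (if (1 + l.sum) % 5 ≠ 0 ∧ zs p (vec n l) then ((y l : ℤ) - (2 ^ b - 1)) else 0) +
      (if (1 + l.sum) % 5 ≠ 0 ∧ zs p (vec n l) then (K : ℤ) else 0)) (by
        intro l hl
        have hiff := zs_iff p l hl.1
        by_cases hv : (1 + l.sum) % 5 ≠ 0
        · by_cases hz : zs p (vec n l)
          · rw [if_pos (hiff.1 hz), if_pos ⟨hv, hz⟩, if_pos ⟨hv, hz⟩, hG]
            show ((y l + (if (1 + l.sum) % 5 ≠ 0 then K + 1 - 2 ^ b else 0) : ℕ) : ℤ) = _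
            rw [if_pos hv]
            have h6 : ((K + 1 - 2 ^ b : ℕ) : ℤ) = (K : ℤ) + 1 - 2 ^ b := by
              rw [Nat.cast_sub (by omega)]
              push_cast
              ring
            rw [Nat.cast_add, h6]
            ring
          · have hno : ¬ ((1 + l.sum) % 5 ≠ 0 ∧ zs p (vec n l)) := fun h => hz h.2
            rw [if_neg (fun h => hz (hiff.2 h)), if_neg hno, if_neg hno]
            rfl
        · have hno : ¬ ((1 + l.sum) % 5 ≠ 0 ∧ zs p (vec n l)) := fun h => hv h.1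
          rw [if_neg hno, if_neg hno]
          have h7 : G l = 0 := by
            rw [hG]
            show y l + (if (1 + l.sum) % 5 ≠ 0 then K + 1 - 2 ^ b else 0) = 0
            rw [if_neg hv, hyz l hl (by omega)]
          rw [h7]
          split_ifs <;> rfl), SS_add] at h2
    have h4 : (K : ℤ) ∣ SS n (fun l =>
        if (1 + l.sum) % 5 ≠ 0 ∧ zs p (vec n l) then (K : ℤ) else 0) := by
      refine SS_dvd n _ _ fun l _ => ?_
      split_ifs
      · exact dvd_refl _
      · exact dvd_zero _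
    have h5 := (dvd_add_left h4).1 h2
    refine Int.eq_zero_of_abs_lt_dvd h5 (lt_of_le_of_lt (SS_abs_le n _ (2 ^ b) ?_)
      (by exact_mod_cast hK))
    intro l hl
    have h6 : (y l : ℤ) < 2 * 2 ^ b := by
      have h7 := hylt l hl
      rw [h2b] at h7
      exact_mod_cast h7
    have h7 : (0 : ℤ) ≤ (y l : ℤ) := Int.natCast_nonneg _
    have h8 : (0 : ℤ) < 2 ^ b := by positivity
    split_ifs
    · rw [abs_le]
      constructor <;> linarith
    · rw [abs_zero]
      exact h8.le

end Pool.Agent.Y335.FL
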