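import Pool.Agent.Y335.FL.Kst

set_option autoImplicit false
set_option linter.unusedSectionVars false

/-! # Soundness of the kernel check: the selected arrays, the divisions into blocks -/

namespace Pool.Agent.Y335.FL

open Finset Pool.Agent.TH676.Z

namespace KChk

lemma dg_nil : Dg 0 [] := ⟨rfl, by simp⟩

lemma dg_cons {n y : ℕ} {l : List ℕ} (h : Dg n l) (h1 : 1 ≤ y) (h4 : y ≤ 4) :
    Dg (n + 1) (y :: l) := by
  refine ⟨by simp [h.1], ?_⟩
  intro x hx
  rcases List.mem_cons.1 hx with rfl | hx
  · exact ⟨h1, h4⟩
  · exact h.2 x hx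

lemma SS_add {M : Type} [AddCommMonoid M] (n : ℕ) (f g : List ℕ → M) :
    SS n (fun l => f l + g l) = SS n f + SS n g := by
  induction n generalizing f g with
  | zero => rfl
  | succ n ih =>
    simp only [SS]
    rw [ih, ih, ih, ih]
    simp only [add_assoc, add_left_comm]

lemma SS_congr {M : Type} [AddCommMonoid M] (n : ℕ) (f g : List ℕ → M)
    (h : ∀ l, Dg n l → f l = g l) : SS n f = SS n g := by
  induction n generalizing f g with
  | zero => exact h [] dg_nil
  | succ n ih =>
    simp only [SS]
    rw [ih (fun l => f (1 :: l)) (fun l => g (1 :: l))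
        (fun l hl => h _ (dg_cons hl (by norm_num) (by norm_num))),
      ih (fun l => f (2 :: l)) (fun l => g (2 :: l))
        (fun l hl => h _ (dg_cons hl (by norm_num) (by norm_num))),
      ih (fun l => f (3 :: l)) (fun l => g (3 :: l))
        (fun l hl => h _ (dg_cons hl (by norm_num) (by norm_num))),
      ih (fun l => f (4 :: l)) (fun l => g (4 :: l))
        (fun l hl => h _ (dg_cons hl (by norm_num) (by norm_num)))]

lemma SS_mono (n : ℕ) (f g : List ℕ → ℕ) (h : ∀ l, f l ≤ g l) : SS n f ≤ SS n g := by
  induction n generalizing f g with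
  | zero => exact h []
  | succ n ih =>
    simp only [SS]
    have h1 := ih (fun l => f (1 :: l)) (fun l => g (1 :: l)) (fun l => h _)
    have h2 := ih (fun l => f (2 :: l)) (fun l => g (2 :: l)) (fun l => h _)
    have h3 := ih (fun l => f (3 :: l)) (fun l => g (3 :: l)) (fun l => h _)
    have h4 := ih (fun l => f (4 :: l)) (fun l => g (4 :: l)) (fun l => h _)
    omega

lemma SS_zero {M : Type} [AddCommMonoid M] (n : ℕ) : SS n (fun _ => (0 : M)) = 0 := by
  induction n with
  | zero => rfl
  | succ n ih =>
    simp only [SS]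
    rw [ih]
    simp

lemma le_SS : ∀ (n : ℕ) (G : List ℕ → ℕ) (l : List ℕ), Dg n l → G l ≤ SS n G
  | 0, G, l, h => by
    have : l = [] := List.length_eq_zero_iff.1 h.1
    subst this
    exact le_rfl
  | n + 1, G, [], h => by simp [Dg] at h
  | n + 1, G, y :: l, h => by
    have hl : Dg n l := ⟨by simpa using h.1, fun x hx => h.2 x (List.mem_cons_of_mem _ hx)⟩
    obtain ⟨a, b⟩ := h.2 y (by simp)
    have h1 := le_SS n (fun l => G (1 :: l)) l hl
    have h2 := le_SS n (fun l => G (2 :: l)) l hl
    have h3 := le_SS n (fun l => G (3 :: l)) l hl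
    have h4 := le_SS n (fun l => G (4 :: l)) l hl
    simp only [SS]
    interval_cases y <;> omega

/-! ### slices -/

lemma S4_eq (s a b c d : ℕ) : S4 s a b c d = a + 2 ^ s * (b + 2 ^ s * (c + 2 ^ s * d)) := by
  show a + (b <<< s + (c <<< (2 * s) + d <<< (3 * s))) = _
  simp only [Nat.shiftLeft_eq]
  rw [show 2 * s = s + s by ring, show 3 * s = s + s + s by ring, pow_add, pow_add, pow_add]
  ring

lemma land_low (s a t m : ℕ) (ha : a < 2 ^ s) (hm : m < 2 ^ s) :
    (a + 2 ^ s * t) &&& m = a &&& m := by
  have h1 : (a + 2 ^ s * t) &&& m < 2 ^ s := Nat.and_lt_two_pow _ hm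
  have h2 : ((a + 2 ^ s * t) &&& m) % 2 ^ s = ((a + 2 ^ s * t) % 2 ^ s) &&& (m % 2 ^ s) :=
    Nat.and_mod_two_pow
  rw [Nat.mod_eq_of_lt h1, Nat.mod_eq_of_lt hm, Nat.add_mul_mod_self_left,
    Nat.mod_eq_of_lt ha] at h2
  exact h2

lemma shr_step (s a t : ℕ) (ha : a < 2 ^ s) : (a + 2 ^ s * t) >>> s = t := by
  rw [Nat.shiftRight_eq_div_pow, Nat.add_mul_div_left _ _ (Nat.two_pow_pos s),
    Nat.div_eq_of_lt ha, zero_add]

/-! ### the enumeration of the flags -/

/-- the flags of the positions which do not have the label `a` -/
def cfl (us : List Bool) (q : List ℕ) (a : ℕ) : List Bool :=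
  List.zipWith (fun u x => u && !decide (x = a)) us q

lemma flg_length {us : List Bool} {q : List ℕ} (h : us.length = q.length) (a : ℕ) :
    (flg us q a).length = q.length := by
  simp [flg, h]

lemma cfl_length {us : List Bool} {q : List ℕ} (h : us.length = q.length) (a : ℕ) :
    (cfl us q a).length = q.length := by
  simp [cfl, h]

lemma go_spec : ∀ (us : List Bool) (q : List ℕ) (f : List Bool → List Bool → Bool) (a : ℕ),
    us.length = q.length → go us f = true → f (flg us q a) (cfl us q a) = true
  | [], [], f, a, _, h => by simpa [go, flg, cfl] using h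
  | [], _ :: _, f, a, h, _ => by simp at h
  | _ :: _, [], f, a, h, _ => by simp at h
  | false :: us, x :: q, f, a, hl, h => by
    have hl' : us.length = q.length := by simpa using hl
    simp only [go] at h
    have := go_spec us q _ a hl' h
    simpa [flg, cfl] using this
  | true :: us, x :: q, f, a, hl, h => by
    have hl' : us.length = q.length := by simpa using hl
    simp only [go, Bool.and_eq_true] at h
    by_cases hx : x = a
    · have := go_spec us q _ a hl' h.2
      simpa [flg, cfl, hx] using this
    · have := go_spec us q _ a hl' h.1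
      simpa [flg, cfl, hx] using this

/-- the label `b ≠ a` does not see the removal of the positions with the label `a` -/
lemma flg_cfl_ne : ∀ (us : List Bool) (q : List ℕ) (a b : ℕ), b ≠ a →
    flg (cfl us q a) q b = flg us q b
  | [], _, a, b, _ => by simp [flg, cfl]
  | _ :: _, [], a, b, _ => by simp [flg, cfl]
  | u :: us, x :: q, a, b, h => by
    have ih := flg_cfl_ne us q a b h
    simp only [flg, cfl, List.zipWith_cons_cons] at ih ⊢
    rw [ih]
    congr 1
    by_cases hx : x = b
    · have : x ≠ a := fun h' => h (hx.symm.trans h')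
      simp [hx, h]
    · simp [hx]

lemma fs_flg_cfl_self : ∀ (us : List Bool) (q : List ℕ) (a : ℕ) (l : List ℕ),
    fs (flg (cfl us q a) q a) l = 0
  | [], _, a, l => by simp [flg, cfl, fs]
  | _ :: _, [], a, l => by simp [flg, cfl, fs]
  | u :: us, x :: q, a, [] => by simp [flg, cfl, fs]
  | u :: us, x :: q, a, y :: l => by
    have ih := fs_flg_cfl_self us q a l
    simp only [flg, cfl, List.zipWith_cons_cons] at ih ⊢
    have : (u && !decide (x = a) && decide (x = a)) = false := by
      by_cases hx : x = a <;> simp [hx]
    rw [this]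
    simpa [fs] using ih

lemma Zc_nil : Zc [] [] [] := fun a _ => by simp [flg, fs]

lemma Zc_false (us : List Bool) (a : ℕ) (q : List ℕ) (y : ℕ) (l : List ℕ) :
    Zc (false :: us) (a :: q) (y :: l) ↔ Zc us q l := by
  simp [Zc, flg, fs]

lemma Zc_zero (us : List Bool) (q : List ℕ) (y : ℕ) (l : List ℕ) :
    Zc (true :: us) (0 :: q) (y :: l) ↔ Zc us q l := by
  unfold Zc
  refine forall_congr' fun a => ?_
  constructor
  · intro h ha
    have := h ha
    simpa [flg, fs, Ne.symm ha] using this
  · intro h ha
    have := h ha
    simpa [flg, fs, Ne.symm ha] using this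

lemma Zc_cfl (us : List Bool) (q : List ℕ) (a : ℕ) (l : List ℕ) :
    Zc (cfl us q a) q l ↔ ∀ b, b ≠ 0 → b ≠ a → fs (flg us q b) l % 5 = 0 := by
  constructor
  · intro h b hb hba
    have := h b hb
    rwa [flg_cfl_ne us q a b hba] at this
  · intro h b hb
    by_cases hba : b = a
    · rw [hba, fs_flg_cfl_self]
    · rw [flg_cfl_ne us q a b hba]
      exact h b hb hba

lemma Zc_true (us : List Bool) (a : ℕ) (q : List ℕ) (y : ℕ) (l : List ℕ) (ha : a ≠ 0) :
    Zc (true :: us) (a :: q) (y :: l) ↔
      (y + fs (flg us q a) l) % 5 = 0 ∧ Zc (cfl us q a) q l := by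
  rw [Zc_cfl]
  constructor
  · intro h
    refine ⟨?_, ?_⟩
    · have := h a ha
      simpa [flg, fs] using this
    · intro b hb hba
      have := h b hb
      simpa [flg, fs, Ne.symm hba] using this
  · rintro ⟨h1, h2⟩ b hb
    by_cases hba : b = a
    · subst hba
      simpa [flg, fs] using h1
    · have := h2 b hb hba
      simpa [flg, fs, Ne.symm hba] using this

end KChk

open KChk

theorem sel_pack : St_packCongr → St_packAdd → St_packLt → St_packLand → St_msk → St_sel := by
  intro hC hA hL hLand hM W n G fl hfl hG
  have hm : ∀ r, r < 5 → msk (2 ^ W - 1) W fl r =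
      pack W n (fun l => if fs fl l % 5 = r then 2 ^ W - 1 else 0) := by
    intro r hr
    rw [hM _ _ _ _ hr, hfl]
  have hpos : 0 < 2 ^ W := Nat.two_pow_pos W
  have hmlt : ∀ r, ∀ l, Dg n l → (if fs fl l % 5 = r then 2 ^ W - 1 else 0) < 2 ^ W := by
    intro r l _
    split_ifs <;> omega
  have key : ∀ y r, 1 ≤ y → y ≤ 4 → r + y = 5 →
      Nat.land (pack W n (fun l => G (y :: l))) (msk (2 ^ W - 1) W fl r) =
        pack W n (fun l => if (y + fs fl l) % 5 = 0 then G (y :: l) else 0) := by
    intro y r h1 h4 hr
    have hGy : ∀ l, Dg n l → G (y :: l) < 2 ^ W := fun l hl => hG _ (dg_cons hl h1 h4)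
    rw [hm r (by omega), hLand W n _ _ hGy (hmlt r)]
    refine hC _ _ _ _ fun l hl => ?_
    by_cases h : fs fl l % 5 = r
    · have h' : (y + fs fl l) % 5 = 0 := by omega
      rw [if_pos h, if_pos h']
      exact Nat.and_two_pow_sub_one_of_lt_two_pow (hGy l hl)
    · have h' : ¬ (y + fs fl l) % 5 = 0 := by omega
      rw [if_neg h, if_neg h']
      exact Nat.and_zero _
  have hp : ∀ y, 1 ≤ y → y ≤ 4 → pack W n (fun l => G (y :: l)) < 2 ^ (W * 4 ^ n) :=
    fun y h1 h4 => hL W n _ fun l hl => hG _ (dg_cons hl h1 h4)
  have hml : ∀ r, r < 5 → msk (2 ^ W - 1) W fl r < 2 ^ (W * 4 ^ n) := by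
    intro r hr
    rw [hm r hr]
    exact hL W n _ (hmlt r)
  have hX : pack W (n + 1) G = pack W n (fun l => G (1 :: l)) + 2 ^ (W * 4 ^ n) *
      (pack W n (fun l => G (2 :: l)) + 2 ^ (W * 4 ^ n) *
        (pack W n (fun l => G (3 :: l)) + 2 ^ (W * 4 ^ n) * pack W n (fun l => G (4 :: l)))) := by
    have : pack W (n + 1) G = S4 (W * 4 ^ n) (pack W n (fun l => G (1 :: l)))
      (pack W n (fun l => G (2 :: l))) (pack W n (fun l => G (3 :: l)))
      (pack W n (fun l => G (4 :: l))) := rfl
    rw [this, S4_eq]
  have e1 : Nat.land (pack W (n + 1) G) (msk (2 ^ W - 1) W fl 4) =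
      pack W n (fun l => if (1 + fs fl l) % 5 = 0 then G (1 :: l) else 0) := by
    rw [← key 1 4 (by norm_num) (by norm_num) rfl, hX]
    exact land_low _ _ _ _ (hp 1 (by norm_num) (by norm_num)) (hml 4 (by norm_num))
  have e2 : Nat.land (Nat.shiftRight (pack W (n + 1) G) (W * 4 ^ n)) (msk (2 ^ W - 1) W fl 3) =
      pack W n (fun l => if (2 + fs fl l) % 5 = 0 then G (2 :: l) else 0) := by
    rw [← key 2 3 (by norm_num) (by norm_num) rfl, hX]
    have : Nat.shiftRight (pack W n (fun l => G (1 :: l)) + 2 ^ (W * 4 ^ n) *
      (pack W n (fun l => G (2 :: l)) + 2 ^ (W * 4 ^ n) *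
        (pack W n (fun l => G (3 :: l)) + 2 ^ (W * 4 ^ n) * pack W n (fun l => G (4 :: l)))))
        (W * 4 ^ n) = _ := shr_step _ _ _ (hp 1 (by norm_num) (by norm_num))
    rw [this]
    exact land_low _ _ _ _ (hp 2 (by norm_num) (by norm_num)) (hml 3 (by norm_num))
  have e3 : Nat.land (Nat.shiftRight (pack W (n + 1) G) (2 * (W * 4 ^ n)))
      (msk (2 ^ W - 1) W fl 2) =
      pack W n (fun l => if (3 + fs fl l) % 5 = 0 then G (3 :: l) else 0) := by
    rw [← key 3 2 (by norm_num) (by norm_num) rfl, hX]
    have : Nat.shiftRight (pack W n (fun l => G (1 :: l)) + 2 ^ (W * 4 ^ n) *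
      (pack W n (fun l => G (2 :: l)) + 2 ^ (W * 4 ^ n) *
        (pack W n (fun l => G (3 :: l)) + 2 ^ (W * 4 ^ n) * pack W n (fun l => G (4 :: l)))))
        (2 * (W * 4 ^ n)) = pack W n (fun l => G (3 :: l)) + 2 ^ (W * 4 ^ n) *
          pack W n (fun l => G (4 :: l)) := by
      show _ >>> (2 * (W * 4 ^ n)) = _
      rw [two_mul, Nat.shiftRight_add, shr_step _ _ _ (hp 1 (by norm_num) (by norm_num)),
        shr_step _ _ _ (hp 2 (by norm_num) (by norm_num))]
    rw [this]
    exact land_low _ _ _ _ (hp 3 (by norm_num) (by norm_num)) (hml 2 (by norm_num))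
  have e4 : Nat.land (Nat.shiftRight (pack W (n + 1) G) (3 * (W * 4 ^ n)))
      (msk (2 ^ W - 1) W fl 1) =
      pack W n (fun l => if (4 + fs fl l) % 5 = 0 then G (4 :: l) else 0) := by
    rw [← key 4 1 (by norm_num) (by norm_num) rfl, hX]
    have : Nat.shiftRight (pack W n (fun l => G (1 :: l)) + 2 ^ (W * 4 ^ n) *
      (pack W n (fun l => G (2 :: l)) + 2 ^ (W * 4 ^ n) *
        (pack W n (fun l => G (3 :: l)) + 2 ^ (W * 4 ^ n) * pack W n (fun l => G (4 :: l)))))
        (3 * (W * 4 ^ n)) = pack W n (fun l => G (4 :: l)) := by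
      show _ >>> (3 * (W * 4 ^ n)) = _
      rw [show 3 * (W * 4 ^ n) = W * 4 ^ n + W * 4 ^ n + W * 4 ^ n by ring, Nat.shiftRight_add,
        Nat.shiftRight_add, shr_step _ _ _ (hp 1 (by norm_num) (by norm_num)),
        shr_step _ _ _ (hp 2 (by norm_num) (by norm_num)),
        shr_step _ _ _ (hp 3 (by norm_num) (by norm_num))]
    rw [this]
  have hsel : sel W (W * 4 ^ n) (pack W (n + 1) G) fl =
      Nat.land (pack W (n + 1) G) (msk (2 ^ W - 1) W fl 4) +
      (Nat.land (Nat.shiftRight (pack W (n + 1) G) (W * 4 ^ n)) (msk (2 ^ W - 1) W fl 3) +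
      (Nat.land (Nat.shiftRight (pack W (n + 1) G) (2 * (W * 4 ^ n))) (msk (2 ^ W - 1) W fl 2) +
        Nat.land (Nat.shiftRight (pack W (n + 1) G) (3 * (W * 4 ^ n)))
          (msk (2 ^ W - 1) W fl 1))) := rfl
  rw [hsel, e1, e2, e3, e4, ← hA, ← hA, ← hA]

open Classical in
theorem chk_sound : St_packCongr → St_packInj → St_fold → St_sel → St_chk := by
  intro hC hI hF hS W K n
  induction n with
  | zero =>
    intro us G hus _ h q hq
    have hus' : us = [] := List.length_eq_zero_iff.1 hus
    have hq' : q = [] := List.length_eq_zero_iff.1 hq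
    subst hus' hq'
    have h' : Nat.beq (Nat.mod (G []) K) 0 = true := h
    have h'' : (G []) % K = 0 := Nat.eq_of_beq_eq_true h'
    show K ∣ (if Zc [] [] [] then G [] else 0)
    rw [if_pos Zc_nil]
    exact Nat.dvd_of_mod_eq_zero h''
  | succ n ih =>
    intro us G hus hsum h q hq
    have hG : ∀ l, Dg (n + 1) l → G l < 2 ^ W := fun l hl => lt_of_le_of_lt (le_SS _ _ _ hl) hsum
    obtain ⟨u0, us', rfl⟩ : ∃ u0 us', us = u0 :: us' := by
      cases us with
      | nil => simp at hus
      | cons a b => exact ⟨a, b, rfl⟩
    obtain ⟨a0, q', rfl⟩ : ∃ a0 q', q = a0 :: q' := by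
      cases q with
      | nil => simp at hq
      | cons a b => exact ⟨a, b, rfl⟩
    have hus' : us'.length = n := by simpa using hus
    have hq' : q'.length = n := by simpa using hq
    -- the folded array
    have hfsum : SS n (fun l => G (1 :: l) + (G (2 :: l) + (G (3 :: l) + G (4 :: l)))) =
        SS (n + 1) G := by
      rw [SS_add, SS_add, SS_add]
      rfl
    have hfold : chk W K n us' (fold (W * 4 ^ n) (pack W (n + 1) G)) = true →
        K ∣ SS n (fun l => if Zc us' q' l then
          G (1 :: l) + (G (2 :: l) + (G (3 :: l) + G (4 :: l))) else 0) := by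
      intro hc
      rw [hF W n G hG] at hc
      exact ih us' _ hus' (by rw [hfsum]; exact hsum) hc q' hq'
    have hgoal : ∀ Q : List ℕ → Prop, (∀ y l, Zc (u0 :: us') (a0 :: q') (y :: l) ↔ Q l) →
        SS (n + 1) (fun l => if Zc (u0 :: us') (a0 :: q') l then G l else 0) =
        SS n (fun l => if Q l then
          G (1 :: l) + (G (2 :: l) + (G (3 :: l) + G (4 :: l))) else 0) := by
      intro Q hQ
      have : ∀ l, (if Q l then G (1 :: l) + (G (2 :: l) + (G (3 :: l) + G (4 :: l))) else 0) =
          (if Zc (u0 :: us') (a0 :: q') (1 :: l) then G (1 :: l) else 0) +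
          ((if Zc (u0 :: us') (a0 :: q') (2 :: l) then G (2 :: l) else 0) +
          ((if Zc (u0 :: us') (a0 :: q') (3 :: l) then G (3 :: l) else 0) +
          (if Zc (u0 :: us') (a0 :: q') (4 :: l) then G (4 :: l) else 0))) := by
        intro l
        by_cases hq : Q l
        · rw [if_pos hq, if_pos ((hQ 1 l).2 hq), if_pos ((hQ 2 l).2 hq), if_pos ((hQ 3 l).2 hq),
            if_pos ((hQ 4 l).2 hq)]
        · rw [if_neg hq, if_neg (fun h => hq ((hQ 1 l).1 h)), if_neg (fun h => hq ((hQ 2 l).1 h)),
            if_neg (fun h => hq ((hQ 3 l).1 h)), if_neg (fun h => hq ((hQ 4 l).1 h))]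
      simp only [this]
      rw [SS_add, SS_add, SS_add]
      rfl
    cases u0 with
    | false =>
      have h' : chk W K n us' (fold (W * 4 ^ n) (pack W (n + 1) G)) = true := h
      rw [hgoal (fun l => Zc us' q' l) (fun y l => Zc_false us' a0 q' y l)]
      exact hfold h'
    | true =>
      have h' : ((chk W K n us' (fold (W * 4 ^ n) (pack W (n + 1) G))) &&
        go us' (fun fl u => (Nat.beq (sel W (W * 4 ^ n) (pack W (n + 1) G) fl) 0) ||
        (chk W K n u (sel W (W * 4 ^ n) (pack W (n + 1) G) fl)))) = true := h
      rw [Bool.and_eq_true] at h'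
      by_cases ha : a0 = 0
      · subst ha
        rw [hgoal (fun l => Zc us' q' l) (fun y l => Zc_zero us' q' y l)]
        exact hfold h'.1
      · have hgo := go_spec us' q' _ a0 (hus'.trans hq'.symm) h'.2
        have hfl : (flg us' q' a0).length = n := (flg_length (hus'.trans hq'.symm) a0).trans hq'
        have hul : (cfl us' q' a0).length = n := (cfl_length (hus'.trans hq'.symm) a0).trans hq'
        simp only [hS W n G _ hfl hG] at hgo
        set G' : List ℕ → ℕ := fun l => (if (1 + fs (flg us' q' a0) l) % 5 = 0 then G (1 :: l)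
          else 0) + ((if (2 + fs (flg us' q' a0) l) % 5 = 0 then G (2 :: l) else 0) +
          ((if (3 + fs (flg us' q' a0) l) % 5 = 0 then G (3 :: l) else 0) +
          (if (4 + fs (flg us' q' a0) l) % 5 = 0 then G (4 :: l) else 0))) with hG'
        have hsum' : SS n G' < 2 ^ W := by
          refine lt_of_le_of_lt ?_ hsum
          rw [← hfsum]
          refine SS_mono _ _ _ fun l => ?_
          simp only [hG']
          split_ifs <;> omega
        have hres : SS (n + 1) (fun l => if Zc (true :: us') (a0 :: q') l then G l else 0) =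
            SS n (fun l => if Zc (cfl us' q' a0) q' l then G' l else 0) := by
          have : ∀ l, (if Zc (cfl us' q' a0) q' l then G' l else 0) =
            (if Zc (true :: us') (a0 :: q') (1 :: l) then G (1 :: l) else 0) +
            ((if Zc (true :: us') (a0 :: q') (2 :: l) then G (2 :: l) else 0) +
            ((if Zc (true :: us') (a0 :: q') (3 :: l) then G (3 :: l) else 0) +
            (if Zc (true :: us') (a0 :: q') (4 :: l) then G (4 :: l) else 0))) := by
            intro l
            by_cases hq : Zc (cfl us' q' a0) q' l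
            · have hy : ∀ y, (if Zc (true :: us') (a0 :: q') (y :: l) then G (y :: l) else 0) =
                  (if (y + fs (flg us' q' a0) l) % 5 = 0 then G (y :: l) else 0) := by
                intro y
                refine if_congr ?_ rfl rfl
                rw [Zc_true us' a0 q' y l ha]
                exact ⟨fun h => h.1, fun h => ⟨h, hq⟩⟩
              rw [if_pos hq, hy, hy, hy, hy]
            · have hy : ∀ y, (if Zc (true :: us') (a0 :: q') (y :: l) then G (y :: l) else 0) =
                  0 := by
                intro y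
                refine if_neg ?_
                rw [Zc_true us' a0 q' y l ha]
                exact fun h => hq h.2
              rw [if_neg hq, hy, hy, hy, hy]
          simp only [this]
          rw [SS_add, SS_add, SS_add]
          rfl
        rw [hres]
        rw [Bool.or_eq_true] at hgo
        rcases hgo with h0 | h1
        · have h0' : pack W n G' = 0 := Nat.eq_of_beq_eq_true h0
          have hz : pack W n (fun _ => 0) = 0 := by
            clear * -
            induction n with
            | zero => rfl
            | succ n ih =>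
              have : pack W (n + 1) (fun _ => 0) = S4 (W * 4 ^ n) (pack W n (fun _ => 0))
                (pack W n (fun _ => 0)) (pack W n (fun _ => 0)) (pack W n (fun _ => 0)) := rfl
              rw [this, ih, S4_eq]
              simp
          have hall := hI W n G' (fun _ => 0)
            (fun l hl => lt_of_le_of_lt (le_SS _ _ _ hl) hsum') (fun _ _ => Nat.two_pow_pos W)
            (h0'.trans hz.symm)
          rw [SS_congr n _ (fun _ => 0) (fun l hl => by
            have := hall l hl
            rw [this]
            simp), SS_zero]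
          exact dvd_zero K
        · exact ih (cfl us' q' a0) G' hul hsum' h1 q' hq'

open Classical in
theorem root_sound : St_packCongr → St_packLand → St_packInj → St_msk → St_chk → St_root := by
  intro hC hLand hI hM hchk W K n j G hj hsum h0 hP p0 q hq
  have hpos : 0 < 2 ^ W := Nat.two_pow_pos W
  have hG : ∀ l, Dg n l → G l < 2 ^ W := fun l hl => lt_of_le_of_lt (le_SS _ _ _ hl) hsum
  have hrep : (List.replicate n true).length = q.length := by simp [hq]
  by_cases hp : p0 = 0
  · subst hp
    have h0' : chk W K n (List.replicate n true) (pack W n G) = true := h0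
    have := hchk W K n _ G (by simp) hsum h0' q hq
    have e : ∀ l, Zr 0 q l ↔ Zc (List.replicate n true) q l := by
      intro l
      unfold Zr Zc
      refine forall_congr' fun a => ?_
      rw [hq]
      constructor
      · intro h ha
        have := h ha
        rwa [if_neg (Ne.symm ha), zero_add] at this
      · intro h ha
        rw [if_neg (Ne.symm ha), zero_add]
        exact h ha
    simp only [e]
    exact this
  · -- the flags of the label `p0`
    have flg_rep : ∀ (q : List ℕ) (a : ℕ), flg (List.replicate q.length true) q a =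
        q.map (fun x => decide (x = a)) := by
      intro q a
      induction q with
      | nil => rfl
      | cons x q ih =>
        simp only [flg, List.length_cons, List.replicate_succ, List.zipWith_cons_cons,
          List.map_cons, Bool.true_and] at ih ⊢
        rw [ih]
    have cfl_rep : ∀ (q : List ℕ) (a : ℕ), cfl (List.replicate q.length true) q a =
        q.map (fun x => !decide (x = a)) := by
      intro q a
      induction q with
      | nil => rfl
      | cons x q ih =>
        simp only [cfl, List.length_cons, List.replicate_succ, List.zipWith_cons_cons,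
          List.map_cons, Bool.true_and] at ih ⊢
        rw [ih]
    set P : List Bool := (q.take j).map (fun x => decide (x = p0)) with hPdef
    have hPl : P.length = j := by
      simp only [hPdef, List.length_map, List.length_take, hq]
      omega
    have hroot := hP P hPl
    have hroot' : go (List.replicate (n - P.length) true) (fun fl u =>
      (Nat.beq (Nat.land (pack W n G) (msk (2 ^ W - 1) W (P ++ fl) 4)) 0) ||
      (chk W K n (P.map not ++ u) (Nat.land (pack W n G)
        (msk (2 ^ W - 1) W (P ++ fl) 4)))) = true := hroot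
    have hdl : (q.drop j).length = n - P.length := by rw [List.length_drop, hq, hPl]
    have hgo := go_spec (List.replicate (n - P.length) true) (q.drop j) _ p0
      (by rw [hdl]; simp) hroot'
    rw [← hdl, flg_rep, cfl_rep] at hgo
    have e1 : P ++ (q.drop j).map (fun x => decide (x = p0)) =
        q.map (fun x => decide (x = p0)) := by
      rw [hPdef, ← List.map_append, List.take_append_drop]
    have e2 : P.map not ++ (q.drop j).map (fun x => !decide (x = p0)) =
        q.map (fun x => !decide (x = p0)) := by
      have : P.map not = (q.take j).map (fun x => !decide (x = p0)) := by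
        rw [hPdef, List.map_map]
        rfl
      rw [this, ← List.map_append, List.take_append_drop]
    rw [e1, e2, ← flg_rep, ← cfl_rep, hq] at hgo
    set fl := flg (List.replicate n true) q p0 with hfl
    set u := cfl (List.replicate n true) q p0 with hu
    have hfll : fl.length = n := (flg_length hrep p0).trans hq
    have hul : u.length = n := (cfl_length hrep p0).trans hq
    set G' : List ℕ → ℕ := fun l => if fs fl l % 5 = 4 then G l else 0 with hG'
    have hland : Nat.land (pack W n G) (msk (2 ^ W - 1) W fl 4) = pack W n G' := by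
      rw [hM _ _ _ _ (by norm_num), hfll, hLand W n _ _ hG (fun l _ => by split_ifs <;> omega)]
      refine hC _ _ _ _ fun l hl => ?_
      by_cases h : fs fl l % 5 = 4
      · simp only [hG', if_pos h]
        exact Nat.and_two_pow_sub_one_of_lt_two_pow (hG l hl)
      · simp only [hG', if_neg h]
        exact Nat.and_zero _
    have hsum' : SS n G' < 2 ^ W := by
      refine lt_of_le_of_lt (SS_mono _ _ _ fun l => ?_) hsum
      simp only [hG']
      split_ifs <;> omega
    have hres : ∀ l, (if Zr p0 q l then G l else 0) = (if Zc u q l then G' l else 0) := by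
      intro l
      have hZ : Zr p0 q l ↔ fs fl l % 5 = 4 ∧ Zc u q l := by
        rw [hu, Zc_cfl]
        unfold Zr
        rw [hq]
        constructor
        · intro h
          refine ⟨?_, ?_⟩
          · have := h p0 hp
            rw [if_pos rfl, ← hfl] at this
            omega
          · intro b hb hbp
            have := h b hb
            rwa [if_neg (Ne.symm hbp), zero_add] at this
        · rintro ⟨h1, h2⟩ b hb
          by_cases hbp : b = p0
          · rw [hbp, if_pos rfl, ← hfl]
            omega
          · rw [if_neg (Ne.symm hbp), zero_add]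
            exact h2 b hb hbp
      by_cases hz : Zc u q l
      · rw [if_pos hz]
        refine if_congr ?_ rfl rfl
        rw [hZ]
        exact ⟨fun h => h.1, fun h => ⟨h, hz⟩⟩
      · rw [if_neg hz, if_neg]
        rw [hZ]
        exact fun h => hz h.2
    simp only [hres]
    rw [hland, Bool.or_eq_true] at hgo
    rcases hgo with h0 | h1
    · have h0' : pack W n G' = 0 := Nat.eq_of_beq_eq_true h0
      have hz : pack W n (fun _ => 0) = 0 := by
        clear * -
        induction n with
        | zero => rfl
        | succ n ih =>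
          have : pack W (n + 1) (fun _ => 0) = S4 (W * 4 ^ n) (pack W n (fun _ => 0))
            (pack W n (fun _ => 0)) (pack W n (fun _ => 0)) (pack W n (fun _ => 0)) := rfl
          rw [this, ih, S4_eq]
          simp
      have hall := hI W n G' (fun _ => 0)
        (fun l hl => lt_of_le_of_lt (le_SS _ _ _ hl) hsum') (fun _ _ => hpos)
        (h0'.trans hz.symm)
      rw [SS_congr n _ (fun _ => 0) (fun l hl => by
        have := hall l hl
        rw [this]
        simp), SS_zero]
      exact dvd_zero K
    · exact hchk W K n u G' hul hsum' h1 q hq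

end Pool.Agent.Y335.FL
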