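import Pool.Agent.Y335.FL.Kst
import Pool.Agent.TH676.Z.Lin

set_option autoImplicit false
set_option linter.unusedSectionVars false

/-! # From a certificate to the core statement (K6) -/

namespace Pool.Agent.Y335.FL

open Finset Pool.Agent.TH676.Z

namespace KC

theorem fact5 : Fact (Nat.Prime 5) := ⟨by norm_num⟩

section flows

variable {V E : Type} [Fintype V] [DecidableEq V] [Fintype E] [DecidableEq E]

theorem sum_bd (src dst : E → V) (g : E → ZMod 5) : ∑ x, bd src dst g x = 0 := by
  unfold bd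
  rw [sum_comm]
  refine sum_eq_zero fun e _ => ?_
  rw [sum_sub_distrib]
  simp

theorem sum_dem {n : ℕ} (v : Fin n → V) (s : Fin n → ZMod 5) :
    ∑ x, dem v s x = ∑ i, s i := by
  unfold dem
  rw [sum_comm]
  refine sum_congr rfl fun i _ => ?_
  simp

theorem cnt_sum {src dst : E → V} {C : Finset E} {n : ℕ} {v : Fin n → V}
    {s : Fin n → ZMod 5} (h : cnt src dst C v s ≠ 0) : ∑ i, s i = 0 := by
  classical
  unfold cnt at h
  rw [Finset.card_ne_zero] at h
  obtain ⟨g, hg⟩ := h
  rw [mem_filter] at hg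
  rw [← sum_dem v s, ← sum_bd src dst g]
  exact sum_congr rfl fun x _ => (hg.2.2.2 x).symm

theorem cnt_smul {src dst : E → V} {C : Finset E} {n : ℕ} {v : Fin n → V}
    {s : Fin n → ZMod 5} (u : ZMod 5) (hu : u ≠ 0) (h : cnt src dst C v s ≠ 0) :
    cnt src dst C v (fun i => u * s i) ≠ 0 := by
  classical
  have := fact5
  unfold cnt at h ⊢
  rw [Finset.card_ne_zero] at h ⊢
  obtain ⟨g, hg⟩ := h
  rw [mem_filter] at hg
  obtain ⟨_, h1, h2, h3⟩ := hg
  refine ⟨fun e => u * g e, ?_⟩
  rw [mem_filter]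
  refine ⟨mem_univ _, ?_, ?_, ?_⟩
  · intro e he
    change u * g e = 0
    rw [h1 e he, mul_zero]
  · intro e he
    exact mul_ne_zero hu (h2 e he)
  · intro x
    rw [Three.bd_smul, h3 x]
    unfold dem
    rw [mul_sum]
    refine sum_congr rfl fun i _ => ?_
    split_ifs
    · rfl
    · exact mul_zero u

end flows

theorem fit_of {n : ℕ} (s P : Fin (n + 1) → ZMod 5) (h0 : P 0 = s 0)
    (hs : ∀ i : Fin n, P i.succ = P i.castSucc + s i.succ) (hl : P (Fin.last n) = 0)
    (t : ZMod 5) (ht : ∀ i, P i ≠ t) : Fit s := by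
  refine ⟨fun i => t - P i, fun i => sub_ne_zero.2 (ht i).symm, fun i => ?_⟩
  change (t - P (i - 1)) - (t - P i) = s i
  induction i using Fin.cases with
  | zero =>
    have e1 : (0 - 1 : Fin (n + 1)) = Fin.last n := by
      rw [zero_sub]
      apply Fin.ext
      rw [Fin.val_last]
      exact Fin.coe_neg_one
    rw [e1, hl, h0]
    ring
  | succ j =>
    have e1 : (j.succ - 1 : Fin (n + 1)) = j.castSucc := by
      rw [sub_eq_iff_eq_add]
      exact Fin.coeSucc_eq_succ.symm
    rw [e1, hs j]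
    ring

/-- the partial sums -/
def pre {n : ℕ} (s : Fin (n + 1) → ZMod 5) (k : ℕ) : ZMod 5 :=
  ∑ j ∈ range k, if h : j < n + 1 then s ⟨j, h⟩ else 0

theorem pre_last {n : ℕ} (s : Fin (n + 1) → ZMod 5) : pre s (n + 1) = ∑ i, s i := by
  unfold pre
  rw [Finset.sum_range]
  refine sum_congr rfl fun i _ => ?_
  rw [dif_pos i.isLt]

theorem fit_small {n : ℕ} (hn : n ≤ 3) (s : Fin (n + 1) → ZMod 5) (hs : ∑ i, s i = 0) :
    Fit s := by
  have h1 : ∃ t, ∀ i : Fin (n + 1), pre s (i.val + 1) ≠ t := by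
    by_contra hc
    push Not at hc
    have h2 : Function.Surjective (fun i : Fin (n + 1) => pre s (i.val + 1)) := fun t => hc t
    have h3 := Fintype.card_le_of_surjective _ h2
    rw [Fintype.card_fin, ZMod.card] at h3
    omega
  obtain ⟨t, ht⟩ := h1
  refine fit_of s (fun i => pre s (i.val + 1)) ?_ ?_ ?_ t ht
  · change pre s (0 + 1) = s 0
    unfold pre
    rw [sum_range_succ, sum_range_zero, zero_add, dif_pos (Nat.succ_pos n)]
    rfl
  · intro i
    change pre s (i.val + 1 + 1) = pre s (i.val + 1) + s i.succ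
    unfold pre
    rw [sum_range_succ, dif_pos (Nat.succ_lt_succ i.isLt)]
    rfl
  · change pre s (n + 1) = 0
    rw [pre_last, hs]

theorem nvis_take : ∀ (l : List ℕ) (t : ℕ), nvis t l = true → ∀ i, 1 ≤ i → i ≤ l.length →
    (t + (l.take i).sum) % 5 ≠ 0
  | [], _, _, i, h1, h2 => by
    rw [List.length_nil] at h2
    omega
  | x :: l, t, h, i, h1, h2 => by
    unfold nvis at h
    rw [Bool.and_eq_true, Bool.not_eq_true'] at h
    obtain ⟨h3, h4⟩ := h
    have h5 : (t + x) % 5 ≠ 0 := by
      intro h6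
      rw [h6] at h3
      exact absurd h3 (by decide)
    obtain ⟨j, rfl⟩ : ∃ j, i = j + 1 := ⟨i - 1, by omega⟩
    rw [List.take_succ_cons, List.sum_cons]
    by_cases hj : j = 0
    · subst hj
      rw [List.take_zero, List.sum_nil, add_zero]
      exact h5
    · rw [List.length_cons] at h2
      have h6 := nvis_take l _ h4 j (by omega) (by omega)
      omega

theorem cast_ne {x : ℕ} (h : x % 5 ≠ 0) : (x : ZMod 5) ≠ 0 := by
  intro h1
  rw [ZMod.natCast_eq_zero_iff] at h1
  exact h (Nat.mod_eq_zero_of_dvd h1)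

theorem vec_ne {n : ℕ} {l : List ℕ} (hl : Dg n l) (hv : (1 + l.sum) % 5 ≠ 0)
    (i : Fin (n + 2)) : vec n l i ≠ 0 := by
  have := fact5
  unfold vec
  split_ifs with h1 h2
  · exact one_ne_zero
  · have h3 := cast_ne hv
    rw [Nat.cast_add, Nat.cast_one] at h3
    exact neg_ne_zero.2 h3
  · have h3 := i.isLt
    have h4 : i.val - 1 < l.length := by
      rw [hl.1]
      omega
    rw [List.getD_eq_getElem l 0 h4]
    have h5 := hl.2 _ (List.getElem_mem h4)
    apply cast_ne
    omega

theorem vec_fit {n : ℕ} {l : List ℕ} (hl : Dg n l) (t : ℕ) (h2 : 2 ≤ t) (h4 : t ≤ 4)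
    (hv : nvis t l = true) : Fit (vec n l) := by
  refine fit_of (vec n l) (fun i => if i.val = n + 1 then 0 else 1 + ((l.take i.val).sum : ZMod 5))
    ?_ ?_ ?_ (1 - (t : ZMod 5)) ?_
  · rw [if_neg (by rw [Fin.val_zero]; omega), Fin.val_zero, List.take_zero, List.sum_nil]
    unfold vec
    rw [if_pos (Fin.val_zero _), Nat.cast_zero, add_zero]
  · intro i
    have hi := i.isLt
    have e1 : (i.castSucc : Fin (n + 2)).val ≠ n + 1 := by
      rw [Fin.val_castSucc]
      omega
    change (if i.succ.val = n + 1 then (0 : ZMod 5) else 1 + ((l.take i.succ.val).sum : ZMod 5)) =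
      (if i.castSucc.val = n + 1 then (0 : ZMod 5) else
        1 + ((l.take i.castSucc.val).sum : ZMod 5)) + vec n l i.succ
    rw [if_neg e1, Fin.val_castSucc]
    unfold vec
    rw [if_neg (show ¬ i.succ.val = 0 by rw [Fin.val_succ]; omega), Fin.val_succ]
    by_cases h : i.val + 1 = n + 1
    · rw [if_pos h, if_pos h, List.take_of_length_le (by rw [hl.1]; omega)]
      ring
    · rw [if_neg h, if_neg h, Nat.add_sub_cancel]
      have h3 : i.val < l.length := by
        rw [hl.1]
        omega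
      rw [List.getD_eq_getElem l 0 h3, List.sum_take_succ l i.val h3, Nat.cast_add]
      ring
  · exact if_pos (Fin.val_last _)
  · intro i
    have ht : ((t - 1 : ℕ) : ZMod 5) ≠ 0 := cast_ne (by omega)
    have ht2 : (t : ZMod 5) ≠ 0 := cast_ne (by omega)
    rw [Nat.cast_sub (by omega), Nat.cast_one] at ht
    change (if i.val = n + 1 then (0 : ZMod 5) else 1 + ((l.take i.val).sum : ZMod 5)) ≠ _
    split_ifs with h
    · intro h5
      exact ht (by linear_combination h5)
    · intro h5
      by_cases h0 : i.val = 0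
      · rw [h0, List.take_zero, List.sum_nil, Nat.cast_zero] at h5
        exact ht2 (by linear_combination h5)
      · have hi := i.isLt
        have h6 := cast_ne (nvis_take l t hv i.val (by omega) (by rw [hl.1]; omega))
        rw [Nat.cast_add] at h6
        exact h6 (by linear_combination h5)

/-- the digits of a function -/
def dl {n : ℕ} (x : Fin n → Fin 4) : List ℕ := List.ofFn (fun i => (x i).val + 1)

theorem dl_dg {n : ℕ} (x : Fin n → Fin 4) : Dg n (dl x) := by
  unfold dl
  refine ⟨List.length_ofFn, fun y hy => ?_⟩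
  rw [List.mem_ofFn] at hy
  obtain ⟨i, rfl⟩ := hy
  have := (x i).isLt
  constructor
  · omega
  · omega

theorem SS_eq {M : Type} [AddCommMonoid M] : ∀ (n : ℕ) (f : List ℕ → M),
    SS n f = ∑ x : Fin n → Fin 4, f (dl x)
  | 0, f => by
    rw [Fintype.sum_unique]
    unfold dl SS
    rw [List.ofFn_zero]
  | n + 1, f => by
    rw [← (Fin.consEquiv (fun _ : Fin (n + 1) => Fin 4)).sum_comp, Fintype.sum_prod_type,
      Fin.sum_univ_four]
    have key : ∀ (a : Fin 4) (y : Fin n → Fin 4),
        dl ((Fin.consEquiv (fun _ : Fin (n + 1) => Fin 4)) (a, y)) = (a.val + 1) :: dl y := by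
      intro a y
      unfold dl
      rw [List.ofFn_succ]
      rfl
    simp only [key]
    change SS n (fun l => f (1 :: l)) + (SS n (fun l => f (2 :: l)) +
      (SS n (fun l => f (3 :: l)) + SS n (fun l => f (4 :: l)))) = _
    rw [SS_eq n, SS_eq n, SS_eq n, SS_eq n, ← add_assoc, ← add_assoc]
    rfl

theorem dl_surj {n : ℕ} {l : List ℕ} (hl : Dg n l) : ∃ x : Fin n → Fin 4, dl x = l := by
  refine ⟨fun i => ⟨l.getD i.val 0 - 1, ?_⟩, ?_⟩
  · have h3 : i.val < l.length := by
      rw [hl.1]
      exact i.isLt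
    rw [List.getD_eq_getElem l 0 h3]
    have h5 := hl.2 _ (List.getElem_mem h3)
    omega
  · unfold dl
    apply List.ext_getElem
    · rw [List.length_ofFn, hl.1]
    · intro k h1 h2
      rw [List.getElem_ofFn]
      change l.getD k 0 - 1 + 1 = l[k]
      rw [List.getD_eq_getElem l 0 h2]
      have h5 := hl.2 _ (List.getElem_mem h2)
      omega

end KC

open KC

/-- **K6** for at most four terminals -/
theorem core_small : ∀ n : ℕ, n ≤ 3 → Core (n + 1) := by
  intro n hn V E _ _ _ _ src dst C v hv hyp s hs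
  by_contra hc
  exact hc (hyp s hs (fit_small hn s (cnt_sum hc)))

/-- **K6** -/
theorem certCore : St_certCore := by
  intro n hn V E _ _ _ _ src dst C v hv hyp s hs
  classical
  have := fact5
  obtain ⟨c, hc1, hc2⟩ := hn
  have main : ∀ l, Dg n l → (1 + l.sum) % 5 ≠ 0 → cnt src dst C v (vec n l) = 0 := by
    have h1 := lin V E src dst C (n + 2) v hv (Fintype.card (Fin n → Fin 4))
      (fun j => if (1 + (dl ((Fintype.equivFin (Fin n → Fin 4)).symm j)).sum) % 5 ≠ 0 then
        c (dl ((Fintype.equivFin (Fin n → Fin 4)).symm j)) else 0)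
      (fun j => vec n (dl ((Fintype.equivFin (Fin n → Fin 4)).symm j))) (by
        intro p
        refine Eq.trans ?_ (hc2 p)
        rw [SS_eq, ← (Fintype.equivFin (Fin n → Fin 4)).symm.sum_comp]
        refine sum_congr rfl fun j _ => ?_
        by_cases h1 : zs p (vec n (dl ((Fintype.equivFin (Fin n → Fin 4)).symm j)))
        · by_cases h2 : (1 + (dl ((Fintype.equivFin (Fin n → Fin 4)).symm j)).sum) % 5 ≠ 0
          · rw [if_pos h1, if_pos h2, if_pos ⟨h2, h1⟩]
          · rw [if_pos h1, if_neg h2, if_neg (fun h => h2 h.1)]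
        · rw [if_neg h1, if_neg (fun h => h1 h.2)])
    rw [(Fintype.equivFin (Fin n → Fin 4)).symm.sum_comp (fun x =>
      (if (1 + (dl x).sum) % 5 ≠ 0 then c (dl x) else 0) *
        (cnt src dst C v (vec n (dl x)) : ℤ))] at h1
    have h2 : ∀ x : Fin n → Fin 4, (1 + (dl x).sum) % 5 ≠ 0 →
        cnt src dst C v (vec n (dl x)) ≠ 0 → 0 < c (dl x) := by
      intro x hx h0
      have hf : ∀ t, 2 ≤ t → t ≤ 4 → nvis t (dl x) = false := by
        intro t ht1 ht2
        rw [← Bool.not_eq_true]
        intro h3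
        exact h0 (hyp _ (vec_ne (dl_dg x) hx) (vec_fit (dl_dg x) t ht1 ht2 h3))
      exact hc1 _ (dl_dg x) hx (hf 4 (by norm_num) (by norm_num)) (hf 3 (by norm_num) (by norm_num))
        (hf 2 (by norm_num) (by norm_num))
    have h3 : ∀ x : Fin n → Fin 4, 0 ≤ (if (1 + (dl x).sum) % 5 ≠ 0 then c (dl x) else 0) *
        (cnt src dst C v (vec n (dl x)) : ℤ) := by
      intro x
      by_cases h0 : cnt src dst C v (vec n (dl x)) = 0
      · rw [h0]
        simp
      · split_ifs with hx
        · exact mul_nonneg (h2 x hx h0).le (Int.natCast_nonneg _)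
        · rw [zero_mul]
    intro l hl hv
    obtain ⟨x, rfl⟩ := dl_surj hl
    by_contra h0
    have h4 := (Finset.sum_eq_zero_iff_of_nonneg (fun x _ => h3 x)).1 h1 x (mem_univ x)
    rw [if_pos hv] at h4
    rcases mul_eq_zero.1 h4 with h5 | h5
    · exact (h2 x hv h0).ne' h5
    · exact h0 (by exact_mod_cast h5)
  by_contra h0
  have hu : (s 0)⁻¹ ≠ 0 := inv_ne_zero (hs 0)
  have h1 := cnt_smul (s 0)⁻¹ hu h0
  set s' : Fin (n + 2) → ZMod 5 := fun i => (s 0)⁻¹ * s i with hs'
  have hs0 : s' 0 = 1 := inv_mul_cancel₀ (hs 0)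
  have hsn : ∀ i, s' i ≠ 0 := fun i => mul_ne_zero hu (hs i)
  have hsum : ∑ i, s' i = 0 := cnt_sum h1
  set l : List ℕ := List.ofFn (fun j : Fin n => (s' j.succ.castSucc).val) with hldef
  have hlen : l.length = n := List.length_ofFn
  have hl : Dg n l := by
    refine ⟨hlen, fun y hy => ?_⟩
    rw [hldef, List.mem_ofFn] at hy
    obtain ⟨i, rfl⟩ := hy
    have h2 := ZMod.val_lt (s' i.succ.castSucc)
    have h3 : (s' i.succ.castSucc).val ≠ 0 := by
      rw [Ne, ZMod.val_eq_zero]
      exact hsn _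
    change 1 ≤ (s' i.succ.castSucc).val ∧ (s' i.succ.castSucc).val ≤ 4
    omega
  have hlsum : (l.sum : ZMod 5) = ∑ j : Fin n, s' j.succ.castSucc := by
    rw [hldef, List.sum_ofFn, Nat.cast_sum]
    refine sum_congr rfl fun j _ => ?_
    rw [ZMod.natCast_val, ZMod.cast_id]
  have hlast : s' (Fin.last (n + 1)) = - (1 + (l.sum : ZMod 5)) := by
    rw [Fin.sum_univ_castSucc, Fin.sum_univ_succ] at hsum
    rw [hlsum]
    have e1 : s' (Fin.castSucc 0) = 1 := by
      rw [Fin.castSucc_zero]
      exact hs0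
    rw [e1] at hsum
    linear_combination hsum
  have hvec : vec n l = s' := by
    funext i
    unfold vec
    split_ifs with h2 h3
    · have e1 : i = 0 := Fin.ext h2
      rw [e1, hs0]
    · have e1 : i = Fin.last (n + 1) := Fin.ext h3
      rw [e1, hlast]
    · have hi := i.isLt
      have h4 : i.val - 1 < l.length := by
        rw [hlen]
        omega
      rw [List.getD_eq_getElem l 0 h4]
      have h5 : l[i.val - 1] = (s' i).val := by
        simp only [hldef, List.getElem_ofFn]
        congr 2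
        apply Fin.ext
        rw [Fin.val_castSucc, Fin.val_succ]
        change i.val - 1 + 1 = i.val
        omega
      rw [h5, ZMod.natCast_val, ZMod.cast_id]
  have hvalid : (1 + l.sum) % 5 ≠ 0 := by
    intro h2
    apply hsn (Fin.last (n + 1))
    rw [hlast]
    have h3 : ((1 + l.sum : ℕ) : ZMod 5) = 0 := by
      rw [ZMod.natCast_eq_zero_iff]
      exact Nat.dvd_of_mod_eq_zero h2
    rw [Nat.cast_add, Nat.cast_one] at h3
    rw [h3, neg_zero]
  apply h1
  rw [← hvec]
  exact main l hl hvalid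

end Pool.Agent.Y335.FL
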