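import Pool.Agent.Y335.FL.Kdef

set_option autoImplicit false
set_option maxRecDepth 100000

/-! # Data for circuits of length 6 -/

namespace Pool.Agent.Y335.FL

def d6_0 : List Nat := [
0x4c80000b10000c200002b300009d80001c4000045c000000000077c00011700000000002780000acc00000000008780001eb00009e8000142000077c00000000005080001c400000000002770000c200000000000710000186000000000019d000050800038300009e8000276000000000027800002c4000000000082000027900000000001c400009dc000142000087800027900006180001eb00004c800000000009e000021e0000000000277000071000019d00009e0000208000071000021e00009e000027700009e0000000,
0x27a00005080001df00009d80001df000081400020500009e000027600009e400000000008140000ef000000000027800002c400034900003bc00025e000077c000278000045c00000000008140002cf0000000000208000045c00000000009e4000186000050800027a0000618000000000077c00030800000000001c4000071000000000009dc00019d00000000001420000e0c00014200009d800009f000000000021e00009d800000000009e40002780000000000186000067400027800007ac00018600009e400021e,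
0x9e000000000009e80002760000000000142000077c000278000077c00020500009d8000205000081400027900003bc000000000000000014200009e80001860000710000278000087800020800009d80001eb00002c400000000009e400027900000000002770000c200000ef000027c0002cf000081400021e000097800000000009d800011700000000001c4000045c0000000000618000279000077c0001860000d2400000000009e0000186000000000019d000077c00000000005080002780000000000383000050800019d,
0x9e000021e000000000013200007ac00000000002c4000276000000000030800007100001df0000acc000117000045c0002b3000087800000000009d800009f00000000001c40000c20000186000045c0002cf000045c00025e00003bc000279000081400000000000000001df0000618000349000045c00011700009780002cf00009e40000b1000082000000000003bc00020500000000002780000acc00025e0000b3c0001c600008140002080000b3c000000000081400025e000000000021e0000acc00000000007ac00021e]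

/-- the array `y` for `n = 4`, `b = 9`, `W = 26` -/
def Y6 : Nat := asm2 1664 106496 [d6_0]

/-- the array `x` for `K = 131073` -/
def X6 : Nat := shf 26 131073 9 4 Y6

end Pool.Agent.Y335.FL
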