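import Pool.Agent.Y335.FL.D5
import Pool.Agent.Y335.FL.D6
import Pool.Agent.Y335.FL.D7
import Pool.Agent.Y335.FL.D8
import Pool.Agent.Y335.FL.D9

set_option autoImplicit false
set_option maxRecDepth 100000

/-! # Kernel check for circuits of length 5, ..., 9 -/

namespace Pool.Agent.Y335.FL

theorem scan5 :
    scan 20 7 3 Y5 = true := by
  decide +kernel

theorem root0_5 :
    root0 20 8193 3 X5 = true := by
  decide +kernel

theorem r5_all :
    rootP 20 8193 3 [] X5 = true := by
  decide +kernel

theorem scan6 :
    scan 26 9 4 Y6 = true := by
  decide +kernel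

theorem root0_6 :
    root0 26 131073 4 X6 = true := by
  decide +kernel

theorem r6_all :
    rootP 26 131073 4 [] X6 = true := by
  decide +kernel

theorem scan7 :
    scan 32 11 5 Y7 = true := by
  decide +kernel

theorem root0_7 :
    root0 32 2097153 5 X7 = true := by
  decide +kernel

theorem r7_all :
    rootP 32 2097153 5 [] X7 = true := by
  decide +kernel

theorem scan8 :
    scan 43 18 6 Y8 = true := by
  decide +kernel

theorem root0_8 :
    root0 43 1073741825 6 X8 = true := by
  decide +kernel

theorem r8_all :
    rootP 43 1073741825 6 [] X8 = true := by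
  decide +kernel

theorem scan9 :
    scan 48 19 7 Y9 = true := by
  decide +kernel

theorem root0_9 :
    root0 48 8589934593 7 X9 = true := by
  decide +kernel

theorem r9_all :
    rootP 48 8589934593 7 [] X9 = true := by
  decide +kernel

end Pool.Agent.Y335.FL
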