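import Pool.Agent.Y335.FL.Stm
import Pool.Agent.TH676.Z.Cyc

set_option autoImplicit false
set_option linter.unusedSectionVars false

/-! # Surfaces and apex vertices, and few circuits, from girth twelve -/

namespace Pool.Agent.Y335.FL

open Finset Pool.Agent.TH676.Z

/-- the edges at distance at most four from a neighbour of `s`, for graphs without parallel
edges -/
def Edge62' : Prop := ∀ (V E : Type) [Fintype V] [DecidableEq V] [Fintype E] [DecidableEq E]
  (src dst : E → V) (s : V), NoPar src dst → Girth (Adj src dst) 12 → Three (Adj src dst) →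
    62 * (Ns src dst s).card ≤ (Es src dst s).card

namespace Surfx

/-- the numerical contradiction for surfaces -/
theorem numS {m n t r z k h : ℕ} (h1 : m + 1 ≤ z + n) (h2 : 3 * n ≤ 2 * m + t)
    (h3 : 63 * t ≤ k * (m + t)) (h4 : 1 ≤ r → 12 * (r + 1) ≤ 2 * m) (h5 : z ≤ r + h)
    (h6 : 189 ≤ m + t) (hk : 3 * k + 2 * h ≤ 66) (hk' : k ≤ 21) : False := by
  rcases Nat.eq_zero_or_pos r with hr | hr
  · clear h4
    interval_cases k <;> omega
  · have h7 := h4 hr
    clear h4
    interval_cases k <;> omega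

/-- the numerical contradiction for the cyclomatic number -/
theorem numC {m n t z k : ℕ} (h1 : m + 1 ≤ z + n) (h2 : 3 * n ≤ 2 * m + t)
    (h3 : 63 * t ≤ k * (m + t)) (h6 : 189 ≤ m + t) (hz : z + 2 * k ≤ 63) : False := by
  have hk : k ≤ 31 := by omega
  interval_cases k <;> omega

section

variable {V E : Type} [Fintype V] [DecidableEq V] [Fintype E] [DecidableEq E]

theorem hends {S D : E → V} (T : Finset V) : ∀ e ∈ ES S D T, S e ∈ VS S D T ∧ D e ∈ VS S D T := by
  have mem : ∀ x z, x ∉ T → Adj S D x z → x ∈ VS S D T := by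
    intro x z hx hxz
    simp only [VS, mem_filter, mem_univ, true_and]
    exact ⟨hx, z, hxz⟩
  intro e he
  unfold ES at he
  rw [mem_filter] at he
  obtain ⟨_, h1, h2, h3'⟩ := he
  exact ⟨mem _ (D e) h2 ⟨h1, e, Or.inl ⟨rfl, rfl⟩⟩,
    mem _ (S e) h3' ⟨Ne.symm h1, e, Or.inr ⟨rfl, rfl⟩⟩⟩

/-- the numbers of edges -/
theorem common (hE : Edge62') {S D : E → V} (hG : Girth (Adj S D) 12) (hT : Three (Adj S D))
    (hP : NoPar S D) {e0 : E} (he0 : S e0 ≠ D e0) (T : Finset V) (hk : T.card ≤ 62) :
    63 * ∑ s ∈ T, (Ns S D s).card ≤ T.card * ((ES S D T).card + ∑ s ∈ T, (Ns S D s).card) ∧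
      189 ≤ (ES S D T).card + ∑ s ∈ T, (Ns S D s).card ∧ (VS S D T).Nonempty := by
  have ha0 : Adj S D (S e0) (D e0) := ⟨he0, e0, Or.inl ⟨rfl, rfl⟩⟩
  obtain ⟨s1, s2⟩ := split V E S D T hP
  have h189 : 189 ≤ (univ.filter (fun e => S e ≠ D e)).card := by
    obtain ⟨a, b, c, ha, hb', hc, hab, hac, hbc⟩ := hT _ _ ha0
    have h1 : 3 ≤ (Ns S D (S e0)).card := by
      refine len_le (l := [a, b, c]) ?_ ?_
      · simp only [List.nodup_cons, List.mem_cons, List.not_mem_nil, or_false, not_or,
          not_false_eq_true, List.nodup_nil, and_true]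
        exact ⟨⟨hab, hac⟩, hbc⟩
      · intro x hx
        simp only [List.mem_cons, List.not_mem_nil, or_false] at hx
        simp only [Ns, mem_filter, mem_univ, true_and]
        rcases hx with rfl | rfl | rfl <;> assumption
    have h2 := hE V E S D (S e0) hP hG hT
    have h3 := s2 (S e0)
    omega
  have h63 : 63 * ∑ s ∈ T, (Ns S D s).card ≤
      T.card * ((ES S D T).card + ∑ s ∈ T, (Ns S D s).card) := by
    have hs' : ∀ s ∈ T, 63 * (Ns S D s).card ≤
        (ES S D T).card + ∑ s ∈ T, (Ns S D s).card := by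
      intro s _
      have h1 := hE V E S D s hP hG hT
      have h2 := s2 s
      omega
    rw [mul_sum]
    calc ∑ s ∈ T, 63 * (Ns S D s).card
        ≤ ∑ _s ∈ T, ((ES S D T).card + ∑ s ∈ T, (Ns S D s).card) := sum_le_sum hs'
      _ = T.card * ((ES S D T).card + ∑ s ∈ T, (Ns S D s).card) := by
          rw [sum_const, smul_eq_mul]
  have h6 : 189 ≤ (ES S D T).card + ∑ s ∈ T, (Ns S D s).card := h189.trans s1
  refine ⟨h63, h6, ?_⟩
  rw [nonempty_iff_ne_empty]
  intro hem
  have h0 : (ES S D T).card = 0 := by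
    rw [card_eq_zero, eq_empty_iff_forall_notMem]
    intro e he
    have := (hends T e he).1
    rw [hem] at this
    exact absurd this (notMem_empty _)
  rw [h0, zero_add] at h63 h6
  have := h63.trans (Nat.mul_le_mul_right _ hk)
  omega

end

end Surfx

open Surfx

/-- **5-flows**: surfaces and apex vertices -/
theorem surf (hg : St_girth12) (hev : St_even) (hE : Edge62') : St_surf := by
  intro V E _ _ _ _ src dst k h hkh hk21 hA hb
  by_contra hn
  obtain ⟨S, D, hAp, hM⟩ := crit V E (ApH k h) (aphMC V E k h) src dst hA hb hn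
  have hT := (gi_all V E S D hM).2
  have hP := noPar V E S D hM
  have hG := hg V E S D hM
  by_cases hno : ∀ e, S e = D e
  · exact hM.nf (flow_of_loops hno)
  · push Not at hno
    obtain ⟨e0, he0⟩ := hno
    obtain ⟨T, hTc, l, K, k1, k2, k3⟩ := hAp
    obtain ⟨h63, h6, hne⟩ := common hE hG hT hP he0 T (by omega)
    have e1 := dim V E S D (ES S D T) (VS S D T) hne (hends T)
    have e2 := degS V E S D T hT
    have e4 := facesG V E S D (ES S D T) l 12 K k1 k2 (hev V E S D (ES S D T) 12 hG hP (by
      intro e he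
      unfold ES at he
      rw [mem_filter] at he
      exact he.2.1))
    exact numS e1 e2 (h63.trans (Nat.mul_le_mul_right _ hTc)) e4 k3 h6 hkh hk21

/-- the class: after the deletion of the vertices in `S` the cyclomatic number is at most
`N - 2 |S|` -/
def CyN (N : ℕ) {V E : Type} [Fintype V] [DecidableEq V] [Fintype E] [DecidableEq E]
    (src dst : E → V) : Prop :=
  ∃ S : Finset V, Module.finrank (ZMod 2) (ZF src dst (ES src dst S)) + 2 * S.card ≤ N

open ApMCx ApsMCx Cycx in
theorem cynMC (N : ℕ) (V E : Type) [Fintype V] [DecidableEq V] [Fintype E] [DecidableEq E] :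
    MC (V := V) (E := E) (CyN N) := by
  classical
  refine ⟨?_, ?_⟩
  · rintro src dst e ⟨S, hM⟩ hne
    refine ⟨S, le_trans (Nat.add_le_add_right ?_ _) hM⟩
    have hmem : ∀ d ∈ ES src (lp src dst {e}) S, d ∈ ES src dst S ∧ lp src dst {e} d = dst d := by
      intro d hd
      simp only [ES, mem_filter, mem_univ, true_and] at hd ⊢
      have hde : d ≠ e := by
        rintro rfl
        apply hd.1
        simp [Pool.Agent.TH676.Z.lp]
      have hl : lp src dst {e} d = dst d := by simp [Pool.Agent.TH676.Z.lp, hde]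
      rw [hl] at hd
      exact ⟨hd, hl⟩
    rw [zf_congr src dst src (lp src dst {e}) _ (fun d hd => ⟨rfl, (hmem d hd).2⟩)]
    exact fr_mono (fun d hd => (hmem d hd).1)
  · rintro src dst e ⟨S, hM⟩ hne
    by_cases hs : src e ∈ S ∨ dst e ∈ S
    · refine ⟨insert (src e) (S.erase (dst e)),
        le_trans (Nat.add_le_add ?_ (Nat.mul_le_mul_left 2 (card_le S _ _ hs))) hM⟩
      have hnot : ∀ x : V, x ∉ insert (src e) (S.erase (dst e)) → x ≠ dst e → x ∉ S := by
        intro x hx hxe hxS
        exact hx (mem_insert_of_mem (mem_erase.2 ⟨hxe, hxS⟩))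
      have hmem : ∀ d ∈ ES (ctr (src e) (dst e) ∘ src) (ctr (src e) (dst e) ∘ dst)
          (insert (src e) (S.erase (dst e))),
          d ∈ ES src dst S ∧ (ctr (src e) (dst e) ∘ src) d = src d ∧
            (ctr (src e) (dst e) ∘ dst) d = dst d := by
        intro d hd
        simp only [ES, mem_filter, mem_univ, true_and, Function.comp] at hd ⊢
        obtain ⟨ha, hb, hc⟩ := hd
        obtain ⟨b1, b2, b3⟩ := ctr_ne (src e) (dst e) (src d)
          (fun h => hb (by rw [h]; exact mem_insert_self _ _))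
        obtain ⟨c1, c2, c3⟩ := ctr_ne (src e) (dst e) (dst d)
          (fun h => hc (by rw [h]; exact mem_insert_self _ _))
        rw [b3, c3] at ha
        rw [b3] at hb
        rw [c3] at hc
        exact ⟨⟨ha, hnot _ hb b2, hnot _ hc c2⟩, b3, c3⟩
      rw [zf_congr src dst _ _ _ (fun d hd => (hmem d hd).2)]
      exact fr_mono (fun d hd => (hmem d hd).1)
    · push Not at hs
      obtain ⟨hs1, hs2⟩ := hs
      refine ⟨S, le_trans (Nat.add_le_add_right ?_ _) hM⟩
      set F1 : Finset E := (ES src dst S).filter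
        (fun d => d = e ∨ ¬ Jn src dst d (src e) (dst e)) with hF1
      have hM1 : Module.finrank (ZMod 2) (ZF src dst F1) ≤
          Module.finrank (ZMod 2) (ZF src dst (ES src dst S)) := fr_mono (filter_subset _ _)
      have he : e ∈ F1 := by
        simp only [hF1, ES, mem_filter, mem_univ, true_and, true_or, and_true]
        exact ⟨hne, hs1, hs2⟩
      have hM2 := fr_con he hne
      refine (fr_mono ?_).trans (hM2.trans hM1)
      intro d hd
      simp only [ES, mem_filter, mem_univ, true_and, Function.comp] at hd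
      obtain ⟨ha, hb, hc⟩ := hd
      have hcu : ctr (src e) (dst e) (src e) = src e := by simp [ctr]
      have hcv : ctr (src e) (dst e) (dst e) = src e := by simp [ctr]
      have hde : d ≠ e := by
        rintro rfl
        rw [hcu, hcv] at ha
        exact ha rfl
      rw [mem_erase, hF1, mem_filter]
      refine ⟨hde, ?_, Or.inr ?_⟩
      · simp only [ES, mem_filter, mem_univ, true_and]
        exact ⟨fun h => ha (by rw [h]), ctr_not S _ _ _ hs2 hb, ctr_not S _ _ _ hs2 hc⟩
      · rintro (⟨h3, h4⟩ | ⟨h3, h4⟩)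
        · rw [h3, h4, hcu, hcv] at ha
          exact ha rfl
        · rw [h3, h4, hcu, hcv] at ha
          exact ha rfl

/-- **5-flows**: few circuits after the deletion of a set of vertices -/
theorem cyc (hg : St_girth12) (_hev : St_even) (hE : Edge62') : St_cyc := by
  intro V E _ _ _ _ src dst S0 hA hb
  by_contra hn
  obtain ⟨S, D, hAp, hM⟩ := crit V E (CyN 63) (cynMC 63 V E) src dst ⟨S0, hA⟩ hb hn
  have hT := (gi_all V E S D hM).2
  have hP := noPar V E S D hM
  have hG := hg V E S D hM
  by_cases hno : ∀ e, S e = D e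
  · exact hM.nf (flow_of_loops hno)
  · push Not at hno
    obtain ⟨e0, he0⟩ := hno
    obtain ⟨T, hT63⟩ := hAp
    obtain ⟨h63, h6, hne⟩ := common hE hG hT hP he0 T (by omega)
    have e1 := dim V E S D (ES S D T) (VS S D T) hne (hends T)
    have e2 := degS V E S D T hT
    exact numC e1 e2 h63 h6 hT63

end Pool.Agent.Y335.FL
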