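import Pool.Agent.Y335.FL.Kdef

set_option autoImplicit false

/-! # Splitting the kernel check into parts -/

namespace Pool.Agent.Y335.FL

/-- the blocks of the first digit with flags `A ++ fl`; `us` are the free positions after the
first ones, `B` the flags of the first positions which stay free -/
def selP (W K n : Nat) (us A B : List Bool) (X : Nat) : Bool :=
  go us (fun fl u =>
    (Nat.beq (sel W (Nat.mul W (Nat.pow 4 n)) X (A ++ fl)) 0) ||
      (chk W K n (B ++ u) (sel W (Nat.mul W (Nat.pow 4 n)) X (A ++ fl))))

theorem chk_f {W K n X : Nat} {us : List Bool}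
    (h : chk W K n us (fold (Nat.mul W (Nat.pow 4 n)) X) = true) :
    chk W K (n + 1) (false :: us) X = true := h

theorem chk_t {W K n X : Nat} {us : List Bool}
    (h : chk W K n us (fold (Nat.mul W (Nat.pow 4 n)) X) = true)
    (h2 : selP W K n us [] [] X = true) : chk W K (n + 1) (true :: us) X = true := by
  simp only [chk, Bool.and_eq_true]
  exact ⟨h, h2⟩

theorem selP_nil {W K n X : Nat} {A B : List Bool}
    (h : chk W K n B (sel W (Nat.mul W (Nat.pow 4 n)) X A) = true) :
    selP W K n [] A B X = true := by
  simp only [selP, go, List.append_nil, h, Bool.or_true]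

theorem selP_f {W K n X : Nat} {us A B : List Bool}
    (h : selP W K n us (A ++ [false]) (B ++ [false]) X = true) :
    selP W K n (false :: us) A B X = true := by
  simp only [selP, go]
  refine Eq.trans (congrArg _ ?_) h
  funext fl u
  simp

theorem selP_t {W K n X : Nat} {us A B : List Bool}
    (h : selP W K n us (A ++ [false]) (B ++ [true]) X = true)
    (h2 : selP W K n us (A ++ [true]) (B ++ [false]) X = true) :
    selP W K n (true :: us) A B X = true := by
  simp only [selP, go, Bool.and_eq_true]
  constructor
  · refine Eq.trans (congrArg _ ?_) h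
    funext fl u
    simp
  · refine Eq.trans (congrArg _ ?_) h2
    funext fl u
    simp

theorem rep_split {n : Nat} {P : List Bool} (h : P.length < n) (x : Bool) :
    List.replicate (Nat.sub n P.length) true =
      true :: List.replicate (Nat.sub n (P ++ [x]).length) true := by
  have h1 : (P ++ [x]).length = P.length + 1 := by simp
  rw [h1]
  have h2 : Nat.sub n P.length = Nat.sub n (P.length + 1) + 1 := by
    change n - P.length = n - (P.length + 1) + 1
    omega
  rw [h2]
  rfl

theorem go_merge {n : Nat} {P : List Bool} (h : P.length < n) {f : List Bool → List Bool → Bool}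
    (h1 : go (List.replicate (Nat.sub n (P ++ [false]).length) true)
      (fun fl u => f ((P ++ [false]) ++ fl) ((P ++ [false]).map not ++ u)) = true)
    (h2 : go (List.replicate (Nat.sub n (P ++ [true]).length) true)
      (fun fl u => f ((P ++ [true]) ++ fl) ((P ++ [true]).map not ++ u)) = true) :
    go (List.replicate (Nat.sub n P.length) true) (fun fl u => f (P ++ fl) (P.map not ++ u))
      = true := by
  rw [rep_split h false]
  simp only [go, Bool.and_eq_true]
  constructor
  · refine Eq.trans (congrArg _ ?_) h1
    funext fl u
    simp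
  · have e : (P ++ [false]).length = (P ++ [true]).length := by simp
    rw [e]
    refine Eq.trans (congrArg _ ?_) h2
    funext fl u
    simp

theorem rootP_merge {W K n X : Nat} (P : List Bool) (h : P.length < n)
    (h1 : rootP W K n (P ++ [false]) X = true) (h2 : rootP W K n (P ++ [true]) X = true) :
    rootP W K n P X = true :=
  go_merge (f := fun fl u => (Nat.beq (Nat.land X (msk (Nat.sub (Nat.pow 2 W) 1) W fl 4)) 0) ||
      (chk W K n u (Nat.land X (msk (Nat.sub (Nat.pow 2 W) 1) W fl 4)))) h h1 h2

theorem rootP_nil {W K n X : Nat} {P : List Bool} (hP : P.length = n)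
    (h : chk W K n (P.map not) (Nat.land X (msk (Nat.sub (Nat.pow 2 W) 1) W P 4)) = true) :
    rootP W K n P X = true := by
  have e : Nat.sub n P.length = 0 := by
    rw [hP]
    exact Nat.sub_self n
  simp only [rootP, e, List.replicate_zero, go, List.append_nil, h, Bool.or_true]

theorem shf_sub {W K b n X : Nat}
    (h : Nat.ble (vmk (Nat.sub (Nat.succ K) (Nat.pow 2 b)) W n) X = true) :
    shf W K b n (Nat.sub X (vmk (Nat.sub (Nat.succ K) (Nat.pow 2 b)) W n)) = X :=
  Nat.sub_add_cancel (Nat.le_of_ble_eq_true h)

end Pool.Agent.Y335.FL
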