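import Pool.Agent.Y335.FL.E10
import Pool.Agent.Y335.FL.Kmerge

set_option autoImplicit false
set_option maxRecDepth 100000

/-! # Kernel check for circuits of length 10, part 0 -/

namespace Pool.Agent.Y335.FL

theorem t10x_34 :
    selP 53 68719476737 7 [true, true, true, true, true, true, true] [] [] X10 = true := by
  decide +kernel

theorem t10x_25 :
    rootP 53 68719476737 8 [true, false, false] X10 = true := by
  decide +kernel

theorem t10x_3 :
    rootP 53 68719476737 8 [false, false, false, false, true] X10 = true := by
  decide +kernel

theorem t10x_5 :
    rootP 53 68719476737 8 [false, false, false, true, false] X10 = true := by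
  decide +kernel

theorem t10x_9 :
    rootP 53 68719476737 8 [false, false, true, false, false] X10 = true := by
  decide +kernel

theorem t10x_33 :
    chk 53 68719476737 7 [true, true, true, true, true, true, true] (fold (Nat.mul 53 (Nat.pow 4 7)) X10) = true := by
  decide +kernel

theorem scan10 :
    scan 53 20 8 (Nat.sub X10 (vmk 68718428162 53 8)) = true := by
  decide +kernel

theorem le10 :
    Nat.ble (vmk 68718428162 53 8) X10 = true := by
  decide +kernel

end Pool.Agent.Y335.FL
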