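import Pool.Agent.Y335.FL.E10
import Pool.Agent.Y335.FL.Kmerge
import Pool.Agent.Y335.FL.T10X00

set_option autoImplicit false
set_option maxRecDepth 100000

/-! # Kernel check for circuits of length 10, part 2 -/

namespace Pool.Agent.Y335.FL

theorem t10x_20 :
    rootP 53 68719476737 8 [false, true, true, false] X10 = true := by
  decide +kernel

theorem t10x_28 :
    rootP 53 68719476737 8 [true, true, false] X10 = true := by
  decide +kernel

theorem t10x_29 :
    rootP 53 68719476737 8 [true, true, true] X10 = true := by
  decide +kernel

theorem t10x_6 :
    rootP 53 68719476737 8 [false, false, false, true, true] X10 = true := by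
  decide +kernel

theorem t10x_21 :
    rootP 53 68719476737 8 [false, true, true, true] X10 = true := by
  decide +kernel

theorem t10x_10 :
    rootP 53 68719476737 8 [false, false, true, false, true] X10 = true := by
  decide +kernel

end Pool.Agent.Y335.FL
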