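import Pool.Agent.Y335.FL.T10X01
import Pool.Agent.Y335.FL.T10X02

set_option autoImplicit false
set_option maxRecDepth 100000

/-! # Kernel check for circuits of length 10 -/

namespace Pool.Agent.Y335.FL

theorem t10xg_2 :
    rootP 53 68719476737 8 [false, false, false, false, false] X10 = true :=
  rootP_merge [false, false, false, false, false] (by decide) t10x_0 t10x_1

theorem t10xg_4 :
    rootP 53 68719476737 8 [false, false, false, false] X10 = true :=
  rootP_merge [false, false, false, false] (by decide) t10xg_2 t10x_3

theorem t10xg_7 :
    rootP 53 68719476737 8 [false, false, false, true] X10 = true :=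
  rootP_merge [false, false, false, true] (by decide) t10x_5 t10x_6

theorem t10xg_8 :
    rootP 53 68719476737 8 [false, false, false] X10 = true :=
  rootP_merge [false, false, false] (by decide) t10xg_4 t10xg_7

theorem t10xg_11 :
    rootP 53 68719476737 8 [false, false, true, false] X10 = true :=
  rootP_merge [false, false, true, false] (by decide) t10x_9 t10x_10

theorem t10xg_13 :
    rootP 53 68719476737 8 [false, false, true] X10 = true :=
  rootP_merge [false, false, true] (by decide) t10xg_11 t10x_12

theorem t10xg_14 :
    rootP 53 68719476737 8 [false, false] X10 = true :=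
  rootP_merge [false, false] (by decide) t10xg_8 t10xg_13

theorem t10xg_17 :
    rootP 53 68719476737 8 [false, true, false, false] X10 = true :=
  rootP_merge [false, true, false, false] (by decide) t10x_15 t10x_16

theorem t10xg_19 :
    rootP 53 68719476737 8 [false, true, false] X10 = true :=
  rootP_merge [false, true, false] (by decide) t10xg_17 t10x_18

theorem t10xg_22 :
    rootP 53 68719476737 8 [false, true, true] X10 = true :=
  rootP_merge [false, true, true] (by decide) t10x_20 t10x_21

theorem t10xg_23 :
    rootP 53 68719476737 8 [false, true] X10 = true :=
  rootP_merge [false, true] (by decide) t10xg_19 t10xg_22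

theorem t10xg_24 :
    rootP 53 68719476737 8 [false] X10 = true :=
  rootP_merge [false] (by decide) t10xg_14 t10xg_23

theorem t10xg_27 :
    rootP 53 68719476737 8 [true, false] X10 = true :=
  rootP_merge [true, false] (by decide) t10x_25 t10x_26

theorem t10xg_30 :
    rootP 53 68719476737 8 [true, true] X10 = true :=
  rootP_merge [true, true] (by decide) t10x_28 t10x_29

theorem t10xg_31 :
    rootP 53 68719476737 8 [true] X10 = true :=
  rootP_merge [true] (by decide) t10xg_27 t10xg_30

theorem t10xg_32 :
    rootP 53 68719476737 8 [] X10 = true :=
  rootP_merge [] (by decide) t10xg_24 t10xg_31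

theorem r10_all : rootP 53 68719476737 8 [] X10 = true := t10xg_32

theorem t10xg_35 :
    chk 53 68719476737 8 [true, true, true, true, true, true, true, true] X10 = true :=
  chk_t t10x_33 t10x_34

theorem root0_10 : root0 53 68719476737 8 X10 = true := t10xg_35

theorem shf10 : shf 53 68719476737 20 8 (Nat.sub X10 (vmk 68718428162 53 8)) = X10 := shf_sub le10

end Pool.Agent.Y335.FL
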