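import Pool.Agent.Y335.FL.T11X58
import Pool.Agent.Y335.FL.T11X59

set_option autoImplicit false
set_option maxRecDepth 100000

/-! # Kernel check for circuits of length 11 -/

namespace Pool.Agent.Y335.FL

theorem t11xg_4 :
    selP 60 2199023255553 8 [true, true, true, true, false] [false, false, false] [true, true, true] (Nat.land X11 (msk (Nat.sub (Nat.pow 2 60) 1) 60 [false, false, false, false, false, false, false, false, true] 4)) = true :=
  selP_t t11x_2 t11x_3

theorem t11xg_6 :
    selP 60 2199023255553 8 [true, true, true, true, true, false] [false, false] [true, true] (Nat.land X11 (msk (Nat.sub (Nat.pow 2 60) 1) 60 [false, false, false, false, false, false, false, false, true] 4)) = true :=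
  selP_t t11xg_4 t11x_5

theorem t11xg_9 :
    selP 60 2199023255553 8 [true, true, true, true, true, false] [false, true] [true, false] (Nat.land X11 (msk (Nat.sub (Nat.pow 2 60) 1) 60 [false, false, false, false, false, false, false, false, true] 4)) = true :=
  selP_t t11x_7 t11x_8

theorem t11xg_10 :
    selP 60 2199023255553 8 [true, true, true, true, true, true, false] [false] [true] (Nat.land X11 (msk (Nat.sub (Nat.pow 2 60) 1) 60 [false, false, false, false, false, false, false, false, true] 4)) = true :=
  selP_t t11xg_6 t11xg_9

theorem t11xg_13 :
    selP 60 2199023255553 8 [true, true, true, true, true, true, false] [true] [false] (Nat.land X11 (msk (Nat.sub (Nat.pow 2 60) 1) 60 [false, false, false, false, false, false, false, false, true] 4)) = true :=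
  selP_t t11x_11 t11x_12

theorem t11xg_14 :
    selP 60 2199023255553 8 [true, true, true, true, true, true, true, false] [] [] (Nat.land X11 (msk (Nat.sub (Nat.pow 2 60) 1) 60 [false, false, false, false, false, false, false, false, true] 4)) = true :=
  selP_t t11xg_10 t11xg_13

theorem t11xg_15 :
    chk 60 2199023255553 9 [true, true, true, true, true, true, true, true, false] (Nat.land X11 (msk (Nat.sub (Nat.pow 2 60) 1) 60 [false, false, false, false, false, false, false, false, true] 4)) = true :=
  chk_t t11x_1 t11xg_14

theorem t11xg_16 :
    rootP 60 2199023255553 9 [false, false, false, false, false, false, false, false, true] X11 = true :=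
  rootP_nil rfl t11xg_15

theorem t11xg_17 :
    rootP 60 2199023255553 9 [false, false, false, false, false, false, false, false] X11 = true :=
  rootP_merge [false, false, false, false, false, false, false, false] (by decide) t11x_0 t11xg_16

theorem t11xg_21 :
    selP 60 2199023255553 8 [true, true, true, false, true] [false, false, false] [true, true, true] (Nat.land X11 (msk (Nat.sub (Nat.pow 2 60) 1) 60 [false, false, false, false, false, false, false, true, false] 4)) = true :=
  selP_t t11x_19 t11x_20

theorem t11xg_23 :
    selP 60 2199023255553 8 [true, true, true, true, false, true] [false, false] [true, true] (Nat.land X11 (msk (Nat.sub (Nat.pow 2 60) 1) 60 [false, false, false, false, false, false, false, true, false] 4)) = true :=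
  selP_t t11xg_21 t11x_22

theorem t11xg_26 :
    selP 60 2199023255553 8 [true, true, true, true, false, true] [false, true] [true, false] (Nat.land X11 (msk (Nat.sub (Nat.pow 2 60) 1) 60 [false, false, false, false, false, false, false, true, false] 4)) = true :=
  selP_t t11x_24 t11x_25

theorem t11xg_27 :
    selP 60 2199023255553 8 [true, true, true, true, true, false, true] [false] [true] (Nat.land X11 (msk (Nat.sub (Nat.pow 2 60) 1) 60 [false, false, false, false, false, false, false, true, false] 4)) = true :=
  selP_t t11xg_23 t11xg_26

theorem t11xg_30 :
    selP 60 2199023255553 8 [true, true, true, true, true, false, true] [true] [false] (Nat.land X11 (msk (Nat.sub (Nat.pow 2 60) 1) 60 [false, false, false, false, false, false, false, true, false] 4)) = true :=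
  selP_t t11x_28 t11x_29

theorem t11xg_31 :
    selP 60 2199023255553 8 [true, true, true, true, true, true, false, true] [] [] (Nat.land X11 (msk (Nat.sub (Nat.pow 2 60) 1) 60 [false, false, false, false, false, false, false, true, false] 4)) = true :=
  selP_t t11xg_27 t11xg_30

theorem t11xg_32 :
    chk 60 2199023255553 9 [true, true, true, true, true, true, true, false, true] (Nat.land X11 (msk (Nat.sub (Nat.pow 2 60) 1) 60 [false, false, false, false, false, false, false, true, false] 4)) = true :=
  chk_t t11x_18 t11xg_31

theorem t11xg_33 :
    rootP 60 2199023255553 9 [false, false, false, false, false, false, false, true, false] X11 = true :=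
  rootP_nil rfl t11xg_32

theorem t11xg_37 :
    selP 60 2199023255553 8 [true, true, true, true, true, false, false] [false] [true] (Nat.land X11 (msk (Nat.sub (Nat.pow 2 60) 1) 60 [false, false, false, false, false, false, false, true, true] 4)) = true :=
  selP_t t11x_35 t11x_36

theorem t11xg_39 :
    selP 60 2199023255553 8 [true, true, true, true, true, true, false, false] [] [] (Nat.land X11 (msk (Nat.sub (Nat.pow 2 60) 1) 60 [false, false, false, false, false, false, false, true, true] 4)) = true :=
  selP_t t11xg_37 t11x_38

theorem t11xg_40 :
    chk 60 2199023255553 9 [true, true, true, true, true, true, true, false, false] (Nat.land X11 (msk (Nat.sub (Nat.pow 2 60) 1) 60 [false, false, false, false, false, false, false, true, true] 4)) = true :=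
  chk_t t11x_34 t11xg_39

theorem t11xg_41 :
    rootP 60 2199023255553 9 [false, false, false, false, false, false, false, true, true] X11 = true :=
  rootP_nil rfl t11xg_40

theorem t11xg_42 :
    rootP 60 2199023255553 9 [false, false, false, false, false, false, false, true] X11 = true :=
  rootP_merge [false, false, false, false, false, false, false, true] (by decide) t11xg_33 t11xg_41

theorem t11xg_43 :
    rootP 60 2199023255553 9 [false, false, false, false, false, false, false] X11 = true :=
  rootP_merge [false, false, false, false, false, false, false] (by decide) t11xg_17 t11xg_42

theorem t11xg_47 :
    selP 60 2199023255553 8 [true, true, false, true, true] [false, false, false] [true, true, true] (Nat.land X11 (msk (Nat.sub (Nat.pow 2 60) 1) 60 [false, false, false, false, false, false, true, false, false] 4)) = true :=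
  selP_t t11x_45 t11x_46

theorem t11xg_49 :
    selP 60 2199023255553 8 [true, true, true, false, true, true] [false, false] [true, true] (Nat.land X11 (msk (Nat.sub (Nat.pow 2 60) 1) 60 [false, false, false, false, false, false, true, false, false] 4)) = true :=
  selP_t t11xg_47 t11x_48

theorem t11xg_52 :
    selP 60 2199023255553 8 [true, true, true, false, true, true] [false, true] [true, false] (Nat.land X11 (msk (Nat.sub (Nat.pow 2 60) 1) 60 [false, false, false, false, false, false, true, false, false] 4)) = true :=
  selP_t t11x_50 t11x_51

theorem t11xg_53 :
    selP 60 2199023255553 8 [true, true, true, true, false, true, true] [false] [true] (Nat.land X11 (msk (Nat.sub (Nat.pow 2 60) 1) 60 [false, false, false, false, false, false, true, false, false] 4)) = true :=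
  selP_t t11xg_49 t11xg_52

theorem t11xg_56 :
    selP 60 2199023255553 8 [true, true, true, true, false, true, true] [true] [false] (Nat.land X11 (msk (Nat.sub (Nat.pow 2 60) 1) 60 [false, false, false, false, false, false, true, false, false] 4)) = true :=
  selP_t t11x_54 t11x_55

theorem t11xg_57 :
    selP 60 2199023255553 8 [true, true, true, true, true, false, true, true] [] [] (Nat.land X11 (msk (Nat.sub (Nat.pow 2 60) 1) 60 [false, false, false, false, false, false, true, false, false] 4)) = true :=
  selP_t t11xg_53 t11xg_56

theorem t11xg_58 :
    chk 60 2199023255553 9 [true, true, true, true, true, true, false, true, true] (Nat.land X11 (msk (Nat.sub (Nat.pow 2 60) 1) 60 [false, false, false, false, false, false, true, false, false] 4)) = true :=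
  chk_t t11x_44 t11xg_57

theorem t11xg_59 :
    rootP 60 2199023255553 9 [false, false, false, false, false, false, true, false, false] X11 = true :=
  rootP_nil rfl t11xg_58

theorem t11xg_63 :
    selP 60 2199023255553 8 [true, true, true, true, false, true, false] [false] [true] (Nat.land X11 (msk (Nat.sub (Nat.pow 2 60) 1) 60 [false, false, false, false, false, false, true, false, true] 4)) = true :=
  selP_t t11x_61 t11x_62

theorem t11xg_65 :
    selP 60 2199023255553 8 [true, true, true, true, true, false, true, false] [] [] (Nat.land X11 (msk (Nat.sub (Nat.pow 2 60) 1) 60 [false, false, false, false, false, false, true, false, true] 4)) = true :=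
  selP_t t11xg_63 t11x_64

theorem t11xg_66 :
    chk 60 2199023255553 9 [true, true, true, true, true, true, false, true, false] (Nat.land X11 (msk (Nat.sub (Nat.pow 2 60) 1) 60 [false, false, false, false, false, false, true, false, true] 4)) = true :=
  chk_t t11x_60 t11xg_65

theorem t11xg_67 :
    rootP 60 2199023255553 9 [false, false, false, false, false, false, true, false, true] X11 = true :=
  rootP_nil rfl t11xg_66

theorem t11xg_68 :
    rootP 60 2199023255553 9 [false, false, false, false, false, false, true, false] X11 = true :=
  rootP_merge [false, false, false, false, false, false, true, false] (by decide) t11xg_59 t11xg_67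

theorem t11xg_72 :
    selP 60 2199023255553 8 [true, true, true, true, false, false, true] [false] [true] (Nat.land X11 (msk (Nat.sub (Nat.pow 2 60) 1) 60 [false, false, false, false, false, false, true, true, false] 4)) = true :=
  selP_t t11x_70 t11x_71

theorem t11xg_74 :
    selP 60 2199023255553 8 [true, true, true, true, true, false, false, true] [] [] (Nat.land X11 (msk (Nat.sub (Nat.pow 2 60) 1) 60 [false, false, false, false, false, false, true, true, false] 4)) = true :=
  selP_t t11xg_72 t11x_73

theorem t11xg_75 :
    chk 60 2199023255553 9 [true, true, true, true, true, true, false, false, true] (Nat.land X11 (msk (Nat.sub (Nat.pow 2 60) 1) 60 [false, false, false, false, false, false, true, true, false] 4)) = true :=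
  chk_t t11x_69 t11xg_74

theorem t11xg_76 :
    rootP 60 2199023255553 9 [false, false, false, false, false, false, true, true, false] X11 = true :=
  rootP_nil rfl t11xg_75

theorem t11xg_78 :
    rootP 60 2199023255553 9 [false, false, false, false, false, false, true, true] X11 = true :=
  rootP_merge [false, false, false, false, false, false, true, true] (by decide) t11xg_76 t11x_77

theorem t11xg_79 :
    rootP 60 2199023255553 9 [false, false, false, false, false, false, true] X11 = true :=
  rootP_merge [false, false, false, false, false, false, true] (by decide) t11xg_68 t11xg_78

theorem t11xg_80 :
    rootP 60 2199023255553 9 [false, false, false, false, false, false] X11 = true :=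
  rootP_merge [false, false, false, false, false, false] (by decide) t11xg_43 t11xg_79

theorem t11xg_84 :
    selP 60 2199023255553 8 [true, false, true, true, true] [false, false, false] [true, true, true] (Nat.land X11 (msk (Nat.sub (Nat.pow 2 60) 1) 60 [false, false, false, false, false, true, false, false, false] 4)) = true :=
  selP_t t11x_82 t11x_83

theorem t11xg_86 :
    selP 60 2199023255553 8 [true, true, false, true, true, true] [false, false] [true, true] (Nat.land X11 (msk (Nat.sub (Nat.pow 2 60) 1) 60 [false, false, false, false, false, true, false, false, false] 4)) = true :=
  selP_t t11xg_84 t11x_85

theorem t11xg_89 :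
    selP 60 2199023255553 8 [true, true, false, true, true, true] [false, true] [true, false] (Nat.land X11 (msk (Nat.sub (Nat.pow 2 60) 1) 60 [false, false, false, false, false, true, false, false, false] 4)) = true :=
  selP_t t11x_87 t11x_88

theorem t11xg_90 :
    selP 60 2199023255553 8 [true, true, true, false, true, true, true] [false] [true] (Nat.land X11 (msk (Nat.sub (Nat.pow 2 60) 1) 60 [false, false, false, false, false, true, false, false, false] 4)) = true :=
  selP_t t11xg_86 t11xg_89

theorem t11xg_93 :
    selP 60 2199023255553 8 [true, true, true, false, true, true, true] [true] [false] (Nat.land X11 (msk (Nat.sub (Nat.pow 2 60) 1) 60 [false, false, false, false, false, true, false, false, false] 4)) = true :=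
  selP_t t11x_91 t11x_92

theorem t11xg_94 :
    selP 60 2199023255553 8 [true, true, true, true, false, true, true, true] [] [] (Nat.land X11 (msk (Nat.sub (Nat.pow 2 60) 1) 60 [false, false, false, false, false, true, false, false, false] 4)) = true :=
  selP_t t11xg_90 t11xg_93

theorem t11xg_95 :
    chk 60 2199023255553 9 [true, true, true, true, true, false, true, true, true] (Nat.land X11 (msk (Nat.sub (Nat.pow 2 60) 1) 60 [false, false, false, false, false, true, false, false, false] 4)) = true :=
  chk_t t11x_81 t11xg_94

theorem t11xg_96 :
    rootP 60 2199023255553 9 [false, false, false, false, false, true, false, false, false] X11 = true :=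
  rootP_nil rfl t11xg_95

theorem t11xg_100 :
    selP 60 2199023255553 8 [true, true, true, false, true, true, false] [false] [true] (Nat.land X11 (msk (Nat.sub (Nat.pow 2 60) 1) 60 [false, false, false, false, false, true, false, false, true] 4)) = true :=
  selP_t t11x_98 t11x_99

theorem t11xg_102 :
    selP 60 2199023255553 8 [true, true, true, true, false, true, true, false] [] [] (Nat.land X11 (msk (Nat.sub (Nat.pow 2 60) 1) 60 [false, false, false, false, false, true, false, false, true] 4)) = true :=
  selP_t t11xg_100 t11x_101

theorem t11xg_103 :
    chk 60 2199023255553 9 [true, true, true, true, true, false, true, true, false] (Nat.land X11 (msk (Nat.sub (Nat.pow 2 60) 1) 60 [false, false, false, false, false, true, false, false, true] 4)) = true :=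
  chk_t t11x_97 t11xg_102

theorem t11xg_104 :
    rootP 60 2199023255553 9 [false, false, false, false, false, true, false, false, true] X11 = true :=
  rootP_nil rfl t11xg_103

theorem t11xg_105 :
    rootP 60 2199023255553 9 [false, false, false, false, false, true, false, false] X11 = true :=
  rootP_merge [false, false, false, false, false, true, false, false] (by decide) t11xg_96 t11xg_104

theorem t11xg_109 :
    selP 60 2199023255553 8 [true, true, true, false, true, false, true] [false] [true] (Nat.land X11 (msk (Nat.sub (Nat.pow 2 60) 1) 60 [false, false, false, false, false, true, false, true, false] 4)) = true :=
  selP_t t11x_107 t11x_108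

theorem t11xg_111 :
    selP 60 2199023255553 8 [true, true, true, true, false, true, false, true] [] [] (Nat.land X11 (msk (Nat.sub (Nat.pow 2 60) 1) 60 [false, false, false, false, false, true, false, true, false] 4)) = true :=
  selP_t t11xg_109 t11x_110

theorem t11xg_112 :
    chk 60 2199023255553 9 [true, true, true, true, true, false, true, false, true] (Nat.land X11 (msk (Nat.sub (Nat.pow 2 60) 1) 60 [false, false, false, false, false, true, false, true, false] 4)) = true :=
  chk_t t11x_106 t11xg_111

theorem t11xg_113 :
    rootP 60 2199023255553 9 [false, false, false, false, false, true, false, true, false] X11 = true :=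
  rootP_nil rfl t11xg_112

theorem t11xg_115 :
    rootP 60 2199023255553 9 [false, false, false, false, false, true, false, true] X11 = true :=
  rootP_merge [false, false, false, false, false, true, false, true] (by decide) t11xg_113 t11x_114

theorem t11xg_116 :
    rootP 60 2199023255553 9 [false, false, false, false, false, true, false] X11 = true :=
  rootP_merge [false, false, false, false, false, true, false] (by decide) t11xg_105 t11xg_115

theorem t11xg_120 :
    selP 60 2199023255553 8 [true, true, true, false, false, true, true] [false] [true] (Nat.land X11 (msk (Nat.sub (Nat.pow 2 60) 1) 60 [false, false, false, false, false, true, true, false, false] 4)) = true :=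
  selP_t t11x_118 t11x_119

theorem t11xg_122 :
    selP 60 2199023255553 8 [true, true, true, true, false, false, true, true] [] [] (Nat.land X11 (msk (Nat.sub (Nat.pow 2 60) 1) 60 [false, false, false, false, false, true, true, false, false] 4)) = true :=
  selP_t t11xg_120 t11x_121

theorem t11xg_123 :
    chk 60 2199023255553 9 [true, true, true, true, true, false, false, true, true] (Nat.land X11 (msk (Nat.sub (Nat.pow 2 60) 1) 60 [false, false, false, false, false, true, true, false, false] 4)) = true :=
  chk_t t11x_117 t11xg_122

theorem t11xg_124 :
    rootP 60 2199023255553 9 [false, false, false, false, false, true, true, false, false] X11 = true :=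
  rootP_nil rfl t11xg_123

theorem t11xg_126 :
    rootP 60 2199023255553 9 [false, false, false, false, false, true, true, false] X11 = true :=
  rootP_merge [false, false, false, false, false, true, true, false] (by decide) t11xg_124 t11x_125

theorem t11xg_129 :
    rootP 60 2199023255553 9 [false, false, false, false, false, true, true, true] X11 = true :=
  rootP_merge [false, false, false, false, false, true, true, true] (by decide) t11x_127 t11x_128

theorem t11xg_130 :
    rootP 60 2199023255553 9 [false, false, false, false, false, true, true] X11 = true :=
  rootP_merge [false, false, false, false, false, true, true] (by decide) t11xg_126 t11xg_129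

theorem t11xg_131 :
    rootP 60 2199023255553 9 [false, false, false, false, false, true] X11 = true :=
  rootP_merge [false, false, false, false, false, true] (by decide) t11xg_116 t11xg_130

theorem t11xg_132 :
    rootP 60 2199023255553 9 [false, false, false, false, false] X11 = true :=
  rootP_merge [false, false, false, false, false] (by decide) t11xg_80 t11xg_131

theorem t11xg_136 :
    selP 60 2199023255553 8 [true, true, true, true] [false, false, false, false] [true, true, true, false] (Nat.land X11 (msk (Nat.sub (Nat.pow 2 60) 1) 60 [false, false, false, false, true, false, false, false, false] 4)) = true :=
  selP_t t11x_134 t11x_135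

theorem t11xg_137 :
    selP 60 2199023255553 8 [false, true, true, true, true] [false, false, false] [true, true, true] (Nat.land X11 (msk (Nat.sub (Nat.pow 2 60) 1) 60 [false, false, false, false, true, false, false, false, false] 4)) = true :=
  selP_f t11xg_136

theorem t11xg_139 :
    selP 60 2199023255553 8 [true, false, true, true, true, true] [false, false] [true, true] (Nat.land X11 (msk (Nat.sub (Nat.pow 2 60) 1) 60 [false, false, false, false, true, false, false, false, false] 4)) = true :=
  selP_t t11xg_137 t11x_138

theorem t11xg_142 :
    selP 60 2199023255553 8 [true, false, true, true, true, true] [false, true] [true, false] (Nat.land X11 (msk (Nat.sub (Nat.pow 2 60) 1) 60 [false, false, false, false, true, false, false, false, false] 4)) = true :=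
  selP_t t11x_140 t11x_141

theorem t11xg_143 :
    selP 60 2199023255553 8 [true, true, false, true, true, true, true] [false] [true] (Nat.land X11 (msk (Nat.sub (Nat.pow 2 60) 1) 60 [false, false, false, false, true, false, false, false, false] 4)) = true :=
  selP_t t11xg_139 t11xg_142

theorem t11xg_146 :
    selP 60 2199023255553 8 [true, true, false, true, true, true, true] [true] [false] (Nat.land X11 (msk (Nat.sub (Nat.pow 2 60) 1) 60 [false, false, false, false, true, false, false, false, false] 4)) = true :=
  selP_t t11x_144 t11x_145

theorem t11xg_147 :
    selP 60 2199023255553 8 [true, true, true, false, true, true, true, true] [] [] (Nat.land X11 (msk (Nat.sub (Nat.pow 2 60) 1) 60 [false, false, false, false, true, false, false, false, false] 4)) = true :=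
  selP_t t11xg_143 t11xg_146

theorem t11xg_148 :
    chk 60 2199023255553 9 [true, true, true, true, false, true, true, true, true] (Nat.land X11 (msk (Nat.sub (Nat.pow 2 60) 1) 60 [false, false, false, false, true, false, false, false, false] 4)) = true :=
  chk_t t11x_133 t11xg_147

theorem t11xg_149 :
    rootP 60 2199023255553 9 [false, false, false, false, true, false, false, false, false] X11 = true :=
  rootP_nil rfl t11xg_148

theorem t11xg_153 :
    selP 60 2199023255553 8 [true, true, false, true, true, true, false] [false] [true] (Nat.land X11 (msk (Nat.sub (Nat.pow 2 60) 1) 60 [false, false, false, false, true, false, false, false, true] 4)) = true :=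
  selP_t t11x_151 t11x_152

theorem t11xg_155 :
    selP 60 2199023255553 8 [true, true, true, false, true, true, true, false] [] [] (Nat.land X11 (msk (Nat.sub (Nat.pow 2 60) 1) 60 [false, false, false, false, true, false, false, false, true] 4)) = true :=
  selP_t t11xg_153 t11x_154

theorem t11xg_156 :
    chk 60 2199023255553 9 [true, true, true, true, false, true, true, true, false] (Nat.land X11 (msk (Nat.sub (Nat.pow 2 60) 1) 60 [false, false, false, false, true, false, false, false, true] 4)) = true :=
  chk_t t11x_150 t11xg_155

theorem t11xg_157 :
    rootP 60 2199023255553 9 [false, false, false, false, true, false, false, false, true] X11 = true :=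
  rootP_nil rfl t11xg_156

theorem t11xg_158 :
    rootP 60 2199023255553 9 [false, false, false, false, true, false, false, false] X11 = true :=
  rootP_merge [false, false, false, false, true, false, false, false] (by decide) t11xg_149 t11xg_157

theorem t11xg_162 :
    selP 60 2199023255553 8 [true, true, false, true, true, false, true] [false] [true] (Nat.land X11 (msk (Nat.sub (Nat.pow 2 60) 1) 60 [false, false, false, false, true, false, false, true, false] 4)) = true :=
  selP_t t11x_160 t11x_161

theorem t11xg_164 :
    selP 60 2199023255553 8 [true, true, true, false, true, true, false, true] [] [] (Nat.land X11 (msk (Nat.sub (Nat.pow 2 60) 1) 60 [false, false, false, false, true, false, false, true, false] 4)) = true :=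
  selP_t t11xg_162 t11x_163

theorem t11xg_165 :
    chk 60 2199023255553 9 [true, true, true, true, false, true, true, false, true] (Nat.land X11 (msk (Nat.sub (Nat.pow 2 60) 1) 60 [false, false, false, false, true, false, false, true, false] 4)) = true :=
  chk_t t11x_159 t11xg_164

theorem t11xg_166 :
    rootP 60 2199023255553 9 [false, false, false, false, true, false, false, true, false] X11 = true :=
  rootP_nil rfl t11xg_165

theorem t11xg_168 :
    rootP 60 2199023255553 9 [false, false, false, false, true, false, false, true] X11 = true :=
  rootP_merge [false, false, false, false, true, false, false, true] (by decide) t11xg_166 t11x_167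

theorem t11xg_169 :
    rootP 60 2199023255553 9 [false, false, false, false, true, false, false] X11 = true :=
  rootP_merge [false, false, false, false, true, false, false] (by decide) t11xg_158 t11xg_168

theorem t11xg_173 :
    selP 60 2199023255553 8 [true, true, false, true, false, true, true] [false] [true] (Nat.land X11 (msk (Nat.sub (Nat.pow 2 60) 1) 60 [false, false, false, false, true, false, true, false, false] 4)) = true :=
  selP_t t11x_171 t11x_172

theorem t11xg_175 :
    selP 60 2199023255553 8 [true, true, true, false, true, false, true, true] [] [] (Nat.land X11 (msk (Nat.sub (Nat.pow 2 60) 1) 60 [false, false, false, false, true, false, true, false, false] 4)) = true :=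
  selP_t t11xg_173 t11x_174

theorem t11xg_176 :
    chk 60 2199023255553 9 [true, true, true, true, false, true, false, true, true] (Nat.land X11 (msk (Nat.sub (Nat.pow 2 60) 1) 60 [false, false, false, false, true, false, true, false, false] 4)) = true :=
  chk_t t11x_170 t11xg_175

theorem t11xg_177 :
    rootP 60 2199023255553 9 [false, false, false, false, true, false, true, false, false] X11 = true :=
  rootP_nil rfl t11xg_176

theorem t11xg_179 :
    rootP 60 2199023255553 9 [false, false, false, false, true, false, true, false] X11 = true :=
  rootP_merge [false, false, false, false, true, false, true, false] (by decide) t11xg_177 t11x_178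

theorem t11xg_182 :
    rootP 60 2199023255553 9 [false, false, false, false, true, false, true, true] X11 = true :=
  rootP_merge [false, false, false, false, true, false, true, true] (by decide) t11x_180 t11x_181

theorem t11xg_183 :
    rootP 60 2199023255553 9 [false, false, false, false, true, false, true] X11 = true :=
  rootP_merge [false, false, false, false, true, false, true] (by decide) t11xg_179 t11xg_182

theorem t11xg_184 :
    rootP 60 2199023255553 9 [false, false, false, false, true, false] X11 = true :=
  rootP_merge [false, false, false, false, true, false] (by decide) t11xg_169 t11xg_183

theorem t11xg_188 :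
    selP 60 2199023255553 8 [true, true, false, false, true, true, true] [false] [true] (Nat.land X11 (msk (Nat.sub (Nat.pow 2 60) 1) 60 [false, false, false, false, true, true, false, false, false] 4)) = true :=
  selP_t t11x_186 t11x_187

theorem t11xg_190 :
    selP 60 2199023255553 8 [true, true, true, false, false, true, true, true] [] [] (Nat.land X11 (msk (Nat.sub (Nat.pow 2 60) 1) 60 [false, false, false, false, true, true, false, false, false] 4)) = true :=
  selP_t t11xg_188 t11x_189

theorem t11xg_191 :
    chk 60 2199023255553 9 [true, true, true, true, false, false, true, true, true] (Nat.land X11 (msk (Nat.sub (Nat.pow 2 60) 1) 60 [false, false, false, false, true, true, false, false, false] 4)) = true :=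
  chk_t t11x_185 t11xg_190

theorem t11xg_192 :
    rootP 60 2199023255553 9 [false, false, false, false, true, true, false, false, false] X11 = true :=
  rootP_nil rfl t11xg_191

theorem t11xg_194 :
    rootP 60 2199023255553 9 [false, false, false, false, true, true, false, false] X11 = true :=
  rootP_merge [false, false, false, false, true, true, false, false] (by decide) t11xg_192 t11x_193

theorem t11xg_197 :
    rootP 60 2199023255553 9 [false, false, false, false, true, true, false, true] X11 = true :=
  rootP_merge [false, false, false, false, true, true, false, true] (by decide) t11x_195 t11x_196

theorem t11xg_198 :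
    rootP 60 2199023255553 9 [false, false, false, false, true, true, false] X11 = true :=
  rootP_merge [false, false, false, false, true, true, false] (by decide) t11xg_194 t11xg_197

theorem t11xg_201 :
    rootP 60 2199023255553 9 [false, false, false, false, true, true, true, false] X11 = true :=
  rootP_merge [false, false, false, false, true, true, true, false] (by decide) t11x_199 t11x_200

theorem t11xg_203 :
    rootP 60 2199023255553 9 [false, false, false, false, true, true, true] X11 = true :=
  rootP_merge [false, false, false, false, true, true, true] (by decide) t11xg_201 t11x_202

theorem t11xg_204 :
    rootP 60 2199023255553 9 [false, false, false, false, true, true] X11 = true :=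
  rootP_merge [false, false, false, false, true, true] (by decide) t11xg_198 t11xg_203

theorem t11xg_205 :
    rootP 60 2199023255553 9 [false, false, false, false, true] X11 = true :=
  rootP_merge [false, false, false, false, true] (by decide) t11xg_184 t11xg_204

theorem t11xg_206 :
    rootP 60 2199023255553 9 [false, false, false, false] X11 = true :=
  rootP_merge [false, false, false, false] (by decide) t11xg_132 t11xg_205

theorem t11xg_210 :
    selP 60 2199023255553 8 [true, true, true, true] [false, false, false, false] [true, true, false, true] (Nat.land X11 (msk (Nat.sub (Nat.pow 2 60) 1) 60 [false, false, false, true, false, false, false, false, false] 4)) = true :=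
  selP_t t11x_208 t11x_209

theorem t11xg_212 :
    selP 60 2199023255553 8 [true, true, true, true, true] [false, false, false] [true, true, false] (Nat.land X11 (msk (Nat.sub (Nat.pow 2 60) 1) 60 [false, false, false, true, false, false, false, false, false] 4)) = true :=
  selP_t t11xg_210 t11x_211

theorem t11xg_213 :
    selP 60 2199023255553 8 [false, true, true, true, true, true] [false, false] [true, true] (Nat.land X11 (msk (Nat.sub (Nat.pow 2 60) 1) 60 [false, false, false, true, false, false, false, false, false] 4)) = true :=
  selP_f t11xg_212

theorem t11xg_216 :
    selP 60 2199023255553 8 [true, true, true, true, true] [false, true, false] [true, false, false] (Nat.land X11 (msk (Nat.sub (Nat.pow 2 60) 1) 60 [false, false, false, true, false, false, false, false, false] 4)) = true :=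
  selP_t t11x_214 t11x_215

theorem t11xg_217 :
    selP 60 2199023255553 8 [false, true, true, true, true, true] [false, true] [true, false] (Nat.land X11 (msk (Nat.sub (Nat.pow 2 60) 1) 60 [false, false, false, true, false, false, false, false, false] 4)) = true :=
  selP_f t11xg_216

theorem t11xg_218 :
    selP 60 2199023255553 8 [true, false, true, true, true, true, true] [false] [true] (Nat.land X11 (msk (Nat.sub (Nat.pow 2 60) 1) 60 [false, false, false, true, false, false, false, false, false] 4)) = true :=
  selP_t t11xg_213 t11xg_217

theorem t11xg_221 :
    selP 60 2199023255553 8 [true, false, true, true, true, true, true] [true] [false] (Nat.land X11 (msk (Nat.sub (Nat.pow 2 60) 1) 60 [false, false, false, true, false, false, false, false, false] 4)) = true :=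
  selP_t t11x_219 t11x_220

theorem t11xg_222 :
    selP 60 2199023255553 8 [true, true, false, true, true, true, true, true] [] [] (Nat.land X11 (msk (Nat.sub (Nat.pow 2 60) 1) 60 [false, false, false, true, false, false, false, false, false] 4)) = true :=
  selP_t t11xg_218 t11xg_221

theorem t11xg_223 :
    chk 60 2199023255553 9 [true, true, true, false, true, true, true, true, true] (Nat.land X11 (msk (Nat.sub (Nat.pow 2 60) 1) 60 [false, false, false, true, false, false, false, false, false] 4)) = true :=
  chk_t t11x_207 t11xg_222

theorem t11xg_224 :
    rootP 60 2199023255553 9 [false, false, false, true, false, false, false, false, false] X11 = true :=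
  rootP_nil rfl t11xg_223

theorem t11xg_228 :
    selP 60 2199023255553 8 [true, false, true, true, true, true, false] [false] [true] (Nat.land X11 (msk (Nat.sub (Nat.pow 2 60) 1) 60 [false, false, false, true, false, false, false, false, true] 4)) = true :=
  selP_t t11x_226 t11x_227

theorem t11xg_230 :
    selP 60 2199023255553 8 [true, true, false, true, true, true, true, false] [] [] (Nat.land X11 (msk (Nat.sub (Nat.pow 2 60) 1) 60 [false, false, false, true, false, false, false, false, true] 4)) = true :=
  selP_t t11xg_228 t11x_229

theorem t11xg_231 :
    chk 60 2199023255553 9 [true, true, true, false, true, true, true, true, false] (Nat.land X11 (msk (Nat.sub (Nat.pow 2 60) 1) 60 [false, false, false, true, false, false, false, false, true] 4)) = true :=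
  chk_t t11x_225 t11xg_230

theorem t11xg_232 :
    rootP 60 2199023255553 9 [false, false, false, true, false, false, false, false, true] X11 = true :=
  rootP_nil rfl t11xg_231

theorem t11xg_233 :
    rootP 60 2199023255553 9 [false, false, false, true, false, false, false, false] X11 = true :=
  rootP_merge [false, false, false, true, false, false, false, false] (by decide) t11xg_224 t11xg_232

theorem t11xg_237 :
    selP 60 2199023255553 8 [true, false, true, true, true, false, true] [false] [true] (Nat.land X11 (msk (Nat.sub (Nat.pow 2 60) 1) 60 [false, false, false, true, false, false, false, true, false] 4)) = true :=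
  selP_t t11x_235 t11x_236

theorem t11xg_239 :
    selP 60 2199023255553 8 [true, true, false, true, true, true, false, true] [] [] (Nat.land X11 (msk (Nat.sub (Nat.pow 2 60) 1) 60 [false, false, false, true, false, false, false, true, false] 4)) = true :=
  selP_t t11xg_237 t11x_238

theorem t11xg_240 :
    chk 60 2199023255553 9 [true, true, true, false, true, true, true, false, true] (Nat.land X11 (msk (Nat.sub (Nat.pow 2 60) 1) 60 [false, false, false, true, false, false, false, true, false] 4)) = true :=
  chk_t t11x_234 t11xg_239

theorem t11xg_241 :
    rootP 60 2199023255553 9 [false, false, false, true, false, false, false, true, false] X11 = true :=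
  rootP_nil rfl t11xg_240

theorem t11xg_243 :
    rootP 60 2199023255553 9 [false, false, false, true, false, false, false, true] X11 = true :=
  rootP_merge [false, false, false, true, false, false, false, true] (by decide) t11xg_241 t11x_242

theorem t11xg_244 :
    rootP 60 2199023255553 9 [false, false, false, true, false, false, false] X11 = true :=
  rootP_merge [false, false, false, true, false, false, false] (by decide) t11xg_233 t11xg_243

theorem t11xg_248 :
    selP 60 2199023255553 8 [true, false, true, true, false, true, true] [false] [true] (Nat.land X11 (msk (Nat.sub (Nat.pow 2 60) 1) 60 [false, false, false, true, false, false, true, false, false] 4)) = true :=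
  selP_t t11x_246 t11x_247

theorem t11xg_250 :
    selP 60 2199023255553 8 [true, true, false, true, true, false, true, true] [] [] (Nat.land X11 (msk (Nat.sub (Nat.pow 2 60) 1) 60 [false, false, false, true, false, false, true, false, false] 4)) = true :=
  selP_t t11xg_248 t11x_249

theorem t11xg_251 :
    chk 60 2199023255553 9 [true, true, true, false, true, true, false, true, true] (Nat.land X11 (msk (Nat.sub (Nat.pow 2 60) 1) 60 [false, false, false, true, false, false, true, false, false] 4)) = true :=
  chk_t t11x_245 t11xg_250

theorem t11xg_252 :
    rootP 60 2199023255553 9 [false, false, false, true, false, false, true, false, false] X11 = true :=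
  rootP_nil rfl t11xg_251

theorem t11xg_254 :
    rootP 60 2199023255553 9 [false, false, false, true, false, false, true, false] X11 = true :=
  rootP_merge [false, false, false, true, false, false, true, false] (by decide) t11xg_252 t11x_253

theorem t11xg_257 :
    rootP 60 2199023255553 9 [false, false, false, true, false, false, true, true] X11 = true :=
  rootP_merge [false, false, false, true, false, false, true, true] (by decide) t11x_255 t11x_256

theorem t11xg_258 :
    rootP 60 2199023255553 9 [false, false, false, true, false, false, true] X11 = true :=
  rootP_merge [false, false, false, true, false, false, true] (by decide) t11xg_254 t11xg_257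

theorem t11xg_259 :
    rootP 60 2199023255553 9 [false, false, false, true, false, false] X11 = true :=
  rootP_merge [false, false, false, true, false, false] (by decide) t11xg_244 t11xg_258

theorem t11xg_263 :
    selP 60 2199023255553 8 [true, false, true, false, true, true, true] [false] [true] (Nat.land X11 (msk (Nat.sub (Nat.pow 2 60) 1) 60 [false, false, false, true, false, true, false, false, false] 4)) = true :=
  selP_t t11x_261 t11x_262

theorem t11xg_265 :
    selP 60 2199023255553 8 [true, true, false, true, false, true, true, true] [] [] (Nat.land X11 (msk (Nat.sub (Nat.pow 2 60) 1) 60 [false, false, false, true, false, true, false, false, false] 4)) = true :=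
  selP_t t11xg_263 t11x_264

theorem t11xg_266 :
    chk 60 2199023255553 9 [true, true, true, false, true, false, true, true, true] (Nat.land X11 (msk (Nat.sub (Nat.pow 2 60) 1) 60 [false, false, false, true, false, true, false, false, false] 4)) = true :=
  chk_t t11x_260 t11xg_265

theorem t11xg_267 :
    rootP 60 2199023255553 9 [false, false, false, true, false, true, false, false, false] X11 = true :=
  rootP_nil rfl t11xg_266

theorem t11xg_269 :
    rootP 60 2199023255553 9 [false, false, false, true, false, true, false, false] X11 = true :=
  rootP_merge [false, false, false, true, false, true, false, false] (by decide) t11xg_267 t11x_268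

theorem t11xg_272 :
    rootP 60 2199023255553 9 [false, false, false, true, false, true, false, true] X11 = true :=
  rootP_merge [false, false, false, true, false, true, false, true] (by decide) t11x_270 t11x_271

theorem t11xg_273 :
    rootP 60 2199023255553 9 [false, false, false, true, false, true, false] X11 = true :=
  rootP_merge [false, false, false, true, false, true, false] (by decide) t11xg_269 t11xg_272

theorem t11xg_276 :
    rootP 60 2199023255553 9 [false, false, false, true, false, true, true, false] X11 = true :=
  rootP_merge [false, false, false, true, false, true, true, false] (by decide) t11x_274 t11x_275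

theorem t11xg_278 :
    rootP 60 2199023255553 9 [false, false, false, true, false, true, true] X11 = true :=
  rootP_merge [false, false, false, true, false, true, true] (by decide) t11xg_276 t11x_277

theorem t11xg_279 :
    rootP 60 2199023255553 9 [false, false, false, true, false, true] X11 = true :=
  rootP_merge [false, false, false, true, false, true] (by decide) t11xg_273 t11xg_278

theorem t11xg_280 :
    rootP 60 2199023255553 9 [false, false, false, true, false] X11 = true :=
  rootP_merge [false, false, false, true, false] (by decide) t11xg_259 t11xg_279

theorem t11xg_284 :
    selP 60 2199023255553 8 [true, false, false, true, true, true, true] [false] [true] (Nat.land X11 (msk (Nat.sub (Nat.pow 2 60) 1) 60 [false, false, false, true, true, false, false, false, false] 4)) = true :=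
  selP_t t11x_282 t11x_283

theorem t11xg_286 :
    selP 60 2199023255553 8 [true, true, false, false, true, true, true, true] [] [] (Nat.land X11 (msk (Nat.sub (Nat.pow 2 60) 1) 60 [false, false, false, true, true, false, false, false, false] 4)) = true :=
  selP_t t11xg_284 t11x_285

theorem t11xg_287 :
    chk 60 2199023255553 9 [true, true, true, false, false, true, true, true, true] (Nat.land X11 (msk (Nat.sub (Nat.pow 2 60) 1) 60 [false, false, false, true, true, false, false, false, false] 4)) = true :=
  chk_t t11x_281 t11xg_286

theorem t11xg_288 :
    rootP 60 2199023255553 9 [false, false, false, true, true, false, false, false, false] X11 = true :=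
  rootP_nil rfl t11xg_287

theorem t11xg_290 :
    rootP 60 2199023255553 9 [false, false, false, true, true, false, false, false] X11 = true :=
  rootP_merge [false, false, false, true, true, false, false, false] (by decide) t11xg_288 t11x_289

theorem t11xg_293 :
    rootP 60 2199023255553 9 [false, false, false, true, true, false, false, true] X11 = true :=
  rootP_merge [false, false, false, true, true, false, false, true] (by decide) t11x_291 t11x_292

theorem t11xg_294 :
    rootP 60 2199023255553 9 [false, false, false, true, true, false, false] X11 = true :=
  rootP_merge [false, false, false, true, true, false, false] (by decide) t11xg_290 t11xg_293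

theorem t11xg_297 :
    rootP 60 2199023255553 9 [false, false, false, true, true, false, true, false] X11 = true :=
  rootP_merge [false, false, false, true, true, false, true, false] (by decide) t11x_295 t11x_296

theorem t11xg_299 :
    rootP 60 2199023255553 9 [false, false, false, true, true, false, true] X11 = true :=
  rootP_merge [false, false, false, true, true, false, true] (by decide) t11xg_297 t11x_298

theorem t11xg_300 :
    rootP 60 2199023255553 9 [false, false, false, true, true, false] X11 = true :=
  rootP_merge [false, false, false, true, true, false] (by decide) t11xg_294 t11xg_299

theorem t11xg_303 :
    rootP 60 2199023255553 9 [false, false, false, true, true, true, false, false] X11 = true :=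
  rootP_merge [false, false, false, true, true, true, false, false] (by decide) t11x_301 t11x_302

theorem t11xg_305 :
    rootP 60 2199023255553 9 [false, false, false, true, true, true, false] X11 = true :=
  rootP_merge [false, false, false, true, true, true, false] (by decide) t11xg_303 t11x_304

theorem t11xg_307 :
    rootP 60 2199023255553 9 [false, false, false, true, true, true] X11 = true :=
  rootP_merge [false, false, false, true, true, true] (by decide) t11xg_305 t11x_306

theorem t11xg_308 :
    rootP 60 2199023255553 9 [false, false, false, true, true] X11 = true :=
  rootP_merge [false, false, false, true, true] (by decide) t11xg_300 t11xg_307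

theorem t11xg_309 :
    rootP 60 2199023255553 9 [false, false, false, true] X11 = true :=
  rootP_merge [false, false, false, true] (by decide) t11xg_280 t11xg_308

theorem t11xg_310 :
    rootP 60 2199023255553 9 [false, false, false] X11 = true :=
  rootP_merge [false, false, false] (by decide) t11xg_206 t11xg_309

theorem t11xg_314 :
    selP 60 2199023255553 8 [true, true, true, true] [false, false, false, false] [true, false, true, true] (Nat.land X11 (msk (Nat.sub (Nat.pow 2 60) 1) 60 [false, false, true, false, false, false, false, false, false] 4)) = true :=
  selP_t t11x_312 t11x_313

theorem t11xg_316 :
    selP 60 2199023255553 8 [true, true, true, true, true] [false, false, false] [true, false, true] (Nat.land X11 (msk (Nat.sub (Nat.pow 2 60) 1) 60 [false, false, true, false, false, false, false, false, false] 4)) = true :=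
  selP_t t11xg_314 t11x_315

theorem t11xg_319 :
    selP 60 2199023255553 8 [true, true, true, true, true] [false, false, true] [true, false, false] (Nat.land X11 (msk (Nat.sub (Nat.pow 2 60) 1) 60 [false, false, true, false, false, false, false, false, false] 4)) = true :=
  selP_t t11x_317 t11x_318

theorem t11xg_320 :
    selP 60 2199023255553 8 [true, true, true, true, true, true] [false, false] [true, false] (Nat.land X11 (msk (Nat.sub (Nat.pow 2 60) 1) 60 [false, false, true, false, false, false, false, false, false] 4)) = true :=
  selP_t t11xg_316 t11xg_319

theorem t11xg_321 :
    selP 60 2199023255553 8 [false, true, true, true, true, true, true] [false] [true] (Nat.land X11 (msk (Nat.sub (Nat.pow 2 60) 1) 60 [false, false, true, false, false, false, false, false, false] 4)) = true :=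
  selP_f t11xg_320

theorem t11xg_324 :
    selP 60 2199023255553 8 [true, true, true, true, true, true] [true, false] [false, false] (Nat.land X11 (msk (Nat.sub (Nat.pow 2 60) 1) 60 [false, false, true, false, false, false, false, false, false] 4)) = true :=
  selP_t t11x_322 t11x_323

theorem t11xg_325 :
    selP 60 2199023255553 8 [false, true, true, true, true, true, true] [true] [false] (Nat.land X11 (msk (Nat.sub (Nat.pow 2 60) 1) 60 [false, false, true, false, false, false, false, false, false] 4)) = true :=
  selP_f t11xg_324

theorem t11xg_326 :
    selP 60 2199023255553 8 [true, false, true, true, true, true, true, true] [] [] (Nat.land X11 (msk (Nat.sub (Nat.pow 2 60) 1) 60 [false, false, true, false, false, false, false, false, false] 4)) = true :=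
  selP_t t11xg_321 t11xg_325

theorem t11xg_327 :
    chk 60 2199023255553 9 [true, true, false, true, true, true, true, true, true] (Nat.land X11 (msk (Nat.sub (Nat.pow 2 60) 1) 60 [false, false, true, false, false, false, false, false, false] 4)) = true :=
  chk_t t11x_311 t11xg_326

theorem t11xg_328 :
    rootP 60 2199023255553 9 [false, false, true, false, false, false, false, false, false] X11 = true :=
  rootP_nil rfl t11xg_327

theorem t11xg_332 :
    selP 60 2199023255553 8 [true, true, true, true, true, false] [false, false] [true, false] (Nat.land X11 (msk (Nat.sub (Nat.pow 2 60) 1) 60 [false, false, true, false, false, false, false, false, true] 4)) = true :=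
  selP_t t11x_330 t11x_331

theorem t11xg_333 :
    selP 60 2199023255553 8 [false, true, true, true, true, true, false] [false] [true] (Nat.land X11 (msk (Nat.sub (Nat.pow 2 60) 1) 60 [false, false, true, false, false, false, false, false, true] 4)) = true :=
  selP_f t11xg_332

theorem t11xg_335 :
    selP 60 2199023255553 8 [true, false, true, true, true, true, true, false] [] [] (Nat.land X11 (msk (Nat.sub (Nat.pow 2 60) 1) 60 [false, false, true, false, false, false, false, false, true] 4)) = true :=
  selP_t t11xg_333 t11x_334

theorem t11xg_336 :
    chk 60 2199023255553 9 [true, true, false, true, true, true, true, true, false] (Nat.land X11 (msk (Nat.sub (Nat.pow 2 60) 1) 60 [false, false, true, false, false, false, false, false, true] 4)) = true :=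
  chk_t t11x_329 t11xg_335

theorem t11xg_337 :
    rootP 60 2199023255553 9 [false, false, true, false, false, false, false, false, true] X11 = true :=
  rootP_nil rfl t11xg_336

theorem t11xg_338 :
    rootP 60 2199023255553 9 [false, false, true, false, false, false, false, false] X11 = true :=
  rootP_merge [false, false, true, false, false, false, false, false] (by decide) t11xg_328 t11xg_337

theorem t11xg_342 :
    selP 60 2199023255553 8 [true, true, true, true, false, true] [false, false] [true, false] (Nat.land X11 (msk (Nat.sub (Nat.pow 2 60) 1) 60 [false, false, true, false, false, false, false, true, false] 4)) = true :=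
  selP_t t11x_340 t11x_341

theorem t11xg_343 :
    selP 60 2199023255553 8 [false, true, true, true, true, false, true] [false] [true] (Nat.land X11 (msk (Nat.sub (Nat.pow 2 60) 1) 60 [false, false, true, false, false, false, false, true, false] 4)) = true :=
  selP_f t11xg_342

theorem t11xg_345 :
    selP 60 2199023255553 8 [true, false, true, true, true, true, false, true] [] [] (Nat.land X11 (msk (Nat.sub (Nat.pow 2 60) 1) 60 [false, false, true, false, false, false, false, true, false] 4)) = true :=
  selP_t t11xg_343 t11x_344

theorem t11xg_346 :
    chk 60 2199023255553 9 [true, true, false, true, true, true, true, false, true] (Nat.land X11 (msk (Nat.sub (Nat.pow 2 60) 1) 60 [false, false, true, false, false, false, false, true, false] 4)) = true :=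
  chk_t t11x_339 t11xg_345

theorem t11xg_347 :
    rootP 60 2199023255553 9 [false, false, true, false, false, false, false, true, false] X11 = true :=
  rootP_nil rfl t11xg_346

theorem t11xg_349 :
    rootP 60 2199023255553 9 [false, false, true, false, false, false, false, true] X11 = true :=
  rootP_merge [false, false, true, false, false, false, false, true] (by decide) t11xg_347 t11x_348

theorem t11xg_350 :
    rootP 60 2199023255553 9 [false, false, true, false, false, false, false] X11 = true :=
  rootP_merge [false, false, true, false, false, false, false] (by decide) t11xg_338 t11xg_349

theorem t11xg_354 :
    selP 60 2199023255553 8 [true, true, true, false, true, true] [false, false] [true, false] (Nat.land X11 (msk (Nat.sub (Nat.pow 2 60) 1) 60 [false, false, true, false, false, false, true, false, false] 4)) = true :=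
  selP_t t11x_352 t11x_353

theorem t11xg_355 :
    selP 60 2199023255553 8 [false, true, true, true, false, true, true] [false] [true] (Nat.land X11 (msk (Nat.sub (Nat.pow 2 60) 1) 60 [false, false, true, false, false, false, true, false, false] 4)) = true :=
  selP_f t11xg_354

theorem t11xg_357 :
    selP 60 2199023255553 8 [true, false, true, true, true, false, true, true] [] [] (Nat.land X11 (msk (Nat.sub (Nat.pow 2 60) 1) 60 [false, false, true, false, false, false, true, false, false] 4)) = true :=
  selP_t t11xg_355 t11x_356

theorem t11xg_358 :
    chk 60 2199023255553 9 [true, true, false, true, true, true, false, true, true] (Nat.land X11 (msk (Nat.sub (Nat.pow 2 60) 1) 60 [false, false, true, false, false, false, true, false, false] 4)) = true :=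
  chk_t t11x_351 t11xg_357

theorem t11xg_359 :
    rootP 60 2199023255553 9 [false, false, true, false, false, false, true, false, false] X11 = true :=
  rootP_nil rfl t11xg_358

theorem t11xg_361 :
    rootP 60 2199023255553 9 [false, false, true, false, false, false, true, false] X11 = true :=
  rootP_merge [false, false, true, false, false, false, true, false] (by decide) t11xg_359 t11x_360

theorem t11xg_364 :
    rootP 60 2199023255553 9 [false, false, true, false, false, false, true, true] X11 = true :=
  rootP_merge [false, false, true, false, false, false, true, true] (by decide) t11x_362 t11x_363

theorem t11xg_365 :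
    rootP 60 2199023255553 9 [false, false, true, false, false, false, true] X11 = true :=
  rootP_merge [false, false, true, false, false, false, true] (by decide) t11xg_361 t11xg_364

theorem t11xg_366 :
    rootP 60 2199023255553 9 [false, false, true, false, false, false] X11 = true :=
  rootP_merge [false, false, true, false, false, false] (by decide) t11xg_350 t11xg_365

theorem t11xg_370 :
    selP 60 2199023255553 8 [true, true, false, true, true, true] [false, false] [true, false] (Nat.land X11 (msk (Nat.sub (Nat.pow 2 60) 1) 60 [false, false, true, false, false, true, false, false, false] 4)) = true :=
  selP_t t11x_368 t11x_369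

theorem t11xg_371 :
    selP 60 2199023255553 8 [false, true, true, false, true, true, true] [false] [true] (Nat.land X11 (msk (Nat.sub (Nat.pow 2 60) 1) 60 [false, false, true, false, false, true, false, false, false] 4)) = true :=
  selP_f t11xg_370

theorem t11xg_373 :
    selP 60 2199023255553 8 [true, false, true, true, false, true, true, true] [] [] (Nat.land X11 (msk (Nat.sub (Nat.pow 2 60) 1) 60 [false, false, true, false, false, true, false, false, false] 4)) = true :=
  selP_t t11xg_371 t11x_372

theorem t11xg_374 :
    chk 60 2199023255553 9 [true, true, false, true, true, false, true, true, true] (Nat.land X11 (msk (Nat.sub (Nat.pow 2 60) 1) 60 [false, false, true, false, false, true, false, false, false] 4)) = true :=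
  chk_t t11x_367 t11xg_373

theorem t11xg_375 :
    rootP 60 2199023255553 9 [false, false, true, false, false, true, false, false, false] X11 = true :=
  rootP_nil rfl t11xg_374

theorem t11xg_377 :
    rootP 60 2199023255553 9 [false, false, true, false, false, true, false, false] X11 = true :=
  rootP_merge [false, false, true, false, false, true, false, false] (by decide) t11xg_375 t11x_376

theorem t11xg_380 :
    rootP 60 2199023255553 9 [false, false, true, false, false, true, false, true] X11 = true :=
  rootP_merge [false, false, true, false, false, true, false, true] (by decide) t11x_378 t11x_379

theorem t11xg_381 :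
    rootP 60 2199023255553 9 [false, false, true, false, false, true, false] X11 = true :=
  rootP_merge [false, false, true, false, false, true, false] (by decide) t11xg_377 t11xg_380

theorem t11xg_384 :
    rootP 60 2199023255553 9 [false, false, true, false, false, true, true, false] X11 = true :=
  rootP_merge [false, false, true, false, false, true, true, false] (by decide) t11x_382 t11x_383

theorem t11xg_386 :
    rootP 60 2199023255553 9 [false, false, true, false, false, true, true] X11 = true :=
  rootP_merge [false, false, true, false, false, true, true] (by decide) t11xg_384 t11x_385

theorem t11xg_387 :
    rootP 60 2199023255553 9 [false, false, true, false, false, true] X11 = true :=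
  rootP_merge [false, false, true, false, false, true] (by decide) t11xg_381 t11xg_386

theorem t11xg_388 :
    rootP 60 2199023255553 9 [false, false, true, false, false] X11 = true :=
  rootP_merge [false, false, true, false, false] (by decide) t11xg_366 t11xg_387

theorem t11xg_392 :
    selP 60 2199023255553 8 [true, false, true, true, true, true] [false, false] [true, false] (Nat.land X11 (msk (Nat.sub (Nat.pow 2 60) 1) 60 [false, false, true, false, true, false, false, false, false] 4)) = true :=
  selP_t t11x_390 t11x_391

theorem t11xg_393 :
    selP 60 2199023255553 8 [false, true, false, true, true, true, true] [false] [true] (Nat.land X11 (msk (Nat.sub (Nat.pow 2 60) 1) 60 [false, false, true, false, true, false, false, false, false] 4)) = true :=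
  selP_f t11xg_392

theorem t11xg_395 :
    selP 60 2199023255553 8 [true, false, true, false, true, true, true, true] [] [] (Nat.land X11 (msk (Nat.sub (Nat.pow 2 60) 1) 60 [false, false, true, false, true, false, false, false, false] 4)) = true :=
  selP_t t11xg_393 t11x_394

theorem t11xg_396 :
    chk 60 2199023255553 9 [true, true, false, true, false, true, true, true, true] (Nat.land X11 (msk (Nat.sub (Nat.pow 2 60) 1) 60 [false, false, true, false, true, false, false, false, false] 4)) = true :=
  chk_t t11x_389 t11xg_395

theorem t11xg_397 :
    rootP 60 2199023255553 9 [false, false, true, false, true, false, false, false, false] X11 = true :=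
  rootP_nil rfl t11xg_396

theorem t11xg_399 :
    rootP 60 2199023255553 9 [false, false, true, false, true, false, false, false] X11 = true :=
  rootP_merge [false, false, true, false, true, false, false, false] (by decide) t11xg_397 t11x_398

theorem t11xg_402 :
    rootP 60 2199023255553 9 [false, false, true, false, true, false, false, true] X11 = true :=
  rootP_merge [false, false, true, false, true, false, false, true] (by decide) t11x_400 t11x_401

theorem t11xg_403 :
    rootP 60 2199023255553 9 [false, false, true, false, true, false, false] X11 = true :=
  rootP_merge [false, false, true, false, true, false, false] (by decide) t11xg_399 t11xg_402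

theorem t11xg_406 :
    rootP 60 2199023255553 9 [false, false, true, false, true, false, true, false] X11 = true :=
  rootP_merge [false, false, true, false, true, false, true, false] (by decide) t11x_404 t11x_405

theorem t11xg_408 :
    rootP 60 2199023255553 9 [false, false, true, false, true, false, true] X11 = true :=
  rootP_merge [false, false, true, false, true, false, true] (by decide) t11xg_406 t11x_407

theorem t11xg_409 :
    rootP 60 2199023255553 9 [false, false, true, false, true, false] X11 = true :=
  rootP_merge [false, false, true, false, true, false] (by decide) t11xg_403 t11xg_408

theorem t11xg_412 :
    rootP 60 2199023255553 9 [false, false, true, false, true, true, false, false] X11 = true :=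
  rootP_merge [false, false, true, false, true, true, false, false] (by decide) t11x_410 t11x_411

theorem t11xg_414 :
    rootP 60 2199023255553 9 [false, false, true, false, true, true, false] X11 = true :=
  rootP_merge [false, false, true, false, true, true, false] (by decide) t11xg_412 t11x_413

theorem t11xg_416 :
    rootP 60 2199023255553 9 [false, false, true, false, true, true] X11 = true :=
  rootP_merge [false, false, true, false, true, true] (by decide) t11xg_414 t11x_415

theorem t11xg_417 :
    rootP 60 2199023255553 9 [false, false, true, false, true] X11 = true :=
  rootP_merge [false, false, true, false, true] (by decide) t11xg_409 t11xg_416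

theorem t11xg_418 :
    rootP 60 2199023255553 9 [false, false, true, false] X11 = true :=
  rootP_merge [false, false, true, false] (by decide) t11xg_388 t11xg_417

theorem t11xg_422 :
    selP 60 2199023255553 8 [true, true, true, true, true] [false, false, false] [true, false, false] (Nat.land X11 (msk (Nat.sub (Nat.pow 2 60) 1) 60 [false, false, true, true, false, false, false, false, false] 4)) = true :=
  selP_t t11x_420 t11x_421

theorem t11xg_423 :
    selP 60 2199023255553 8 [false, true, true, true, true, true] [false, false] [true, false] (Nat.land X11 (msk (Nat.sub (Nat.pow 2 60) 1) 60 [false, false, true, true, false, false, false, false, false] 4)) = true :=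
  selP_f t11xg_422

theorem t11xg_424 :
    selP 60 2199023255553 8 [false, false, true, true, true, true, true] [false] [true] (Nat.land X11 (msk (Nat.sub (Nat.pow 2 60) 1) 60 [false, false, true, true, false, false, false, false, false] 4)) = true :=
  selP_f t11xg_423

theorem t11xg_426 :
    selP 60 2199023255553 8 [true, false, false, true, true, true, true, true] [] [] (Nat.land X11 (msk (Nat.sub (Nat.pow 2 60) 1) 60 [false, false, true, true, false, false, false, false, false] 4)) = true :=
  selP_t t11xg_424 t11x_425

theorem t11xg_427 :
    chk 60 2199023255553 9 [true, true, false, false, true, true, true, true, true] (Nat.land X11 (msk (Nat.sub (Nat.pow 2 60) 1) 60 [false, false, true, true, false, false, false, false, false] 4)) = true :=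
  chk_t t11x_419 t11xg_426

theorem t11xg_428 :
    rootP 60 2199023255553 9 [false, false, true, true, false, false, false, false, false] X11 = true :=
  rootP_nil rfl t11xg_427

theorem t11xg_430 :
    rootP 60 2199023255553 9 [false, false, true, true, false, false, false, false] X11 = true :=
  rootP_merge [false, false, true, true, false, false, false, false] (by decide) t11xg_428 t11x_429

theorem t11xg_433 :
    rootP 60 2199023255553 9 [false, false, true, true, false, false, false, true] X11 = true :=
  rootP_merge [false, false, true, true, false, false, false, true] (by decide) t11x_431 t11x_432

theorem t11xg_434 :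
    rootP 60 2199023255553 9 [false, false, true, true, false, false, false] X11 = true :=
  rootP_merge [false, false, true, true, false, false, false] (by decide) t11xg_430 t11xg_433

theorem t11xg_437 :
    rootP 60 2199023255553 9 [false, false, true, true, false, false, true, false] X11 = true :=
  rootP_merge [false, false, true, true, false, false, true, false] (by decide) t11x_435 t11x_436

theorem t11xg_439 :
    rootP 60 2199023255553 9 [false, false, true, true, false, false, true] X11 = true :=
  rootP_merge [false, false, true, true, false, false, true] (by decide) t11xg_437 t11x_438

theorem t11xg_440 :
    rootP 60 2199023255553 9 [false, false, true, true, false, false] X11 = true :=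
  rootP_merge [false, false, true, true, false, false] (by decide) t11xg_434 t11xg_439

theorem t11xg_443 :
    rootP 60 2199023255553 9 [false, false, true, true, false, true, false, false] X11 = true :=
  rootP_merge [false, false, true, true, false, true, false, false] (by decide) t11x_441 t11x_442

theorem t11xg_445 :
    rootP 60 2199023255553 9 [false, false, true, true, false, true, false] X11 = true :=
  rootP_merge [false, false, true, true, false, true, false] (by decide) t11xg_443 t11x_444

theorem t11xg_447 :
    rootP 60 2199023255553 9 [false, false, true, true, false, true] X11 = true :=
  rootP_merge [false, false, true, true, false, true] (by decide) t11xg_445 t11x_446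

theorem t11xg_448 :
    rootP 60 2199023255553 9 [false, false, true, true, false] X11 = true :=
  rootP_merge [false, false, true, true, false] (by decide) t11xg_440 t11xg_447

theorem t11xg_451 :
    rootP 60 2199023255553 9 [false, false, true, true, true, false, false, false] X11 = true :=
  rootP_merge [false, false, true, true, true, false, false, false] (by decide) t11x_449 t11x_450

theorem t11xg_453 :
    rootP 60 2199023255553 9 [false, false, true, true, true, false, false] X11 = true :=
  rootP_merge [false, false, true, true, true, false, false] (by decide) t11xg_451 t11x_452

theorem t11xg_455 :
    rootP 60 2199023255553 9 [false, false, true, true, true, false] X11 = true :=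
  rootP_merge [false, false, true, true, true, false] (by decide) t11xg_453 t11x_454

theorem t11xg_458 :
    rootP 60 2199023255553 9 [false, false, true, true, true, true] X11 = true :=
  rootP_merge [false, false, true, true, true, true] (by decide) t11x_456 t11x_457

theorem t11xg_459 :
    rootP 60 2199023255553 9 [false, false, true, true, true] X11 = true :=
  rootP_merge [false, false, true, true, true] (by decide) t11xg_455 t11xg_458

theorem t11xg_460 :
    rootP 60 2199023255553 9 [false, false, true, true] X11 = true :=
  rootP_merge [false, false, true, true] (by decide) t11xg_448 t11xg_459

theorem t11xg_461 :
    rootP 60 2199023255553 9 [false, false, true] X11 = true :=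
  rootP_merge [false, false, true] (by decide) t11xg_418 t11xg_460

theorem t11xg_462 :
    rootP 60 2199023255553 9 [false, false] X11 = true :=
  rootP_merge [false, false] (by decide) t11xg_310 t11xg_461

theorem t11xg_466 :
    selP 60 2199023255553 8 [true, true, true, true, true] [false, false, false] [false, true, true] (Nat.land X11 (msk (Nat.sub (Nat.pow 2 60) 1) 60 [false, true, false, false, false, false, false, false, false] 4)) = true :=
  selP_t t11x_464 t11x_465

theorem t11xg_468 :
    selP 60 2199023255553 8 [true, true, true, true, true, true] [false, false] [false, true] (Nat.land X11 (msk (Nat.sub (Nat.pow 2 60) 1) 60 [false, true, false, false, false, false, false, false, false] 4)) = true :=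
  selP_t t11xg_466 t11x_467

theorem t11xg_471 :
    selP 60 2199023255553 8 [true, true, true, true, true, true] [false, true] [false, false] (Nat.land X11 (msk (Nat.sub (Nat.pow 2 60) 1) 60 [false, true, false, false, false, false, false, false, false] 4)) = true :=
  selP_t t11x_469 t11x_470

theorem t11xg_472 :
    selP 60 2199023255553 8 [true, true, true, true, true, true, true] [false] [false] (Nat.land X11 (msk (Nat.sub (Nat.pow 2 60) 1) 60 [false, true, false, false, false, false, false, false, false] 4)) = true :=
  selP_t t11xg_468 t11xg_471

theorem t11xg_473 :
    selP 60 2199023255553 8 [false, true, true, true, true, true, true, true] [] [] (Nat.land X11 (msk (Nat.sub (Nat.pow 2 60) 1) 60 [false, true, false, false, false, false, false, false, false] 4)) = true :=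
  selP_f t11xg_472

theorem t11xg_474 :
    chk 60 2199023255553 9 [true, false, true, true, true, true, true, true, true] (Nat.land X11 (msk (Nat.sub (Nat.pow 2 60) 1) 60 [false, true, false, false, false, false, false, false, false] 4)) = true :=
  chk_t t11x_463 t11xg_473

theorem t11xg_475 :
    rootP 60 2199023255553 9 [false, true, false, false, false, false, false, false, false] X11 = true :=
  rootP_nil rfl t11xg_474

theorem t11xg_479 :
    selP 60 2199023255553 8 [true, true, true, true, true, true, false] [false] [false] (Nat.land X11 (msk (Nat.sub (Nat.pow 2 60) 1) 60 [false, true, false, false, false, false, false, false, true] 4)) = true :=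
  selP_t t11x_477 t11x_478

theorem t11xg_480 :
    selP 60 2199023255553 8 [false, true, true, true, true, true, true, false] [] [] (Nat.land X11 (msk (Nat.sub (Nat.pow 2 60) 1) 60 [false, true, false, false, false, false, false, false, true] 4)) = true :=
  selP_f t11xg_479

theorem t11xg_481 :
    chk 60 2199023255553 9 [true, false, true, true, true, true, true, true, false] (Nat.land X11 (msk (Nat.sub (Nat.pow 2 60) 1) 60 [false, true, false, false, false, false, false, false, true] 4)) = true :=
  chk_t t11x_476 t11xg_480

theorem t11xg_482 :
    rootP 60 2199023255553 9 [false, true, false, false, false, false, false, false, true] X11 = true :=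
  rootP_nil rfl t11xg_481

theorem t11xg_483 :
    rootP 60 2199023255553 9 [false, true, false, false, false, false, false, false] X11 = true :=
  rootP_merge [false, true, false, false, false, false, false, false] (by decide) t11xg_475 t11xg_482

theorem t11xg_487 :
    selP 60 2199023255553 8 [true, true, true, true, true, false, true] [false] [false] (Nat.land X11 (msk (Nat.sub (Nat.pow 2 60) 1) 60 [false, true, false, false, false, false, false, true, false] 4)) = true :=
  selP_t t11x_485 t11x_486

theorem t11xg_488 :
    selP 60 2199023255553 8 [false, true, true, true, true, true, false, true] [] [] (Nat.land X11 (msk (Nat.sub (Nat.pow 2 60) 1) 60 [false, true, false, false, false, false, false, true, false] 4)) = true :=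
  selP_f t11xg_487

theorem t11xg_489 :
    chk 60 2199023255553 9 [true, false, true, true, true, true, true, false, true] (Nat.land X11 (msk (Nat.sub (Nat.pow 2 60) 1) 60 [false, true, false, false, false, false, false, true, false] 4)) = true :=
  chk_t t11x_484 t11xg_488

theorem t11xg_490 :
    rootP 60 2199023255553 9 [false, true, false, false, false, false, false, true, false] X11 = true :=
  rootP_nil rfl t11xg_489

theorem t11xg_492 :
    rootP 60 2199023255553 9 [false, true, false, false, false, false, false, true] X11 = true :=
  rootP_merge [false, true, false, false, false, false, false, true] (by decide) t11xg_490 t11x_491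

theorem t11xg_493 :
    rootP 60 2199023255553 9 [false, true, false, false, false, false, false] X11 = true :=
  rootP_merge [false, true, false, false, false, false, false] (by decide) t11xg_483 t11xg_492

theorem t11xg_497 :
    selP 60 2199023255553 8 [true, true, true, true, false, true, true] [false] [false] (Nat.land X11 (msk (Nat.sub (Nat.pow 2 60) 1) 60 [false, true, false, false, false, false, true, false, false] 4)) = true :=
  selP_t t11x_495 t11x_496

theorem t11xg_498 :
    selP 60 2199023255553 8 [false, true, true, true, true, false, true, true] [] [] (Nat.land X11 (msk (Nat.sub (Nat.pow 2 60) 1) 60 [false, true, false, false, false, false, true, false, false] 4)) = true :=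
  selP_f t11xg_497

theorem t11xg_499 :
    chk 60 2199023255553 9 [true, false, true, true, true, true, false, true, true] (Nat.land X11 (msk (Nat.sub (Nat.pow 2 60) 1) 60 [false, true, false, false, false, false, true, false, false] 4)) = true :=
  chk_t t11x_494 t11xg_498

theorem t11xg_500 :
    rootP 60 2199023255553 9 [false, true, false, false, false, false, true, false, false] X11 = true :=
  rootP_nil rfl t11xg_499

theorem t11xg_502 :
    rootP 60 2199023255553 9 [false, true, false, false, false, false, true, false] X11 = true :=
  rootP_merge [false, true, false, false, false, false, true, false] (by decide) t11xg_500 t11x_501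

theorem t11xg_505 :
    rootP 60 2199023255553 9 [false, true, false, false, false, false, true, true] X11 = true :=
  rootP_merge [false, true, false, false, false, false, true, true] (by decide) t11x_503 t11x_504

theorem t11xg_506 :
    rootP 60 2199023255553 9 [false, true, false, false, false, false, true] X11 = true :=
  rootP_merge [false, true, false, false, false, false, true] (by decide) t11xg_502 t11xg_505

theorem t11xg_507 :
    rootP 60 2199023255553 9 [false, true, false, false, false, false] X11 = true :=
  rootP_merge [false, true, false, false, false, false] (by decide) t11xg_493 t11xg_506

theorem t11xg_511 :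
    selP 60 2199023255553 8 [true, true, true, false, true, true, true] [false] [false] (Nat.land X11 (msk (Nat.sub (Nat.pow 2 60) 1) 60 [false, true, false, false, false, true, false, false, false] 4)) = true :=
  selP_t t11x_509 t11x_510

theorem t11xg_512 :
    selP 60 2199023255553 8 [false, true, true, true, false, true, true, true] [] [] (Nat.land X11 (msk (Nat.sub (Nat.pow 2 60) 1) 60 [false, true, false, false, false, true, false, false, false] 4)) = true :=
  selP_f t11xg_511

theorem t11xg_513 :
    chk 60 2199023255553 9 [true, false, true, true, true, false, true, true, true] (Nat.land X11 (msk (Nat.sub (Nat.pow 2 60) 1) 60 [false, true, false, false, false, true, false, false, false] 4)) = true :=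
  chk_t t11x_508 t11xg_512

theorem t11xg_514 :
    rootP 60 2199023255553 9 [false, true, false, false, false, true, false, false, false] X11 = true :=
  rootP_nil rfl t11xg_513

theorem t11xg_516 :
    rootP 60 2199023255553 9 [false, true, false, false, false, true, false, false] X11 = true :=
  rootP_merge [false, true, false, false, false, true, false, false] (by decide) t11xg_514 t11x_515

theorem t11xg_519 :
    rootP 60 2199023255553 9 [false, true, false, false, false, true, false, true] X11 = true :=
  rootP_merge [false, true, false, false, false, true, false, true] (by decide) t11x_517 t11x_518

theorem t11xg_520 :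
    rootP 60 2199023255553 9 [false, true, false, false, false, true, false] X11 = true :=
  rootP_merge [false, true, false, false, false, true, false] (by decide) t11xg_516 t11xg_519

theorem t11xg_523 :
    rootP 60 2199023255553 9 [false, true, false, false, false, true, true, false] X11 = true :=
  rootP_merge [false, true, false, false, false, true, true, false] (by decide) t11x_521 t11x_522

theorem t11xg_525 :
    rootP 60 2199023255553 9 [false, true, false, false, false, true, true] X11 = true :=
  rootP_merge [false, true, false, false, false, true, true] (by decide) t11xg_523 t11x_524

theorem t11xg_526 :
    rootP 60 2199023255553 9 [false, true, false, false, false, true] X11 = true :=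
  rootP_merge [false, true, false, false, false, true] (by decide) t11xg_520 t11xg_525

theorem t11xg_527 :
    rootP 60 2199023255553 9 [false, true, false, false, false] X11 = true :=
  rootP_merge [false, true, false, false, false] (by decide) t11xg_507 t11xg_526

theorem t11xg_531 :
    selP 60 2199023255553 8 [true, true, false, true, true, true, true] [false] [false] (Nat.land X11 (msk (Nat.sub (Nat.pow 2 60) 1) 60 [false, true, false, false, true, false, false, false, false] 4)) = true :=
  selP_t t11x_529 t11x_530

theorem t11xg_532 :
    selP 60 2199023255553 8 [false, true, true, false, true, true, true, true] [] [] (Nat.land X11 (msk (Nat.sub (Nat.pow 2 60) 1) 60 [false, true, false, false, true, false, false, false, false] 4)) = true :=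
  selP_f t11xg_531

theorem t11xg_533 :
    chk 60 2199023255553 9 [true, false, true, true, false, true, true, true, true] (Nat.land X11 (msk (Nat.sub (Nat.pow 2 60) 1) 60 [false, true, false, false, true, false, false, false, false] 4)) = true :=
  chk_t t11x_528 t11xg_532

theorem t11xg_534 :
    rootP 60 2199023255553 9 [false, true, false, false, true, false, false, false, false] X11 = true :=
  rootP_nil rfl t11xg_533

theorem t11xg_536 :
    rootP 60 2199023255553 9 [false, true, false, false, true, false, false, false] X11 = true :=
  rootP_merge [false, true, false, false, true, false, false, false] (by decide) t11xg_534 t11x_535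

theorem t11xg_539 :
    rootP 60 2199023255553 9 [false, true, false, false, true, false, false, true] X11 = true :=
  rootP_merge [false, true, false, false, true, false, false, true] (by decide) t11x_537 t11x_538

theorem t11xg_540 :
    rootP 60 2199023255553 9 [false, true, false, false, true, false, false] X11 = true :=
  rootP_merge [false, true, false, false, true, false, false] (by decide) t11xg_536 t11xg_539

theorem t11xg_543 :
    rootP 60 2199023255553 9 [false, true, false, false, true, false, true, false] X11 = true :=
  rootP_merge [false, true, false, false, true, false, true, false] (by decide) t11x_541 t11x_542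

theorem t11xg_545 :
    rootP 60 2199023255553 9 [false, true, false, false, true, false, true] X11 = true :=
  rootP_merge [false, true, false, false, true, false, true] (by decide) t11xg_543 t11x_544

theorem t11xg_546 :
    rootP 60 2199023255553 9 [false, true, false, false, true, false] X11 = true :=
  rootP_merge [false, true, false, false, true, false] (by decide) t11xg_540 t11xg_545

theorem t11xg_549 :
    rootP 60 2199023255553 9 [false, true, false, false, true, true, false, false] X11 = true :=
  rootP_merge [false, true, false, false, true, true, false, false] (by decide) t11x_547 t11x_548

theorem t11xg_551 :
    rootP 60 2199023255553 9 [false, true, false, false, true, true, false] X11 = true :=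
  rootP_merge [false, true, false, false, true, true, false] (by decide) t11xg_549 t11x_550

theorem t11xg_553 :
    rootP 60 2199023255553 9 [false, true, false, false, true, true] X11 = true :=
  rootP_merge [false, true, false, false, true, true] (by decide) t11xg_551 t11x_552

theorem t11xg_554 :
    rootP 60 2199023255553 9 [false, true, false, false, true] X11 = true :=
  rootP_merge [false, true, false, false, true] (by decide) t11xg_546 t11xg_553

theorem t11xg_555 :
    rootP 60 2199023255553 9 [false, true, false, false] X11 = true :=
  rootP_merge [false, true, false, false] (by decide) t11xg_527 t11xg_554

theorem t11xg_559 :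
    selP 60 2199023255553 8 [true, false, true, true, true, true, true] [false] [false] (Nat.land X11 (msk (Nat.sub (Nat.pow 2 60) 1) 60 [false, true, false, true, false, false, false, false, false] 4)) = true :=
  selP_t t11x_557 t11x_558

theorem t11xg_560 :
    selP 60 2199023255553 8 [false, true, false, true, true, true, true, true] [] [] (Nat.land X11 (msk (Nat.sub (Nat.pow 2 60) 1) 60 [false, true, false, true, false, false, false, false, false] 4)) = true :=
  selP_f t11xg_559

theorem t11xg_561 :
    chk 60 2199023255553 9 [true, false, true, false, true, true, true, true, true] (Nat.land X11 (msk (Nat.sub (Nat.pow 2 60) 1) 60 [false, true, false, true, false, false, false, false, false] 4)) = true :=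
  chk_t t11x_556 t11xg_560

theorem t11xg_562 :
    rootP 60 2199023255553 9 [false, true, false, true, false, false, false, false, false] X11 = true :=
  rootP_nil rfl t11xg_561

theorem t11xg_564 :
    rootP 60 2199023255553 9 [false, true, false, true, false, false, false, false] X11 = true :=
  rootP_merge [false, true, false, true, false, false, false, false] (by decide) t11xg_562 t11x_563

theorem t11xg_567 :
    rootP 60 2199023255553 9 [false, true, false, true, false, false, false, true] X11 = true :=
  rootP_merge [false, true, false, true, false, false, false, true] (by decide) t11x_565 t11x_566

theorem t11xg_568 :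
    rootP 60 2199023255553 9 [false, true, false, true, false, false, false] X11 = true :=
  rootP_merge [false, true, false, true, false, false, false] (by decide) t11xg_564 t11xg_567

theorem t11xg_571 :
    rootP 60 2199023255553 9 [false, true, false, true, false, false, true, false] X11 = true :=
  rootP_merge [false, true, false, true, false, false, true, false] (by decide) t11x_569 t11x_570

theorem t11xg_573 :
    rootP 60 2199023255553 9 [false, true, false, true, false, false, true] X11 = true :=
  rootP_merge [false, true, false, true, false, false, true] (by decide) t11xg_571 t11x_572

theorem t11xg_574 :
    rootP 60 2199023255553 9 [false, true, false, true, false, false] X11 = true :=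
  rootP_merge [false, true, false, true, false, false] (by decide) t11xg_568 t11xg_573

theorem t11xg_577 :
    rootP 60 2199023255553 9 [false, true, false, true, false, true, false, false] X11 = true :=
  rootP_merge [false, true, false, true, false, true, false, false] (by decide) t11x_575 t11x_576

theorem t11xg_579 :
    rootP 60 2199023255553 9 [false, true, false, true, false, true, false] X11 = true :=
  rootP_merge [false, true, false, true, false, true, false] (by decide) t11xg_577 t11x_578

theorem t11xg_581 :
    rootP 60 2199023255553 9 [false, true, false, true, false, true] X11 = true :=
  rootP_merge [false, true, false, true, false, true] (by decide) t11xg_579 t11x_580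

theorem t11xg_582 :
    rootP 60 2199023255553 9 [false, true, false, true, false] X11 = true :=
  rootP_merge [false, true, false, true, false] (by decide) t11xg_574 t11xg_581

theorem t11xg_585 :
    rootP 60 2199023255553 9 [false, true, false, true, true, false, false, false] X11 = true :=
  rootP_merge [false, true, false, true, true, false, false, false] (by decide) t11x_583 t11x_584

theorem t11xg_587 :
    rootP 60 2199023255553 9 [false, true, false, true, true, false, false] X11 = true :=
  rootP_merge [false, true, false, true, true, false, false] (by decide) t11xg_585 t11x_586

theorem t11xg_589 :
    rootP 60 2199023255553 9 [false, true, false, true, true, false] X11 = true :=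
  rootP_merge [false, true, false, true, true, false] (by decide) t11xg_587 t11x_588

theorem t11xg_592 :
    rootP 60 2199023255553 9 [false, true, false, true, true, true] X11 = true :=
  rootP_merge [false, true, false, true, true, true] (by decide) t11x_590 t11x_591

theorem t11xg_593 :
    rootP 60 2199023255553 9 [false, true, false, true, true] X11 = true :=
  rootP_merge [false, true, false, true, true] (by decide) t11xg_589 t11xg_592

theorem t11xg_594 :
    rootP 60 2199023255553 9 [false, true, false, true] X11 = true :=
  rootP_merge [false, true, false, true] (by decide) t11xg_582 t11xg_593

theorem t11xg_595 :
    rootP 60 2199023255553 9 [false, true, false] X11 = true :=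
  rootP_merge [false, true, false] (by decide) t11xg_555 t11xg_594

theorem t11xg_599 :
    selP 60 2199023255553 8 [true, true, true, true, true, true] [false, false] [false, false] (Nat.land X11 (msk (Nat.sub (Nat.pow 2 60) 1) 60 [false, true, true, false, false, false, false, false, false] 4)) = true :=
  selP_t t11x_597 t11x_598

theorem t11xg_600 :
    selP 60 2199023255553 8 [false, true, true, true, true, true, true] [false] [false] (Nat.land X11 (msk (Nat.sub (Nat.pow 2 60) 1) 60 [false, true, true, false, false, false, false, false, false] 4)) = true :=
  selP_f t11xg_599

theorem t11xg_601 :
    selP 60 2199023255553 8 [false, false, true, true, true, true, true, true] [] [] (Nat.land X11 (msk (Nat.sub (Nat.pow 2 60) 1) 60 [false, true, true, false, false, false, false, false, false] 4)) = true :=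
  selP_f t11xg_600

theorem t11xg_602 :
    chk 60 2199023255553 9 [true, false, false, true, true, true, true, true, true] (Nat.land X11 (msk (Nat.sub (Nat.pow 2 60) 1) 60 [false, true, true, false, false, false, false, false, false] 4)) = true :=
  chk_t t11x_596 t11xg_601

theorem t11xg_603 :
    rootP 60 2199023255553 9 [false, true, true, false, false, false, false, false, false] X11 = true :=
  rootP_nil rfl t11xg_602

theorem t11xg_605 :
    rootP 60 2199023255553 9 [false, true, true, false, false, false, false, false] X11 = true :=
  rootP_merge [false, true, true, false, false, false, false, false] (by decide) t11xg_603 t11x_604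

theorem t11xg_608 :
    rootP 60 2199023255553 9 [false, true, true, false, false, false, false, true] X11 = true :=
  rootP_merge [false, true, true, false, false, false, false, true] (by decide) t11x_606 t11x_607

theorem t11xg_609 :
    rootP 60 2199023255553 9 [false, true, true, false, false, false, false] X11 = true :=
  rootP_merge [false, true, true, false, false, false, false] (by decide) t11xg_605 t11xg_608

theorem t11xg_612 :
    rootP 60 2199023255553 9 [false, true, true, false, false, false, true, false] X11 = true :=
  rootP_merge [false, true, true, false, false, false, true, false] (by decide) t11x_610 t11x_611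

theorem t11xg_614 :
    rootP 60 2199023255553 9 [false, true, true, false, false, false, true] X11 = true :=
  rootP_merge [false, true, true, false, false, false, true] (by decide) t11xg_612 t11x_613

theorem t11xg_615 :
    rootP 60 2199023255553 9 [false, true, true, false, false, false] X11 = true :=
  rootP_merge [false, true, true, false, false, false] (by decide) t11xg_609 t11xg_614

theorem t11xg_618 :
    rootP 60 2199023255553 9 [false, true, true, false, false, true, false, false] X11 = true :=
  rootP_merge [false, true, true, false, false, true, false, false] (by decide) t11x_616 t11x_617

theorem t11xg_620 :
    rootP 60 2199023255553 9 [false, true, true, false, false, true, false] X11 = true :=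
  rootP_merge [false, true, true, false, false, true, false] (by decide) t11xg_618 t11x_619

theorem t11xg_622 :
    rootP 60 2199023255553 9 [false, true, true, false, false, true] X11 = true :=
  rootP_merge [false, true, true, false, false, true] (by decide) t11xg_620 t11x_621

theorem t11xg_623 :
    rootP 60 2199023255553 9 [false, true, true, false, false] X11 = true :=
  rootP_merge [false, true, true, false, false] (by decide) t11xg_615 t11xg_622

theorem t11xg_626 :
    rootP 60 2199023255553 9 [false, true, true, false, true, false, false, false] X11 = true :=
  rootP_merge [false, true, true, false, true, false, false, false] (by decide) t11x_624 t11x_625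

theorem t11xg_628 :
    rootP 60 2199023255553 9 [false, true, true, false, true, false, false] X11 = true :=
  rootP_merge [false, true, true, false, true, false, false] (by decide) t11xg_626 t11x_627

theorem t11xg_630 :
    rootP 60 2199023255553 9 [false, true, true, false, true, false] X11 = true :=
  rootP_merge [false, true, true, false, true, false] (by decide) t11xg_628 t11x_629

theorem t11xg_633 :
    rootP 60 2199023255553 9 [false, true, true, false, true, true] X11 = true :=
  rootP_merge [false, true, true, false, true, true] (by decide) t11x_631 t11x_632

theorem t11xg_634 :
    rootP 60 2199023255553 9 [false, true, true, false, true] X11 = true :=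
  rootP_merge [false, true, true, false, true] (by decide) t11xg_630 t11xg_633

theorem t11xg_635 :
    rootP 60 2199023255553 9 [false, true, true, false] X11 = true :=
  rootP_merge [false, true, true, false] (by decide) t11xg_623 t11xg_634

theorem t11xg_638 :
    rootP 60 2199023255553 9 [false, true, true, true, false, false, false, false] X11 = true :=
  rootP_merge [false, true, true, true, false, false, false, false] (by decide) t11x_636 t11x_637

theorem t11xg_640 :
    rootP 60 2199023255553 9 [false, true, true, true, false, false, false] X11 = true :=
  rootP_merge [false, true, true, true, false, false, false] (by decide) t11xg_638 t11x_639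

theorem t11xg_642 :
    rootP 60 2199023255553 9 [false, true, true, true, false, false] X11 = true :=
  rootP_merge [false, true, true, true, false, false] (by decide) t11xg_640 t11x_641

theorem t11xg_645 :
    rootP 60 2199023255553 9 [false, true, true, true, false, true] X11 = true :=
  rootP_merge [false, true, true, true, false, true] (by decide) t11x_643 t11x_644

theorem t11xg_646 :
    rootP 60 2199023255553 9 [false, true, true, true, false] X11 = true :=
  rootP_merge [false, true, true, true, false] (by decide) t11xg_642 t11xg_645

theorem t11xg_649 :
    rootP 60 2199023255553 9 [false, true, true, true, true, false] X11 = true :=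
  rootP_merge [false, true, true, true, true, false] (by decide) t11x_647 t11x_648

theorem t11xg_651 :
    rootP 60 2199023255553 9 [false, true, true, true, true] X11 = true :=
  rootP_merge [false, true, true, true, true] (by decide) t11xg_649 t11x_650

theorem t11xg_652 :
    rootP 60 2199023255553 9 [false, true, true, true] X11 = true :=
  rootP_merge [false, true, true, true] (by decide) t11xg_646 t11xg_651

theorem t11xg_653 :
    rootP 60 2199023255553 9 [false, true, true] X11 = true :=
  rootP_merge [false, true, true] (by decide) t11xg_635 t11xg_652

theorem t11xg_654 :
    rootP 60 2199023255553 9 [false, true] X11 = true :=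
  rootP_merge [false, true] (by decide) t11xg_595 t11xg_653

theorem t11xg_655 :
    rootP 60 2199023255553 9 [false] X11 = true :=
  rootP_merge [false] (by decide) t11xg_462 t11xg_654

theorem t11xg_659 :
    selP 60 2199023255553 7 [true, true, true, true, true, true, true] [] [] (fold (Nat.mul 60 (Nat.pow 4 8)) (Nat.land X11 (msk (Nat.sub (Nat.pow 2 60) 1) 60 [true, false, false, false, false, false, false, false, false] 4))) = true :=
  selP_t t11x_657 t11x_658

theorem t11xg_660 :
    chk 60 2199023255553 8 [true, true, true, true, true, true, true, true] (fold (Nat.mul 60 (Nat.pow 4 8)) (Nat.land X11 (msk (Nat.sub (Nat.pow 2 60) 1) 60 [true, false, false, false, false, false, false, false, false] 4))) = true :=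
  chk_t t11x_656 t11xg_659

theorem t11xg_661 :
    chk 60 2199023255553 9 [false, true, true, true, true, true, true, true, true] (Nat.land X11 (msk (Nat.sub (Nat.pow 2 60) 1) 60 [true, false, false, false, false, false, false, false, false] 4)) = true :=
  chk_f t11xg_660

theorem t11xg_662 :
    rootP 60 2199023255553 9 [true, false, false, false, false, false, false, false, false] X11 = true :=
  rootP_nil rfl t11xg_661

theorem t11xg_664 :
    rootP 60 2199023255553 9 [true, false, false, false, false, false, false, false] X11 = true :=
  rootP_merge [true, false, false, false, false, false, false, false] (by decide) t11xg_662 t11x_663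

theorem t11xg_666 :
    rootP 60 2199023255553 9 [true, false, false, false, false, false, false] X11 = true :=
  rootP_merge [true, false, false, false, false, false, false] (by decide) t11xg_664 t11x_665

theorem t11xg_669 :
    rootP 60 2199023255553 9 [true, false, false, false, false, false, true] X11 = true :=
  rootP_merge [true, false, false, false, false, false, true] (by decide) t11x_667 t11x_668

theorem t11xg_670 :
    rootP 60 2199023255553 9 [true, false, false, false, false, false] X11 = true :=
  rootP_merge [true, false, false, false, false, false] (by decide) t11xg_666 t11xg_669

theorem t11xg_673 :
    rootP 60 2199023255553 9 [true, false, false, false, false, true, false] X11 = true :=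
  rootP_merge [true, false, false, false, false, true, false] (by decide) t11x_671 t11x_672

theorem t11xg_675 :
    rootP 60 2199023255553 9 [true, false, false, false, false, true] X11 = true :=
  rootP_merge [true, false, false, false, false, true] (by decide) t11xg_673 t11x_674

theorem t11xg_676 :
    rootP 60 2199023255553 9 [true, false, false, false, false] X11 = true :=
  rootP_merge [true, false, false, false, false] (by decide) t11xg_670 t11xg_675

theorem t11xg_679 :
    rootP 60 2199023255553 9 [true, false, false, false, true, false, false] X11 = true :=
  rootP_merge [true, false, false, false, true, false, false] (by decide) t11x_677 t11x_678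

theorem t11xg_681 :
    rootP 60 2199023255553 9 [true, false, false, false, true, false] X11 = true :=
  rootP_merge [true, false, false, false, true, false] (by decide) t11xg_679 t11x_680

theorem t11xg_684 :
    rootP 60 2199023255553 9 [true, false, false, false, true, true] X11 = true :=
  rootP_merge [true, false, false, false, true, true] (by decide) t11x_682 t11x_683

theorem t11xg_685 :
    rootP 60 2199023255553 9 [true, false, false, false, true] X11 = true :=
  rootP_merge [true, false, false, false, true] (by decide) t11xg_681 t11xg_684

theorem t11xg_686 :
    rootP 60 2199023255553 9 [true, false, false, false] X11 = true :=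
  rootP_merge [true, false, false, false] (by decide) t11xg_676 t11xg_685

theorem t11xg_689 :
    rootP 60 2199023255553 9 [true, false, false, true, false, false] X11 = true :=
  rootP_merge [true, false, false, true, false, false] (by decide) t11x_687 t11x_688

theorem t11xg_692 :
    rootP 60 2199023255553 9 [true, false, false, true, false, true] X11 = true :=
  rootP_merge [true, false, false, true, false, true] (by decide) t11x_690 t11x_691

theorem t11xg_693 :
    rootP 60 2199023255553 9 [true, false, false, true, false] X11 = true :=
  rootP_merge [true, false, false, true, false] (by decide) t11xg_689 t11xg_692

theorem t11xg_696 :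
    rootP 60 2199023255553 9 [true, false, false, true, true, false] X11 = true :=
  rootP_merge [true, false, false, true, true, false] (by decide) t11x_694 t11x_695

theorem t11xg_698 :
    rootP 60 2199023255553 9 [true, false, false, true, true] X11 = true :=
  rootP_merge [true, false, false, true, true] (by decide) t11xg_696 t11x_697

theorem t11xg_699 :
    rootP 60 2199023255553 9 [true, false, false, true] X11 = true :=
  rootP_merge [true, false, false, true] (by decide) t11xg_693 t11xg_698

theorem t11xg_700 :
    rootP 60 2199023255553 9 [true, false, false] X11 = true :=
  rootP_merge [true, false, false] (by decide) t11xg_686 t11xg_699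

theorem t11xg_703 :
    rootP 60 2199023255553 9 [true, false, true, false, false, false] X11 = true :=
  rootP_merge [true, false, true, false, false, false] (by decide) t11x_701 t11x_702

theorem t11xg_706 :
    rootP 60 2199023255553 9 [true, false, true, false, false, true] X11 = true :=
  rootP_merge [true, false, true, false, false, true] (by decide) t11x_704 t11x_705

theorem t11xg_707 :
    rootP 60 2199023255553 9 [true, false, true, false, false] X11 = true :=
  rootP_merge [true, false, true, false, false] (by decide) t11xg_703 t11xg_706

theorem t11xg_710 :
    rootP 60 2199023255553 9 [true, false, true, false, true, false] X11 = true :=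
  rootP_merge [true, false, true, false, true, false] (by decide) t11x_708 t11x_709

theorem t11xg_712 :
    rootP 60 2199023255553 9 [true, false, true, false, true] X11 = true :=
  rootP_merge [true, false, true, false, true] (by decide) t11xg_710 t11x_711

theorem t11xg_713 :
    rootP 60 2199023255553 9 [true, false, true, false] X11 = true :=
  rootP_merge [true, false, true, false] (by decide) t11xg_707 t11xg_712

theorem t11xg_716 :
    rootP 60 2199023255553 9 [true, false, true, true, false] X11 = true :=
  rootP_merge [true, false, true, true, false] (by decide) t11x_714 t11x_715

theorem t11xg_719 :
    rootP 60 2199023255553 9 [true, false, true, true, true] X11 = true :=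
  rootP_merge [true, false, true, true, true] (by decide) t11x_717 t11x_718

theorem t11xg_720 :
    rootP 60 2199023255553 9 [true, false, true, true] X11 = true :=
  rootP_merge [true, false, true, true] (by decide) t11xg_716 t11xg_719

theorem t11xg_721 :
    rootP 60 2199023255553 9 [true, false, true] X11 = true :=
  rootP_merge [true, false, true] (by decide) t11xg_713 t11xg_720

theorem t11xg_722 :
    rootP 60 2199023255553 9 [true, false] X11 = true :=
  rootP_merge [true, false] (by decide) t11xg_700 t11xg_721

theorem t11xg_725 :
    rootP 60 2199023255553 9 [true, true, false, false, false] X11 = true :=
  rootP_merge [true, true, false, false, false] (by decide) t11x_723 t11x_724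

theorem t11xg_728 :
    rootP 60 2199023255553 9 [true, true, false, false, true] X11 = true :=
  rootP_merge [true, true, false, false, true] (by decide) t11x_726 t11x_727

theorem t11xg_729 :
    rootP 60 2199023255553 9 [true, true, false, false] X11 = true :=
  rootP_merge [true, true, false, false] (by decide) t11xg_725 t11xg_728

theorem t11xg_732 :
    rootP 60 2199023255553 9 [true, true, false, true, false] X11 = true :=
  rootP_merge [true, true, false, true, false] (by decide) t11x_730 t11x_731

theorem t11xg_735 :
    rootP 60 2199023255553 9 [true, true, false, true, true] X11 = true :=
  rootP_merge [true, true, false, true, true] (by decide) t11x_733 t11x_734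

theorem t11xg_736 :
    rootP 60 2199023255553 9 [true, true, false, true] X11 = true :=
  rootP_merge [true, true, false, true] (by decide) t11xg_732 t11xg_735

theorem t11xg_737 :
    rootP 60 2199023255553 9 [true, true, false] X11 = true :=
  rootP_merge [true, true, false] (by decide) t11xg_729 t11xg_736

theorem t11xg_740 :
    rootP 60 2199023255553 9 [true, true, true, false, false] X11 = true :=
  rootP_merge [true, true, true, false, false] (by decide) t11x_738 t11x_739

theorem t11xg_743 :
    rootP 60 2199023255553 9 [true, true, true, false, true] X11 = true :=
  rootP_merge [true, true, true, false, true] (by decide) t11x_741 t11x_742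

theorem t11xg_744 :
    rootP 60 2199023255553 9 [true, true, true, false] X11 = true :=
  rootP_merge [true, true, true, false] (by decide) t11xg_740 t11xg_743

theorem t11xg_747 :
    rootP 60 2199023255553 9 [true, true, true, true, false] X11 = true :=
  rootP_merge [true, true, true, true, false] (by decide) t11x_745 t11x_746

theorem t11xg_750 :
    rootP 60 2199023255553 9 [true, true, true, true, true] X11 = true :=
  rootP_merge [true, true, true, true, true] (by decide) t11x_748 t11x_749

theorem t11xg_751 :
    rootP 60 2199023255553 9 [true, true, true, true] X11 = true :=
  rootP_merge [true, true, true, true] (by decide) t11xg_747 t11xg_750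

theorem t11xg_752 :
    rootP 60 2199023255553 9 [true, true, true] X11 = true :=
  rootP_merge [true, true, true] (by decide) t11xg_744 t11xg_751

theorem t11xg_753 :
    rootP 60 2199023255553 9 [true, true] X11 = true :=
  rootP_merge [true, true] (by decide) t11xg_737 t11xg_752

theorem t11xg_754 :
    rootP 60 2199023255553 9 [true] X11 = true :=
  rootP_merge [true] (by decide) t11xg_722 t11xg_753

theorem t11xg_755 :
    rootP 60 2199023255553 9 [] X11 = true :=
  rootP_merge [] (by decide) t11xg_655 t11xg_754

theorem r11_all : rootP 60 2199023255553 9 [] X11 = true := t11xg_755

theorem t11xg_759 :
    selP 60 2199023255553 7 [true, true, true, true, true, true, true] [] [] (fold (Nat.mul 60 (Nat.pow 4 8)) X11) = true :=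
  selP_t t11x_757 t11x_758

theorem t11xg_760 :
    chk 60 2199023255553 8 [true, true, true, true, true, true, true, true] (fold (Nat.mul 60 (Nat.pow 4 8)) X11) = true :=
  chk_t t11x_756 t11xg_759

theorem t11xg_763 :
    selP 60 2199023255553 8 [true, true, true] [false, false, false, false, false] [true, true, true, true, true] X11 = true :=
  selP_t t11x_761 t11x_762

theorem t11xg_766 :
    selP 60 2199023255553 8 [true, true, true] [false, false, false, false, true] [true, true, true, true, false] X11 = true :=
  selP_t t11x_764 t11x_765

theorem t11xg_767 :
    selP 60 2199023255553 8 [true, true, true, true] [false, false, false, false] [true, true, true, true] X11 = true :=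
  selP_t t11xg_763 t11xg_766

theorem t11xg_770 :
    selP 60 2199023255553 8 [true, true, true] [false, false, false, true, false] [true, true, true, false, true] X11 = true :=
  selP_t t11x_768 t11x_769

theorem t11xg_772 :
    selP 60 2199023255553 8 [true, true, true, true] [false, false, false, true] [true, true, true, false] X11 = true :=
  selP_t t11xg_770 t11x_771

theorem t11xg_773 :
    selP 60 2199023255553 8 [true, true, true, true, true] [false, false, false] [true, true, true] X11 = true :=
  selP_t t11xg_767 t11xg_772

theorem t11xg_776 :
    selP 60 2199023255553 8 [true, true, true, true] [false, false, true, false] [true, true, false, true] X11 = true :=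
  selP_t t11x_774 t11x_775

theorem t11xg_778 :
    selP 60 2199023255553 8 [true, true, true, true, true] [false, false, true] [true, true, false] X11 = true :=
  selP_t t11xg_776 t11x_777

theorem t11xg_779 :
    selP 60 2199023255553 8 [true, true, true, true, true, true] [false, false] [true, true] X11 = true :=
  selP_t t11xg_773 t11xg_778

theorem t11xg_782 :
    selP 60 2199023255553 8 [true, true, true, true] [false, true, false, false] [true, false, true, true] X11 = true :=
  selP_t t11x_780 t11x_781

theorem t11xg_784 :
    selP 60 2199023255553 8 [true, true, true, true, true] [false, true, false] [true, false, true] X11 = true :=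
  selP_t t11xg_782 t11x_783

theorem t11xg_787 :
    selP 60 2199023255553 8 [true, true, true, true, true] [false, true, true] [true, false, false] X11 = true :=
  selP_t t11x_785 t11x_786

theorem t11xg_788 :
    selP 60 2199023255553 8 [true, true, true, true, true, true] [false, true] [true, false] X11 = true :=
  selP_t t11xg_784 t11xg_787

theorem t11xg_789 :
    selP 60 2199023255553 8 [true, true, true, true, true, true, true] [false] [true] X11 = true :=
  selP_t t11xg_779 t11xg_788

theorem t11xg_792 :
    selP 60 2199023255553 8 [true, true, true, true, true] [true, false, false] [false, true, true] X11 = true :=
  selP_t t11x_790 t11x_791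

theorem t11xg_794 :
    selP 60 2199023255553 8 [true, true, true, true, true, true] [true, false] [false, true] X11 = true :=
  selP_t t11xg_792 t11x_793

theorem t11xg_797 :
    selP 60 2199023255553 8 [true, true, true, true, true, true] [true, true] [false, false] X11 = true :=
  selP_t t11x_795 t11x_796

theorem t11xg_798 :
    selP 60 2199023255553 8 [true, true, true, true, true, true, true] [true] [false] X11 = true :=
  selP_t t11xg_794 t11xg_797

theorem t11xg_799 :
    selP 60 2199023255553 8 [true, true, true, true, true, true, true, true] [] [] X11 = true :=
  selP_t t11xg_789 t11xg_798

theorem t11xg_800 :
    chk 60 2199023255553 9 [true, true, true, true, true, true, true, true, true] X11 = true :=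
  chk_t t11xg_760 t11xg_799

theorem root0_11 : root0 60 2199023255553 9 X11 = true := t11xg_800

theorem shf11 : shf 60 2199023255553 23 9 (Nat.sub X11 (vmk 2199014866946 60 9)) = X11 := shf_sub le11

end Pool.Agent.Y335.FL
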