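import Pool.Agent.Y335.FL.KPack
import Pool.Agent.Y335.FL.KMsk
import Pool.Agent.Y335.FL.KChk
import Pool.Agent.Y335.FL.KCert
import Pool.Agent.Y335.FL.KCore
import Pool.Agent.Y335.FL.R9
import Pool.Agent.Y335.FL.T10All
import Pool.Agent.Y335.FL.T11All
import Pool.Agent.Y335.FL.Contract
import Pool.Agent.Y335.FL.CircEx
import Pool.Agent.Y335.FL.Trail
import Pool.Agent.Y335.FL.Girth
import Pool.Agent.Y335.FL.Edge62
import Pool.Agent.Y335.FL.Surf

set_option autoImplicit false

/-! # Circuits with at most eleven edges are contractible for nowhere-zero 5-flows -/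

namespace Pool.Agent.Y335.FL

open Finset Pool.Agent.TH676.Z

theorem chk_all : St_chk := chk_sound packCongr packInj fold_pack
  (sel_pack packCongr packAdd packLt packLand msk_pack)

theorem root_all : St_root := root_sound packCongr packLand packInj msk_pack chk_all

theorem cert_all : St_cert := cert root_all

theorem mk_cert {W K b n Y X : ℕ} (h1 : b + 1 ≤ W) (h2 : 4 ^ n * 2 ^ b < K)
    (h3 : 4 ^ n * (K + 2 ^ b) < 2 ^ W) (hX : shf W K b n Y = X) (h4 : scan W b n Y = true)
    (h5 : root0 W K n X = true) (h6 : rootP W K n [] X = true) : Cert n :=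
  cert_all W K b n 0 Y h1 (Nat.zero_le _) h2 h3 h4 (by rw [hX]; exact h5) (by
    intro P hP
    rw [List.length_eq_zero_iff] at hP
    rw [hP, hX]
    exact h6)

theorem cert5 : Cert 3 := mk_cert (by norm_num) (by norm_num) (by norm_num) rfl scan5 root0_5 r5_all
theorem cert6 : Cert 4 := mk_cert (by norm_num) (by norm_num) (by norm_num) rfl scan6 root0_6 r6_all
theorem cert7 : Cert 5 := mk_cert (by norm_num) (by norm_num) (by norm_num) rfl scan7 root0_7 r7_all
theorem cert8 : Cert 6 := mk_cert (by norm_num) (by norm_num) (by norm_num) rfl scan8 root0_8 r8_all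
theorem cert9 : Cert 7 := mk_cert (by norm_num) (by norm_num) (by norm_num) rfl scan9 root0_9 r9_all
theorem cert10 : Cert 8 := mk_cert (by norm_num) (by norm_num) (by norm_num) shf10 scan10 root0_10 r10_all
theorem cert11 : Cert 9 := mk_cert (by norm_num) (by norm_num) (by norm_num) shf11 scan11 root0_11 r11_all

theorem coreAll : CoreAll := by
  intro n hn
  rcases Nat.lt_or_ge n 4 with h | h
  · exact core_small n (by omega)
  · obtain ⟨m, rfl⟩ : ∃ m, n = m + 4 := ⟨n - 4, by omega⟩
    have hm : m ≤ 6 := by omega
    interval_cases m
    · exact certCore 3 cert5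
    · exact certCore 4 cert6
    · exact certCore 5 cert7
    · exact certCore 6 cert8
    · exact certCore 7 cert9
    · exact certCore 8 cert10
    · exact certCore 9 cert11

theorem contract_all : St_contract := contract coreAll
theorem trail_all : St_trail := trail contract_all circEx
theorem lift_all : St_lift := lift trail_all
theorem girth_all : St_girth12 := girth12 contract_all
theorem even_all : St_even := even circEx
theorem edge62_all : Edge62' := edge62 even_all
theorem surf_all : St_surf := surf girth_all even_all edge62_all
theorem cyc_all : St_cyc := cyc girth_all even_all edge62_all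

end Pool.Agent.Y335.FL
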