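import Pool.Agent.Y335.FL.Stm2

set_option autoImplicit false
set_option linter.unusedSectionVars false

/-! # The Moore bound for irregular graphs (Alon, Hoory, Linial), girth twelve -/

namespace Pool.Agent.Y335.FL

open Finset

namespace Ahl

section walks

variable {V : Type} {Ad : V → V → Prop}

/-- non-backtracking walks of length `L` -/
structure NB (Ad : V → V → Prop) (L : ℕ) (v : ℕ → V) : Prop where
  adj : ∀ k, k + 1 ≤ L → Ad (v k) (v (k + 1))
  nb : ∀ k, k + 2 ≤ L → v k ≠ v (k + 2)

/-- the vertices of a short non-backtracking walk are different -/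
lemma NB.ne (hirr : ∀ a, ¬ Ad a a) (hg : Girth Ad 12) {L : ℕ} (hL : L ≤ 11) {v : ℕ → V}
    (h : NB Ad L v) : ∀ i j, i < j → j ≤ L → v i ≠ v j := by
  classical
  by_contra hcon
  push Not at hcon
  have hex : ∃ d, 1 ≤ d ∧ ∃ i, i + d ≤ L ∧ v i = v (i + d) := by
    obtain ⟨i, j, hij, hj, h1⟩ := hcon
    exact ⟨j - i, by omega, i, by omega, by rw [show i + (j - i) = j by omega]; exact h1⟩
  obtain ⟨hd1, i, hi2, hvi⟩ := Nat.find_spec hex
  have hmin : ∀ d' < Nat.find hex, 1 ≤ d' → ∀ i, i + d' ≤ L → v i ≠ v (i + d') :=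
    fun d' hd' h1 i h2 h3 => Nat.find_min hex hd' ⟨h1, i, h2, h3⟩
  set d := Nat.find hex with hd
  have hd3 : 3 ≤ d := by
    by_contra hlt
    have h1 : d = 1 ∨ d = 2 := by omega
    rcases h1 with h1 | h1
    · rw [h1] at hvi hi2
      have h2 := h.adj i hi2
      rw [← hvi] at h2
      exact hirr _ h2
    · rw [h1] at hvi hi2
      exact h.nb i hi2 hvi
  obtain ⟨k, hk⟩ := Nat.exists_eq_add_of_le' hd3
  refine hg k (by omega) (fun m : Fin (k + 3) => v (i + m)) ?_ ?_
  · intro a b hab
    by_contra hne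
    have hne' : (a : ℕ) ≠ b := fun h => hne (Fin.ext h)
    have ha := a.2
    have hb := b.2
    have hab' : v (i + a) = v (i + b) := hab
    rcases lt_or_gt_of_ne hne' with h1 | h1
    · refine hmin (b - a) (by omega) (by omega) (i + a) (by omega) ?_
      rw [show i + (a : ℕ) + (b - a) = i + b by omega]
      exact hab'
    · refine hmin (a - b) (by omega) (by omega) (i + b) (by omega) ?_
      rw [show i + (b : ℕ) + (a - b) = i + a by omega]
      exact hab'.symm
  · intro m
    by_cases hm : m = Fin.last (k + 2)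
    · subst hm
      have h1 : (Fin.last (k + 2) + 1 : Fin (k + 3)) = 0 := Fin.last_add_one (k + 2)
      rw [h1]
      have h2 := h.adj (i + (k + 2)) (by omega)
      rw [show i + (k + 2) + 1 = i + d by omega, ← hvi] at h2
      exact h2
    · have h1 : ((m + 1 : Fin (k + 3)) : ℕ) = m + 1 :=
        Fin.val_add_one_of_lt (Fin.lt_last_iff_ne_last.2 hm)
      have h3 : (m : ℕ) < k + 2 := by
        have := Fin.lt_last_iff_ne_last.2 hm
        exact this
      have h2 := h.adj (i + m) (by omega)
      simp only [h1]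
      exact h2

/-- two walks with the same beginning -/
lemma join (hs : ∀ a b, Ad a b → Ad b a) {L M : ℕ} {v w : ℕ → V} (hv : NB Ad L v)
    (hw : NB Ad M w) (h0 : v 0 = w 0) (h1 : 1 ≤ L → 1 ≤ M → v 1 ≠ w 1) :
    NB Ad (L + M) (fun k => if k ≤ L then v (L - k) else w (k - L)) := by
  constructor
  · intro k hk
    by_cases h2 : k + 1 ≤ L
    · simp only [if_pos h2, if_pos (show k ≤ L by omega)]
      have h3 := hv.adj (L - (k + 1)) (by omega)
      rw [show L - (k + 1) + 1 = L - k by omega] at h3
      exact hs _ _ h3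
    · by_cases h3 : k ≤ L
      · have h4 : k = L := by omega
        simp only [if_pos h3, if_neg h2]
        rw [h4, Nat.sub_self, show L + 1 - L = 1 by omega, h0]
        exact hw.adj 0 (by omega)
      · simp only [if_neg h3, if_neg h2]
        have h4 := hw.adj (k - L) (by omega)
        rwa [show k - L + 1 = k + 1 - L by omega] at h4
  · intro k hk
    by_cases h2 : k + 2 ≤ L
    · simp only [if_pos h2, if_pos (show k ≤ L by omega)]
      have h3 := hv.nb (L - (k + 2)) (by omega)
      rw [show L - (k + 2) + 2 = L - k by omega] at h3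
      exact h3.symm
    · by_cases h3 : k + 1 ≤ L
      · simp only [if_neg h2, if_pos (show k ≤ L by omega)]
        rw [show L - k = 1 by omega, show k + 2 - L = 1 by omega]
        exact h1 (by omega) (by omega)
      · by_cases h4 : k ≤ L
        · have h5 : k = L := by omega
          simp only [if_pos h4, if_neg h2]
          rw [h5, Nat.sub_self, show L + 2 - L = 2 by omega, h0]
          exact hw.nb 0 (by omega)
        · simp only [if_neg h4, if_neg h2]
          have h5 := hw.nb (k - L) (by omega)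
          rwa [show k - L + 2 = k + 2 - L by omega] at h5

/-- two walks with the same beginning, different second vertices and the same end -/
lemma join_ne (hirr : ∀ a, ¬ Ad a a) (hs : ∀ a b, Ad a b → Ad b a) (hg : Girth Ad 12)
    {L M : ℕ} {v w : ℕ → V} (hv : NB Ad L v) (hw : NB Ad M w) (h0 : v 0 = w 0)
    (h1 : 1 ≤ L → 1 ≤ M → v 1 ≠ w 1) (hM : 1 ≤ M) (hLM : L + M ≤ 11) : v L ≠ w M := by
  have h2 := (join hs hv hw h0 h1).ne hirr hg hLM 0 (L + M) (by omega) le_rfl
  simp only [if_pos (Nat.zero_le L), Nat.sub_zero, if_neg (show ¬ L + M ≤ L by omega),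
    Nat.add_sub_cancel_left] at h2
  exact h2

/-- `z` is the end of a walk which begins with `x, y` and has `i` more steps -/
def Rch (Ad : V → V → Prop) (i : ℕ) (x y z : V) : Prop :=
  ∃ v : ℕ → V, NB Ad (i + 1) v ∧ v 0 = x ∧ v 1 = y ∧ v (i + 1) = z

lemma rch_zero {x y z : V} (h : Ad x y) : Rch Ad 0 x y z ↔ z = y := by
  constructor
  · rintro ⟨v, -, -, h1, h2⟩
    rw [zero_add] at h2
    exact h2.symm.trans h1
  · rintro rfl
    refine ⟨fun k => if k = 0 then x else z, ⟨fun k hk => ?_, fun k hk => by omega⟩,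
      by simp, by simp, by simp⟩
    have h1 : k = 0 := by omega
    subst h1
    simpa using h

lemma rch_succ {i : ℕ} {x y z : V} (h : Ad x y) :
    Rch Ad (i + 1) x y z ↔ ∃ u, Ad y u ∧ u ≠ x ∧ Rch Ad i y u z := by
  constructor
  · rintro ⟨v, hv, h0, h1, h2⟩
    refine ⟨v 2, ?_, ?_, fun k => v (k + 1), ⟨fun k hk => hv.adj (k + 1) (by omega),
      fun k hk => hv.nb (k + 1) (by omega)⟩, h1, rfl, h2⟩
    · rw [← h1]
      exact hv.adj 1 (by omega)
    · rw [← h0]
      exact (hv.nb 0 (by omega)).symm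
  · rintro ⟨u, hu, hux, v, hv, h0, h1, h2⟩
    refine ⟨fun k => if k = 0 then x else v (k - 1), ⟨fun k hk => ?_, fun k hk => ?_⟩,
      by simp, by simpa using h0, by simpa using h2⟩
    · rcases k with _ | k
      · simpa [h0] using h
      · have h3 := hv.adj k (by omega)
        simpa using h3
    · rcases k with _ | k
      · simpa [h1] using hux.symm
      · have h3 := hv.nb k (by omega)
        simpa using h3

end walks

section sets

variable {V : Type} [Fintype V] [DecidableEq V] (G : SimpleGraph V) [DecidableRel G.Adj]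

open Classical in
/-- the ends of the walks -/
noncomputable def S (i : ℕ) (x y : V) : Finset V := univ.filter (Rch G.Adj i x y)

variable {G}

lemma mem_S {i : ℕ} {x y z : V} : z ∈ S G i x y ↔ Rch G.Adj i x y z := by
  simp [S]

/-- the number of walks -/
noncomputable def T (G : SimpleGraph V) [DecidableRel G.Adj] (i : ℕ) (x y : V) : ℕ :=
  (S G i x y).card

lemma S_zero {x y : V} (h : G.Adj x y) : S G 0 x y = {y} := by
  ext z
  rw [mem_S, rch_zero h, mem_singleton]

lemma T_zero {x y : V} (h : G.Adj x y) : T G 0 x y = 1 := by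
  rw [T, S_zero h, card_singleton]

lemma S_succ {i : ℕ} {x y : V} (h : G.Adj x y) :
    S G (i + 1) x y = ((G.neighborFinset y).erase x).biUnion (fun u => S G i y u) := by
  ext z
  rw [mem_S, rch_succ h, mem_biUnion]
  constructor
  · rintro ⟨u, h1, h2, h3⟩
    exact ⟨u, mem_erase.2 ⟨h2, (G.mem_neighborFinset y u).2 h1⟩, mem_S.2 h3⟩
  · rintro ⟨u, h1, h3⟩
    rw [mem_erase, G.mem_neighborFinset] at h1
    exact ⟨u, h1.2, h1.1, mem_S.1 h3⟩

/-- different second vertices -/
lemma disj_C (hg : Girth G.Adj 12) {i j : ℕ} (hij : i + j + 2 ≤ 11) {y u u' : V} (hu : u ≠ u') :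
    Disjoint (S G i y u) (S G j y u') := by
  rw [Finset.disjoint_left]
  intro z h1 h2
  obtain ⟨v, hv, h3, h4, h5⟩ := mem_S.1 h1
  obtain ⟨w, hw, h6, h7, h8⟩ := mem_S.1 h2
  refine join_ne (fun a => G.loopless.irrefl a) (fun a b h => h.symm) hg hv hw (h3.trans h6.symm)
    (fun _ _ h => hu (h4.symm.trans (h.trans h7))) (by omega) (by omega) (h5.trans h8.symm)

/-- the two directions -/
lemma disj_D (hg : Girth G.Adj 12) {i j : ℕ} (hij : i + j + 1 ≤ 11) {x y : V} :
    Disjoint (S G i x y) (S G j y x) := by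
  rw [Finset.disjoint_left]
  intro z h1 h2
  obtain ⟨v, hv, h3, h4, h5⟩ := mem_S.1 h1
  obtain ⟨w, hw, h6, h7, h8⟩ := mem_S.1 h2
  have hv' : NB G.Adj i (fun k => v (k + 1)) :=
    ⟨fun k hk => hv.adj (k + 1) (by omega), fun k hk => hv.nb (k + 1) (by omega)⟩
  refine join_ne (fun a => G.loopless.irrefl a) (fun a b h => h.symm) hg hv' hw
    (h4.trans h6.symm) (fun hi _ h => ?_) (by omega) (by omega) (h5.trans h8.symm)
  have h9 := hv.nb 0 (by omega)
  exact h9 (h3.trans (h7.symm.trans h.symm))

/-- different lengths -/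
lemma disj_E (hg : Girth G.Adj 12) : ∀ (i j : ℕ), i < j → j ≤ 5 → ∀ x y : V, G.Adj x y →
    Disjoint (S G i x y) (S G j x y) := by
  intro i
  induction i with
  | zero =>
    intro j hj hj5 x y hxy
    rw [S_zero hxy, Finset.disjoint_singleton_left]
    intro h1
    obtain ⟨v, hv, h3, h4, h5⟩ := mem_S.1 h1
    exact hv.ne (fun a => G.loopless.irrefl a) hg (by omega) 1 (j + 1) (by omega) le_rfl
      (h4.trans h5.symm)
  | succ i ih =>
    intro j hj hj5 x y hxy
    obtain ⟨j, rfl⟩ : ∃ j', j = j' + 1 := ⟨j - 1, by omega⟩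
    rw [S_succ hxy, S_succ hxy, Finset.disjoint_biUnion_left]
    intro u hu
    rw [Finset.disjoint_biUnion_right]
    intro u' hu'
    by_cases h : u = u'
    · subst h
      rw [mem_erase, G.mem_neighborFinset] at hu
      exact ih j (by omega) (by omega) y u hu.2
    · exact disj_C hg (by omega) h

lemma T_succ (hg : Girth G.Adj 12) {i : ℕ} (hi : i ≤ 4) {x y : V} (h : G.Adj x y) :
    T G (i + 1) x y = ∑ u ∈ (G.neighborFinset y).erase x, T G i y u := by
  rw [T, S_succ h, card_biUnion]
  · rfl
  · intro u _ u' _ huu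
    exact disj_C hg (by omega) huu

/-- counting -/
lemma count (hg : Girth G.Adj 12) {x y : V} (h : G.Adj x y) :
    ∑ i ∈ range 6, (T G i x y + T G i y x) ≤ Fintype.card V := by
  have h1 : ∑ i ∈ range 6, (T G i x y + T G i y x) =
      ((range 6).biUnion (fun i => S G i x y ∪ S G i y x)).card := by
    rw [card_biUnion]
    · refine sum_congr rfl fun i hi => ?_
      rw [mem_range] at hi
      rw [card_union_of_disjoint (disj_D hg (by omega))]
      rfl
    · intro i hi j hj hij
      have hi' : i < 6 := mem_range.1 hi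
      have hj' : j < 6 := mem_range.1 hj
      have key : ∀ x y : V, G.Adj x y → Disjoint (S G i x y) (S G j x y) := by
        intro x y hxy
        rcases lt_or_gt_of_ne hij with h2 | h2
        · exact disj_E hg i j h2 (by omega) x y hxy
        · exact (disj_E hg j i h2 (by omega) x y hxy).symm
      change Disjoint (S G i x y ∪ S G i y x) (S G j x y ∪ S G j y x)
      rw [disjoint_union_left, disjoint_union_right, disjoint_union_right]
      exact ⟨⟨key x y h, disj_D hg (by omega)⟩, ⟨disj_D hg (by omega), key y x h.symm⟩⟩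
  rw [h1]
  exact card_le_univ _

lemma T_pos (hg : Girth G.Adj 12) (hd : ∀ v, 2 ≤ G.degree v) : ∀ i ≤ 5, ∀ x y : V, G.Adj x y →
    1 ≤ T G i x y := by
  intro i
  induction i with
  | zero =>
    intro _ x y h
    rw [T_zero h]
  | succ i ih =>
    intro hi x y h
    rw [T_succ hg (by omega) h]
    have h1 : 1 ≤ ((G.neighborFinset y).erase x).card := by
      rw [card_erase_of_mem ((G.mem_neighborFinset y x).2 h.symm), G.card_neighborFinset_eq_degree]
      have := hd y
      omega
    obtain ⟨u, hu⟩ := card_pos.1 h1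
    have h2 : G.Adj y u := by
      rw [mem_erase, G.mem_neighborFinset] at hu
      exact hu.2
    exact (ih (by omega) y u h2).trans (single_le_sum (f := fun u => T G i y u)
      (fun _ _ => Nat.zero_le _) hu)

end sets

section logs

/-- the geometric mean is at most the arithmetic mean -/
lemma log_mean {ι : Type*} (s : Finset ι) (hs : s.Nonempty) (f : ι → ℝ) (hf : ∀ i ∈ s, 0 < f i) :
    ∑ i ∈ s, Real.log (f i) ≤ s.card * Real.log ((∑ i ∈ s, f i) / s.card) := by
  have hc : (0 : ℝ) < s.card := by exact_mod_cast card_pos.2 hs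
  have hS : 0 < ∑ i ∈ s, f i := sum_pos hf hs
  set A := (∑ i ∈ s, f i) / s.card with hA
  have hA0 : 0 < A := div_pos hS hc
  have h1 : ∑ i ∈ s, Real.log (f i) ≤ ∑ i ∈ s, (Real.log A + (f i / A - 1)) := by
    refine sum_le_sum fun i hi => ?_
    have h2 := Real.log_le_sub_one_of_pos (div_pos (hf i hi) hA0)
    rw [Real.log_div (hf i hi).ne' hA0.ne'] at h2
    linarith
  refine h1.trans (le_of_eq ?_)
  rw [sum_add_distrib, sum_sub_distrib, ← sum_div, sum_const, sum_const, nsmul_eq_mul,
    nsmul_eq_mul]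
  have h3 : (∑ i ∈ s, f i) / A = s.card := by
    rw [hA]
    field_simp
  rw [h3]
  ring

/-- a tangent of `x log (x - 1)` -/
lemma tangent {x c : ℝ} (hx : 2 ≤ x) (hc : 2 ≤ c) :
    c * Real.log (c - 1) + (Real.log (c - 1) + c / (c - 1)) * (x - c) ≤ x * Real.log (x - 1) := by
  set w := c - 1 with hw
  set r := (x - 1) / (c - 1) with hr
  have hw1 : 1 ≤ w := by linarith
  have hw0 : 0 < w := by linarith
  have hr0 : 0 < r := div_pos (by linarith) hw0
  have hx1 : x - 1 = r * w := by
    rw [hr, ← hw]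
    field_simp
  have hrw : 1 ≤ r * w := by rw [← hx1]; linarith
  have hlog : Real.log (x - 1) = Real.log r + Real.log w := by
    rw [hx1, Real.log_mul hr0.ne' hw0.ne']
  rw [hlog]
  have hxe : x = r * w + 1 := by linarith
  have hce : c = w + 1 := by linarith
  have key : (w + 1) * (r - 1) ≤ (r * w + 1) * Real.log r := by
    rcases le_total 1 r with h | h
    · -- `r ≥ 1`
      have h1 := Real.le_log_one_add_of_nonneg (x := r - 1) (by linarith)
      rw [show 1 + (r - 1) = r by ring, show r - 1 + 2 = r + 1 by ring,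
        div_le_iff₀ (by linarith)] at h1
      have h2 : 0 ≤ Real.log r := Real.log_nonneg h
      have h3 : r - 1 ≤ r * Real.log r := by
        have h4 := Real.one_sub_inv_le_log_of_pos hr0
        have h5 := mul_le_mul_of_nonneg_left h4 hr0.le
        rw [mul_sub, mul_inv_cancel₀ hr0.ne', mul_one] at h5
        exact h5
      nlinarith
    · -- `r ≤ 1`
      have h1 : Real.log r⁻¹ ≤ Real.sinh (Real.log r⁻¹) :=
        Real.self_le_sinh_iff.2 (Real.log_nonneg ((one_le_inv₀ hr0).2 h))
      rw [Real.sinh_log (inv_pos.2 hr0), inv_inv, Real.log_inv] at h1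
      have h3 : r - 1 ≤ r * Real.log r := by
        have h4 := Real.one_sub_inv_le_log_of_pos hr0
        have h5 := mul_le_mul_of_nonneg_left h4 hr0.le
        rw [mul_sub, mul_inv_cancel₀ hr0.ne', mul_one] at h5
        exact h5
      -- `w ≥ 1 / r`
      have h6 : r⁻¹ ≤ w := by
        rw [inv_le_iff_one_le_mul₀ hr0]
        linarith
      have h7 : 0 ≤ r * Real.log r - (r - 1) := by linarith
      have h8 : r⁻¹ * (r * Real.log r - (r - 1)) ≤ w * (r * Real.log r - (r - 1)) :=
        mul_le_mul_of_nonneg_right h6 h7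
      have h9 : r⁻¹ * (r * Real.log r - (r - 1)) = Real.log r - 1 + r⁻¹ := by
        field_simp
        ring
      rw [h9] at h8
      nlinarith
  have e1 : c / w * (x - c) = (w + 1) * (r - 1) := by
    rw [hxe, hce]
    field_simp
    ring
  have e2 : c * Real.log w + (Real.log w + c / w) * (x - c) =
      x * Real.log w + c / w * (x - c) := by ring
  rw [e2, e1, hxe]
  rw [mul_add]
  linarith

end logs

section main

variable {V : Type} [Fintype V] [DecidableEq V] {G : SimpleGraph V} [DecidableRel G.Adj]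

/-- exchange of the two ends -/
lemma swap (f : V → V → ℝ) :
    ∑ x, ∑ y ∈ G.neighborFinset x, f x y = ∑ y, ∑ x ∈ G.neighborFinset y, f x y :=
  sum_comm' (by
    intro x y
    simp only [mem_univ, true_and, and_true, G.mem_neighborFinset]
    exact G.adj_comm x y)

/-- the sum of the logarithms, one step -/
lemma step (hg : Girth G.Adj 12) (hd : ∀ v, 2 ≤ G.degree v) {i : ℕ} (hi : i ≤ 4) :
    ∑ x, ∑ y ∈ G.neighborFinset x, Real.log ((G.degree y : ℝ) - 1) +
      ∑ x, ∑ y ∈ G.neighborFinset x, Real.log (T G i x y) ≤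
    ∑ x, ∑ y ∈ G.neighborFinset x, Real.log (T G (i + 1) x y) := by
  have hq : ∀ y, (1 : ℝ) ≤ (G.degree y : ℝ) - 1 := fun y => by
    have h1 : ((2 : ℕ) : ℝ) ≤ G.degree y := by exact_mod_cast hd y
    push_cast at h1
    linarith
  have h1 : ∀ x y, G.Adj x y → Real.log ((G.degree y : ℝ) - 1) +
      ((G.degree y : ℝ) - 1)⁻¹ * ∑ u ∈ (G.neighborFinset y).erase x, Real.log (T G i y u) ≤
      Real.log (T G (i + 1) x y) := by
    intro x y h
    have hq0 : (0 : ℝ) < (G.degree y : ℝ) - 1 := by linarith [hq y]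
    have hcard : (((G.neighborFinset y).erase x).card : ℝ) = (G.degree y : ℝ) - 1 := by
      rw [card_erase_of_mem ((G.mem_neighborFinset y x).2 h.symm),
        G.card_neighborFinset_eq_degree, Nat.cast_sub (by linarith [hd y])]
      norm_num
    have hne : ((G.neighborFinset y).erase x).Nonempty := by
      rw [← card_pos]
      have h2 : (0 : ℝ) < ((G.neighborFinset y).erase x).card := by rw [hcard]; exact hq0
      exact_mod_cast h2
    have hpos : ∀ u ∈ (G.neighborFinset y).erase x, (0 : ℝ) < T G i y u := by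
      intro u hu
      rw [mem_erase, G.mem_neighborFinset] at hu
      have := T_pos hg hd i (by omega) y u hu.2
      exact_mod_cast this
    have h2 := log_mean _ hne (fun u => (T G i y u : ℝ)) hpos
    have h3 : (T G (i + 1) x y : ℝ) = ∑ u ∈ (G.neighborFinset y).erase x, (T G i y u : ℝ) := by
      rw [T_succ hg hi h]
      push_cast
      rfl
    rw [← h3, hcard, Real.log_div (by
      have := T_pos hg hd (i + 1) (by omega) x y h
      have h4 : (0 : ℝ) < T G (i + 1) x y := by exact_mod_cast this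
      exact h4.ne') hq0.ne'] at h2
    have h5 := mul_le_mul_of_nonneg_left h2 (inv_pos.2 hq0).le
    rw [← mul_assoc, inv_mul_cancel₀ hq0.ne', one_mul] at h5
    linarith
  have h2 : ∑ x, ∑ y ∈ G.neighborFinset x, (Real.log ((G.degree y : ℝ) - 1) +
      ((G.degree y : ℝ) - 1)⁻¹ * ∑ u ∈ (G.neighborFinset y).erase x, Real.log (T G i y u)) ≤
      ∑ x, ∑ y ∈ G.neighborFinset x, Real.log (T G (i + 1) x y) :=
    sum_le_sum fun x _ => sum_le_sum fun y hy => h1 x y ((G.mem_neighborFinset x y).1 hy)
  refine le_trans (le_of_eq ?_) h2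
  simp only [sum_add_distrib]
  congr 1
  rw [swap (fun x y => ((G.degree y : ℝ) - 1)⁻¹ *
    ∑ u ∈ (G.neighborFinset y).erase x, Real.log (T G i y u))]
  refine sum_congr rfl fun y _ => ?_
  rw [← mul_sum]
  have hq0 : (0 : ℝ) < (G.degree y : ℝ) - 1 := by linarith [hq y]
  have h3 : ∑ x ∈ G.neighborFinset y, ∑ u ∈ (G.neighborFinset y).erase x,
      Real.log (T G i y u) = ((G.degree y : ℝ) - 1) *
      ∑ u ∈ G.neighborFinset y, Real.log (T G i y u) := by
    have h4 : ∀ x ∈ G.neighborFinset y, ∑ u ∈ (G.neighborFinset y).erase x,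
        Real.log (T G i y u) = ∑ u ∈ G.neighborFinset y, Real.log (T G i y u) -
          Real.log (T G i y x) := by
      intro x hx
      rw [← sum_erase_add _ _ hx]
      ring
    rw [sum_congr rfl h4, sum_sub_distrib, sum_const, nsmul_eq_mul,
      G.card_neighborFinset_eq_degree]
    ring
  rw [h3, ← mul_assoc, inv_mul_cancel₀ hq0.ne', one_mul]

lemma logs (hg : Girth G.Adj 12) (hd : ∀ v, 2 ≤ G.degree v) : ∀ i ≤ 5,
    i * ∑ x, ∑ y ∈ G.neighborFinset x, Real.log ((G.degree y : ℝ) - 1) ≤
    ∑ x, ∑ y ∈ G.neighborFinset x, Real.log (T G i x y) := by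
  intro i
  induction i with
  | zero =>
    intro _
    rw [Nat.cast_zero, zero_mul]
    refine sum_nonneg fun x _ => sum_nonneg fun y hy => ?_
    rw [T_zero ((G.mem_neighborFinset x y).1 hy)]
    norm_num
  | succ i ih =>
    intro hi
    have h1 := ih (by omega)
    have h2 := step hg hd (i := i) (by omega)
    push_cast
    linarith

end main

end Ahl

open Ahl in
/-- Q1: the Moore bound for irregular graphs -/
theorem ahl : St_ahl := by
  intro V _ _ _ G _ hd hg
  set n : ℝ := (Fintype.card V : ℝ) with hn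
  set m : ℝ := (G.edgeFinset.card : ℝ) with hm
  have hn0 : 0 < n := by
    rw [hn]
    exact_mod_cast Fintype.card_pos
  have hdeg : ∑ v, (G.degree v : ℝ) = 2 * m := by
    have h1 := G.sum_degrees_eq_twice_card_edges
    rw [hm]
    exact_mod_cast h1
  have h2n : 2 * n ≤ 2 * m := by
    rw [← hdeg]
    have h1 : ∑ v : V, (2 : ℝ) ≤ ∑ v, (G.degree v : ℝ) :=
      sum_le_sum fun v _ => by exact_mod_cast hd v
    rw [sum_const, nsmul_eq_mul, card_univ] at h1
    linarith
  have hm0 : 0 < 2 * m := by linarith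
  set c : ℝ := 2 * m / n with hc
  have hc2 : 2 ≤ c := by
    rw [hc, le_div_iff₀ hn0]
    exact h2n
  -- the mean of the logarithms of the degrees
  have hq : 2 * m * Real.log (c - 1) ≤
      ∑ x, ∑ y ∈ G.neighborFinset x, Real.log ((G.degree y : ℝ) - 1) := by
    rw [swap (fun x y => Real.log ((G.degree y : ℝ) - 1))]
    have h1 : ∀ y, ∑ _x ∈ G.neighborFinset y, Real.log ((G.degree y : ℝ) - 1) =
        G.degree y * Real.log ((G.degree y : ℝ) - 1) := fun y => by
      rw [sum_const, nsmul_eq_mul, G.card_neighborFinset_eq_degree]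
    rw [sum_congr rfl fun y _ => h1 y]
    have h2 : ∑ y, (c * Real.log (c - 1) + (Real.log (c - 1) + c / (c - 1)) *
        ((G.degree y : ℝ) - c)) ≤ ∑ y, (G.degree y : ℝ) * Real.log ((G.degree y : ℝ) - 1) :=
      sum_le_sum fun y _ => tangent (by exact_mod_cast hd y) hc2
    refine le_trans (le_of_eq ?_) h2
    rw [sum_add_distrib, sum_const, ← mul_sum, sum_sub_distrib, hdeg, sum_const, nsmul_eq_mul,
      nsmul_eq_mul, card_univ, ← hn]
    have h3 : n * c = 2 * m := by
      rw [hc]
      field_simp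
    rw [h3, ← mul_assoc, h3]
    ring
  -- the sums of the numbers of walks
  have hT : ∀ i ≤ 5, 2 * m * (c - 1) ^ i ≤
      ∑ x, ∑ y ∈ G.neighborFinset x, (T G i x y : ℝ) := by
    intro i hi
    have hcard : (((univ : Finset V).sigma fun x => G.neighborFinset x).card : ℝ) = 2 * m := by
      rw [card_sigma]
      push_cast
      rw [← hdeg]
      refine sum_congr rfl fun x _ => ?_
      rw [G.card_neighborFinset_eq_degree]
    have hne : ((univ : Finset V).sigma fun x => G.neighborFinset x).Nonempty := by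
      rw [← card_pos]
      have h2 : (0 : ℝ) < ((univ : Finset V).sigma fun x => G.neighborFinset x).card := by
        rw [hcard]; exact hm0
      exact_mod_cast h2
    have h1 := log_mean _ hne (fun p : Σ _ : V, V => (T G i p.1 p.2 : ℝ)) (by
      intro p hp
      rw [mem_sigma] at hp
      have := T_pos hg hd i hi p.1 p.2 ((G.mem_neighborFinset _ _).1 hp.2)
      exact_mod_cast this)
    rw [hcard, sum_sigma, sum_sigma] at h1
    simp only at h1
    have h2 := logs hg hd i hi
    set X := ∑ x, ∑ y ∈ G.neighborFinset x, (T G i x y : ℝ) with hX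
    have hX0 : 0 < X := by
      have h3 : 0 < ∑ p ∈ (univ : Finset V).sigma fun x => G.neighborFinset x,
          (T G i p.1 p.2 : ℝ) := sum_pos (by
        intro p hp
        rw [mem_sigma] at hp
        have := T_pos hg hd i hi p.1 p.2 ((G.mem_neighborFinset _ _).1 hp.2)
        exact_mod_cast this) hne
      rw [sum_sigma] at h3
      exact h3
    have h3 : (i : ℝ) * Real.log (c - 1) ≤ Real.log (X / (2 * m)) := by
      have h4 : (i : ℝ) * (2 * m * Real.log (c - 1)) ≤
          i * ∑ x, ∑ y ∈ G.neighborFinset x, Real.log ((G.degree y : ℝ) - 1) :=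
        mul_le_mul_of_nonneg_left hq (Nat.cast_nonneg i)
      have h5 : 2 * m * ((i : ℝ) * Real.log (c - 1)) ≤ 2 * m * Real.log (X / (2 * m)) := by
        linarith
      exact le_of_mul_le_mul_left h5 hm0
    rw [← Real.log_pow, Real.log_le_log_iff (pow_pos (by linarith) i) (div_pos hX0 hm0),
      le_div_iff₀ hm0] at h3
    linarith
  -- the sum over the darts
  have hsum : ∑ x, ∑ y ∈ G.neighborFinset x, ∑ i ∈ range 6, ((T G i x y : ℝ) + T G i y x) ≤
      2 * m * n := by
    have h1 : ∑ x, ∑ y ∈ G.neighborFinset x, ∑ i ∈ range 6, ((T G i x y : ℝ) + T G i y x) ≤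
        ∑ x, ∑ _y ∈ G.neighborFinset x, n := by
      refine sum_le_sum fun x _ => sum_le_sum fun y hy => ?_
      have h2 := count hg ((G.mem_neighborFinset x y).1 hy)
      rw [hn]
      exact_mod_cast h2
    refine h1.trans (le_of_eq ?_)
    rw [← hdeg, sum_mul]
    refine sum_congr rfl fun x _ => ?_
    rw [sum_const, nsmul_eq_mul, G.card_neighborFinset_eq_degree]
  have hsum2 : ∑ x, ∑ y ∈ G.neighborFinset x, ∑ i ∈ range 6, ((T G i x y : ℝ) + T G i y x) =
      ∑ i ∈ range 6, 2 * ∑ x, ∑ y ∈ G.neighborFinset x, (T G i x y : ℝ) := by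
    have h1 : ∀ x : V, ∑ y ∈ G.neighborFinset x, ∑ i ∈ range 6, ((T G i x y : ℝ) + T G i y x) =
        ∑ i ∈ range 6, ∑ y ∈ G.neighborFinset x, ((T G i x y : ℝ) + T G i y x) :=
      fun x => sum_comm
    rw [sum_congr rfl fun x _ => h1 x, sum_comm]
    refine sum_congr rfl fun i _ => ?_
    simp only [sum_add_distrib]
    rw [swap (fun x y => (T G i y x : ℝ))]
    ring
  have hfin : 2 * m * (2 * ∑ i ∈ range 6, (c - 1) ^ i) ≤ 2 * m * n := by
    refine le_trans ?_ hsum
    rw [hsum2, ← mul_sum, mul_sum (range 6) _ (2 : ℝ), mul_sum, mul_sum]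
    refine sum_le_sum fun i hi => ?_
    rw [mem_range] at hi
    have h1 := hT i (by omega)
    linarith
  exact le_of_mul_le_mul_left hfin hm0

end Pool.Agent.Y335.FL
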