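import Pool.Agent.Y335.FL.Stm2

set_option autoImplicit false
set_option linter.unusedSectionVars false

/-! # Numerical consequence of the Moore bound for irregular graphs -/

namespace Pool.Agent.Y335.FL

open Finset Pool.Agent.TH676.Z

theorem ex17 : St_ahl → St_ex17 := by
  intro h V _ _ G _ hdeg hg hn hm
  by_contra hcon
  rw [not_le] at hcon
  have hV : Nonempty V := by
    have h0 : 0 < G.edgeFinset.card := by omega
    obtain ⟨e, he⟩ := Finset.card_pos.1 h0
    exact ⟨e.out.1⟩
  have h1 := h V G hdeg hg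
  have hnpos : 0 < Fintype.card V := Fintype.card_pos
  obtain ⟨n, hn'⟩ : ∃ n, n = Fintype.card V := ⟨_, rfl⟩
  obtain ⟨m, hm'⟩ : ∃ m, m = G.edgeFinset.card := ⟨_, rfl⟩
  rw [← hn'] at h1 hn hm hcon hnpos
  rw [← hm'] at h1 hm hcon
  have hn0 : (0 : ℝ) < n := by exact_mod_cast hnpos
  have key : ∀ y : ℝ, 0 ≤ y → y * n ≤ 2 * m - n → 2 * ∑ i ∈ range 6, y ^ i ≤ n := by
    intro y hy hyn
    refine le_trans ?_ h1
    refine mul_le_mul_of_nonneg_left (Finset.sum_le_sum fun i _ => ?_) (by norm_num)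
    refine pow_le_pow_left₀ hy ?_ i
    rw [le_sub_iff_add_le, le_div_iff₀ hn0]
    linarith
  have hm1 : (n : ℝ) + 4 ≤ m := by exact_mod_cast hm
  have hm2 : 3 * (n : ℝ) ≤ 2 * m + 18 := by
    have : 3 * n ≤ 2 * m + 18 := by omega
    exact_mod_cast this
  rcases le_or_gt n 26 with h26 | h26
  · have h2 := key (1 + 8 / n) (by positivity) (by
      rw [add_mul, div_mul_cancel₀ _ hn0.ne']
      linarith)
    clear key h1 hn' hm' hm1 hm2 hcon hm hn hn0
    interval_cases n <;> norm_num [Finset.sum_range_succ] at h2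
  · have h27 : (27 : ℝ) ≤ n := by exact_mod_cast h26
    have h2 := key (2 - 18 / n) (by
      rw [sub_nonneg, div_le_iff₀ hn0]
      linarith) (by
      rw [sub_mul, div_mul_cancel₀ _ hn0.ne']
      linarith)
    clear key h1 hn' hm' hm1 hm2 hcon hm hn0 h27
    interval_cases n <;> norm_num [Finset.sum_range_succ] at h2

end Pool.Agent.Y335.FL
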