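import Pool.Agent.Y335.FL.Stm2

set_option autoImplicit false
set_option linter.unusedSectionVars false

/-! # Boundaries of vertex sets with 25 to 48 elements -/

namespace Pool.Agent.Y335.FL

open Finset Pool.Agent.TH676.Z

namespace IsoAux

section
variable {V : Type} [DecidableEq V] (a : V → V → ℕ)

/-- the sum of the degrees -/
def Dg (X : Finset V) : ℕ := ∑ v ∈ X, ∑ y ∈ X, a v y

variable {a} (ha : ∀ x y, a x y = a y x) (h0 : ∀ x, a x x = 0)
include ha h0

theorem Dg_erase {X : Finset V} {v : V} (hv : v ∈ X) :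
    Dg a X = Dg a (X.erase v) + 2 * ∑ y ∈ X, a v y := by
  have e1 : ∑ y ∈ X, a v y = ∑ y ∈ X.erase v, a v y := by
    rw [← Finset.add_sum_erase _ _ hv, h0, zero_add]
  have e2 : Dg a X = ∑ y ∈ X, a v y + ∑ w ∈ X.erase v, ∑ y ∈ X, a w y := by
    unfold Dg
    rw [← Finset.add_sum_erase _ _ hv]
  have e3 : ∑ w ∈ X.erase v, ∑ y ∈ X, a w y =
      ∑ w ∈ X.erase v, (a w v + ∑ y ∈ X.erase v, a w y) :=
    Finset.sum_congr rfl fun w _ => by rw [← Finset.add_sum_erase _ _ hv]
  rw [e2, e3, Finset.sum_add_distrib]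
  have e4 : ∑ w ∈ X.erase v, a w v = ∑ y ∈ X, a v y := by
    rw [e1]
    exact Finset.sum_congr rfl fun w _ => ha w v
  rw [e4]
  unfold Dg
  ring

theorem core : ∀ (n : ℕ) (X : Finset V), X.card = n → 2 * X.card + 8 ≤ Dg a X →
    ∃ Y ⊆ X, (∀ y ∈ Y, 2 ≤ ∑ z ∈ Y, a y z) ∧ Dg a X + 2 * Y.card ≤ Dg a Y + 2 * X.card := by
  intro n
  induction n with
  | zero =>
    intro X hX h
    rw [Finset.card_eq_zero] at hX
    subst hX
    simp [Dg] at h
  | succ n ih =>
    intro X hX h
    by_cases hd : ∀ y ∈ X, 2 ≤ ∑ z ∈ X, a y z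
    · exact ⟨X, Subset.refl X, hd, le_rfl⟩
    · push Not at hd
      obtain ⟨v, hv, hd⟩ := hd
      have h1 := Dg_erase ha h0 hv
      have h2 := Finset.card_erase_of_mem hv
      obtain ⟨Y, hY1, hY2, hY3⟩ := ih (X.erase v) (by omega) (by omega)
      exact ⟨Y, hY1.trans (Finset.erase_subset _ _), hY2, by omega⟩

end

section
variable {V : Type} [Fintype V] [DecidableEq V]

/-- the indicator of the edges which meet `U` -/
def ai (G : SimpleGraph V) [DecidableRel G.Adj] (U : Finset V) (x y : V) : ℕ :=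
  if G.Adj x y ∧ (x ∈ U ∨ y ∈ U) then 1 else 0

/-- the graph of the edges which meet `U`, on the vertex set `Y` -/
def GY (G : SimpleGraph V) (U Y : Finset V) : SimpleGraph {x // x ∈ Y} where
  Adj x y := G.Adj x.1 y.1 ∧ (x.1 ∈ U ∨ y.1 ∈ U)
  symm := ⟨fun _ _ h => ⟨h.1.symm, h.2.symm⟩⟩
  loopless := ⟨fun x h => G.loopless.irrefl x.1 h.1⟩

instance (G : SimpleGraph V) [DecidableRel G.Adj] (U Y : Finset V) :
    DecidableRel (GY G U Y).Adj := fun _ _ => inferInstanceAs (Decidable (_ ∧ _))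

variable (G : SimpleGraph V) [DecidableRel G.Adj] (U Y : Finset V)

theorem deg_GY (v : {x // x ∈ Y}) : (GY G U Y).degree v = ∑ y ∈ Y, ai G U v.1 y := by
  rw [← SimpleGraph.card_neighborFinset_eq_degree, ← Finset.sum_coe_sort Y,
    SimpleGraph.neighborFinset_eq_filter, Finset.card_filter]
  rfl

theorem Dg_GY : Dg (ai G U) Y = 2 * (GY G U Y).edgeFinset.card := by
  rw [← SimpleGraph.sum_degrees_eq_twice_card_edges]
  unfold Dg
  rw [← Finset.sum_coe_sort Y]
  exact Finset.sum_congr rfl fun v _ => (deg_GY G U Y v).symm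

theorem girth_GY {g : ℕ} (h : Girth G.Adj g) : Girth (GY G U Y).Adj g := by
  intro k hk v hv hadj
  exact h k hk (fun i => (v i).1) (Subtype.val_injective.comp hv) fun i => (hadj i).1

end

end IsoAux

open IsoAux in
theorem iso : St_ex17 → St_iso := by
  intro hex V _ _ G _ hg U hU h25 h48
  by_contra hcon
  rw [not_le] at hcon
  obtain ⟨N, hN⟩ : ∃ N : Finset V, N = univ.filter (fun v => v ∉ U ∧ ∃ x ∈ U, G.Adj x v) :=
    ⟨_, rfl⟩
  rw [← hN] at hcon
  have hNm : ∀ v, v ∈ N ↔ v ∉ U ∧ ∃ x ∈ U, G.Adj x v := by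
    intro v
    rw [hN]
    simp
  have hdis : Disjoint U N := Finset.disjoint_left.2 fun v hv hvN => ((hNm v).1 hvN).1 hv
  have has : ∀ x y, ai G U x y = ai G U y x := by
    intro x y
    unfold ai
    exact if_congr (and_congr (G.adj_comm x y) or_comm) rfl rfl
  have ha0 : ∀ x, ai G U x x = 0 := by
    intro x
    unfold ai
    rw [if_neg fun h => G.loopless.irrefl x h.1]
  obtain ⟨f, hf⟩ : ∃ f, f = ∑ v ∈ N, ∑ y ∈ U, ai G U v y := ⟨_, rfl⟩
  obtain ⟨s, hs⟩ : ∃ s, s = ∑ v ∈ U, ∑ y ∈ U, ai G U v y := ⟨_, rfl⟩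
  have hf' : ∑ v ∈ U, ∑ y ∈ N, ai G U v y = f := by
    rw [hf, Finset.sum_comm]
    exact Finset.sum_congr rfl fun v _ => Finset.sum_congr rfl fun y _ => has _ _
  have hNN : ∀ v ∈ N, ∑ y ∈ N, ai G U v y = 0 := by
    intro v hv
    refine Finset.sum_eq_zero fun y hy => ?_
    unfold ai
    rw [if_neg]
    rintro ⟨-, h | h⟩
    · exact ((hNm v).1 hv).1 h
    · exact ((hNm y).1 hy).1 h
  have hsplit : ∀ v, ∑ y ∈ U ∪ N, ai G U v y = ∑ y ∈ U, ai G U v y + ∑ y ∈ N, ai G U v y :=
    fun v => Finset.sum_union hdis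
  have hD : Dg (ai G U) (U ∪ N) = s + 2 * f := by
    unfold Dg
    rw [Finset.sum_union hdis, Finset.sum_congr rfl fun v _ => hsplit v,
      Finset.sum_congr (s₁ := N) rfl fun v hv => (hsplit v).trans (by rw [hNN v hv, add_zero]),
      Finset.sum_add_distrib, hf', ← hs, ← hf]
    ring
  -- degrees on `U`
  have hsf : 3 * U.card ≤ s + f := by
    have h1 : s + f = ∑ v ∈ U, ∑ y ∈ U ∪ N, ai G U v y := by
      rw [Finset.sum_congr rfl fun v _ => hsplit v, Finset.sum_add_distrib, hf', hs]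
    rw [h1, mul_comm, ← smul_eq_mul, ← Finset.sum_const]
    refine Finset.sum_le_sum fun v hv => (hU v hv).trans ?_
    rw [← SimpleGraph.card_neighborFinset_eq_degree]
    have h2 : ∀ y ∈ U ∪ N, ai G U v y = if G.Adj v y then 1 else 0 := by
      intro y _
      unfold ai
      simp [hv]
    rw [Finset.sum_congr rfl h2, ← Finset.card_filter]
    refine Finset.card_le_card fun y hy => ?_
    rw [SimpleGraph.mem_neighborFinset] at hy
    rw [Finset.mem_filter, Finset.mem_union]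
    refine ⟨?_, hy⟩
    by_cases hyU : y ∈ U
    · exact Or.inl hyU
    · exact Or.inr ((hNm y).2 ⟨hyU, v, hv, hy⟩)
  have hone : ∀ v ∈ N, 1 ≤ ∑ y ∈ U, ai G U v y := by
    intro v hv
    obtain ⟨-, x, hx, hxv⟩ := (hNm v).1 hv
    have h1 : ai G U v x = 1 := by
      unfold ai
      rw [if_pos ⟨hxv.symm, Or.inr hx⟩]
    rw [← h1]
    exact Finset.single_le_sum (f := fun y => ai G U v y) (fun _ _ => Nat.zero_le _) hx
  have hfN : N.card ≤ f := by
    rw [hf, Finset.card_eq_sum_ones]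
    exact Finset.sum_le_sum hone
  have hcard : (U ∪ N).card = U.card + N.card := Finset.card_union_of_disjoint hdis
  have heven := Dg_GY G U (U ∪ N)
  by_cases hc : 2 * (U ∪ N).card + 8 ≤ Dg (ai G U) (U ∪ N)
  · obtain ⟨Y, hY1, hY2, hY3⟩ := core has ha0 _ (U ∪ N) rfl hc
    have h1 := Dg_GY G U Y
    have h2 : Fintype.card {x // x ∈ Y} = Y.card := Fintype.card_coe Y
    have h3 := Finset.card_le_card hY1
    have h4 := hex {x // x ∈ Y} (GY G U Y) (fun v => by
      rw [deg_GY]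
      exact hY2 v.1 v.2) (girth_GY G U Y hg) (by omega) (by omega)
    obtain ⟨b, hb⟩ : ∃ b, b = (Y.filter (· ∈ N)).card := ⟨_, rfl⟩
    have h5 : Y.card ≤ U.card + b := by
      have h6 : Y ⊆ U ∪ Y.filter (· ∈ N) := by
        intro y hy
        rcases Finset.mem_union.1 (hY1 hy) with h | h
        · exact Finset.mem_union_left _ h
        · exact Finset.mem_union_right _ (Finset.mem_filter.2 ⟨hy, h⟩)
      rw [hb]
      exact (Finset.card_le_card h6).trans (Finset.card_union_le _ _)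
    have h6 : N.card + b ≤ f := by
      have h7 : b = ∑ v ∈ N, if v ∈ Y then 1 else 0 := by
        rw [hb, ← Finset.card_filter]
        congr 1
        ext v
        simp only [Finset.mem_filter]
        exact and_comm
      rw [h7, Finset.card_eq_sum_ones, ← Finset.sum_add_distrib, hf]
      refine Finset.sum_le_sum fun v hv => ?_
      by_cases hvY : v ∈ Y
      · rw [if_pos hvY]
        refine (hY2 v hvY).trans ?_
        have h8 : ∑ z ∈ Y, ai G U v z ≤ ∑ z ∈ U ∪ N, ai G U v z :=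
          Finset.sum_le_sum_of_subset hY1
        rw [hsplit, hNN v hv, add_zero] at h8
        exact h8
      · rw [if_neg hvY, add_zero]
        exact hone v hv
    omega
  · omega

end Pool.Agent.Y335.FL
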