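import Pool.Agent.Y335.FL.Stm2
import Pool.Agent.TH676.Z.Main

set_option autoImplicit false
set_option linter.unusedSectionVars false
set_option linter.style.haveILetI false

/-! # The order of a graph with girth twelve (job FL-MOORE of helper335, by helper319)

A graph with girth at least twelve and degrees at least three has at least 126 vertices of positive
degree; bridgeless graphs with at most 125 vertices of degree at least three have nowhere-zero
5-flows. -/

namespace Pool.Agent.Y335.FL

namespace Ord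

open Finset Pool.Agent.TH676.Z

section moore

variable {V : Type} [Fintype V] [DecidableEq V]

/-- no short cycles -/
theorem cycle_len {Ad : V → V → Prop} (hg : Girth Ad 12) (G : SimpleGraph V)
    (hG : ∀ a b, G.Adj a b ↔ Ad a b) {w : V} (c : G.Walk w w) (hc : c.IsCycle) :
    12 ≤ c.length := by
  by_contra hlt
  push Not at hlt
  have h3 := hc.three_le_length
  obtain ⟨k, hk⟩ : ∃ k, c.length = k + 3 := ⟨c.length - 3, by omega⟩
  refine hg k (by omega) (fun i => c.getVert i) ?_ ?_
  · intro i j hij
    have hi : (i : ℕ) ∈ {i | i ≤ c.length - 1} := by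
      have := i.2
      simp only [Set.mem_ofPred_eq]
      omega
    have hj : (j : ℕ) ∈ {i | i ≤ c.length - 1} := by
      have := j.2
      simp only [Set.mem_ofPred_eq]
      omega
    exact Fin.ext (hc.getVert_injOn' hi hj hij)
  · intro i
    by_cases hi : i = Fin.last (k + 2)
    · subst hi
      have h1 := c.adj_getVert_succ (i := k + 2) (by omega)
      rw [show k + 2 + 1 = c.length by omega, c.getVert_length, hG] at h1
      have e0 : c.getVert ((Fin.last (k + 2) + 1 : Fin (k + 3)) : ℕ) = w := by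
        rw [Fin.last_add_one]
        simp
      rw [e0]
      exact h1
    · have hlt : i < Fin.last (k + 2) := lt_of_le_of_ne (Fin.le_last i) hi
      have e : ((i + 1 : Fin (k + 3)) : ℕ) = i + 1 := Fin.val_add_one_of_lt hlt
      have h2 : (i : ℕ) < k + 2 := hlt
      rw [e]
      exact (hG _ _).1 (c.adj_getVert_succ (by omega))

variable {G : SimpleGraph V}

/-- short paths are unique -/
theorem uniq (h12 : ∀ (w : V) (c : G.Walk w w), c.IsCycle → 12 ≤ c.length) {u v : V}
    {p q : G.Walk u v} (hp : p.IsPath) (hq : q.IsPath) (hl : p.length + q.length ≤ 11) : p = q := by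
  by_contra hne
  obtain ⟨w, _, _, c, hc, hcl⟩ := hp.exists_isCycle_length_le_add_of_ne hq hne
  have := h12 w c hc
  omega

theorem edge_path {u v : V} (h : G.Adj u v) :
    (SimpleGraph.Walk.cons h SimpleGraph.Walk.nil).IsPath := by
  rw [SimpleGraph.Walk.cons_isPath_iff]
  refine ⟨SimpleGraph.Walk.IsPath.nil, ?_⟩
  simp only [SimpleGraph.Walk.support_nil, List.mem_singleton]
  exact h.ne

variable (G)

open Classical in
/-- the ends of the paths of length `d` which start at `x` and avoid `y` -/
noncomputable def Bs (d : ℕ) (x y : V) : Finset V :=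
  univ.filter (fun v => ∃ p : G.Walk x v, p.IsPath ∧ p.length = d ∧ y ∉ p.support)

variable {G}

theorem mem_Bs {d : ℕ} {x y v : V} : v ∈ Bs G d x y ↔
    ∃ p : G.Walk x v, p.IsPath ∧ p.length = d ∧ y ∉ p.support := by
  classical
  unfold Bs
  rw [mem_filter]
  exact ⟨fun h => h.2, fun h => ⟨mem_univ _, h⟩⟩

theorem nbr {x y v : V} (hxy : G.Adj x y) (p : G.Walk x v) : ∃ z, G.Adj v z := by
  by_cases hn : p.Nil
  · have := hn.eq
    subst this
    exact ⟨y, hxy⟩
  · exact ⟨_, (p.adj_penultimate hn).symm⟩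

theorem step (h12 : ∀ (w : V) (c : G.Walk w w), c.IsCycle → 12 ≤ c.length)
    (h3 : ∀ x y, G.Adj x y → ∃ a b c, G.Adj x a ∧ G.Adj x b ∧ G.Adj x c ∧ a ≠ b ∧ a ≠ c ∧ b ≠ c)
    {x y : V} (hxy : G.Adj x y) {d : ℕ} (hd : d ≤ 4) :
    2 * (Bs G d x y).card ≤ (Bs G (d + 1) x y).card := by
  classical
  set C : V → Finset V := fun v => univ.filter (fun w => G.Adj v w ∧ ∃ p : G.Walk x v,
    p.IsPath ∧ p.length = d ∧ y ∉ p.support ∧ w ∉ p.support ∧ w ≠ y) with hC
  have k1 : ∀ v ∈ Bs G d x y, 2 ≤ (C v).card := by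
    intro v hv
    obtain ⟨p, hp, hpl, hyp⟩ := mem_Bs.1 hv
    obtain ⟨z, hz⟩ := nbr hxy p
    set pr : V := if p.length = 0 then y else p.penultimate with hpr
    have hmem : ∀ w, G.Adj v w → w ≠ pr → w ∈ C v := by
      intro w hw hne
      rw [hC]
      simp only [mem_filter, mem_univ, true_and]
      refine ⟨hw, p, hp, hpl, hyp, ?_, ?_⟩
      · intro hws
        have e := uniq h12 (hp.dropUntil hws) (edge_path hw.symm) (by
          have h5 := p.length_dropUntil_le_length hws
          simp only [SimpleGraph.Walk.length_cons, SimpleGraph.Walk.length_nil]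
          omega)
        have e2 : p = (p.takeUntil w hws).concat hw.symm := by
          rw [SimpleGraph.Walk.concat_eq_append, ← e, SimpleGraph.Walk.take_spec]
        have e3 : p.penultimate = w := by
          rw [e2, SimpleGraph.Walk.penultimate_concat]
        have e4 : p.length ≠ 0 := by
          rw [e2, SimpleGraph.Walk.length_concat]
          omega
        apply hne
        rw [hpr, if_neg e4, e3]
      · intro hwy
        subst hwy
        have e := uniq h12 (hp.concat hyp hw) (edge_path hxy) (by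
          simp only [SimpleGraph.Walk.length_cons, SimpleGraph.Walk.length_nil,
            SimpleGraph.Walk.length_concat]
          omega)
        have e2 := congrArg SimpleGraph.Walk.length e
        simp only [SimpleGraph.Walk.length_cons, SimpleGraph.Walk.length_nil,
            SimpleGraph.Walk.length_concat] at e2
        apply hne
        rw [hpr, if_pos (by omega)]
    obtain ⟨a, b, c, ha, hb, hc, hab, hac, hbc⟩ := h3 v z hz
    by_cases e1 : a = pr
    · have h4 : ({b, c} : Finset V) ⊆ C v := by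
        intro w hw
        rw [mem_insert, mem_singleton] at hw
        rcases hw with rfl | rfl
        · exact hmem _ hb (fun h => hab (e1.trans h.symm))
        · exact hmem _ hc (fun h => hac (e1.trans h.symm))
      calc 2 = ({b, c} : Finset V).card := (card_pair hbc).symm
        _ ≤ _ := card_le_card h4
    · by_cases e2 : b = pr
      · have h4 : ({a, c} : Finset V) ⊆ C v := by
          intro w hw
          rw [mem_insert, mem_singleton] at hw
          rcases hw with rfl | rfl
          · exact hmem _ ha e1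
          · exact hmem _ hc (fun h => hbc (e2.trans h.symm))
        calc 2 = ({a, c} : Finset V).card := (card_pair hac).symm
          _ ≤ _ := card_le_card h4
      · have h4 : ({a, b} : Finset V) ⊆ C v := by
          intro w hw
          rw [mem_insert, mem_singleton] at hw
          rcases hw with rfl | rfl
          · exact hmem _ ha e1
          · exact hmem _ hb e2
        calc 2 = ({a, b} : Finset V).card := (card_pair hab).symm
          _ ≤ _ := card_le_card h4
  have k2 : (Bs G d x y).biUnion C ⊆ Bs G (d + 1) x y := by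
    intro w hw
    obtain ⟨v, _, hw'⟩ := mem_biUnion.1 hw
    obtain ⟨hadj, p, hp, hpl, hyp, hwp, hwy⟩ := (mem_filter.1 hw').2
    refine mem_Bs.2 ⟨p.concat hadj, hp.concat hwp hadj, ?_, ?_⟩
    · rw [SimpleGraph.Walk.length_concat, hpl]
    · rw [SimpleGraph.Walk.support_concat]
      simp only [List.mem_append, List.mem_singleton, not_or]
      exact ⟨hyp, fun h => hwy h.symm⟩
  have k3 : ∀ v ∈ Bs G d x y, ∀ v' ∈ Bs G d x y, v ≠ v' → Disjoint (C v) (C v') := by
    intro v _ v' _ hne
    rw [disjoint_left]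
    intro w hw hw'
    obtain ⟨hadj, p, hp, hpl, hyp, hwp, hwy⟩ := (mem_filter.1 hw).2
    obtain ⟨hadj', p', hp', hpl', hyp', hwp', hwy'⟩ := (mem_filter.1 hw').2
    have e := uniq h12 (hp.concat hwp hadj) (hp'.concat hwp' hadj') (by
      rw [SimpleGraph.Walk.length_concat, SimpleGraph.Walk.length_concat]
      omega)
    have e2 := congrArg SimpleGraph.Walk.penultimate e
    rw [SimpleGraph.Walk.penultimate_concat, SimpleGraph.Walk.penultimate_concat] at e2
    exact hne e2
  calc 2 * (Bs G d x y).card = ∑ _v ∈ Bs G d x y, 2 := by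
        rw [sum_const, smul_eq_mul, mul_comm]
    _ ≤ ∑ v ∈ Bs G d x y, (C v).card := sum_le_sum k1
    _ = ((Bs G d x y).biUnion C).card := (card_biUnion k3).symm
    _ ≤ _ := card_le_card k2

theorem card_Bs (h12 : ∀ (w : V) (c : G.Walk w w), c.IsCycle → 12 ≤ c.length)
    (h3 : ∀ x y, G.Adj x y → ∃ a b c, G.Adj x a ∧ G.Adj x b ∧ G.Adj x c ∧ a ≠ b ∧ a ≠ c ∧ b ≠ c)
    {x y : V} (hxy : G.Adj x y) : ∀ d : ℕ, d ≤ 5 → 2 ^ d ≤ (Bs G d x y).card := by
  intro d
  induction d with
  | zero =>
    intro _
    rw [pow_zero, Nat.one_le_iff_ne_zero, Ne, card_eq_zero]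
    intro h
    have : x ∈ Bs G 0 x y := mem_Bs.2 ⟨SimpleGraph.Walk.nil, SimpleGraph.Walk.IsPath.nil, rfl, by
      simp only [SimpleGraph.Walk.support_nil, List.mem_singleton]
      exact hxy.ne.symm⟩
    rw [h] at this
    exact notMem_empty _ this
  | succ d ih =>
    intro hd
    have h1 := ih (by omega)
    have h2 := step h12 h3 hxy (d := d) (by omega)
    rw [pow_succ]
    omega

/-- all the ends -/
noncomputable def Ds (G : SimpleGraph V) (x y : V) : Finset V := (range 6).biUnion fun d => Bs G d x y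

theorem card_Ds (h12 : ∀ (w : V) (c : G.Walk w w), c.IsCycle → 12 ≤ c.length)
    (h3 : ∀ x y, G.Adj x y → ∃ a b c, G.Adj x a ∧ G.Adj x b ∧ G.Adj x c ∧ a ≠ b ∧ a ≠ c ∧ b ≠ c)
    {x y : V} (hxy : G.Adj x y) : 63 ≤ (Ds G x y).card := by
  unfold Ds
  rw [card_biUnion]
  · calc 63 = ∑ d ∈ range 6, 2 ^ d := by decide
      _ ≤ _ := sum_le_sum fun d hd => card_Bs h12 h3 hxy d (by
        have := mem_range.1 hd
        omega)
  · intro d hd e he hne
    change Disjoint (Bs G d x y) (Bs G e x y)
    rw [disjoint_left]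
    intro v hv hv'
    obtain ⟨p, hp, hpl, _⟩ := mem_Bs.1 hv
    obtain ⟨q, hq, hql, _⟩ := mem_Bs.1 hv'
    have h1 := mem_range.1 (mem_coe.1 hd)
    have h2 := mem_range.1 (mem_coe.1 he)
    have e := uniq h12 hp hq (by omega)
    apply hne
    rw [← hpl, ← hql, e]

end moore

end Ord

open Finset Pool.Agent.TH676.Z

theorem moore : St_moore := by
  classical
  intro V _ _ Ad _ hs hi hg h3 ⟨x, y, hxy⟩
  set G : SimpleGraph V := { Adj := Ad, symm := ⟨fun a b h => hs a b h⟩, loopless := ⟨hi⟩ } with hGdef
  have hG : ∀ a b, G.Adj a b ↔ Ad a b := fun a b => Iff.rfl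
  have h12 : ∀ (w : V) (c : G.Walk w w), c.IsCycle → 12 ≤ c.length :=
    fun w c hc => Ord.cycle_len hg G hG c hc
  have h3' : ∀ x y, G.Adj x y → ∃ a b c, G.Adj x a ∧ G.Adj x b ∧ G.Adj x c ∧ a ≠ b ∧ a ≠ c ∧ b ≠ c :=
    h3
  have hxy' : G.Adj x y := hxy
  have k1 := Ord.card_Ds h12 h3' hxy'
  have k2 := Ord.card_Ds h12 h3' hxy'.symm
  have k3 : Disjoint (Ord.Ds G x y) (Ord.Ds G y x) := by
    rw [disjoint_left]
    intro v hv hv'
    obtain ⟨d, hd, hv⟩ := mem_biUnion.1 hv
    obtain ⟨e, he, hv'⟩ := mem_biUnion.1 hv'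
    obtain ⟨p, hp, hpl, hyp⟩ := Ord.mem_Bs.1 hv
    obtain ⟨q, hq, hql, hxq⟩ := Ord.mem_Bs.1 hv'
    have h1 := mem_range.1 hd
    have h2 := mem_range.1 he
    have h4 := Ord.uniq h12 hp ((SimpleGraph.Walk.cons_isPath_iff hxy' q).2 ⟨hq, hxq⟩) (by
      rw [SimpleGraph.Walk.length_cons]
      omega)
    apply hyp
    rw [h4, SimpleGraph.Walk.support_cons]
    exact List.mem_cons_of_mem _ q.start_mem_support
  have k4 : ∀ x y : V, G.Adj x y → Ord.Ds G x y ⊆ univ.filter (fun v => ∃ y, Ad v y) := by
    intro x y hxy v hv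
    obtain ⟨d, _, hv⟩ := mem_biUnion.1 hv
    obtain ⟨p, _, _, _⟩ := Ord.mem_Bs.1 hv
    rw [mem_filter]
    exact ⟨mem_univ _, Ord.nbr hxy p⟩
  have k5 : (Ord.Ds G x y ∪ Ord.Ds G y x).card ≤
      (univ.filter (fun v => ∃ y, Ad v y)).card :=
    card_le_card (union_subset (k4 x y hxy') (k4 y x hxy'.symm))
  rw [card_union_of_disjoint k3] at k5
  omega

namespace Ord

section order

variable {V E : Type} [Fintype V] [DecidableEq V] [Fintype E] [DecidableEq E]

/-- the proper edges at `x` -/
def sg (src dst : E → V) (x : V) : Finset E :=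
  univ.filter (fun e => src e ≠ dst e ∧ (src e = x ∨ dst e = x))

theorem dg_eq (src dst : E → V) (x : V) : dg src dst x = (sg src dst x).card := rfl

theorem mem_sg {src dst : E → V} {x : V} {e : E} :
    e ∈ sg src dst x ↔ src e ≠ dst e ∧ (src e = x ∨ dst e = x) := by simp [sg]

/-- the vertices of degree at least three -/
def Th (src dst : E → V) : Finset V := univ.filter (fun x => 3 ≤ dg src dst x)

theorem mem_Th {src dst : E → V} {x : V} : x ∈ Th src dst ↔ 3 ≤ dg src dst x := by simp [Th]

theorem dg_lp (src dst : E → V) (e : E) (x : V) : dg src (Pool.Agent.TH676.Z.lp src dst {e}) x ≤ dg src dst x := by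
  rw [dg_eq, dg_eq]
  refine card_le_card fun d hd => ?_
  rw [mem_sg] at hd ⊢
  unfold Pool.Agent.TH676.Z.lp at hd
  by_cases h : d = e
  · simp [h] at hd
  · simp only [mem_singleton, h, if_false] at hd
    exact hd

theorem dg_ctr_other (src dst : E → V) {u v x : V} (hu : x ≠ u) :
    dg (ctr u v ∘ src) (ctr u v ∘ dst) x ≤ dg src dst x := by
  rw [dg_eq, dg_eq]
  refine card_le_card fun d hd => ?_
  rw [mem_sg] at hd ⊢
  have h1 : ∀ y : V, ctr u v y = x → y = x := by
    intro y hy
    unfold ctr at hy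
    split_ifs at hy with h
    · exact absurd hy.symm hu
    · exact hy
  refine ⟨fun h => hd.1 (by simp [h]), ?_⟩
  rcases hd.2 with h | h
  · exact Or.inl (h1 _ h)
  · exact Or.inr (h1 _ h)

theorem dg_ctr_v (src dst : E → V) {u v : V} (huv : u ≠ v) :
    dg (ctr u v ∘ src) (ctr u v ∘ dst) v = 0 := by
  rw [dg_eq, card_eq_zero, eq_empty_iff_forall_notMem]
  intro d hd
  rw [mem_sg] at hd
  have h1 : ∀ y : V, ctr u v y ≠ v := by
    intro y hy
    unfold ctr at hy
    split_ifs at hy with h
    · exact huv hy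
    · exact h hy
  rcases hd.2 with h | h
  · exact h1 _ h
  · exact h1 _ h

theorem dg_ctr_u (src dst : E → V) (e : E) (hne : src e ≠ dst e) :
    dg (ctr (src e) (dst e) ∘ src) (ctr (src e) (dst e) ∘ dst) (src e) + 2 ≤
      dg src dst (src e) + dg src dst (dst e) := by
  rw [dg_eq, dg_eq, dg_eq, ← card_union_add_card_inter]
  have h1 : sg (ctr (src e) (dst e) ∘ src) (ctr (src e) (dst e) ∘ dst) (src e) ⊆
      (sg src dst (src e) ∪ sg src dst (dst e)).erase e := by
    intro d hd
    rw [mem_sg] at hd
    rw [mem_erase, mem_union, mem_sg, mem_sg]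
    refine ⟨?_, ?_⟩
    · rintro rfl
      apply hd.1
      simp [ctr]
    · have h2 : src d ≠ dst d := fun h => hd.1 (by simp [h])
      have h3 : ∀ y : V, ctr (src e) (dst e) y = src e → y = src e ∨ y = dst e := by
        intro y hy
        unfold ctr at hy
        split_ifs at hy with h
        · exact Or.inr h
        · exact Or.inl hy
      rcases hd.2 with h | h
      · rcases h3 _ h with h4 | h4
        · exact Or.inl ⟨h2, Or.inl h4⟩
        · exact Or.inr ⟨h2, Or.inl h4⟩
      · rcases h3 _ h with h4 | h4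
        · exact Or.inl ⟨h2, Or.inr h4⟩
        · exact Or.inr ⟨h2, Or.inr h4⟩
  have he1 : e ∈ sg src dst (src e) := mem_sg.2 ⟨hne, Or.inl rfl⟩
  have he2 : e ∈ sg src dst (dst e) := mem_sg.2 ⟨hne, Or.inr rfl⟩
  have h2 := card_le_card h1
  rw [card_erase_of_mem (mem_union_left _ he1)] at h2
  have h3 : 0 < (sg src dst (src e) ∩ sg src dst (dst e)).card :=
    card_pos.2 ⟨e, mem_inter.2 ⟨he1, he2⟩⟩
  have h4 : 0 < (sg src dst (src e) ∪ sg src dst (dst e)).card :=
    card_pos.2 ⟨e, mem_union_left _ he1⟩
  omega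

/-- the class of graphs with at most `125` vertices of degree at least three -/
def Cl (src dst : E → V) : Prop := (Th src dst).card ≤ 125

theorem mc : MC (V := V) (E := E) Cl := by
  constructor
  · intro src dst e h _
    refine le_trans (card_le_card fun x hx => ?_) h
    rw [mem_Th] at hx ⊢
    exact hx.trans (dg_lp src dst e x)
  · intro src dst e h hne
    refine le_trans ?_ h
    set s1 := ctr (src e) (dst e) ∘ src with hs1
    set d1 := ctr (src e) (dst e) ∘ dst with hd1
    have h0 : dst e ∉ Th s1 d1 := by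
      rw [mem_Th, dg_ctr_v src dst hne]
      omega
    have h1 : ∀ x, x ∈ Th s1 d1 → x ≠ src e → x ∈ Th src dst := by
      intro x hx hu
      rw [mem_Th] at hx ⊢
      exact hx.trans (dg_ctr_other src dst hu)
    by_cases hu : src e ∈ Th s1 d1
    · have h2 : dg s1 d1 (src e) + 2 ≤ dg src dst (src e) + dg src dst (dst e) :=
        dg_ctr_u src dst e hne
      rw [mem_Th] at hu
      by_cases h3 : 3 ≤ dg src dst (src e)
      · refine card_le_card fun x hx => ?_
        by_cases hxu : x = src e
        · rw [hxu]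
          exact mem_Th.2 h3
        · exact h1 x hx hxu
      · have h4 : dst e ∈ Th src dst := by
          rw [mem_Th]
          omega
        have h5 : Th s1 d1 ⊆ insert (src e) ((Th src dst).erase (dst e)) := by
          intro x hx
          by_cases hxu : x = src e
          · rw [hxu]
            exact mem_insert_self _ _
          · refine mem_insert_of_mem (mem_erase.2 ⟨?_, h1 x hx hxu⟩)
            rintro rfl
            exact h0 hx
        have h6 := (card_le_card h5).trans (card_insert_le _ _)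
        rw [card_erase_of_mem h4] at h6
        have h7 : 0 < (Th src dst).card := card_pos.2 ⟨_, h4⟩
        omega
    · refine card_le_card fun x hx => h1 x hx ?_
      rintro rfl
      exact hu hx

theorem three_dg {src dst : E → V} (h3 : Three (Adj src dst)) {x y : V} (h : Adj src dst x y) :
    3 ≤ dg src dst x := by
  obtain ⟨a, b, c, ⟨ha, ea, ha'⟩, ⟨hb, eb, hb'⟩, ⟨hc, ec, hc'⟩, hab, hac, hbc⟩ := h3 x y h
  have key : ∀ {a b : V} {e : E}, x ≠ a → x ≠ b → ((src e = x ∧ dst e = a) ∨ (src e = a ∧ dst e = x)) →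
      ((src e = x ∧ dst e = b) ∨ (src e = b ∧ dst e = x)) → a = b := by
    intro a b e h1 h2 h3 h4
    rcases h3 with ⟨p, q⟩ | ⟨p, q⟩ <;> rcases h4 with ⟨r, s⟩ | ⟨r, s⟩
    · exact q.symm.trans s
    · exact absurd (q.symm.trans s).symm h1
    · exact absurd (p.symm.trans r).symm h1
    · exact p.symm.trans r
  have mem : ∀ {a : V} {e : E}, x ≠ a → ((src e = x ∧ dst e = a) ∨ (src e = a ∧ dst e = x)) →
      e ∈ sg src dst x := by
    intro a e h1 h2
    rw [mem_sg]
    rcases h2 with ⟨p, q⟩ | ⟨p, q⟩
    · exact ⟨by rw [p, q]; exact h1, Or.inl p⟩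
    · exact ⟨by rw [p, q]; exact h1.symm, Or.inr q⟩
  have e1 : ea ≠ eb := by
    rintro rfl
    exact hab (key ha hb ha' hb')
  have e2 : ea ≠ ec := by
    rintro rfl
    exact hac (key ha hc ha' hc')
  have e3 : eb ≠ ec := by
    rintro rfl
    exact hbc (key hb hc hb' hc')
  have h4 : ({ea, eb, ec} : Finset E) ⊆ sg src dst x := by
    intro e he
    simp only [mem_insert, mem_singleton] at he
    rcases he with rfl | rfl | rfl
    · exact mem ha ha'
    · exact mem hb hb'
    · exact mem hc hc'
  rw [dg_eq]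
  calc 3 = ({ea, eb, ec} : Finset E).card := by
        rw [card_insert_of_notMem (by simp [e1, e2]), card_pair e3]
    _ ≤ _ := card_le_card h4

end order

end Ord

theorem order : St_girth12 → St_moore → St_order := by
  classical
  intro hg hm V E _ _ _ _ src dst hcard hbr
  by_contra hn
  obtain ⟨s, d, hs, hM⟩ := crit V E Ord.Cl Ord.mc src dst hcard hbr hn
  obtain ⟨-, h3⟩ := gi_all V E s d hM
  have hgi := hg V E s d hM
  by_cases hl : ∀ e, s e = d e
  · exact hM.nf (flow_of_loops hl)
  · push Not at hl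
    obtain ⟨e, he⟩ := hl
    have h1 := hm V (Adj s d) (fun a b h => ⟨h.1.symm, h.2.imp fun e he => he.symm⟩)
      (fun a h => h.1 rfl) hgi h3 ⟨s e, d e, he, e, Or.inl ⟨rfl, rfl⟩⟩
    have h2 : (univ.filter (fun v => ∃ y, Adj s d v y)) ⊆ Ord.Th s d := by
      intro x hx
      rw [mem_filter] at hx
      obtain ⟨-, y, hy⟩ := hx
      exact Ord.mem_Th.2 (Ord.three_dg h3 hy)
    have h4 := card_le_card h2
    have h5 : (Ord.Th s d).card ≤ 125 := hs
    omega

end Pool.Agent.Y335.FL
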