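import Pool.Agent.Y335.FL.Kdef

set_option autoImplicit false
set_option maxRecDepth 100000

/-! # Data for circuits of length 5 -/

namespace Pool.Agent.Y335.FL

def d5_0 : List Nat := [
0x6f000620009c00000000620008f000000006f0009c000000006200062000000009c0008f0009c000bc00062000000006f000620000000062000bc000000008f0006f000620009c00062000620009c0006f00000000bc0006200000000620009c00062000620009c0006f0008f00062000bc0006200000000000006f000620009c0006f000620008f0009c000bc0006200062000000006f0006f00000000c0]

/-- the array `y` for `n = 3`, `b = 7`, `W = 20` -/
def Y5 : Nat := asm2 1280 81920 [d5_0]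

/-- the array `x` for `K = 8193` -/
def X5 : Nat := shf 20 8193 7 3 Y5

end Pool.Agent.Y335.FL
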