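set_option autoImplicit false

/-! # Functions for the kernel check of the certificates

An array `G` indexed by the lists of `n` digits `1, 2, 3, 4` is packed into the number
`pack W n G`, with `W` bits for each entry; the first digit is the most significant one. -/

namespace Pool.Agent.Y335.FL

/-- four slices of `s` bits -/
def S4 (s a b c d : Nat) : Nat :=
  Nat.add a (Nat.add (Nat.shiftLeft b s)
    (Nat.add (Nat.shiftLeft c (Nat.mul 2 s)) (Nat.shiftLeft d (Nat.mul 3 s))))

/-- the packed array -/
def pack (W : Nat) : Nat → (List Nat → Nat) → Nat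
  | 0, G => G []
  | n + 1, G => S4 (Nat.mul W (Nat.pow 4 n)) (pack W n (fun l => G (1 :: l)))
      (pack W n (fun l => G (2 :: l))) (pack W n (fun l => G (3 :: l)))
      (pack W n (fun l => G (4 :: l)))

/-- value `v` where the sum of the flagged digits is `r` modulo 5 -/
def msk (v W : Nat) : List Bool → Nat → Nat
  | [], r => Nat.casesOn r v (fun _ => 0)
  | false :: fl, r =>
      S4 (Nat.mul W (Nat.pow 4 fl.length)) (msk v W fl r) (msk v W fl r) (msk v W fl r)
        (msk v W fl r)
  | true :: fl, r =>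
      match r with
      | 0 => S4 (Nat.mul W (Nat.pow 4 fl.length)) (msk v W fl 4) (msk v W fl 3) (msk v W fl 2)
          (msk v W fl 1)
      | 1 => S4 (Nat.mul W (Nat.pow 4 fl.length)) (msk v W fl 0) (msk v W fl 4) (msk v W fl 3)
          (msk v W fl 2)
      | 2 => S4 (Nat.mul W (Nat.pow 4 fl.length)) (msk v W fl 1) (msk v W fl 0) (msk v W fl 4)
          (msk v W fl 3)
      | 3 => S4 (Nat.mul W (Nat.pow 4 fl.length)) (msk v W fl 2) (msk v W fl 1) (msk v W fl 0)
          (msk v W fl 4)
      | _ => S4 (Nat.mul W (Nat.pow 4 fl.length)) (msk v W fl 3) (msk v W fl 2) (msk v W fl 1)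
          (msk v W fl 0)

/-- value `v` where no sum `r + (first i digits)`, `1 ≤ i ≤ n`, is `0` modulo 5 -/
def nv (v W : Nat) : Nat → Nat → Nat
  | 0, _ => v
  | n + 1, r =>
      match r with
      | 0 => S4 (Nat.mul W (Nat.pow 4 n)) (nv v W n 1) (nv v W n 2) (nv v W n 3) (nv v W n 4)
      | 1 => S4 (Nat.mul W (Nat.pow 4 n)) (nv v W n 2) (nv v W n 3) (nv v W n 4) 0
      | 2 => S4 (Nat.mul W (Nat.pow 4 n)) (nv v W n 3) (nv v W n 4) 0 (nv v W n 1)
      | 3 => S4 (Nat.mul W (Nat.pow 4 n)) (nv v W n 4) 0 (nv v W n 1) (nv v W n 2)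
      | _ => S4 (Nat.mul W (Nat.pow 4 n)) 0 (nv v W n 1) (nv v W n 2) (nv v W n 3)

/-- enumerate the flags: `f fl u` for all ways to write `us` as a disjoint union of `fl`, `u` -/
def go : List Bool → (List Bool → List Bool → Bool) → Bool
  | [], f => f [] []
  | false :: us, f => go us (fun fl u => f (false :: fl) (false :: u))
  | true :: us, f => (go us (fun fl u => f (false :: fl) (true :: u))) &&
      (go us (fun fl u => f (true :: fl) (false :: u)))

/-- sum over the first digit, `s` bits per slice -/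
def fold (s X : Nat) : Nat :=
  Nat.add (Nat.land X (Nat.sub (Nat.pow 2 s) 1))
    (Nat.add (Nat.land (Nat.shiftRight X s) (Nat.sub (Nat.pow 2 s) 1))
      (Nat.add (Nat.land (Nat.shiftRight X (Nat.mul 2 s)) (Nat.sub (Nat.pow 2 s) 1))
        (Nat.shiftRight X (Nat.mul 3 s))))

/-- sum over the first digit, restricted to first digit + flagged digits = 0 modulo 5 -/
def sel (W s X : Nat) (fl : List Bool) : Nat :=
  Nat.add (Nat.land X (msk (Nat.sub (Nat.pow 2 W) 1) W fl 4))
    (Nat.add (Nat.land (Nat.shiftRight X s) (msk (Nat.sub (Nat.pow 2 W) 1) W fl 3))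
      (Nat.add (Nat.land (Nat.shiftRight X (Nat.mul 2 s)) (msk (Nat.sub (Nat.pow 2 W) 1) W fl 2))
        (Nat.land (Nat.shiftRight X (Nat.mul 3 s)) (msk (Nat.sub (Nat.pow 2 W) 1) W fl 1))))

/-- for all partitions of the positions with `us = true` (one block without condition): the sum
over the digits with block sums zero is divisible by `K` -/
def chk (W K : Nat) : Nat → List Bool → Nat → Bool
  | 0, _, X => Nat.beq (Nat.mod X K) 0
  | _ + 1, [], X => Nat.beq X 0
  | n + 1, false :: us, X => chk W K n us (fold (Nat.mul W (Nat.pow 4 n)) X)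
  | n + 1, true :: us, X =>
      (chk W K n us (fold (Nat.mul W (Nat.pow 4 n)) X)) &&
      go us (fun fl u => (Nat.beq (sel W (Nat.mul W (Nat.pow 4 n)) X fl) 0) ||
        (chk W K n u (sel W (Nat.mul W (Nat.pow 4 n)) X fl)))

/-- the blocks of the first terminal (value 1) whose flags begin with `P` -/
def rootP (W K n : Nat) (P : List Bool) (X : Nat) : Bool :=
  go (List.replicate (Nat.sub n P.length) true) (fun fl u =>
    (Nat.beq (Nat.land X (msk (Nat.sub (Nat.pow 2 W) 1) W (P ++ fl) 4)) 0) ||
      (chk W K n (P.map not ++ u) (Nat.land X (msk (Nat.sub (Nat.pow 2 W) 1) W (P ++ fl) 4))))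

/-- the first terminal is in the block of the last one -/
def root0 (W K n : Nat) (X : Nat) : Bool := chk W K n (List.replicate n true) X

/-- chunks of `s` bits -/
def asm (s : Nat) : List Nat → Nat
  | [] => 0
  | x :: xs => Nat.add x (Nat.shiftLeft (asm s xs) s)

/-- chunks of chunks -/
def asm2 (s t : Nat) : List (List Nat) → Nat
  | [] => 0
  | x :: xs => Nat.add (asm s x) (Nat.shiftLeft (asm2 s t xs) t)

/-- value `v` where `1 + (sum of the digits)` is not zero modulo 5 -/
def vmk (v W n : Nat) : Nat :=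
  Nat.add (msk v W (List.replicate n true) 0) (Nat.add (msk v W (List.replicate n true) 1)
    (Nat.add (msk v W (List.replicate n true) 2) (msk v W (List.replicate n true) 3)))

/-- the array `y`: entries below `2 ^ (b + 1)`, zero at invalid positions, at least `2 ^ b` at the
valid positions whose prefix sums take all values -/
def scan (W b n : Nat) (Y : Nat) : Bool :=
  (Nat.beq (Nat.shiftRight Y (Nat.mul W (Nat.pow 4 n))) 0) &&
  ((Nat.beq (Nat.land Y (msk (Nat.sub (Nat.pow 2 W) 1) W (List.replicate n true) 4)) 0) &&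
  ((Nat.beq (Nat.land Y (msk (Nat.sub (Nat.pow 2 W) (Nat.pow 2 (Nat.succ b))) W
    (List.replicate n false) 0)) 0) &&
  (Nat.beq (Nat.lor (Nat.land Y (msk (Nat.pow 2 b) W (List.replicate n false) 0))
    (Nat.lor (nv (Nat.pow 2 b) W n 4) (Nat.lor (nv (Nat.pow 2 b) W n 3)
      (Nat.lor (nv (Nat.pow 2 b) W n 2) (msk (Nat.pow 2 b) W (List.replicate n true) 4)))))
    (msk (Nat.pow 2 b) W (List.replicate n false) 0))))

/-- the array `x` with entries `y + K + 1 - 2 ^ b` at the valid positions -/
def shf (W K b n Y : Nat) : Nat := Nat.add Y (vmk (Nat.sub (Nat.succ K) (Nat.pow 2 b)) W n)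

end Pool.Agent.Y335.FL
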