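import Pool.Agent.TH676.Z.Stm4

set_option autoImplicit false
set_option linter.unusedSectionVars false

/-! # Circuits with at most eleven edges are contractible for nowhere-zero 5-flows: statements

`TH676.Z.cnt src dst C v s` is the number of functions `E → Z_5` which are zero on `C`, nonzero
elsewhere and have boundary `s i` at `v i` (and zero elsewhere); `Fit s` says that the prefix sums
of `s` miss a value, i.e. that such a function can be completed by nonzero values on a circuit
through `v 0, v 1, ...`.  -/

namespace Pool.Agent.Y335.FL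

open Finset Pool.Agent.TH676.Z

/-- for `n` terminals: if no function has a boundary without zeros whose prefix sums miss a value
then no function has a boundary without zeros -/
def Core (n : ℕ) [NeZero n] : Prop := ∀ (V E : Type) [Fintype V] [DecidableEq V] [Fintype E]
  [DecidableEq E] (src dst : E → V) (C : Finset E) (v : Fin n → V), Function.Injective v →
    (∀ s : Fin n → ZMod 5, (∀ i, s i ≠ 0) → Fit s → cnt src dst C v s = 0) →
    ∀ s : Fin n → ZMod 5, (∀ i, s i ≠ 0) → cnt src dst C v s = 0

/-- all numbers of terminals up to eleven -/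
def CoreAll : Prop := ∀ n : ℕ, n ≤ 10 → Core (n + 1)

/-- P1: contraction of a circuit with at most eleven edges (`D` is deleted) -/
def St_contract : Prop := ∀ (V E : Type) [Fintype V] [DecidableEq V] [Fintype E] [DecidableEq E]
  (src dst : E → V) (D : Finset E) (k : ℕ), k ≤ 9 → ∀ (v : Fin (k + 2) → V) (ed : Fin (k + 2) → E),
    Function.Injective v → Function.Injective ed →
    (∀ i, Jn src dst (ed i) (v i) (v (i + 1))) → (∀ i, ed i ∉ D) →
    FlowOn src dst D (univ.image ed) → FlowOn src dst D ∅

/-- P2: a circuit in a nonempty set `S` of proper edges without vertices of degree one -/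
def St_circEx : Prop := ∀ (V E : Type) [Fintype V] [DecidableEq V] [Fintype E] [DecidableEq E]
  (src dst : E → V) (S : Finset E), S.Nonempty → (∀ e ∈ S, src e ≠ dst e) →
    (∀ x, ∀ e ∈ S, (src e = x ∨ dst e = x) → ∃ e' ∈ S, e' ≠ e ∧ (src e' = x ∨ dst e' = x)) →
    ∃ (k : ℕ) (v : Fin (k + 2) → V) (ed : Fin (k + 2) → E),
      Function.Injective v ∧ Function.Injective ed ∧
      (∀ i, Jn src dst (ed i) (v i) (v (i + 1))) ∧ ∀ i, ed i ∈ S

/-- P3: a bridgeless set `S` of at most eleven edges modulo `F` (`z` is nonzero on `S` and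
arbitrary on `F`) -/
def St_trail : Prop := ∀ (V E : Type) [Fintype V] [DecidableEq V] [Fintype E] [DecidableEq E]
  (src dst : E → V) (F S : Finset E) (z : E → ZMod 5), (∀ v, bd src dst z v = 0) →
    (∀ e ∈ S, z e ≠ 0) → (∀ e, e ∉ F → e ∉ S → z e = 0) → S.card ≤ 11 →
    FlowOn src dst ∅ (F ∪ S) → FlowOn src dst ∅ F

/-- P3b: cycles with at most eleven edges outside the union of the earlier ones -/
def St_lift : Prop := ∀ (V E : Type) [Fintype V] [DecidableEq V] [Fintype E] [DecidableEq E]
  (src dst : E → V) (m : ℕ) (C : Fin m → Finset E),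
    (∀ i, ∃ z : E → ZMod 5, (∀ v, bd src dst z v = 0) ∧ (∀ e, z e = 0 ∨ z e = 1 ∨ z e = -1) ∧
      ∀ e, z e ≠ 0 ↔ e ∈ C i) →
    (∀ i, (C i \ (univ.filter (fun j => j < i)).biUnion C).card ≤ 11) →
    FlowOn src dst ∅ (univ.biUnion C) → FlowOn src dst ∅ ∅

/-- there is no circuit of length `3, ..., g - 1` -/
def Girth {V : Type} (Ad : V → V → Prop) (g : ℕ) : Prop :=
  ∀ k, k + 3 < g → ∀ v : Fin (k + 3) → V, Function.Injective v → ¬ ∀ i, Ad (v i) (v (i + 1))

/-- P4: the girth of a minimal counterexample -/
def St_girth12 : Prop := ∀ (V E : Type) [Fintype V] [DecidableEq V] [Fintype E] [DecidableEq E]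
  (src dst : E → V), MinCx src dst → Girth (Adj src dst) 12

/-- P5: nonzero elements of the cycle space have at least `g` edges -/
def St_even : Prop := ∀ (V E : Type) [Fintype V] [DecidableEq V] [Fintype E] [DecidableEq E]
  (src dst : E → V) (F : Finset E) (g : ℕ), Girth (Adj src dst) g → NoPar src dst →
    (∀ e ∈ F, src e ≠ dst e) → ∀ x ∈ ZF src dst F, x ≠ 0 →
    g ≤ (univ.filter (fun e => x e ≠ 0)).card

/-- P6: the `2 + 4 + 8 + 16 + 32` edges at distance at most four from a neighbour of `s` -/
def St_edge62 : Prop := ∀ (V E : Type) [Fintype V] [DecidableEq V] [Fintype E] [DecidableEq E]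
  (src dst : E → V) (s : V), Girth (Adj src dst) 12 → Three (Adj src dst) →
    62 * (Ns src dst s).card ≤ (Es src dst s).card

/-- P7: surfaces and apex vertices: after deletion of at most `k` vertices MacLane's condition
holds with defect `h`, and `3 k + 2 h ≤ 66` (`k ≤ 21`) -/
def St_surf : Prop := ∀ (V E : Type) [Fintype V] [DecidableEq V] [Fintype E] [DecidableEq E]
  (src dst : E → V) (k h : ℕ), 3 * k + 2 * h ≤ 66 → k ≤ 21 → ApH k h src dst → Br src dst ∅ ∅ →
    FlowOn src dst ∅ ∅

/-- P8: few circuits after the deletion of a set `S` of vertices -/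
def St_cyc : Prop := ∀ (V E : Type) [Fintype V] [DecidableEq V] [Fintype E] [DecidableEq E]
  (src dst : E → V) (S : Finset V), Module.finrank (ZMod 2) (ZF src dst (ES src dst S)) +
    2 * S.card ≤ 63 → Br src dst ∅ ∅ → FlowOn src dst ∅ ∅

end Pool.Agent.Y335.FL
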