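import Pool.Agent.Y335.FL.Kdef
import Pool.Agent.Y335.FL.Stm

set_option autoImplicit false
set_option linter.unusedSectionVars false

/-! # Soundness of the kernel check of the certificates: statements -/

namespace Pool.Agent.Y335.FL

open Finset Pool.Agent.TH676.Z

/-- lists of `n` digits `1, 2, 3, 4` -/
def Dg (n : ℕ) (l : List ℕ) : Prop := l.length = n ∧ ∀ x ∈ l, 1 ≤ x ∧ x ≤ 4

/-- the sum over the lists of `n` digits -/
def SS {M : Type} [AddCommMonoid M] : ℕ → (List ℕ → M) → M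
  | 0, f => f []
  | n + 1, f => SS n (fun l => f (1 :: l)) + (SS n (fun l => f (2 :: l)) +
      (SS n (fun l => f (3 :: l)) + SS n (fun l => f (4 :: l))))

/-- the sum of the flagged digits -/
def fs : List Bool → List ℕ → ℕ
  | [], _ => 0
  | _ :: _, [] => 0
  | true :: fl, x :: l => x + fs fl l
  | false :: fl, _ :: l => fs fl l

/-- no sum `r + (first i digits)`, `1 ≤ i ≤ n`, is `0` modulo 5 -/
def nvis : ℕ → List ℕ → Bool
  | _, [] => true
  | r, x :: l => !(Nat.beq ((r + x) % 5) 0) && nvis ((r + x) % 5) l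

/-- K1a -/
def St_packAdd : Prop := ∀ (W n : ℕ) (G H : List ℕ → ℕ),
  pack W n (fun l => G l + H l) = pack W n G + pack W n H

/-- K1b -/
def St_packCongr : Prop := ∀ (W n : ℕ) (G H : List ℕ → ℕ), (∀ l, Dg n l → G l = H l) →
  pack W n G = pack W n H

/-- K1c -/
def St_packLt : Prop := ∀ (W n : ℕ) (G : List ℕ → ℕ), (∀ l, Dg n l → G l < 2 ^ W) →
  pack W n G < 2 ^ (W * 4 ^ n)

/-- K1d -/
def St_packInj : Prop := ∀ (W n : ℕ) (G H : List ℕ → ℕ), (∀ l, Dg n l → G l < 2 ^ W) →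
  (∀ l, Dg n l → H l < 2 ^ W) → pack W n G = pack W n H → ∀ l, Dg n l → G l = H l

/-- K1e -/
def St_packEx : Prop := ∀ (W n X : ℕ), X < 2 ^ (W * 4 ^ n) →
  ∃ G : List ℕ → ℕ, (∀ l, G l < 2 ^ W) ∧ X = pack W n G

/-- K1f -/
def St_packLand : Prop := ∀ (W n : ℕ) (G H : List ℕ → ℕ), (∀ l, Dg n l → G l < 2 ^ W) →
  (∀ l, Dg n l → H l < 2 ^ W) →
  Nat.land (pack W n G) (pack W n H) = pack W n (fun l => Nat.land (G l) (H l))

/-- K1g -/
def St_packLor : Prop := ∀ (W n : ℕ) (G H : List ℕ → ℕ), (∀ l, Dg n l → G l < 2 ^ W) →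
  (∀ l, Dg n l → H l < 2 ^ W) →
  Nat.lor (pack W n G) (pack W n H) = pack W n (fun l => Nat.lor (G l) (H l))

/-- K1h: the folded array -/
def St_fold : Prop := ∀ (W n : ℕ) (G : List ℕ → ℕ), (∀ l, Dg (n + 1) l → G l < 2 ^ W) →
  fold (W * 4 ^ n) (pack W (n + 1) G) =
    pack W n (fun l => G (1 :: l) + (G (2 :: l) + (G (3 :: l) + G (4 :: l))))

/-- K2a -/
def St_msk : Prop := ∀ (v W : ℕ) (fl : List Bool) (r : ℕ), r < 5 →
  msk v W fl r = pack W fl.length (fun l => if fs fl l % 5 = r then v else 0)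

/-- K2b -/
def St_nv : Prop := ∀ (v W n r : ℕ), r < 5 →
  nv v W n r = pack W n (fun l => if nvis r l = true then v else 0)

/-- K1i: the selected array -/
def St_sel : Prop := ∀ (W n : ℕ) (G : List ℕ → ℕ) (fl : List Bool), fl.length = n →
  (∀ l, Dg (n + 1) l → G l < 2 ^ W) →
  sel W (W * 4 ^ n) (pack W (n + 1) G) fl =
    pack W n (fun l => (if (1 + fs fl l) % 5 = 0 then G (1 :: l) else 0) +
      ((if (2 + fs fl l) % 5 = 0 then G (2 :: l) else 0) +
      ((if (3 + fs fl l) % 5 = 0 then G (3 :: l) else 0) +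
        (if (4 + fs fl l) % 5 = 0 then G (4 :: l) else 0))))

/-- the flags of the label `a` -/
def flg (us : List Bool) (q : List ℕ) (a : ℕ) : List Bool :=
  List.zipWith (fun u x => u && decide (x = a)) us q

/-- all classes of the labelling `q` of the positions with flag `us`, except the class of the
label `0`, have sum zero -/
def Zc (us : List Bool) (q l : List ℕ) : Prop := ∀ a, a ≠ 0 → fs (flg us q a) l % 5 = 0

open Classical in
/-- K3a -/
def St_chk : Prop := ∀ (W K n : ℕ) (us : List Bool) (G : List ℕ → ℕ), us.length = n →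
  SS n G < 2 ^ W → chk W K n us (pack W n G) = true → ∀ q : List ℕ, q.length = n →
    K ∣ SS n (fun l => if Zc us q l then G l else 0)

/-- the same with a first terminal with the value `1` and the label `p0` -/
def Zr (p0 : ℕ) (q l : List ℕ) : Prop :=
  ∀ a, a ≠ 0 → ((if p0 = a then 1 else 0) + fs (flg (List.replicate q.length true) q a) l) % 5 = 0

open Classical in
/-- K3b -/
def St_root : Prop := ∀ (W K n j : ℕ) (G : List ℕ → ℕ), j ≤ n → SS n G < 2 ^ W →
  root0 W K n (pack W n G) = true →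
  (∀ P : List Bool, P.length = j → rootP W K n P (pack W n G) = true) →
  ∀ (p0 : ℕ) (q : List ℕ), q.length = n → K ∣ SS n (fun l => if Zr p0 q l then G l else 0)

/-- K4 -/
def St_scan : Prop := ∀ (W b n Y : ℕ), b + 1 ≤ W → scan W b n Y = true →
  ∃ y : List ℕ → ℕ, Y = pack W n y ∧ (∀ l, Dg n l → y l < 2 ^ (b + 1)) ∧
    (∀ l, Dg n l → (1 + l.sum) % 5 = 0 → y l = 0) ∧
    (∀ l, Dg n l → (1 + l.sum) % 5 ≠ 0 → nvis 4 l = false → nvis 3 l = false →
      nvis 2 l = false → 2 ^ b ≤ y l)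

/-- the boundary `1, l, - 1 - (sum of l)` -/
def vec (n : ℕ) (l : List ℕ) : Fin (n + 2) → ZMod 5 :=
  fun i => if i.val = 0 then 1 else if i.val = n + 1 then - (1 + (l.sum : ZMod 5))
    else ((l.getD (i.val - 1) 0 : ℕ) : ZMod 5)

/-- a certificate -/
def Cert (n : ℕ) : Prop := ∃ c : List ℕ → ℤ,
  (∀ l, Dg n l → (1 + l.sum) % 5 ≠ 0 → nvis 4 l = false → nvis 3 l = false →
      nvis 2 l = false → 0 < c l) ∧
  ∀ p : Fin (n + 2) → Fin (n + 2),
    SS n (fun l => if (1 + l.sum) % 5 ≠ 0 ∧ zs p (vec n l) then c l else 0) = 0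

/-- K5: from the checks to a certificate -/
def St_cert : Prop := ∀ (W K b n j Y : ℕ), b + 1 ≤ W → j ≤ n → 4 ^ n * 2 ^ b < K →
  4 ^ n * (K + 2 ^ b) < 2 ^ W → scan W b n Y = true → root0 W K n (shf W K b n Y) = true →
  (∀ P : List Bool, P.length = j → rootP W K n P (shf W K b n Y) = true) → Cert n

/-- K6: from a certificate to the theorem -/
def St_certCore : Prop := ∀ n : ℕ, Cert n → Core (n + 2)

end Pool.Agent.Y335.FL
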