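import Pool.Agent.Y335.FL.Stm

set_option autoImplicit false
set_option linter.unusedSectionVars false

/-! # Consequences of girth twelve: statements

The Moore bound for irregular graphs (Alon, Hoory, Linial), boundaries of vertex sets of size
`25, ..., 48`, treewidth, order. -/

namespace Pool.Agent.Y335.FL

open Finset Pool.Agent.TH676.Z

/-- Q1: the Moore bound for irregular graphs with minimum degree two and girth at least twelve -/
def St_ahl : Prop := ∀ (V : Type) [Fintype V] [DecidableEq V] [Nonempty V] (G : SimpleGraph V)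
  [DecidableRel G.Adj], (∀ v, 2 ≤ G.degree v) → Girth G.Adj 12 →
    2 * ∑ i ∈ range 6, (2 * (G.edgeFinset.card : ℝ) / Fintype.card V - 1) ^ i ≤ Fintype.card V

/-- Q2: at most 66 vertices and cyclomatic number `c ≥ 5`: `n ≥ 2 c + 17` -/
def St_ex17 : Prop := ∀ (V : Type) [Fintype V] [DecidableEq V] (G : SimpleGraph V)
  [DecidableRel G.Adj], (∀ v, 2 ≤ G.degree v) → Girth G.Adj 12 → Fintype.card V ≤ 66 →
    Fintype.card V + 4 ≤ G.edgeFinset.card → 2 * G.edgeFinset.card + 19 ≤ 3 * Fintype.card V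

/-- Q3: vertex sets with 25 to 48 elements and degrees at least three have at least 19 outer
neighbours -/
def St_iso : Prop := ∀ (V : Type) [Fintype V] [DecidableEq V] (G : SimpleGraph V)
  [DecidableRel G.Adj], Girth G.Adj 12 → ∀ U : Finset V, (∀ v ∈ U, 3 ≤ G.degree v) →
    25 ≤ U.card → U.card ≤ 48 →
    19 ≤ (univ.filter (fun v => v ∉ U ∧ ∃ x ∈ U, G.Adj x v)).card

/-- Q4: treewidth at least 18 -/
def St_tw : Prop := ∀ (V : Type) [Fintype V] [DecidableEq V] (Ad : V → V → Prop)
  (In : Finset V → Prop), (∀ a b, Ad a b → Ad b a) → (∀ a, ¬ Ad a a) → Girth Ad 12 → Three Ad →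
    Bags Ad 18 In → ∀ x y, ¬ Ad x y

/-- Q5: the order of a graph with girth twelve -/
def St_moore : Prop := ∀ (V : Type) [Fintype V] [DecidableEq V] (Ad : V → V → Prop)
  [DecidableRel Ad], (∀ a b, Ad a b → Ad b a) → (∀ a, ¬ Ad a a) → Girth Ad 12 → Three Ad →
    (∃ x y, Ad x y) → 126 ≤ (univ.filter (fun v => ∃ y, Ad v y)).card

/-- the number of ends of proper edges at `x` -/
def dg {V E : Type} [Fintype V] [DecidableEq V] [Fintype E] [DecidableEq E] (src dst : E → V)
    (x : V) : ℕ := (univ.filter (fun e => src e ≠ dst e ∧ (src e = x ∨ dst e = x))).card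

/-- Q6: at most 125 vertices of degree at least three -/
def St_order : Prop := ∀ (V E : Type) [Fintype V] [DecidableEq V] [Fintype E] [DecidableEq E]
  (src dst : E → V), (univ.filter (fun x => 3 ≤ dg src dst x)).card ≤ 125 → Br src dst ∅ ∅ →
    FlowOn src dst ∅ ∅

/-- Q7: the quotient by the components of `F` -/
def St_quot : Prop := ∀ (V E : Type) [Fintype V] [DecidableEq V] [Fintype E] [DecidableEq E]
  (src dst : E → V) (F : Finset E), ∃ (W : Type) (_ : Fintype W) (_ : DecidableEq W) (r : V → W),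
    Function.Surjective r ∧ (∀ e ∈ F, r (src e) = r (dst e)) ∧
    (∀ X, FlowOn (r ∘ src) (r ∘ dst) ∅ X → FlowOn src dst ∅ (F ∪ X)) ∧
    ∀ Y : Finset V, Disjoint (crs src dst Y) F → ∀ x y, r x = r y → (x ∈ Y ↔ y ∈ Y)

end Pool.Agent.Y335.FL
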