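import Pool.Agent.Y335.FL.Stm2
import Pool.Agent.H222F.Local

set_option autoImplicit false
set_option linter.unusedSectionVars false

/-! # Cycles with at most eleven new edges and local conditions for 3-edge-cuts: statement -/

namespace Pool.Agent.Y335.FL

open Finset Pool.Agent.TH676.Z

/-- Q8: cycles with at most eleven edges outside the union `F` of the earlier ones; every edge cut
avoiding `F` has at least three edges, and those with three edges have a private edge (or two
edges), with at most ten exceptions -/
def St_local : Prop := ∀ (V E : Type) [Fintype V] [DecidableEq V] [Fintype E] [DecidableEq E]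
  (src dst : E → V) (m : ℕ) (C : Fin m → Finset E),
    (∀ i, ∃ z : E → ZMod 5, (∀ v, bd src dst z v = 0) ∧ (∀ e, z e = 0 ∨ z e = 1 ∨ z e = -1) ∧
      ∀ e, z e ≠ 0 ↔ e ∈ C i) →
    (∀ i, (C i \ (univ.filter (fun j => j < i)).biUnion C).card ≤ 11) →
    (∀ X : Finset V, X.Nonempty → X ≠ univ → Disjoint (crs src dst X) (univ.biUnion C) →
      3 ≤ (crs src dst X).card) →
    (∀ X : Fin 11 → Finset V, (∀ i j, i ≠ j → Disjoint (X i) (X j)) →
      (∀ i, (crs src dst (X i)).card = 3 ∧ Disjoint (crs src dst (X i)) (univ.biUnion C)) →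
      ∃ i, Pool.Agent.H222F.Sat src dst (univ.biUnion C) (X i)) →
    FlowOn src dst ∅ ∅

end Pool.Agent.Y335.FL
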