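import Pool.Agent.Y335.FL.E11
import Pool.Agent.Y335.FL.Kmerge
import Pool.Agent.Y335.FL.T11X26

set_option autoImplicit false
set_option maxRecDepth 100000

/-! # Kernel check for circuits of length 11, part 28 -/

namespace Pool.Agent.Y335.FL

theorem t11x_580 :
    rootP 60 2199023255553 9 [false, true, false, true, false, true, true] X11 = true := by
  decide +kernel

theorem t11x_588 :
    rootP 60 2199023255553 9 [false, true, false, true, true, false, true] X11 = true := by
  decide +kernel

theorem t11x_590 :
    rootP 60 2199023255553 9 [false, true, false, true, true, true, false] X11 = true := by
  decide +kernel

theorem t11x_780 :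
    selP 60 2199023255553 8 [true, true, true] [false, true, false, false, false] [true, false, true, true, true] X11 = true := by
  decide +kernel

theorem t11x_621 :
    rootP 60 2199023255553 9 [false, true, true, false, false, true, true] X11 = true := by
  decide +kernel

theorem scan11 :
    scan 60 23 9 (Nat.sub X11 (vmk 2199014866946 60 9)) = true := by
  decide +kernel

end Pool.Agent.Y335.FL
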