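import Pool.Agent.Y335.FL.E11
import Pool.Agent.Y335.FL.Kmerge
import Pool.Agent.Y335.FL.T11X36

set_option autoImplicit false
set_option maxRecDepth 100000

/-! # Kernel check for circuits of length 11, part 38 -/

namespace Pool.Agent.Y335.FL

theorem t11x_731 :
    rootP 60 2199023255553 9 [true, true, false, true, false, true] X11 = true := by
  decide +kernel

theorem t11x_330 :
    selP 60 2199023255553 8 [true, true, true, true, false] [false, false, false] [true, false, true] (Nat.land X11 (msk (Nat.sub (Nat.pow 2 60) 1) 60 [false, false, true, false, false, false, false, false, true] 4)) = true := by
  decide +kernel

theorem t11x_340 :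
    selP 60 2199023255553 8 [true, true, true, false, true] [false, false, false] [true, false, true] (Nat.land X11 (msk (Nat.sub (Nat.pow 2 60) 1) 60 [false, false, true, false, false, false, false, true, false] 4)) = true := by
  decide +kernel

theorem t11x_352 :
    selP 60 2199023255553 8 [true, true, false, true, true] [false, false, false] [true, false, true] (Nat.land X11 (msk (Nat.sub (Nat.pow 2 60) 1) 60 [false, false, true, false, false, false, true, false, false] 4)) = true := by
  decide +kernel

theorem t11x_368 :
    selP 60 2199023255553 8 [true, false, true, true, true] [false, false, false] [true, false, true] (Nat.land X11 (msk (Nat.sub (Nat.pow 2 60) 1) 60 [false, false, true, false, false, true, false, false, false] 4)) = true := by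
  decide +kernel

theorem t11x_665 :
    rootP 60 2199023255553 9 [true, false, false, false, false, false, false, true] X11 = true := by
  decide +kernel

end Pool.Agent.Y335.FL
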