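import Pool.Agent.Y335.FL.E11
import Pool.Agent.Y335.FL.Kmerge
import Pool.Agent.Y335.FL.T11X46

set_option autoImplicit false
set_option maxRecDepth 100000

/-! # Kernel check for circuits of length 11, part 48 -/

namespace Pool.Agent.Y335.FL

theorem t11x_298 :
    rootP 60 2199023255553 9 [false, false, false, true, true, false, true, true] X11 = true := by
  decide +kernel

theorem t11x_304 :
    rootP 60 2199023255553 9 [false, false, false, true, true, true, false, true] X11 = true := by
  decide +kernel

theorem t11x_385 :
    rootP 60 2199023255553 9 [false, false, true, false, false, true, true, true] X11 = true := by
  decide +kernel

theorem t11x_407 :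
    rootP 60 2199023255553 9 [false, false, true, false, true, false, true, true] X11 = true := by
  decide +kernel

theorem t11x_413 :
    rootP 60 2199023255553 9 [false, false, true, false, true, true, false, true] X11 = true := by
  decide +kernel

theorem t11x_438 :
    rootP 60 2199023255553 9 [false, false, true, true, false, false, true, true] X11 = true := by
  decide +kernel

theorem t11x_444 :
    rootP 60 2199023255553 9 [false, false, true, true, false, true, false, true] X11 = true := by
  decide +kernel

end Pool.Agent.Y335.FL
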